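import Mathlib

/-!
# Project AN: statement of one leaf
-/

set_option autoImplicit false

namespace Pool.Agent.N637.SLM

/-- AN-CNT. A finite set of squarefree positive integers closed under `(d, e) ↦ d e / (d, e)²`: the elements which
are squares in `ℚ_2` and in `ℚ_3` are at least one part in `144`. -/
def S_CNT144 : Prop := ∀ D : Set ℕ, D.Finite → (∀ d ∈ D, Squarefree d) →
  (∀ d ∈ D, ∀ e ∈ D, ∃ k ∈ D, d * e = (d.gcd e) ^ 2 * k) →
  D.ncard ≤ 144 * {d ∈ D | IsSquare ((d : ℕ) : ℚ_[2]) ∧ IsSquare ((d : ℕ) : ℚ_[3])}.ncard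

end Pool.Agent.N637.SLM
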