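import Pool.Agent.N637.SLM.AR3
import Pool.Agent.Y105.RZ.Goods
import Pool.Agent.W410.FK.FINH

/-!
# Project SLA: the 4-rank of all imaginary quadratic fields is bounded by a 2-Selmer group
-/

set_option autoImplicit false
set_option linter.all false

open Filter Topology Finset

namespace Pool.Agent.N637.SLM.AN

open scoped Classical

open Pool.Agent.W307.SE (Loc Sel SN SN_nonneg sel_fin)
open Pool.Agent.TH841.SH (LocC pt_real pt_pad)
open Pool.Agent.N637.SLM (Cw)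
open Pool.Agent.N637.SLM.LT (tors_loc)
open Pool.Agent.N637.SLM.JL (Nm Dn FundNeg)

section pad

variable {p : ℕ} [hp : Fact p.Prime]

/-- the norm of a sum of a square and `n` times a square -/
lemma sq_or {n : ℕ} (hp2 : p ≠ 2) (h1 : p ∣ n) (h2 : ¬ p ^ 2 ∣ n) {d : ℚ_[p]} (hd : d ≠ 0)
    (h : ∃ x y : ℚ_[p], d = x ^ 2 + n * y ^ 2) : IsSquare d ∨ IsSquare (d * n) := by
  obtain ⟨x, y, hxy⟩ := h
  obtain ⟨k, rfl⟩ := h1
  have hk : ¬ p ∣ k := fun ⟨l, hl⟩ => h2 ⟨l, by rw [hl]; ring⟩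
  have hk0 : k ≠ 0 := by
    rintro rfl
    exact hk (dvd_zero _)
  have hp0 : (p : ℚ_[p]) ≠ 0 := by exact_mod_cast hp.out.ne_zero
  have hkq : (k : ℚ_[p]) ≠ 0 := by exact_mod_cast hk0
  have hnq : ((p * k : ℕ) : ℚ_[p]) ≠ 0 := by
    push_cast
    exact mul_ne_zero hp0 hkq
  have hnk : ‖(k : ℚ_[p])‖ = 1 := by
    rw [Padic.norm_natCast_eq_one_iff]
    exact (Nat.Prime.coprime_iff_not_dvd hp.out).2 hk
  have hn : ‖((p * k : ℕ) : ℚ_[p])‖ = (p : ℝ)⁻¹ := by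
    push_cast
    rw [norm_mul, Padic.norm_p, hnk, mul_one]
  by_cases hx : x = 0
  · right
    refine ⟨(p * k : ℕ) * y, ?_⟩
    rw [hxy, hx]
    ring
  by_cases hy : y = 0
  · left
    refine ⟨x, ?_⟩
    rw [hxy, hy]
    ring
  have hp1 : (1 : ℝ) < p := by exact_mod_cast hp.out.one_lt
  have hne : ‖x ^ 2‖ ≠ ‖((p * k : ℕ) : ℚ_[p]) * y ^ 2‖ := by
    rw [norm_mul, hn, norm_pow, norm_pow, Padic.norm_eq_zpow_neg_valuation hx,
      Padic.norm_eq_zpow_neg_valuation hy]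
    intro h3
    have h4 : ((p : ℝ) ^ (-x.valuation)) ^ 2 = (p : ℝ) ^ (-(2 * x.valuation)) := by
      rw [← zpow_natCast, ← zpow_mul]
      congr 1
      push_cast
      ring
    have h5 : (p : ℝ)⁻¹ * ((p : ℝ) ^ (-y.valuation)) ^ 2 = (p : ℝ) ^ (-(1 + 2 * y.valuation)) := by
      rw [← zpow_natCast, ← zpow_mul, ← zpow_neg_one, ← zpow_add₀ (by positivity)]
      congr 1
      push_cast
      ring
    rw [h4, h5] at h3
    have h6 := zpow_right_injective₀ (by positivity) hp1.ne' h3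
    omega
  rcases lt_or_gt_of_ne hne with h3 | h3
  · right
    have h4 : ‖x ^ 2 / (((p * k : ℕ) : ℚ_[p]) * y ^ 2)‖ < 1 := by
      rw [norm_div]
      exact (div_lt_one (norm_pos_iff.2 (mul_ne_zero hnq (pow_ne_zero 2 hy)))).2 h3
    have h5 := Pool.Agent.W22.RK.isSquare_one_add hp2 _ h4
    have e : d * ((p * k : ℕ) : ℚ_[p]) = ((p * k : ℕ) * y) * ((p * k : ℕ) * y) *
        (1 + x ^ 2 / (((p * k : ℕ) : ℚ_[p]) * y ^ 2)) := by
      rw [hxy]
      field_simp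
      ring
    rw [e]
    exact (IsSquare.mul_self _).mul h5
  · left
    have h4 : ‖(((p * k : ℕ) : ℚ_[p]) * y ^ 2) / x ^ 2‖ < 1 := by
      rw [norm_div]
      exact (div_lt_one (norm_pos_iff.2 (pow_ne_zero 2 hx))).2 h3
    have h5 := Pool.Agent.W22.RK.isSquare_one_add hp2 _ h4
    have e : d = x * x * (1 + (((p * k : ℕ) : ℚ_[p]) * y ^ 2) / x ^ 2) := by
      rw [hxy]
      field_simp
    rw [e]
    exact (IsSquare.mul_self _).mul h5

end pad

/-- the norms form a group -/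
lemma nm_sd {p : ℕ} {b : ℤ} {d e k g : ℤ} (hg : g ≠ 0) (h : d * e = g ^ 2 * k) (h1 : Nm p d b)
    (h2 : Nm p e b) : Nm p k b := by
  intro hp
  obtain ⟨x, y, h3⟩ := h1
  obtain ⟨x', y', h4⟩ := h2
  have hgq : (g : ℚ_[p]) ≠ 0 := by exact_mod_cast hg
  have h5 : (d : ℚ_[p]) * e = g ^ 2 * k := by exact_mod_cast h
  refine ⟨(x * x' + b * y * y') / g, (x * y' + x' * y) / g, ?_⟩
  have h6 : (k : ℚ_[p]) = (d : ℚ_[p]) * e / g ^ 2 := by
    rw [h5]
    field_simp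
  rw [h6, h3, h4]
  field_simp
  ring

/-- the symmetric difference -/
lemma dn_sd {n d e : ℕ} (hd : Dn n d) (he : Dn n e) :
    ∃ k : ℕ, Dn n k ∧ d * e = (d.gcd e) ^ 2 * k := by
  obtain ⟨d1, d2, d3⟩ := hd
  obtain ⟨e1, e2, e3⟩ := he
  have hg0 : 0 < d.gcd e := Nat.gcd_pos_of_pos_left _ d1.ne_zero.bot_lt
  obtain ⟨a, ha⟩ := Nat.gcd_dvd_left d e
  obtain ⟨b, hb⟩ := Nat.gcd_dvd_right d e
  have hcop : Nat.Coprime a b := by
    have h := Nat.coprime_div_gcd_div_gcd hg0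
    have h1 : d / d.gcd e = a := Nat.div_eq_of_eq_mul_right hg0 ha
    have h2 : e / d.gcd e = b := Nat.div_eq_of_eq_mul_right hg0 hb
    rwa [h1, h2] at h
  have hda : a ∣ d := ⟨d.gcd e, by rw [mul_comm]; exact ha⟩
  have heb : b ∣ e := ⟨d.gcd e, by rw [mul_comm]; exact hb⟩
  have hmul : d * e = (d.gcd e) ^ 2 * (a * b) := by
    calc d * e = (d.gcd e * a) * (d.gcd e * b) := by rw [← ha, ← hb]
      _ = _ := by ring
  refine ⟨a * b, ⟨?_, ?_, fun p h1 h2 h3 => ?_⟩, hmul⟩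
  · exact (Nat.squarefree_mul_iff).2 ⟨hcop, d1.squarefree_of_dvd hda, e1.squarefree_of_dvd heb⟩
  · exact hcop.mul_dvd_of_dvd_of_dvd (hda.trans d2) (heb.trans e2)
  · refine nm_sd (g := (d.gcd e : ℤ)) (by exact_mod_cast hg0.ne') ?_ (d3 p h1 h2 h3) (e3 p h1 h2 h3)
    exact_mod_cast hmul

end Pool.Agent.N637.SLM.AN
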