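import Pool.Agent.N637.SLM.AN1
import Pool.Agent.N637.SLM.Stm6

/-!
# Project AN: norms give Selmer classes of the twists of `y² = x (x - 1) (x + 3)`
-/

set_option autoImplicit false
set_option linter.all false

open Filter Topology Finset

namespace Pool.Agent.N637.SLM.AN

open scoped Classical

open Pool.Agent.W307.SE (Loc Sel SN SN_nonneg sel_fin)
open Pool.Agent.TH841.SH (LocC pt_real pt_pad)
open Pool.Agent.N637.SLM (Cw)
open Pool.Agent.N637.SLM.LT (tors_loc)
open Pool.Agent.N637.SLM.JL (Nm Dn FundNeg)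

lemma cw12 : Cw 1 2 := ⟨by norm_num, by norm_num, by norm_num, isCoprime_one_left⟩

lemma loc_of {K : Type} [Field K] {M : ℤ} {d1 d2 : ℤ}
    (h : LocC K 0 (1 ^ 2 * M) (-(2 ^ 2 - 1 ^ 2) * M) d1 d2) : Loc K M (-3 * M) d1 d2 := by
  obtain ⟨x, y, hy, h1, h2, h3⟩ := h
  refine ⟨x, y, hy, ?_, ?_, ?_⟩
  · rw [h1]
    push_cast
    ring
  · have e : (x - ((0 : ℤ) : K)) * d1 = x * d1 := by
      push_cast
      ring
    rwa [e] at h2
  · have e : (x - ((1 ^ 2 * M : ℤ) : K)) * d2 = (x - M) * d2 := by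
      push_cast
      ring
    rwa [e] at h3

/-- the local condition of the pair `(d, 1)` -/
lemma loc_sq {K : Type} [Field K] [CharZero K] {M : ℤ} (hM : M ≠ 0)
    (h0 : ∃ x y : K, y ≠ 0 ∧ y ^ 2 = (x - ((0 : ℤ) : K)) * (x - ((1 ^ 2 * M : ℤ) : K)) *
      (x - ((-(2 ^ 2 - 1 ^ 2) * M : ℤ) : K)) ∧
      IsSquare (x - ((0 : ℤ) : K)) ∧ IsSquare (x - ((1 ^ 2 * M : ℤ) : K)) ∧
      IsSquare (x - ((-(2 ^ 2 - 1 ^ 2) * M : ℤ) : K))) (d : ℤ)
    (h : IsSquare (d : K) ∨ IsSquare ((d : K) * M)) : Loc K M (-3 * M) d 1 := by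
  obtain ⟨x, y, hy, h1, h2, h3, h4⟩ := h0
  refine loc_of (tors_loc hM cw12 ⟨x, y, hy, ?_, ?_, ?_, ?_⟩ d 1 (Or.inl ⟨?_, h⟩))
  · rw [h1]
    push_cast
    ring
  · have e : x - ((0 : ℤ) : K) = x := by
      push_cast
      ring
    rwa [e] at h2
  · have e : x - ((1 ^ 2 * M : ℤ) : K) = x - ((1 : ℤ) : K) ^ 2 * M := by
      push_cast
      ring
    rwa [e] at h3
  · have e : x - ((-(2 ^ 2 - 1 ^ 2) * M : ℤ) : K) =
        x + (((2 : ℤ) : K) ^ 2 - ((1 : ℤ) : K) ^ 2) * M := by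
      push_cast
      ring
    rwa [e] at h4
  · rw [Int.cast_one]
    exact IsSquare.one

/-- norms give Selmer classes -/
lemma dn_sel {n M : ℕ} (hM : Squarefree M) (hn : n = M ∨ n = 4 * M) {d : ℕ} (hd : Dn n d)
    (h2 : IsSquare ((d : ℕ) : ℚ_[2])) (h3 : IsSquare ((d : ℕ) : ℚ_[3])) :
    ((d : ℤ), (1 : ℤ)) ∈ Sel (M : ℤ) (-3 * (M : ℤ)) := by
  obtain ⟨d1, d2, d3⟩ := hd
  have hM0 : (M : ℤ) ≠ 0 := by exact_mod_cast hM.ne_zero
  have hd0 : d ≠ 0 := d1.ne_zero
  refine ⟨Int.squarefree_natCast.2 d1, squarefree_one, ?_, fun p hp => ?_⟩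
  · refine loc_sq hM0 (pt_real _ _ _) _ (Or.inl ?_)
    have : (0 : ℝ) ≤ ((d : ℤ) : ℝ) := by
      rw [Int.cast_natCast]
      exact Nat.cast_nonneg d
    exact ⟨Real.sqrt _, (Real.mul_self_sqrt this).symm⟩
  · show Loc ℚ_[p] (M : ℤ) (-3 * (M : ℤ)) (d : ℤ) 1
    by_cases p2 : p = 2
    · subst p2
      refine loc_sq hM0 (pt_pad _ _ _ _) _ (Or.inl ?_)
      rw [Int.cast_natCast]
      exact h2
    by_cases p3 : p = 3
    · subst p3
      refine loc_sq hM0 (pt_pad _ _ _ _) _ (Or.inl ?_)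
      rw [Int.cast_natCast]
      exact h3
    by_cases hpM : p ∣ M
    · refine loc_sq hM0 (pt_pad _ _ _ _) _ ?_
      have hpn : p ∣ n := by
        rcases hn with rfl | rfl
        · exact hpM
        · exact hpM.mul_left 4
      have hcop : Nat.Coprime (p ^ 2) 4 := by
        have h4 : Nat.Coprime p 2 := (Nat.coprime_primes hp.out Nat.prime_two).2 p2
        have h5 : Nat.Coprime (p ^ 2) (2 ^ 2) := Nat.Coprime.pow 2 2 h4
        exact h5
      have hpn2 : ¬ p ^ 2 ∣ n := by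
        intro h
        have h4 : p ^ 2 ∣ M := by
          rcases hn with rfl | rfl
          · exact h
          · exact hcop.dvd_of_dvd_mul_left h
        have h5 := hM p (by rwa [← pow_two])
        exact hp.out.one_lt.ne' (Nat.isUnit_iff.1 h5)
      obtain ⟨x, y, hxy⟩ := d3 p hp.out p2 hpn
      have hq : ∃ x y : ℚ_[p], ((d : ℕ) : ℚ_[p]) = x ^ 2 + n * y ^ 2 := by
        refine ⟨x, y, ?_⟩
        push_cast at hxy
        rw [hxy]
        ring
      rcases sq_or p2 hpn hpn2 (by exact_mod_cast hd0) hq with h4 | h4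
      · left
        rw [Int.cast_natCast]
        exact h4
      · right
        rw [Int.cast_natCast, Int.cast_natCast]
        rcases hn with rfl | rfl
        · exact h4
        · obtain ⟨s, hs⟩ := h4
          refine ⟨s / 2, ?_⟩
          push_cast at hs
          field_simp
          linear_combination hs
    · have hpd : ¬ p ∣ d := by
        intro h
        have h4 : p ∣ n := h.trans d2
        rcases hn with rfl | rfl
        · exact hpM h4
        · rcases (Nat.Prime.dvd_mul hp.out).1 h4 with h5 | h5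
          · have h6 : p ∣ 2 := hp.out.dvd_of_dvd_pow (show p ∣ 2 ^ 2 by exact h5)
            exact p2 ((Nat.prime_dvd_prime_iff_eq hp.out Nat.prime_two).1 h6)
          · exact hpM h5
      have hpp : Prime (p : ℤ) := Nat.prime_iff_prime_int.1 hp.out
      have hp2' : ¬ (p : ℤ) ∣ 2 := by
        intro h
        exact p2 ((Nat.prime_dvd_prime_iff_eq hp.out Nat.prime_two).1 (by exact_mod_cast h))
      have hp3' : ¬ (p : ℤ) ∣ 3 := by
        intro h
        exact p3 ((Nat.prime_dvd_prime_iff_eq hp.out Nat.prime_three).1 (by exact_mod_cast h))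
      have hpM' : ¬ (p : ℤ) ∣ (M : ℤ) := by
        intro h
        exact hpM (by exact_mod_cast h)
      refine Pool.Agent.Y105.RZ.GOODS p (M : ℤ) (-3 * (M : ℤ)) (d : ℤ) 1 ?_ ?_ ?_
      · intro h
        have e : 2 * (M : ℤ) * (-3 * (M : ℤ)) * ((M : ℤ) - (-3 * (M : ℤ))) =
            -(2 * 2 * 2 * 3 * M * M * M) := by ring
        rw [e, dvd_neg] at h
        rcases hpp.dvd_or_dvd h with h | h
        · rcases hpp.dvd_or_dvd h with h | h
          · rcases hpp.dvd_or_dvd h with h | h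
            · rcases hpp.dvd_or_dvd h with h | h
              · rcases hpp.dvd_or_dvd h with h | h
                · rcases hpp.dvd_or_dvd h with h | h
                  · exact hp2' h
                  · exact hp2' h
                · exact hp2' h
              · exact hp3' h
            · exact hpM' h
          · exact hpM' h
        · exact hpM' h
      · intro h
        exact hpd (by exact_mod_cast h)
      · intro h
        exact hpp.not_dvd_one h

/-- the size of the group of norms -/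
lemma dn_le (hC : S_CNT144) {n M : ℕ} (hM : Squarefree M) (hn : n = M ∨ n = 4 * M) :
    (Nat.card {d : ℕ // Dn n d} : ℝ) ≤ 144 * SN (M : ℤ) (-3 * (M : ℤ)) := by
  have hn0 : n ≠ 0 := by
    have := hM.ne_zero
    rcases hn with rfl | rfl <;> omega
  have hfin : {d : ℕ | Dn n d}.Finite :=
    (Nat.divisors n).finite_toSet.subset fun d hd => by
      rw [Finset.mem_coe, Nat.mem_divisors]
      exact ⟨hd.2.1, hn0⟩
  have h1 := hC {d : ℕ | Dn n d} hfin (fun d hd => hd.1) (fun d hd e he => by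
    obtain ⟨k, h3, h4⟩ := dn_sd hd he
    exact ⟨k, h3, h4⟩)
  have hM0 : (M : ℤ) ≠ 0 := by exact_mod_cast hM.ne_zero
  have hMpos : (0 : ℤ) < M := by
    have := hM.ne_zero
    omega
  have hsel : (Sel (M : ℤ) (-3 * (M : ℤ))).Finite :=
    sel_fin Pool.Agent.W410.FK.seld hM0 (by omega) (by omega)
  have h2 : {d ∈ {d : ℕ | Dn n d} | IsSquare ((d : ℕ) : ℚ_[2]) ∧ IsSquare ((d : ℕ) : ℚ_[3])}.ncard ≤
      (Sel (M : ℤ) (-3 * (M : ℤ))).ncard := by
    refine Set.ncard_le_ncard_of_injOn (fun d : ℕ => (((d : ℤ), (1 : ℤ)) : ℤ × ℤ))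
      (fun d hd => dn_sel hM hn hd.1 hd.2.1 hd.2.2) (fun d _ e _ h => ?_) hsel
    have h5 : ((d : ℤ)) = (e : ℤ) := congrArg Prod.fst h
    exact_mod_cast h5
  have h3 : Nat.card {d : ℕ // Dn n d} = {d : ℕ | Dn n d}.ncard := rfl
  rw [h3]
  unfold SN
  calc (({d : ℕ | Dn n d}.ncard : ℕ) : ℝ) ≤ ((144 * (Sel (M : ℤ) (-3 * (M : ℤ))).ncard : ℕ) : ℝ) := by
        exact_mod_cast h1.trans (Nat.mul_le_mul_left _ h2)
    _ = _ := by push_cast; rfl

end Pool.Agent.N637.SLM.AN
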