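import Pool.Agent.N637.SLM.AN2

/-!
# Project AN: the averages over all negative fundamental discriminants
-/

set_option autoImplicit false
set_option linter.all false

open NumberField Filter Topology Finset

namespace Pool.Agent.N637.SLM.AN

open scoped Classical

open Pool.Agent.W307.SE (Loc Sel SN SN_nonneg sel_fin)
open Pool.Agent.N637.SLM.JL
open Pool.Agent.N637.SLM.AR
open Pool.Agent.N637.SLM.MB (adm_int)
open Pool.Agent.N637.SLM (S_AVL S_FKM fkl S_CNT144 ex_num main_rk4)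
open Pool.Agent.N637.SLK (GnF lawF mm ty_of)
open Pool.Agent.N916.TE (FD)

/-- `-n` is a fundamental discriminant and not `-4` -/
def All (n : ℕ) : Prop := FundNeg n ∧ n ≠ 4

lemma mm_ne {n : ℕ} (h : All n) : mm n ≠ -1 := by
  obtain ⟨h1, h2⟩ := h
  unfold mm
  rcases h1 with ⟨-, h3⟩ | ⟨k, h3, -, h4⟩
  · rw [if_pos (by omega)]
    omega
  · rw [if_neg (by omega)]
    omega

/-- the 4-rank of all the imaginary quadratic fields -/
theorem four (H : Hyps) {n : ℕ} (h : All n) :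
    (∀ (K : Type) [Field K] [NumberField K], IsQuad n K → FourRank K (R4 n)) ∧
      Nat.card {d : ℕ // Dn n d} = 2 ^ (R4 n + 1) ∧ ∀ r' : ℕ, GnF el0 e0 r' j0 n ↔ R4 n = r' := by
  have hm := mm_ne h
  obtain ⟨hF, -⟩ := h
  obtain ⟨t, r, s, S, hT, hn, hG⟩ := ty_of hF
  obtain ⟨x, hx, -⟩ := ex_num hT hm
  obtain ⟨e1, -⟩ := H.hil t r s S (mm n) n hT hn
  have h1 : ∀ (K : Type) [Field K] [NumberField K], IsQuad n K → FourRank K x :=
    fun K _ _ hQ => main_rk4 H.ha hT hm K hQ.1 hQ.2 hx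
  have hR : R4 n = x := R4_eq hF h1
  rw [hR]
  refine ⟨h1, ?_, fun r' => ?_⟩
  · rw [← hx]
    exact e1
  · rw [hG]
    unfold Pool.Agent.N637.SLK.GjF
    rw [Pool.Agent.N637.SLK.crit_gen]
    constructor
    · rintro ⟨h2, -⟩
      have e3 : 2 ^ (x + 1) = 2 ^ (r' + 1) := hx.symm.trans h2
      have := Nat.pow_right_injective (le_refl 2) e3
      omega
    · rintro rfl
      exact ⟨hx, fun i => i.elim0⟩

/-- the index of the twist -/
def ix (n : ℕ) : ℕ := if n % 2 = 1 then n else n / 4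

lemma R_le (H : Hyps) (hC : S_CNT144) {n : ℕ} (h : All n) :
    (2 : ℝ) ^ R4 n ≤ 72 * SN (ix n : ℤ) (-3 * (ix n : ℤ)) := by
  have h1 : Squarefree (ix n) ∧ (n = ix n ∨ n = 4 * ix n) := by
    unfold ix
    rcases h.1 with ⟨h2, h3⟩ | ⟨k, h3, h4, h5⟩
    · rw [if_pos (by omega)]
      exact ⟨h2, Or.inl rfl⟩
    · rw [if_neg (by omega)]
      have : n / 4 = k := by omega
      rw [this]
      exact ⟨h4, Or.inr h3⟩
  have h2 := dn_le hC h1.1 h1.2
  rw [(four H h).2.1] at h2
  push_cast at h2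
  rw [pow_succ] at h2
  linarith

/-- the moments of the Selmer groups are bounded -/
theorem t_MB3 (K : ℕ) : ∃ C : ℝ, 0 ≤ C ∧ ∀ M : ℕ,
    ∑ t ∈ Icc 1 M, (SN (t : ℤ) (-3 * (t : ℤ))) ^ K ≤ C * M := by
  obtain ⟨C, hC0, hC⟩ := Pool.Agent.N870.SQ.snA_sq ![1, -3, 4]
    (by
      intro k
      fin_cases k
      · show (1 : ℤ) ≠ 0
        norm_num
      · show (-3 : ℤ) ≠ 0
        norm_num
      · show (4 : ℤ) ≠ 0
        norm_num)
    (by show (1 : ℤ) - (-3) = 4; norm_num) Polynomial.X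
    (by
      have e : Pool.Agent.TH841.PT.mQ Polynomial.X = (Polynomial.X : Polynomial ℚ) := by
        unfold Pool.Agent.TH841.PT.mQ
        rw [Polynomial.map_X]
      rw [e]
      exact Polynomial.irreducible_X.squarefree) K 1
  obtain ⟨C1, hC1⟩ : ∃ C1 : ℝ, C1 = (SN ((1 : ℕ) : ℤ) (-3 * ((1 : ℕ) : ℤ))) ^ K := ⟨_, rfl⟩
  have hC10 : 0 ≤ C1 := by
    rw [hC1]
    exact pow_nonneg (SN_nonneg _ _) _
  refine ⟨C + C1, add_nonneg hC0 hC10, fun M => ?_⟩
  rcases Nat.lt_or_ge M 2 with h2 | h2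
  · rcases Nat.lt_or_ge M 1 with h1 | h1
    · have : M = 0 := by omega
      subst this
      simp
    · have : M = 1 := by omega
      subst this
      rw [Icc_self, sum_singleton, ← hC1, Nat.cast_one, mul_one]
      linarith
  · have h := hC M M (fun i => (i : ℤ)) (adm_int M h2) (Icc 1 M) (subset_refl _) (fun t ht => by
      show Polynomial.eval (t : ℤ) Polynomial.X ≠ 0
      rw [Polynomial.eval_X]
      have := (mem_Icc.1 ht).1
      omega)
    calc ∑ t ∈ Icc 1 M, (SN (t : ℤ) (-3 * (t : ℤ))) ^ K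
        = ∑ t ∈ Icc 1 M, SN ((![1, -3, 4] : Fin 3 → ℤ) 0 * Polynomial.X.eval (t : ℤ))
          ((![1, -3, 4] : Fin 3 → ℤ) 1 * Polynomial.X.eval (t : ℤ)) ^ K := by
          refine sum_congr rfl fun t ht => ?_
          rw [Polynomial.eval_X]
          have e1 : (t : ℤ) = (![1, -3, 4] : Fin 3 → ℤ) 0 * (t : ℤ) := by
            show (t : ℤ) = 1 * (t : ℤ)
            ring
          have e2 : -3 * (t : ℤ) = (![1, -3, 4] : Fin 3 → ℤ) 1 * (t : ℤ) := rfl
          rw [← e1, ← e2]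
      _ ≤ C * M := h
      _ ≤ (C + C1) * M := by
          have : 0 ≤ C1 * M := by positivity
          linarith

/-- the moments of the 4-rank -/
theorem mom4 (H : Hyps) (hC : S_CNT144) (K : ℕ) : ∃ C : ℝ, 0 ≤ C ∧ ∀ X : ℕ,
    ∑ n ∈ (Icc 1 X).filter (fun n => All n), ((2 : ℝ) ^ R4 n) ^ K ≤ C * X := by
  obtain ⟨C, hC0, hC'⟩ := t_MB3 K
  refine ⟨2 * (72 ^ K * C), by positivity, fun X => ?_⟩
  set g : ℕ → ℝ := fun t => 72 ^ K * (SN (t : ℤ) (-3 * (t : ℤ))) ^ K with hg
  have hg0 : ∀ t, 0 ≤ g t := fun t => mul_nonneg (by positivity) (pow_nonneg (SN_nonneg _ _) _)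
  have hgs : ∑ t ∈ Icc 1 X, g t ≤ 72 ^ K * C * X := by
    rw [hg, ← mul_sum, mul_assoc]
    exact mul_le_mul_of_nonneg_left (hC' X) (by positivity)
  have hpt : ∀ n, All n → ((2 : ℝ) ^ R4 n) ^ K ≤ g (ix n) := by
    intro n hn
    have h1 := pow_le_pow_left₀ (by positivity) (R_le H hC hn) K
    rw [mul_pow] at h1
    exact h1
  rw [← sum_filter_add_sum_filter_not _ (fun n => n % 2 = 1), two_mul, add_mul]
  refine add_le_add ?_ ?_
  · calc ∑ n ∈ ((Icc 1 X).filter (fun n => All n)).filter (fun n => n % 2 = 1),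
          ((2 : ℝ) ^ R4 n) ^ K
        ≤ ∑ n ∈ ((Icc 1 X).filter (fun n => All n)).filter (fun n => n % 2 = 1), g n := by
          refine sum_le_sum fun n hn => ?_
          have h3 := (mem_filter.1 hn).2
          have h4 := hpt n (mem_filter.1 (mem_filter.1 hn).1).2
          unfold ix at h4
          rwa [if_pos h3] at h4
      _ ≤ ∑ n ∈ Icc 1 X, g n := sum_le_sum_of_subset_of_nonneg
          ((filter_subset _ _).trans (filter_subset _ _)) fun _ _ _ => hg0 _
      _ ≤ 72 ^ K * C * X := hgs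
  · calc ∑ n ∈ ((Icc 1 X).filter (fun n => All n)).filter (fun n => ¬ n % 2 = 1),
          ((2 : ℝ) ^ R4 n) ^ K
        ≤ ∑ n ∈ ((Icc 1 X).filter (fun n => All n)).filter (fun n => ¬ n % 2 = 1),
            g (n / 4) := by
          refine sum_le_sum fun n hn => ?_
          have h3 := (mem_filter.1 hn).2
          have h4 := hpt n (mem_filter.1 (mem_filter.1 hn).1).2
          unfold ix at h4
          rwa [if_neg h3] at h4
      _ = ∑ t ∈ (((Icc 1 X).filter (fun n => All n)).filter (fun n => ¬ n % 2 = 1)).image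
            (fun n => n / 4), g t := by
          rw [sum_image]
          intro n hn n' hn' he
          have e1 : ∀ n ∈ ((Icc 1 X).filter (fun n => All n)).filter
              (fun n => ¬ n % 2 = 1), n % 4 = 0 := by
            intro n hn
            obtain ⟨h3, h4⟩ := mem_filter.1 hn
            rcases (mem_filter.1 h3).2.1 with ⟨-, h5⟩ | ⟨k, h5, -⟩ <;> omega
          have h5 := e1 n (by exact_mod_cast hn)
          have h6 := e1 n' (by exact_mod_cast hn')
          have h7 : n / 4 = n' / 4 := he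
          omega
      _ ≤ ∑ n ∈ Icc 1 X, g n := by
          refine sum_le_sum_of_subset_of_nonneg (fun t ht => ?_) fun _ _ _ => hg0 _
          obtain ⟨n, hn, rfl⟩ := mem_image.1 ht
          obtain ⟨h3, h4⟩ := mem_filter.1 hn
          obtain ⟨h5, h6⟩ := mem_filter.1 h3
          rw [mem_Icc] at h5 ⊢
          have h7 : n % 4 = 0 := by
            rcases h6.1 with ⟨-, h7⟩ | ⟨k, h7, -⟩ <;> omega
          omega
      _ ≤ 72 ^ K * C * X := hgs

/-- the number of the fields -/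
theorem all_pos : ∃ δ : ℝ, 0 < δ ∧ ∀ᶠ X : ℕ in atTop, δ * X ≤ (count All X : ℝ) := by
  have hcv : Curve 1 2 := ⟨by norm_num, by norm_num, by norm_num, isCoprime_one_left⟩
  obtain ⟨δ, hδ, h⟩ := fam_pos (k := 1) (a := fun _ => 1) (c := fun _ => 2) (fun _ => hcv)
    (Pool.Agent.N637.SLM.JL.result.1 1 2 hcv)
  refine ⟨δ, hδ, ?_⟩
  filter_upwards [h] with X hX
  refine hX.trans ?_
  rw [Nat.cast_le]
  unfold count
  refine Finset.card_le_card fun n hn => ?_
  rw [mem_filter] at hn ⊢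
  refine ⟨hn.1, hn.2.1, ?_⟩
  have h3 : ((2 : ℤ) % 8 = 4 ∨ ((2 : ℤ) % 8 = 0 ∧ n % 8 ≠ 7) ∨ ((2 : ℤ) % 4 = 2 ∧ n % 8 = 3)) :=
    (hn.2.2 0).2.2
  omega

lemma cnt_rm {P Q : ℕ → Prop} (h1 : ∀ n, Q n → P n) (h2 : ∀ n, P n → n ≠ 4 → Q n) (X : ℕ) :
    |(count Q X : ℝ) - count P X| ≤ 1 := by
  have h3 : count Q X ≤ count P X := by
    unfold count
    exact card_le_card fun n hn => by
      rw [mem_filter] at hn ⊢
      exact ⟨hn.1, h1 n hn.2⟩
  have h4 : count P X ≤ count Q X + 1 := by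
    unfold count
    refine (card_le_card (t := insert 4 ((Icc 1 X).filter fun n => Q n)) fun n hn => ?_).trans
      (card_insert_le _ _)
    rw [mem_filter] at hn
    rw [mem_insert, mem_filter]
    by_cases h5 : n = 4
    · exact Or.inl h5
    · exact Or.inr ⟨hn.1, h2 n hn.2 h5⟩
  have h3' : (count Q X : ℝ) ≤ count P X := by exact_mod_cast h3
  have h4' : (count P X : ℝ) ≤ count Q X + 1 := by exact_mod_cast h4
  rw [abs_le]
  constructor <;> linarith

/-- the density of the 4-rank among all the imaginary quadratic fields -/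
theorem dens_all (H : Hyps) (r : ℕ) : Density All (fun n => R4 n = r) (fkl r) := by
  have h := H.den H.laj H.red 0 0 el0 e0 1 {0} 3 one_pos
    (lb00 one_pos) (Or.inl fun i => i.elim0) (fun _ _ l => l.elim0)
    Nat.prime_three.prime.irreducible.squarefree (by norm_num) (by norm_num) r j0
  have e1 : lawF r j0 = fkl r := by
    unfold Pool.Agent.N637.SLK.lawF fkl
    rw [Finset.univ_eq_empty, Finset.prod_empty, div_mul_eq_mul_div, one_mul]
  rw [e1] at h
  have h2 : Tendsto (fun X : ℕ => (count (fun n => FundNeg n ∧ GnF el0 e0 r j0 n) X : ℝ) /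
      (count FundNeg X : ℝ)) atTop (𝓝 (fkl r)) := by
    refine h.congr fun X => congrArg₂ (fun a b : ℕ => (a : ℝ) / (b : ℝ)) ?_ ?_
    · rw [count_inst]
      refine count_congr (X := X) fun n => ?_
      rw [Nat.mod_one]
      simp only [mem_singleton, and_true]
      exact Iff.rfl
    · rw [count_inst]
      refine count_congr (X := X) fun n => ?_
      rw [Nat.mod_one]
      simp only [mem_singleton, and_true]
      exact Iff.rfl
  have hD : Tendsto (fun X : ℕ => (count FundNeg X : ℝ)) atTop atTop := by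
    obtain ⟨δ, hδ, hp⟩ := all_pos
    refine tendsto_atTop_mono' _ (f₁ := fun X : ℕ => δ * (X : ℝ)) ?_
      (tendsto_natCast_atTop_atTop.const_mul_atTop hδ)
    filter_upwards [hp] with X hX
    refine hX.trans ?_
    rw [Nat.cast_le]
    unfold count
    exact card_le_card fun n hn => by
      rw [mem_filter] at hn ⊢
      exact ⟨hn.1, hn.2.1⟩
  have small : ∀ e : ℕ → ℝ, (∀ X, |e X| ≤ 1) →
      Tendsto (fun X : ℕ => e X / (count FundNeg X : ℝ)) atTop (𝓝 0) := by
    intro e he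
    have h3 : Tendsto (fun X : ℕ => 1 / (count FundNeg X : ℝ)) atTop (𝓝 0) := by
      refine hD.inv_tendsto_atTop.congr fun X => ?_
      show ((count FundNeg X : ℝ))⁻¹ = _
      rw [one_div]
    refine squeeze_zero_norm (fun X => ?_) h3
    rw [norm_div, Real.norm_eq_abs, Real.norm_eq_abs, Nat.abs_cast]
    exact div_le_div_of_nonneg_right (he X) (Nat.cast_nonneg _)
  have s1 := small (fun X => (count (fun n => All n ∧ R4 n = r) X : ℝ) -
      count (fun n => FundNeg n ∧ GnF el0 e0 r j0 n) X)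
    (fun X => cnt_rm (fun n hn => ⟨hn.1.1, ((four H hn.1).2.2 r).2 hn.2⟩)
      (fun n hn h4 => ⟨⟨hn.1, h4⟩, ((four H ⟨hn.1, h4⟩).2.2 r).1 hn.2⟩) X)
  have s2 := small (fun X => (count All X : ℝ) - count FundNeg X)
    (fun X => cnt_rm (fun n hn => hn.1) (fun n hn h4 => ⟨hn, h4⟩) X)
  have h5 := (h2.add s1).div (s2.const_add 1) (by norm_num)
  rw [add_zero, add_zero, div_one] at h5
  unfold Density
  refine h5.congr' ?_
  filter_upwards [hD.eventually_gt_atTop 0] with X hX
  have hX0 : (count FundNeg X : ℝ) ≠ 0 := hX.ne'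
  have e2 : (1 : ℝ) + ((count All X : ℝ) - count FundNeg X) / (count FundNeg X : ℝ) =
      (count All X : ℝ) / (count FundNeg X : ℝ) := by
    field_simp
    ring
  show ((count (fun n => FundNeg n ∧ GnF el0 e0 r j0 n) X : ℝ) / (count FundNeg X : ℝ) +
    ((count (fun n => All n ∧ R4 n = r) X : ℝ) -
      count (fun n => FundNeg n ∧ GnF el0 e0 r j0 n) X) / (count FundNeg X : ℝ)) /
      (1 + ((count All X : ℝ) - count FundNeg X) / (count FundNeg X : ℝ)) = _
  rw [e2, ← add_div, add_sub_cancel]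
  exact div_div_div_cancel_right₀ hX0 _ _

lemma all_cnt_pos : ∀ᶠ X : ℕ in atTop, 0 < (((Icc 1 X).filter fun n => All n).card : ℝ) := by
  obtain ⟨δ, hδ, hpos⟩ := all_pos
  filter_upwards [hpos, eventually_ge_atTop 1] with X hX h3
  have h4 : (0 : ℝ) < δ * X := mul_pos hδ (by exact_mod_cast h3)
  exact lt_of_lt_of_le h4 hX

/-- **the averages over all the imaginary quadratic fields** -/
theorem mean_all (H : Hyps) (hC : S_CNT144) (f : ℕ → ℝ) (C₀ : ℝ) (K : ℕ)
    (hf : ∀ r, |f r| ≤ C₀ * 2 ^ (K * r)) :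
    Summable (fun r => fkl r * f r) ∧
      Mean All (fun n => f (R4 n)) (∑' r, fkl r * f r) := by
  obtain ⟨C, hC0, hC'⟩ := mom4 H hC (2 * K)
  obtain ⟨δ, hδ, hpos⟩ := all_pos
  have h := hA ℕ All R4 fkl f (C₀ ^ 2 * (C / δ)) hF.1 hF.2.1 (fun r => ?_) all_cnt_pos ?_
  · exact h
  · refine (dens_all H r).congr fun X => ?_
    refine congrArg₂ (fun a b : ℕ => (a : ℝ) / (b : ℝ)) ?_ rfl
    exact (count_inst' _ X).symm
  · filter_upwards [hpos] with X hX
    calc ∑ n ∈ (Icc 1 X).filter (fun n => All n), (f (R4 n)) ^ 2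
        ≤ ∑ n ∈ (Icc 1 X).filter (fun n => All n), C₀ ^ 2 * ((2 : ℝ) ^ R4 n) ^ (2 * K) := by
          refine sum_le_sum fun n _ => ?_
          have h1 : (f (R4 n)) ^ 2 ≤ (C₀ * 2 ^ (K * R4 n)) ^ 2 := by
            rw [← sq_abs]
            exact pow_le_pow_left₀ (abs_nonneg _) (hf _) 2
          refine h1.trans (le_of_eq ?_)
          rw [mul_pow, ← pow_mul, ← pow_mul]
          congr 2
          ring
      _ = C₀ ^ 2 * ∑ n ∈ (Icc 1 X).filter (fun n => All n), ((2 : ℝ) ^ R4 n) ^ (2 * K) := by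
          rw [mul_sum]
      _ ≤ C₀ ^ 2 * (C * X) := mul_le_mul_of_nonneg_left (hC' X) (sq_nonneg _)
      _ = C₀ ^ 2 * (C / δ) * (δ * X) := by field_simp
      _ ≤ C₀ ^ 2 * (C / δ) * (count All X : ℝ) := mul_le_mul_of_nonneg_left hX (by positivity)

end Pool.Agent.N637.SLM.AN
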