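import Pool.Agent.W262.RK.Defs2

/-!
# Project AN: statements of the leaves for arbitrary curves
-/

set_option autoImplicit false

namespace Pool.Agent.N637.SLM

open Pool.Agent.W262.RK (dv sgn sg0 NL)

/-- the divisors `d` of `W` such that for every prime `p ∣ W`: the symbol of `d / (d, p)` at `p` is that of `m / p` if
`p ∣ d` and is `1` otherwise -/
noncomputable def GG (W : ℕ) (m : ℤ) : Finset ℕ := by
  classical
  exact W.divisors.filter (fun d : ℕ => ∀ p ∈ W.primeFactors, sgn p d = (dv p d && sgn p m))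

/-- the local conditions -/
def LQ (m b : ℤ) (p : ℕ) (v w h g : Bool) : Prop :=
  g = (w && sgn p (-m)) ∧ h = xor (v && sgn p m) (w && sg0 p (-b))

/-- XT1: the two kernels. -/
def S_XT1 : Prop := ∀ W u : ℕ, Odd W → Squarefree W → W.Coprime u → 0 < u →
  (GG W (-((u * W : ℕ) : ℤ))).card ≤ 2 * (GG W ((u * W : ℕ) : ℤ)).card

/-- XT2: the pairs. -/
def S_XT2 : Prop := ∀ (W : ℕ) (m b : ℤ), Odd W → Squarefree W → (W : ℤ) ∣ m → m ≠ 0 →
  NL W (LQ m b) ≤ (GG W m).card * (GG W (-m)).card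

/-- the group of the norms -/
def DnC (n d : ℕ) : Prop := Squarefree d ∧ d ∣ n ∧ ∀ p : ℕ, p.Prime → p ≠ 2 → p ∣ n →
  ∀ [Fact p.Prime], ∃ x y : ℚ_[p], (((d : ℕ) : ℤ) : ℚ_[p]) = x ^ 2 - ((-(n : ℤ) : ℤ) : ℚ_[p]) * y ^ 2

/-- XT3: the norms. -/
def S_XT3 : Prop := ∀ W u n : ℕ, Odd W → Squarefree (u * W) → (n = u * W ∨ n = 4 * (u * W)) →
  (GG W ((u * W : ℕ) : ℤ)).card ≤ 2 ^ u.primeFactors.card * Nat.card {d : ℕ // DnC n d}

end Pool.Agent.N637.SLM
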