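import Pool.Agent.N637.SLM.Odd
import Pool.Agent.N637.SLM.Stm7
import Pool.Agent.W410.FK.FINH

/-!
# Project AN: the 2-Selmer group of the twists of an arbitrary curve, in terms of the local conditions at the good
# primes dividing `m`
-/

set_option autoImplicit false
set_option linter.all false

open Finset

namespace Pool.Agent.N637.SLM.AN

open scoped Classical

open Pool.Agent.W307.SE (Loc Sel SN SN_nonneg sel_fin)
open Pool.Agent.TH841.SH (LocC pt_real pt_pad)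
open Pool.Agent.W262.RK (dv sgn sg0 NL XC)
open Pool.Agent.N637.SLM (Cw LQ)
open Pool.Agent.N637.SLM.Odd (Dat jac_of_sq)
open Pool.Agent.N875.X15 (val_zero even_val sq_cancel)

section

variable {p : ℕ} [hp : Fact p.Prime]

lemma symb {n : ℤ} (hn : ¬ (p : ℤ) ∣ n) : jacobiSym n p = 1 ∨ jacobiSym n p = -1 := by
  rw [← jacobiSym.legendreSym.to_jacobiSym]
  have h0 : ((n : ℤ) : ZMod p) ≠ 0 := by
    intro h0
    exact hn ((ZMod.intCast_zmod_eq_zero_iff_dvd n p).1 h0)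
  exact legendreSym.eq_one_or_neg_one p h0

lemma sg_mul {x y : ℤ} (hx : ¬ (p : ℤ) ∣ x) (hy : ¬ (p : ℤ) ∣ y) :
    sg0 p (x * y) = xor (sg0 p x) (sg0 p y) := by
  unfold sg0
  rw [jacobiSym.mul_left]
  rcases symb hx with h1 | h1 <;> rcases symb hy with h2 | h2 <;> rw [h1, h2] <;> decide

lemma gcd_mul (x : ℤ) : (Int.gcd (p * x) p : ℤ) = p := by
  have h : Int.gcd (p * x) p = p := by
    show Nat.gcd ((p : ℤ) * x).natAbs ((p : ℤ)).natAbs = p
    rw [Int.natAbs_mul, Int.natAbs_natCast]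
    exact Nat.gcd_eq_right (dvd_mul_right _ _)
  rw [h]

lemma gcd_one {x : ℤ} (hx : ¬ (p : ℤ) ∣ x) : (Int.gcd x p : ℤ) = 1 := by
  have h1 : IsCoprime x (p : ℤ) := by
    rw [isCoprime_comm]
    exact ((Nat.prime_iff_prime_int.1 hp.out).coprime_iff_not_dvd).2 hx
  have h2 := Int.isCoprime_iff_gcd_eq_one.1 h1
  rw [h2]
  rfl

lemma sgn_mul_p (x : ℤ) : sgn p (p * x) = sg0 p x := by
  unfold sgn
  rw [gcd_mul, Int.mul_ediv_cancel_left _ (by exact_mod_cast hp.out.ne_zero)]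

lemma sgn_unit {x : ℤ} (hx : ¬ (p : ℤ) ∣ x) : sgn p x = sg0 p x := by
  unfold sgn
  rw [gcd_one hx, Int.ediv_one]

lemma dv_mul_p (x : ℤ) : dv p (p * x) = true := by
  unfold dv
  exact decide_eq_true (dvd_mul_right _ _)

lemma dv_unit {x : ℤ} (hx : ¬ (p : ℤ) ∣ x) : dv p x = false := by
  unfold dv
  exact decide_eq_false hx

lemma not_dvd_of_sq {e : ℤ} (h : ¬ (p : ℤ) ^ 2 ∣ p * e) : ¬ (p : ℤ) ∣ e := by
  rintro ⟨k, rfl⟩
  exact h ⟨k, by ring⟩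

lemma cz {x : ℤ} (hx : ¬ (p : ℤ) ∣ x) : (x : ℚ_[p]) ≠ 0 := by
  intro h
  have : x = 0 := by exact_mod_cast h
  rw [this] at hx
  exact hx (dvd_zero _)

/-- the invariants of a squarefree integer in a given class -/
lemma sq_dat {e t : ℤ} (he : ¬ (p : ℤ) ^ 2 ∣ e) (ht : ¬ (p : ℤ) ^ 2 ∣ t)
    (h : IsSquare ((e : ℚ_[p]) * (t : ℚ_[p]))) : dv p e = dv p t ∧ sgn p e = sgn p t := by
  have hpq : (p : ℚ_[p]) ≠ 0 := by exact_mod_cast hp.out.ne_zero
  have hpv : ((p : ℚ_[p])).valuation = 1 := Padic.valuation_p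
  have key : ∀ x y : ℤ, ¬ (p : ℤ) ∣ x → ¬ (p : ℤ) ∣ y → IsSquare ((x : ℚ_[p]) * (y : ℚ_[p])) →
      sg0 p x = sg0 p y := by
    intro x y hx hy hs
    have h1 : IsSquare (((x * y : ℤ)) : ℚ_[p]) := by
      push_cast
      exact hs
    have hxy : ¬ (p : ℤ) ∣ x * y := by
      intro h2
      rcases (Nat.prime_iff_prime_int.1 hp.out).dvd_or_dvd h2 with h3 | h3
      · exact hx h3
      · exact hy h3
    have h2 := jac_of_sq hxy h1
    rw [jacobiSym.mul_left] at h2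
    unfold sg0
    rcases symb hx with h3 | h3 <;> rcases symb hy with h4 | h4 <;> rw [h3, h4] at h2 ⊢
    · norm_num at h2
    · norm_num at h2
  have odd : ∀ x y : ℤ, ¬ (p : ℤ) ∣ x → ¬ (p : ℤ) ∣ y →
      ¬ IsSquare ((p : ℚ_[p]) * ((x : ℚ_[p]) * (y : ℚ_[p]))) := by
    intro x y hx hy hs
    have h1 := even_val (mul_ne_zero hpq (mul_ne_zero (cz hx) (cz hy))) hs
    rw [Padic.valuation_mul hpq (mul_ne_zero (cz hx) (cz hy)), Padic.valuation_mul (cz hx) (cz hy),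
      val_zero hx, val_zero hy, hpv] at h1
    revert h1
    decide
  by_cases h1 : (p : ℤ) ∣ e
  · obtain ⟨e', rfl⟩ := h1
    have he' := not_dvd_of_sq he
    by_cases h2 : (p : ℤ) ∣ t
    · obtain ⟨t', rfl⟩ := h2
      have ht' := not_dvd_of_sq ht
      rw [dv_mul_p, dv_mul_p, sgn_mul_p, sgn_mul_p]
      refine ⟨rfl, key e' t' he' ht' ?_⟩
      have e1 : (((p : ℤ) * e' : ℤ) : ℚ_[p]) * (((p : ℤ) * t' : ℤ) : ℚ_[p]) =
          ((p : ℚ_[p]) * p) * (e' * t') := by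
        push_cast
        ring
      rw [e1] at h
      exact sq_cancel (mul_ne_zero hpq hpq) (IsSquare.mul_self _) h
    · exfalso
      have e1 : (((p : ℤ) * e' : ℤ) : ℚ_[p]) * (t : ℚ_[p]) = (p : ℚ_[p]) * (e' * t) := by
        push_cast
        ring
      rw [e1] at h
      exact odd e' t he' h2 h
  · by_cases h2 : (p : ℤ) ∣ t
    · obtain ⟨t', rfl⟩ := h2
      exfalso
      have e1 : (e : ℚ_[p]) * (((p : ℤ) * t' : ℤ) : ℚ_[p]) = (p : ℚ_[p]) * (e * t') := by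
        push_cast
        ring
      rw [e1] at h
      exact odd e t' h1 (not_dvd_of_sq ht) h
    · rw [dv_unit h1, dv_unit h2, sgn_unit h1, sgn_unit h2]
      exact ⟨rfl, key e t h1 h2 h⟩

lemma psq_sqf {e : ℤ} (he : Squarefree e) : ¬ (p : ℤ) ^ 2 ∣ e := by
  intro h
  have h1 := he (p : ℤ) (by rwa [← pow_two])
  exact (Nat.prime_iff_prime_int.1 hp.out).not_isUnit h1

/-- the local conditions at a good prime dividing `m` -/
lemma lq_of {m a b c : ℤ} (D : Dat p m a b c) (hp2 : p ≠ 2) (hm : Squarefree m)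
    (hpm : (p : ℤ) ∣ m) (hpb : ¬ (p : ℤ) ∣ b) {e1 e2 : ℤ} (h1 : Squarefree e1) (h2 : Squarefree e2)
    (h : LocC ℚ_[p] 0 (a ^ 2 * m) (-b * m) e1 e2) :
    LQ m b p (dv p e1) (dv p e2) (sgn p e1) (sgn p e2) := by
  obtain ⟨m', hm'⟩ := hpm
  have hp1 : ¬ (p : ℤ) ^ 2 ∣ (1 : ℤ) := psq_sqf squarefree_one
  have hpm2 : ¬ (p : ℤ) ^ 2 ∣ m := psq_sqf hm
  have hpm3 : ¬ (p : ℤ) ^ 2 ∣ -m := by rwa [dvd_neg]
  have hb' : ¬ (p : ℤ) ∣ -b := by rwa [dvd_neg]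
  have hpb2 : ¬ (p : ℤ) ^ 2 ∣ -b := fun h => hb' (dvd_trans (dvd_pow_self _ two_ne_zero) h)
  have hm1 : ¬ (p : ℤ) ∣ m' := by
    rw [hm'] at hpm2
    exact not_dvd_of_sq hpm2
  have hpbm : ¬ (p : ℤ) ^ 2 ∣ (-b) * m := by
    rintro ⟨k, hk⟩
    have h3 : (p : ℤ) * ((-b) * m') = p * (p * k) := by
      rw [hm'] at hk
      linear_combination hk
    have h4 := mul_left_cancel₀ (by exact_mod_cast hp.out.ne_zero) h3
    have h5 : (p : ℤ) ∣ (-b) * m' := ⟨k, h4⟩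
    rcases (Nat.prime_iff_prime_int.1 hp.out).dvd_or_dvd h5 with h6 | h6
    · exact hb' h6
    · exact hm1 h6
  have one1 : dv p 1 = false ∧ sgn p 1 = false := by
    have h3 : ¬ (p : ℤ) ∣ 1 := (Nat.prime_iff_prime_int.1 hp.out).not_dvd_one
    rw [dv_unit h3, sgn_unit h3]
    refine ⟨rfl, ?_⟩
    unfold sg0
    rw [jacobiSym.one_left]
    decide
  have cm : dv p m = true := by
    rw [hm']
    exact dv_mul_p _
  have cnm : dv p (-m) = true := by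
    rw [hm', ← mul_neg]
    exact dv_mul_p _
  have cb : dv p (-b) = false := dv_unit hb'
  have cbm : dv p ((-b) * m) = true := by
    rw [hm', mul_left_comm]
    exact dv_mul_p _
  have sbm : sgn p ((-b) * m) = xor (sgn p m) (sg0 p (-b)) := by
    rw [hm', mul_left_comm, sgn_mul_p, sgn_mul_p, sg_mul hb' hm1, Bool.xor_comm]
  have one : ∀ {e : ℤ}, Squarefree e → IsSquare (e : ℚ_[p]) → dv p e = false ∧ sgn p e = false := by
    intro e he hs
    have h3 := sq_dat (psq_sqf he) hp1 (by rw [Int.cast_one, mul_one]; exact hs)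
    rw [h3.1, h3.2]
    exact one1
  have hD := D.dvd hp2 hm ⟨m', hm'⟩ h
  unfold LQ
  rcases hD with ⟨q2, q1 | q1⟩ | ⟨q2, q1 | q1⟩
  · obtain ⟨a1, a2⟩ := one h2 q2
    obtain ⟨a3, a4⟩ := one h1 q1
    rw [a1, a2, a3, a4]
    simp
  · obtain ⟨a1, a2⟩ := one h2 q2
    obtain ⟨a3, a4⟩ := sq_dat (psq_sqf h1) hpm2 q1
    rw [a1, a2, a3, a4, cm]
    simp
  · obtain ⟨a1, a2⟩ := sq_dat (psq_sqf h2) hpm3 (by push_cast; exact q2)
    obtain ⟨a3, a4⟩ := sq_dat (psq_sqf h1) hpb2 (by push_cast; exact q1)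
    rw [a1, a2, a3, a4, cnm, cb, sgn_unit hb']
    simp
  · obtain ⟨a1, a2⟩ := sq_dat (psq_sqf h2) hpm3 (by push_cast; exact q2)
    obtain ⟨a3, a4⟩ := sq_dat (psq_sqf h1) hpbm (by push_cast; rw [← mul_assoc]; exact q1)
    rw [a1, a2, a3, a4, cnm, cbm, sbm]
    simp

end

lemma xc_lq (m b : ℤ) (p : ℕ) : XC (LQ m b p) := by
  unfold LQ
  refine ⟨by simp, fun v w h g v' w' h' g' h1 h2 => ?_⟩
  obtain ⟨h3, h4⟩ := h1
  obtain ⟨h5, h6⟩ := h2
  rw [h3, h4, h5, h6]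
  constructor
  · cases w <;> cases w' <;> cases sgn p (-m) <;> rfl
  · cases v <;> cases v' <;> cases w <;> cases w' <;> cases sgn p m <;> cases sg0 p (-b) <;> rfl

/-- **the Selmer group of the twists of an arbitrary curve** -/
theorem sel_le {m a c : ℤ} (hm : Squarefree m) (hC : Cw a c) {W : ℕ} (hW : Odd W)
    (hWs : Squarefree W) (hWm : (W : ℤ) ∣ m)
    (hgood : ∀ p : ℕ, p.Prime → p ∣ W → ¬ (p : ℤ) ∣ 2 * a * c * (c ^ 2 - a ^ 2))
    (hbad : ∀ q : ℕ, q.Prime → (q : ℤ) ∣ m → ¬ q ∣ W → (q : ℤ) ∣ 2 * a * c * (c ^ 2 - a ^ 2)) :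
    (Sel (a ^ 2 * m) (-(c ^ 2 - a ^ 2) * m)).ncard ≤
      4 ^ ((2 * a * c * (c ^ 2 - a ^ 2)).natAbs.primeFactors.card + 2) *
        NL W (LQ m (c ^ 2 - a ^ 2)) := by
  have ha0 : a ≠ 0 := by
    have := hC.ha
    omega
  have hc0 := hC.h0
  have hb0 : c ^ 2 - a ^ 2 ≠ 0 := by
    intro h
    have h4 : c ^ 2 = a ^ 2 := by linarith
    have h1 := hC.ha
    have h2 := hC.hc
    rcases sq_eq_sq_iff_eq_or_eq_neg.mp h4 with h5 | h5 <;> omega
  have hm0 : m ≠ 0 := hm.ne_zero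
  have hA : a ^ 2 * m ≠ 0 := mul_ne_zero (pow_ne_zero 2 ha0) hm0
  have hB : -(c ^ 2 - a ^ 2) * m ≠ 0 := mul_ne_zero (neg_ne_zero.2 hb0) hm0
  have hAB : a ^ 2 * m ≠ -(c ^ 2 - a ^ 2) * m := by
    intro h
    have h3 : c ^ 2 * m = 0 := by linear_combination h
    exact mul_ne_zero (pow_ne_zero 2 hc0) hm0 h3
  have h := (Pool.Agent.W410.FK.seld W (LQ m (c ^ 2 - a ^ 2)) (a ^ 2 * m) (-(c ^ 2 - a ^ 2) * m)
    hA hB hAB hW hWs (fun p _ _ => xc_lq m _ p) (fun p hp hpW x y hy hxy e1 e2 h1 h2 s1 s2 => by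
      have hg := hgood p hp.out hpW
      have hp2 : p ≠ 2 := by
        rintro rfl
        exact hg ⟨a * c * (c ^ 2 - a ^ 2), by push_cast; ring⟩
      have hpm : (p : ℤ) ∣ m := dvd_trans (by exact_mod_cast hpW) hWm
      have hpb : ¬ (p : ℤ) ∣ c ^ 2 - a ^ 2 := fun h3 => hg (dvd_mul_of_dvd_right h3 _)
      have hpac : ¬ (p : ℤ) ∣ a * c := fun h3 => hg (by
        have e : 2 * a * c * (c ^ 2 - a ^ 2) = (a * c) * (2 * (c ^ 2 - a ^ 2)) := by ring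
        rw [e]
        exact dvd_mul_of_dvd_left h3 _)
      refine lq_of (a := a) (c := c) ⟨rfl, hC.co, ha0, hb0, hc0, hm0, fun h3 => absurd h3 hpac,
        fun h3 => absurd h3 hpb⟩ hp2 hm hpm hpb h1 h2 ⟨x, y, hy, ?_, ?_, ?_⟩
      · rw [hxy]
        push_cast
        ring
      · have e : x - ((0 : ℤ) : ℚ_[p]) = x := by
          push_cast
          ring
        rw [e]
        exact s1
      · exact s2)).2
  refine h.trans (Nat.mul_le_mul_right _ (Nat.pow_le_pow_right (by norm_num)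
    (Nat.add_le_add_right (Finset.card_le_card fun q hq => ?_) 2)))
  rw [mem_filter, Nat.mem_primeFactors] at hq
  obtain ⟨⟨hq1, hq2, -⟩, hq4⟩ := hq
  rw [Nat.mem_primeFactors]
  have hN0 : (2 * a * c * (c ^ 2 - a ^ 2)) ≠ 0 :=
    mul_ne_zero (mul_ne_zero (mul_ne_zero two_ne_zero ha0) hc0) hb0
  refine ⟨hq1, ?_, Int.natAbs_ne_zero.2 hN0⟩
  have hqz : Prime (q : ℤ) := Nat.prime_iff_prime_int.1 hq1
  have h3 : (q : ℤ) ∣ 2 * (a ^ 2 * m) * (-(c ^ 2 - a ^ 2) * m) *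
      (a ^ 2 * m - -(c ^ 2 - a ^ 2) * m) := Int.natCast_dvd.2 hq2
  have e : 2 * (a ^ 2 * m) * (-(c ^ 2 - a ^ 2) * m) * (a ^ 2 * m - -(c ^ 2 - a ^ 2) * m) =
      -((2 * a * c * (c ^ 2 - a ^ 2)) * (a * c) * m ^ 3) := by ring
  rw [e, dvd_neg] at h3
  refine Int.natCast_dvd.1 ?_
  rcases hqz.dvd_or_dvd h3 with h4 | h4
  · rcases hqz.dvd_or_dvd h4 with h5 | h5
    · exact h5
    · have e2 : 2 * a * c * (c ^ 2 - a ^ 2) = (a * c) * (2 * (c ^ 2 - a ^ 2)) := by ring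
      rw [e2]
      exact dvd_mul_of_dvd_left h5 _
  · exact hbad q hq1 (hqz.dvd_of_dvd_pow h4) hq4

end Pool.Agent.N637.SLM.AN
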