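import Pool.Agent.N637.SLM.AN3
import Pool.Agent.N637.SLM.AN5

/-!
# Project AN: the bound for an arbitrary curve
-/

set_option autoImplicit false
set_option linter.all false

open NumberField Filter Topology Finset

namespace Pool.Agent.N637.SLM.AN

open scoped Classical

open Pool.Agent.W307.SE (Loc Sel SN SN_nonneg sel_fin)
open Pool.Agent.TH841.SH (LocC SelG)
open Pool.Agent.TH841.SH.D (Sha)
open Pool.Agent.W262.RK (NL)
open Pool.Agent.N637.SLM.JL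
open Pool.Agent.N637.SLM.AR
open Pool.Agent.N637.SLM (Cw LQ GG DnC S_XT1 S_XT2 S_XT3)
open Pool.Agent.N637.SLK (mm)

/-- the number of the primes dividing `2 a c (c² - a²)` -/
def omega (a c : ℤ) : ℕ := (2 * a * c * (c ^ 2 - a ^ 2)).natAbs.primeFactors.card

lemma mm_ix (n : ℕ) : mm n = -(ix n : ℤ) := by
  unfold mm ix
  split_ifs <;> rfl

lemma ix_prop {n : ℕ} (h : FundNeg n) : Squarefree (ix n) ∧ (n = ix n ∨ n = 4 * ix n) := by
  unfold ix
  rcases h with ⟨h2, h3⟩ | ⟨k, h3, h4, h5⟩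
  · rw [if_pos (by omega)]
    exact ⟨h2, Or.inl rfl⟩
  · rw [if_neg (by omega)]
    have : n / 4 = k := by omega
    rw [this]
    exact ⟨h4, Or.inr h3⟩

lemma selG_eq (A B : ℤ) : SelG 0 A B = Sel A B := by
  have h : ∀ (K : Type) [Field K] (d1 d2 : ℤ), LocC K 0 A B d1 d2 ↔ Loc K A B d1 d2 := by
    intro K _ d1 d2
    unfold LocC Loc
    simp only [Int.cast_zero, sub_zero]
  ext d
  unfold SelG Sel
  constructor
  · rintro ⟨h1, h2, h3, h4⟩
    exact ⟨h1, h2, (h ℝ _ _).1 h3, fun p _ => (h ℚ_[p] _ _).1 (h4 p)⟩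
  · rintro ⟨h1, h2, h3, h4⟩
    exact ⟨h1, h2, (h ℝ _ _).2 h3, fun p _ => (h ℚ_[p] _ _).2 (h4 p)⟩

/-- the Selmer group of the twist number `n` of an arbitrary curve -/
theorem sel_bound (x1 : S_XT1) (x2 : S_XT2) (x3 : S_XT3) {n : ℕ} (hn : FundNeg n) {a c : ℤ}
    (hC : Cw a c) :
    (Sel (a ^ 2 * mm n) (-(c ^ 2 - a ^ 2) * mm n)).ncard ≤
      2 ^ (4 * omega a c + 5) * (Nat.card {d : ℕ // Dn n d}) ^ 2 := by
  obtain ⟨hM, hnM⟩ := ix_prop hn
  obtain ⟨M, hMe⟩ : ∃ M : ℕ, M = ix n := ⟨_, rfl⟩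
  obtain ⟨bad, hbe⟩ : ∃ b : ℤ, b = 2 * a * c * (c ^ 2 - a ^ 2) := ⟨_, rfl⟩
  rw [← hMe] at hM hnM
  have ha0 : a ≠ 0 := by
    have := hC.ha
    omega
  have hc0 := hC.h0
  have hb0 : c ^ 2 - a ^ 2 ≠ 0 := by
    intro h
    have h4 : c ^ 2 = a ^ 2 := by linarith
    have h1 := hC.ha
    have h2 := hC.hc
    rcases sq_eq_sq_iff_eq_or_eq_neg.mp h4 with h5 | h5 <;> omega
  have hbad0 : bad ≠ 0 := by
    rw [hbe]
    exact mul_ne_zero (mul_ne_zero (mul_ne_zero two_ne_zero ha0) hc0) hb0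
  set G : Finset ℕ := M.primeFactors.filter (fun p => ¬ (p : ℤ) ∣ bad) with hG
  set F : Finset ℕ := M.primeFactors.filter (fun p => (p : ℤ) ∣ bad) with hF
  set W : ℕ := ∏ p ∈ G, p with hWdef
  set u : ℕ := ∏ p ∈ F, p with hudef
  have huW : u * W = M := by
    rw [hudef, hWdef, hG, hF, Finset.prod_filter_mul_prod_filter_not,
      Nat.prod_primeFactors_of_squarefree hM]
  have hsq : Squarefree (u * W) := by rw [huW]; exact hM
  have hu0 : 0 < u := Nat.pos_of_ne_zero fun h => by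
    rw [h, zero_mul] at huW
    exact hM.ne_zero huW.symm
  obtain ⟨hcop, hus, hWs⟩ := Nat.squarefree_mul_iff.1 hsq
  have memG : ∀ p : ℕ, p.Prime → p ∣ W → p ∈ G := by
    intro p hp h
    obtain ⟨q, hq, h2⟩ := (Prime.dvd_finset_prod_iff hp.prime _).1 h
    have hq1 : q.Prime := (Nat.mem_primeFactors.1 (mem_filter.1 hq).1).1
    rw [(Nat.prime_dvd_prime_iff_eq hp hq1).1 h2]
    exact hq
  have memF : ∀ p : ℕ, p.Prime → p ∣ u → p ∈ F := by
    intro p hp h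
    obtain ⟨q, hq, h2⟩ := (Prime.dvd_finset_prod_iff hp.prime _).1 h
    have hq1 : q.Prime := (Nat.mem_primeFactors.1 (mem_filter.1 hq).1).1
    rw [(Nat.prime_dvd_prime_iff_eq hp hq1).1 h2]
    exact hq
  have hgood : ∀ p : ℕ, p.Prime → p ∣ W → ¬ (p : ℤ) ∣ 2 * a * c * (c ^ 2 - a ^ 2) := by
    intro p hp h
    rw [← hbe]
    exact (mem_filter.1 (memG p hp h)).2
  have hWodd : Odd W := by
    rw [← Nat.not_even_iff_odd, even_iff_two_dvd]
    intro h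
    exact hgood 2 Nat.prime_two h ⟨a * c * (c ^ 2 - a ^ 2), by push_cast; ring⟩
  have hm : mm n = -((u * W : ℕ) : ℤ) := by
    rw [huW, hMe]
    exact mm_ix n
  have hmsq : Squarefree (mm n) := by
    rw [hm, ← Int.squarefree_natAbs, Int.natAbs_neg, Int.natAbs_natCast]
    exact hsq
  have hWm : (W : ℤ) ∣ mm n := by
    rw [hm, dvd_neg]
    exact ⟨u, by push_cast; ring⟩
  have hbadp : ∀ q : ℕ, q.Prime → (q : ℤ) ∣ mm n → ¬ q ∣ W →
      (q : ℤ) ∣ 2 * a * c * (c ^ 2 - a ^ 2) := by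
    intro q hq h1 h2
    rw [hm, dvd_neg] at h1
    have h3 : q ∣ u * W := by exact_mod_cast h1
    rcases (Nat.Prime.dvd_mul hq).1 h3 with h4 | h4
    · rw [← hbe]
      exact (mem_filter.1 (memF q hq h4)).2
    · exact absurd h4 h2
  have s1 := sel_le hmsq hC hWodd hWs hWm hgood hbadp
  have s2 := x2 W (mm n) (c ^ 2 - a ^ 2) hWodd hWs hWm hmsq.ne_zero
  have e1 : -(mm n) = ((u * W : ℕ) : ℤ) := by rw [hm, neg_neg]
  rw [e1, hm] at s2
  have s3 := x1 W u hWodd hWs hcop.symm hu0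
  have s4 := x3 W u n hWodd hsq (by rw [huW]; exact hnM)
  have s5 : u.primeFactors.card ≤ omega a c := by
    unfold omega
    refine card_le_card fun q hq => ?_
    have hq1 := Nat.mem_primeFactors.1 hq
    rw [← hbe, Nat.mem_primeFactors]
    exact ⟨hq1.1, Int.natCast_dvd.1 (mem_filter.1 (memF q hq1.1 hq1.2.1)).2,
      Int.natAbs_ne_zero.2 hbad0⟩
  have e2 : Nat.card {d : ℕ // DnC n d} = Nat.card {d : ℕ // Dn n d} := rfl
  rw [e2] at s4
  obtain ⟨N, hN⟩ : ∃ N : ℕ, N = Nat.card {d : ℕ // Dn n d} := ⟨_, rfl⟩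
  rw [← hN] at s4 ⊢
  rw [← hm] at s2 s3
  have s6 : (GG W ((u * W : ℕ) : ℤ)).card ≤ 2 ^ omega a c * N :=
    s4.trans (Nat.mul_le_mul_right _ (Nat.pow_le_pow_right (by norm_num) s5))
  have s7 : (GG W (mm n)).card ≤ 2 * (2 ^ omega a c * N) := s3.trans (Nat.mul_le_mul_left _ s6)
  calc (Sel (a ^ 2 * mm n) (-(c ^ 2 - a ^ 2) * mm n)).ncard
      ≤ 4 ^ (omega a c + 2) * NL W (LQ (mm n) (c ^ 2 - a ^ 2)) := s1
    _ ≤ 4 ^ (omega a c + 2) * ((2 * (2 ^ omega a c * N)) * (2 ^ omega a c * N)) :=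
        Nat.mul_le_mul_left _ (s2.trans (Nat.mul_le_mul s7 s6))
    _ = 2 ^ (4 * omega a c + 5) * N ^ 2 := by
        have e3 : (4 : ℕ) ^ (omega a c + 2) = 2 ^ (2 * omega a c + 4) := by
          rw [show (4 : ℕ) = 2 ^ 2 by norm_num, ← pow_mul]
          congr 1
        rw [e3]
        ring

/-- **the bound for an arbitrary curve** -/
theorem gen_bound (H : Hyps) (x1 : S_XT1) (x2 : S_XT2) (x3 : S_XT3) {n : ℕ} (hn : All n)
    {a c : ℤ} (hC : Curve a c) :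
    AddGroup.FG (E a c n).toAffine.Point ∧ Finite {x : Sha (E a c n) // 2 • x = 0} ∧
      S (E a c n) ≤ 2 ^ (4 * omega a c + 5) * 4 ^ R4 n := by
  have hCw : Cw a c := ⟨hC.1, hC.2.1, hC.2.2.1, hC.2.2.2⟩
  obtain ⟨ha, hc, hb⟩ := Pool.Agent.N637.SLM.cv_ne hCw
  have hm : mm n ≠ 0 := by
    rw [mm_ix]
    have := (ix_prop hn.1).1.ne_zero
    omega
  have hA : a ^ 2 * mm n ≠ 0 := mul_ne_zero (pow_ne_zero 2 ha) hm
  have hB : -(c ^ 2 - a ^ 2) * mm n ≠ 0 := mul_ne_zero (neg_ne_zero.2 hb) hm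
  have hAB : a ^ 2 * mm n ≠ -(c ^ 2 - a ^ 2) * mm n := by
    intro h
    have h3 : c ^ 2 * mm n = 0 := by linear_combination h
    exact mul_ne_zero (pow_ne_zero 2 hc) hm h3
  have hfin : (SelG 0 (a ^ 2 * mm n) (-(c ^ 2 - a ^ 2) * mm n)).Finite := by
    rw [selG_eq]
    exact sel_fin Pool.Agent.W410.FK.seld hA hB hAB
  obtain ⟨h1, h2, h3⟩ := Pool.Agent.N637.SLX.t_SELQ (E a c n) 0 (a ^ 2 * mm n)
    (-(c ^ 2 - a ^ 2) * mm n) hA.symm hB.symm hAB (isR a c n) hfin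
  refine ⟨h1, h2, ?_⟩
  have h4 := sel_bound x1 x2 x3 hn.1 hCw
  rw [(four H hn).2.1] at h4
  have e1 : Nat.card {z : ℤ × ℤ // z ∈ SelG 0 (a ^ 2 * mm n) (-(c ^ 2 - a ^ 2) * mm n)} =
      (Sel (a ^ 2 * mm n) (-(c ^ 2 - a ^ 2) * mm n)).ncard := by
    rw [← selG_eq]
    rfl
  rw [e1] at h3
  rw [h3] at h4
  have h5 : 2 ^ Module.finrank ℤ (E a c n).toAffine.Point *
      Nat.card {x : Sha (E a c n) // 2 • x = 0} ≤ 2 ^ (4 * omega a c + 5) * 4 ^ R4 n := by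
    have e2 : 2 ^ (4 * omega a c + 5) * (2 ^ (R4 n + 1)) ^ 2 =
        4 * (2 ^ (4 * omega a c + 5) * 4 ^ R4 n) := by
      have e4 : (2 ^ (R4 n + 1)) ^ 2 = 4 * 4 ^ R4 n := by
        rw [← pow_mul, show (4 : ℕ) = 2 ^ 2 by norm_num, ← pow_mul, ← pow_add]
        congr 1
        ring
      rw [e4]
      ring
    rw [e2] at h4
    have e3 : 2 ^ Module.finrank ℤ (E a c n).toAffine.Point *
        (4 * Nat.card {x : Sha (E a c n) // 2 • x = 0}) =
        4 * (2 ^ Module.finrank ℤ (E a c n).toAffine.Point *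
        Nat.card {x : Sha (E a c n) // 2 • x = 0}) := by ring
    rw [e3] at h4
    omega
  unfold S rank
  exact_mod_cast h5

end Pool.Agent.N637.SLM.AN
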