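import Pool.Agent.N637.SLM.AN6
import Pool.Agent.N468.AN.CNT

/-!
# Project AN: the supremum of the ranks of the twists of all the curves
-/

set_option autoImplicit false
set_option linter.all false

open NumberField Filter Topology Finset

namespace Pool.Agent.N637.SLM.AN

open scoped Classical

open Pool.Agent.TH841.SH.D (Sha)
open Pool.Agent.N637.SLM.JL
open Pool.Agent.N637.SLM.AR
open Pool.Agent.N637.SLM (S_XT1 S_XT2 S_XT3 S_CNT144 fkl)
open Pool.Agent.N75.SLX (qp et)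

/-- the loss -/
noncomputable def loss (a c : ℤ) (n : ℕ) : ℕ := if Adm a c n then 0 else 4 * omega a c + 5

/-- the supremum over all the curves -/
noncomputable def top (n : ℕ) : ℕ :=
  sSup {k : ℕ | ∃ a c : ℤ, Curve a c ∧ k = rank (E a c n) - loss a c n}

/-- rank zero and trivial 2-part of the Tate-Shafarevich group -/
def Triv (W : WeierstrassCurve ℚ) : Prop := Finite W.toAffine.Point ∧
  ∀ (l : ℕ) (x : Sha W), (2 ^ l : ℕ) • x = 0 → x = 0

/-- upper density -/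
def UpperDensity (F Q : ℕ → Prop) (δ : ℝ) : Prop := ∀ ε : ℝ, 0 < ε → ∀ᶠ X : ℕ in atTop,
  (count (fun n => F n ∧ Q n) X : ℝ) ≤ (δ + ε) * count F X

lemma hC144 : S_CNT144 := Pool.Agent.N468.AN.t_CNT

lemma S_loss (H : Hyps) (x1 : S_XT1) (x2 : S_XT2) (x3 : S_XT3) {n : ℕ} (hn : All n)
    {a c : ℤ} (hC : Curve a c) : S (E a c n) ≤ 2 ^ loss a c n * 4 ^ R4 n := by
  unfold loss
  split_ifs with hA
  · rw [pow_zero, one_mul]
    exact (one_curve H hC hn.1 hA).2.2.2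
  · exact (gen_bound H x1 x2 x3 hn hC).2.2

lemma rank_loss (H : Hyps) (x1 : S_XT1) (x2 : S_XT2) (x3 : S_XT3) {n : ℕ} (hn : All n)
    {a c : ℤ} (hC : Curve a c) : rank (E a c n) ≤ loss a c n + 2 * R4 n := by
  have h1 := S_loss H x1 x2 x3 hn hC
  obtain ⟨-, h2, -⟩ := gen_bound H x1 x2 x3 hn hC
  have h3 : (1 : ℝ) ≤ (Nat.card {x : Sha (E a c n) // 2 • x = 0} : ℝ) := by
    haveI : Nonempty {x : Sha (E a c n) // 2 • x = 0} := ⟨⟨0, smul_zero 2⟩⟩
    exact_mod_cast Nat.card_pos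
  have h4 : (2 : ℝ) ^ rank (E a c n) ≤ 2 ^ (loss a c n + 2 * R4 n) := by
    calc (2 : ℝ) ^ rank (E a c n) = 2 ^ rank (E a c n) * 1 := (mul_one _).symm
      _ ≤ S (E a c n) := mul_le_mul_of_nonneg_left h3 (by positivity)
      _ ≤ 2 ^ loss a c n * 4 ^ R4 n := h1
      _ = 2 ^ (loss a c n + 2 * R4 n) := by
          rw [pow_add, pow_mul]
          norm_num
  exact (pow_le_pow_iff_right₀ (by norm_num)).1 h4

lemma top_bdd (H : Hyps) (x1 : S_XT1) (x2 : S_XT2) (x3 : S_XT3) {n : ℕ} (hn : All n) :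
    ∀ k ∈ {k : ℕ | ∃ a c : ℤ, Curve a c ∧ k = rank (E a c n) - loss a c n}, k ≤ 2 * R4 n := by
  rintro k ⟨a, c, hC, rfl⟩
  have := rank_loss H x1 x2 x3 hn hC
  omega

lemma rank_top (H : Hyps) (x1 : S_XT1) (x2 : S_XT2) (x3 : S_XT3) {n : ℕ} (hn : All n)
    {a c : ℤ} (hC : Curve a c) : rank (E a c n) ≤ top n + loss a c n := by
  have h : rank (E a c n) - loss a c n ≤ top n :=
    le_csSup ⟨2 * R4 n, fun k hk => top_bdd H x1 x2 x3 hn k hk⟩ ⟨a, c, hC, rfl⟩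
  omega

lemma top_le (H : Hyps) (x1 : S_XT1) (x2 : S_XT2) (x3 : S_XT3) {n : ℕ} (hn : All n) :
    top n ≤ 2 * R4 n :=
  csSup_le ⟨_, 1, 2, ⟨by norm_num, by norm_num, by norm_num, isCoprime_one_left⟩, rfl⟩
    fun k hk => top_bdd H x1 x2 x3 hn k hk

/-- the case of an admissible curve -/
lemma adm_case (H : Hyps) {n : ℕ} (hn : All n) {a c : ℤ} (hC : Curve a c) (hA : Adm a c n) :
    (2 : ℝ) ^ R4 n ≤ S (E a c n) ∧ (R4 n = 0 ↔ Triv (E a c n)) := by
  obtain ⟨-, -, h1, -⟩ := one_curve H hC hn.1 hA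
  refine ⟨h1, fun h => ?_, fun h => ?_⟩
  · have hF : Family (fun _ : Fin 1 => a) (fun _ => c) n := ⟨hn.1, fun _ => hA⟩
    have hk : 0 < 1 := one_pos
    have hC' : ∀ i : Fin 1, Curve ((fun _ : Fin 1 => a) i) ((fun _ : Fin 1 => c) i) := fun _ => hC
    have hJ := rs_joint H hk hC' hF
    have hP := rs_prop H hk hC' hF 0
    have hR := R4_rs H hk hC' hF
    have h2 : SelRank (E a c n) ((rs (fun _ : Fin 1 => a) (fun _ => c) n).2 0) := hJ.1 0
    rw [← hR, h] at hP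
    have h3 : (rs (fun _ : Fin 1 => a) (fun _ => c) n).2 0 = 0 := by
      have := hP.2.1
      omega
    rw [h3] at h2
    exact zero_case h2
  · obtain ⟨h2, h3⟩ := h
    by_contra h4
    have h5 : rank (E a c n) = 0 := by
      haveI := h2
      refine Module.finrank_eq_zero_iff_isTorsion.2 fun x => ?_
      refine ⟨⟨(Nat.card (E a c n).toAffine.Point : ℤ), mem_nonZeroDivisors_of_ne_zero ?_⟩, ?_⟩
      · exact_mod_cast Nat.card_pos.ne'
      · show (Nat.card (E a c n).toAffine.Point : ℤ) • x = 0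
        rw [natCast_zsmul]
        exact card_nsmul_eq_zero'
    have h6 : Nat.card {x : Sha (E a c n) // 2 • x = 0} = 1 := by
      rw [Nat.card_eq_one_iff_unique]
      refine ⟨⟨fun x y => Subtype.ext ?_⟩, ⟨⟨0, smul_zero 2⟩⟩⟩
      rw [h3 1 x.1 (by rw [pow_one]; exact x.2), h3 1 y.1 (by rw [pow_one]; exact y.2)]
    have h7 : S (E a c n) = 1 := by
      unfold S
      rw [h5, h6]
      norm_num
    rw [h7] at h1
    have h8 : (1 : ℝ) < 2 ^ R4 n := one_lt_pow₀ (by norm_num) h4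
    linarith

lemma count_mono {P Q : ℕ → Prop} (h : ∀ n, P n → Q n) (X : ℕ) : count P X ≤ count Q X := by
  unfold count
  exact card_le_card fun n hn => by
    rw [mem_filter] at hn ⊢
    exact ⟨hn.1, h n hn.2⟩

/-- each curve is admissible for a positive proportion of the `n` -/
lemma adm_pos {a c : ℤ} (hC : Curve a c) : ∃ δ : ℝ, 0 < δ ∧ ∀ᶠ X : ℕ in atTop,
    δ * X ≤ (count (fun n => All n ∧ Adm a c n) X : ℝ) := by
  obtain ⟨δ, hδ, h⟩ := fam_pos (k := 1) (a := fun _ => a) (c := fun _ => c) (fun _ => hC)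
    (Pool.Agent.N637.SLM.JL.result.1 a c hC)
  refine ⟨δ, hδ, ?_⟩
  filter_upwards [h] with X hX
  refine hX.trans ?_
  rw [Nat.cast_le]
  refine count_mono (fun n hn => ⟨⟨hn.1, ?_⟩, hn.2 0⟩) X
  rintro rfl
  have h3 : Adm a c 4 := hn.2 0
  have hL := Pool.Agent.N637.SLM.lm_of hn.1 ⟨hC.1, hC.2.1, hC.2.2.1, hC.2.2.2⟩ h3
  exact Pool.Agent.N637.SLM.ne_neg_one ⟨hC.1, hC.2.1, hC.2.2.1, hC.2.2.2⟩ hL (by
    unfold Pool.Agent.N637.SLK.mm
    norm_num)

lemma upper_le {F : ℕ → Prop} {g : ℕ → ℝ} {L L' : ℝ} (h : UpperMean F g L) (hL : L ≤ L') :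
    UpperMean F g L' := by
  intro ε hε
  filter_upwards [h ε hε] with X hX
  linarith

lemma dens_of {P : ℕ → Prop} {L : ℝ}
    (h : UpperMean All (fun n => if P n then 1 else 0) L) : UpperDensity All P L := by
  intro ε hε
  filter_upwards [h ε hε, all_cnt_pos] with X hX h2
  unfold avg at hX
  have h3 : (0 : ℝ) < count All X := h2
  rw [div_le_iff₀ h3, sum_boole, filter_filter, count_inst] at hX
  exact hX

/-- the tail of the law -/
lemma fk_le (r : ℕ) : fkl r ≤ 1 / 0.2887 * (1 / 2) ^ (r * r) := by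
  have hη : (0.2887 : ℝ) < et := Pool.Agent.N916.GB.eta_bounds.1
  have h0 : (0 : ℝ) < et := lt_trans (by norm_num) hη
  have h1 : fkl r = et / (2 ^ (r * r) * qp r ^ 2) := by
    unfold Pool.Agent.N637.SLM.fkl
    rw [Pool.Agent.N75.SLX.tail, Pool.Agent.N75.SLX.gl_eq]
    have := Pool.Agent.N75.SLX.qp_pos r
    field_simp
  have h2 : et ≤ qp r := Pool.Agent.N75.SLX.et_le r
  rw [h1, div_le_iff₀ (by have := Pool.Agent.N75.SLX.qp_pos r; positivity)]
  have e : 1 / 0.2887 * (1 / 2 : ℝ) ^ (r * r) * (2 ^ (r * r) * qp r ^ 2) =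
      1 / 0.2887 * ((1 / 2 : ℝ) ^ (r * r) * 2 ^ (r * r)) * qp r ^ 2 := by ring
  rw [e, ← mul_pow, show (1 / 2 : ℝ) * 2 = 1 by norm_num, one_pow, mul_one]
  have h3 : et * 1 ≤ et * (et / 0.2887) := by
    refine mul_le_mul_of_nonneg_left ?_ h0.le
    rw [le_div_iff₀ (by norm_num)]
    linarith
  have h4 : et * et ≤ qp r ^ 2 := by
    rw [pow_two]
    exact mul_le_mul h2 h2 h0.le (h0.le.trans h2)
  calc et = et * 1 := (mul_one _).symm
    _ ≤ et * (et / 0.2887) := h3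
    _ = 1 / 0.2887 * (et * et) := by ring
    _ ≤ 1 / 0.2887 * qp r ^ 2 := mul_le_mul_of_nonneg_left h4 (by norm_num)

lemma tail_le (r : ℕ) (hs : Summable fun l => fkl l * (if r < l then (1 : ℝ) else 0)) :
    ∑' l, fkl l * (if r < l then (1 : ℝ) else 0) ≤ 4 / 2 ^ (r + 1) ^ 2 := by
  rw [← hs.sum_add_tsum_nat_add (r + 1)]
  have h1 : ∑ l ∈ range (r + 1), fkl l * (if r < l then (1 : ℝ) else 0) = 0 :=
    sum_eq_zero fun l hl => by
      rw [mem_range] at hl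
      rw [if_neg (by omega), mul_zero]
  rw [h1, zero_add]
  have hg : HasSum (fun j : ℕ => 1 / 0.2887 * (1 / 2 : ℝ) ^ ((r + 1) ^ 2) * (1 / 8) ^ j)
      (1 / 0.2887 * (1 / 2 : ℝ) ^ ((r + 1) ^ 2) * (8 / 7)) := by
    have h := (hasSum_geometric_of_lt_one (r := (1 / 8 : ℝ)) (by norm_num) (by norm_num)).mul_left
      (1 / 0.2887 * (1 / 2 : ℝ) ^ ((r + 1) ^ 2))
    have e : (1 - (1 / 8 : ℝ))⁻¹ = 8 / 7 := by norm_num
    rwa [e] at h
  have hs2 := (summable_nat_add_iff (r + 1)).2 hs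
  refine (hs2.tsum_le_tsum (fun j => ?_) hg.summable).trans ?_
  · rw [if_pos (by omega), mul_one]
    refine (fk_le _).trans ?_
    rw [mul_assoc]
    refine mul_le_mul_of_nonneg_left ?_ (by norm_num)
    have e : (1 / 8 : ℝ) ^ j = (1 / 2) ^ (3 * j) := by
      rw [pow_mul]
      norm_num
    rw [e, ← pow_add]
    refine pow_le_pow_of_le_one (by norm_num) (by norm_num) ?_
    nlinarith [Nat.zero_le (r * j), Nat.zero_le (j * j), Nat.zero_le j, Nat.le_mul_self j]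
  · rw [hg.tsum_eq]
    have e : (1 / 2 : ℝ) ^ ((r + 1) ^ 2) = 1 / 2 ^ (r + 1) ^ 2 := one_div_pow _ _
    rw [e]
    have h5 : (0 : ℝ) < 2 ^ (r + 1) ^ 2 := by positivity
    rw [div_eq_mul_one_div (4 : ℝ)]
    have h6 : (0 : ℝ) ≤ 1 / 2 ^ (r + 1) ^ 2 := by positivity
    nlinarith

/-- **Main theorem** -/
theorem main (x1 : S_XT1) (x2 : S_XT2) (x3 : S_XT3) : (0.2887 < eta ∧ eta < 0.2889) ∧
    (∀ a c : ℤ, Curve a c → ∃ δ : ℝ, 0 < δ ∧ ∀ᶠ X : ℕ in atTop,
      δ * X ≤ (count (fun n => All n ∧ Adm a c n) X : ℝ)) ∧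
    ∃ R : ℕ → ℕ,
    (∀ n : ℕ, All n →
      (∀ (K : Type) [Field K] [NumberField K], IsQuad n K → FourRank K (R n)) ∧
      ∀ a c : ℤ, Curve a c → AddGroup.FG (E a c n).toAffine.Point ∧
        Finite {x : Sha (E a c n) // 2 • x = 0} ∧ S (E a c n) ≤ 2 ^ loss a c n * 4 ^ R n ∧
        (Adm a c n → (2 : ℝ) ^ R n ≤ S (E a c n) ∧ (R n = 0 ↔ Triv (E a c n)))) ∧
    (∀ r : ℕ, Density All (fun n => R n = r) (fk r)) ∧
    (∀ r : ℕ, UpperDensity All (fun n => ∃ a c : ℤ, Curve a c ∧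
      2 ^ loss a c n * 4 ^ r < S (E a c n)) (4 / 2 ^ (r + 1) ^ 2)) ∧
    (∀ n : ℕ, All n → (∀ a c : ℤ, Curve a c → rank (E a c n) ≤ top n + loss a c n) ∧
      top n ≤ 2 * R n) ∧
    UpperMean All (fun n => (top n : ℝ)) (3 / 2 + 25 / 36 * eta) ∧
    UpperMean All (fun n => (2 : ℝ) ^ top n) 5 ∧
    ∀ K : ℕ, Summable (fun r => fk r * 4 ^ (K * r)) ∧
      UpperMean All (fun n => (2 : ℝ) ^ (K * top n)) (∑' r, fk r * 4 ^ (K * r)) := by
  have H := hyps
  have hexp : ∀ K : ℕ, Summable (fun r => fkl r * 4 ^ (K * r)) ∧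
      UpperMean All (fun n => (2 : ℝ) ^ (K * top n)) (∑' r, fkl r * 4 ^ (K * r)) := by
    intro K
    obtain ⟨g1, g2⟩ := mean_all H hC144 (fun r => 4 ^ (K * r)) 1 (2 * K) (fun r => by
      refine le_of_eq ?_
      rw [abs_of_nonneg (by positivity), one_mul, show (4 : ℝ) = 2 ^ 2 by norm_num, ← pow_mul]
      congr 1
      ring)
    refine ⟨g1, upper_of (fun n hn => ?_) g2⟩
    have e : (4 : ℝ) ^ (K * R4 n) = 2 ^ (K * (2 * R4 n)) := by
      rw [show K * (2 * R4 n) = 2 * (K * R4 n) by ring, pow_mul 2 2]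
      norm_num
    rw [e]
    exact pow_le_pow_right₀ (by norm_num) (Nat.mul_le_mul_left _ (top_le H x1 x2 x3 hn))
  refine ⟨Pool.Agent.N637.SLM.JL.result.2.1, fun a c hC => adm_pos hC, R4,
    fun n hn => ⟨(four H hn).1, fun a c hC => ?_⟩, dens_all H, fun r => ?_,
    fun n hn => ⟨fun a c hC => rank_top H x1 x2 x3 hn hC, top_le H x1 x2 x3 hn⟩, ?_, ?_, hexp⟩
  · obtain ⟨g1, g2, -⟩ := gen_bound H x1 x2 x3 hn hC
    exact ⟨g1, g2, S_loss H x1 x2 x3 hn hC, fun hA => adm_case H hn hC hA⟩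
  · obtain ⟨g1, g2⟩ := mean_all H hC144 (fun l => if r < l then 1 else 0) 1 0 (fun l => by
      rw [zero_mul, pow_zero, mul_one]
      split_ifs <;> norm_num)
    refine dens_of (upper_le (upper_of (fun n hn => ?_) g2) (tail_le r g1))
    by_cases h : ∃ a c : ℤ, Curve a c ∧ 2 ^ loss a c n * 4 ^ r < S (E a c n)
    · rw [if_pos h]
      obtain ⟨a, c, hC, h1⟩ := h
      have h2 := h1.trans_le (S_loss H x1 x2 x3 hn hC)
      have h3 : (4 : ℝ) ^ r < 4 ^ R4 n := lt_of_mul_lt_mul_left h2 (by positivity)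
      have h4 : r < R4 n := (pow_lt_pow_iff_right₀ (by norm_num)).1 h3
      rw [if_pos h4]
    · rw [if_neg h]
      split_ifs <;> norm_num
  · obtain ⟨g1, g2⟩ := mean_all H hC144 gr 3 1 gr_abs
    have h3 := gr_sum hF Pool.Agent.N106.SLA.EV.fkl_one Pool.Agent.N106.SLA.EV.fkl_two
    rw [h3.tsum_eq] at g2
    refine upper_of (fun n hn => ?_) g2
    refine le_trans ?_ (two_mul_le_gr _)
    exact_mod_cast top_le H x1 x2 x3 hn
  · have h1 := (hexp 1).2
    have h2 : HasSum (fun r => fkl r * 4 ^ (1 * r)) 5 := by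
      simp only [one_mul]
      exact hF.2.2.2
    rw [h2.tsum_eq] at h1
    simp only [one_mul] at h1
    exact h1

end Pool.Agent.N637.SLM.AN
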