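import Pool.Agent.N490.AN.XT1

/-!
# Project AN: the pairs (XT2)
-/

set_option autoImplicit false

namespace Pool.Agent.N637.SLM.AN

open Finset Pool.Agent.N637.SLM
open Pool.Agent.W262.RK (dv sgn sg0 NL)
open Pool.Agent.N490.AN (PP Phi bz MM MM_apply sgn_Phi dv_Phi Phi_surj Phi_inj bz_and card_GG)

lemma bz_xor (a b : Bool) : bz (xor a b) = bz a + bz b := by
  cases a <;> cases b <;> decide

/-- the vector of a divisor -/
def vv (W : ℕ) (d : ℕ) : PP W → ZMod 2 := fun p => bz (dv p (d : ℤ))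

lemma Phi_vv {W : ℕ} (hW : Squarefree W) {d : ℕ} (hd : d ∣ W) : Phi (vv W d) = d := by
  obtain ⟨y, rfl⟩ := Phi_surj hW d hd
  congr 1
  funext p
  exact dv_Phi y p

/-- the matrix and the symbols -/
lemma MM_sgn {W : ℕ} (hW : Squarefree W) (m : ℤ) {d : ℕ} (hd : d ∣ W) (p : PP W) :
    (MM W m).mulVec (vv W d) p = bz (sgn p m) * bz (dv p (d : ℤ)) + bz (sgn p (d : ℤ)) := by
  rw [MM_apply, ← sgn_Phi, Phi_vv hW hd]
  rfl

theorem t_XT2' : S_XT2 := by
  classical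
  intro W m b _ hW _ _
  unfold NL
  set S : Finset (ℕ × ℕ) := (W.divisors ×ˢ W.divisors).filter (fun d : ℕ × ℕ => ∀ p ∈ W.primeFactors,
    LQ m b p (dv p d.1) (dv p d.2) (sgn p d.1) (sgn p d.2)) with hS
  have hmem : ∀ x ∈ S, x.1 ∣ W ∧ x.2 ∣ W ∧ ∀ p ∈ W.primeFactors,
      LQ m b p (dv p x.1) (dv p x.2) (sgn p x.1) (sgn p x.2) := by
    intro x hx
    rw [hS, Finset.mem_filter, Finset.mem_product, Nat.mem_divisors, Nat.mem_divisors] at hx
    exact ⟨hx.1.1.1, hx.1.2.1, hx.2⟩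
  have hc : ∀ x ∈ S, (MM W m).mulVec (vv W x.1) = fun p : PP W => bz (dv p (x.2 : ℤ)) * bz (sg0 p (-b)) := by
    intro x hx
    obtain ⟨h1, -, h3⟩ := hmem x hx
    funext p
    rw [MM_sgn hW m h1 p]
    have h4 := (h3 p p.2).2
    rw [h4, bz_xor, bz_and, bz_and, mul_comm (bz (sgn p m)), ← add_assoc, CharTwo.add_self_eq_zero, zero_add]
  have key := Finset.card_le_mul_card_image (f := Prod.snd) S (GG W m).card (by
    intro d2 hd2
    obtain ⟨e, he, rfl⟩ := Finset.mem_image.1 hd2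
    rw [card_GG hW m]
    refine Finset.card_le_card_of_injOn (fun x => vv W x.1 + vv W e.1) ?_ ?_
    · intro x hx
      have hx' := Finset.mem_filter.1 (Finset.mem_coe.1 hx)
      refine Finset.mem_coe.2 (Finset.mem_filter.2 ⟨Finset.mem_univ _, ?_⟩)
      show (MM W m).mulVec (vv W x.1 + vv W e.1) = 0
      rw [Matrix.mulVec_add, hc x hx'.1, hc e he, hx'.2]
      funext p
      exact CharTwo.add_self_eq_zero (bz (dv p (e.2 : ℤ)) * bz (sg0 p (-b)))
    · intro x hx x' hx' h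
      have hx := Finset.mem_filter.1 (Finset.mem_coe.1 hx)
      have hx' := Finset.mem_filter.1 (Finset.mem_coe.1 hx')
      have h1 : vv W x.1 = vv W x'.1 := add_right_cancel h
      have h2 : x.1 = x'.1 := by
        rw [← Phi_vv hW (hmem x hx.1).1, ← Phi_vv hW (hmem x' hx'.1).1, h1]
      exact Prod.ext h2 (hx.2.trans hx'.2.symm))
  refine key.trans (Nat.mul_le_mul_left _ (Finset.card_le_card ?_))
  intro d2 hd2
  obtain ⟨x, hx, rfl⟩ := Finset.mem_image.1 hd2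
  obtain ⟨-, h2, h3⟩ := hmem x hx
  unfold GG
  rw [Finset.mem_filter, Nat.mem_divisors]
  exact ⟨⟨h2, hW.ne_zero⟩, fun p hp => (h3 p hp).1⟩

end Pool.Agent.N637.SLM.AN
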