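import Pool.Agent.N637.SLM.AN7
import Pool.Agent.N637.SLM.XT2
import Pool.Agent.N490.AN.XT1
import Pool.Agent.N849.AN.XT3

/-!
# Project AN: the leaves
-/

namespace Pool.Agent.N637.SLM.AN

theorem hx1 : Pool.Agent.N637.SLM.S_XT1 := Pool.Agent.N490.AN.t_XT1

theorem hx2 : Pool.Agent.N637.SLM.S_XT2 := t_XT2'

theorem hx3 : Pool.Agent.N637.SLM.S_XT3 := Pool.Agent.N849.AN.t_XT3

end Pool.Agent.N637.SLM.AN
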