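import Pool.Agent.N870.SQ.Fix
import Pool.Agent.TH841.PT.Fam3

/-!
# Project SLA: the moments of `2 ^ rank * #Ш[2]` in the twist family are bounded

After `Pool/Agent/N870/EC/Pen.lean` and `Pen3.lean` (helper870).
-/

set_option autoImplicit false
set_option linter.all false

namespace Pool.Agent.N637.SLM.MB

open Finset Polynomial

open scoped Classical

open Pool.Agent.W307.SE (Loc Sel SN SN_nonneg sel_fin)
open Pool.Agent.N870.SQ (Lev Adm LeA)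
open Pool.Agent.TH841.PT (EQ)
open Pool.Agent.TH841.SH.D (rk ShaTor)

/-- the integers of an interval are equidistributed modulo all integers up to its length -/
lemma lev_int (M : ℕ) (hM : 1 ≤ M) : Lev M M (fun i => (i : ℤ)) := by
  intro m hm _ r
  have hM0 : (0 : ℝ) < M := by exact_mod_cast hM
  rw [div_self hM0.ne']
  have hm0 : (0 : ℤ) < m := by exact_mod_cast hm
  have h1 : (((Icc 1 M).filter (fun i : ℕ => (m : ℤ) ∣ (i : ℤ) - r)).card : ℤ) =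
      ((Ioc (0 : ℤ) M).filter (fun x : ℤ => x ≡ r [ZMOD m])).card := by
    congr 1
    apply card_bij (fun (i : ℕ) _ => (i : ℤ))
    · intro i hi
      rw [mem_filter, mem_Icc] at hi
      rw [mem_filter, mem_Ioc]
      refine ⟨⟨by omega, by omega⟩, ?_⟩
      have h2 : r ≡ i [ZMOD m] := by
        rw [Int.modEq_iff_dvd]
        exact hi.2
      exact h2.symm
    · intro i _ j _ h
      exact_mod_cast h
    · intro x hx
      rw [mem_filter, mem_Ioc] at hx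
      refine ⟨x.toNat, ?_, by simp; omega⟩
      have hx0 : ((x.toNat : ℕ) : ℤ) = x := Int.toNat_of_nonneg (by omega)
      rw [mem_filter, mem_Icc]
      refine ⟨⟨by omega, by omega⟩, ?_⟩
      rw [hx0]
      have h2 := hx.2.symm
      rw [Int.modEq_iff_dvd] at h2
      exact h2
  have h2 := Int.Ioc_filter_modEq_card (0 : ℤ) (M : ℤ) hm0 r
  rw [← h1] at h2
  obtain ⟨c, hc⟩ : ∃ c : ℕ, c = ((Icc 1 M).filter (fun i : ℕ => (m : ℤ) ∣ (i : ℤ) - r)).card :=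
    ⟨_, rfl⟩
  have hcd : (((Icc 1 M).filter (fun i : ℕ => (m : ℤ) ∣ (fun i : ℕ => (i : ℤ)) i - r)).card : ℝ) =
      c := by rw [hc]
  rw [hcd]
  rw [← hc] at h2
  have hle : ⌊((0 : ℤ) - (r : ℤ) : ℚ) / ((m : ℤ) : ℚ)⌋ ≤
      ⌊((M : ℤ) - (r : ℤ) : ℚ) / ((m : ℤ) : ℚ)⌋ := by
    apply Int.floor_le_floor
    apply div_le_div_of_nonneg_right _ (by positivity)
    push_cast
    have : (0 : ℚ) ≤ (M : ℚ) := by positivity
    linarith
  rw [max_eq_left (by push_cast at hle ⊢; linarith)] at h2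
  have hmr : (0 : ℚ) < ((m : ℤ) : ℚ) := by exact_mod_cast hm0
  have f1 := Int.floor_le (((M : ℤ) - (r : ℤ) : ℚ) / ((m : ℤ) : ℚ))
  have f2 := Int.lt_floor_add_one (((M : ℤ) - (r : ℤ) : ℚ) / ((m : ℤ) : ℚ))
  have f3 := Int.floor_le (((0 : ℤ) - (r : ℤ) : ℚ) / ((m : ℤ) : ℚ))
  have f4 := Int.lt_floor_add_one (((0 : ℤ) - (r : ℤ) : ℚ) / ((m : ℤ) : ℚ))
  have hq : (c : ℚ) = (⌊((M : ℤ) - (r : ℤ) : ℚ) / ((m : ℤ) : ℚ)⌋ : ℚ) -
      (⌊((0 : ℤ) - (r : ℤ) : ℚ) / ((m : ℤ) : ℚ)⌋ : ℚ) := by exact_mod_cast h2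
  have hsub : ((M : ℤ) - (r : ℤ) : ℚ) / ((m : ℤ) : ℚ) -
      ((0 : ℤ) - (r : ℤ) : ℚ) / ((m : ℤ) : ℚ) = (M : ℚ) / (m : ℚ) := by
    push_cast
    ring
  have hq2 : |(c : ℚ) - (M : ℚ) / (m : ℚ)| ≤ 1 := by
    rw [abs_le]
    constructor <;> linarith
  have : ((|(c : ℚ) - (M : ℚ) / (m : ℚ)| : ℚ) : ℝ) ≤ 1 := by exact_mod_cast hq2
  push_cast at this
  exact this

/-- the intervals are admissible -/
lemma adm_int (M : ℕ) (hM : 2 ≤ M) : Adm 1 M M (fun i => (i : ℤ)) := by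
  refine ⟨hM, lev_int M (by omega), fun i hi => ?_⟩
  rw [mem_Icc] at hi
  rw [pow_one, Int.natAbs_natCast]
  exact hi.2

/-- `2 ^ rank * #Ш[2]` -/
noncomputable def wt (W : WeierstrassCurve ℚ) : ℝ := (2 : ℝ) ^ rk W * (Nat.card (ShaTor W 2) : ℝ)

lemma wt_nonneg (W : WeierstrassCurve ℚ) : 0 ≤ wt W := by
  unfold wt
  positivity

lemma wt_le {A B : ℤ} (hA : A ≠ 0) (hB : B ≠ 0) (hAB : A ≠ B) : wt (EQ A B) ≤ SN A B := by
  have h := (Pool.Agent.TH841.PT.bd_EQ hA hB hAB).wt_le (le_refl 1)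
  unfold Pool.Agent.TH841.SH.wt at h
  rw [pow_one, Nat.cast_one, div_one, Real.rpow_one] at h
  exact h

/-- the moments are bounded -/
theorem t_MB (a c : ℤ) (ha : a ≠ 0) (hc : c ≠ 0) (hb : c ^ 2 - a ^ 2 ≠ 0) (K : ℕ) :
    ∃ C : ℝ, 0 ≤ C ∧ ∀ M : ℕ, ∑ t ∈ Icc 1 M,
      (wt (EQ (a ^ 2 * -(t : ℤ)) (-(c ^ 2 - a ^ 2) * -(t : ℤ)))) ^ K ≤ C * M := by
  obtain ⟨C, hC0, hC⟩ := Pool.Agent.N870.SQ.snA_sq ![-a ^ 2, c ^ 2 - a ^ 2, -c ^ 2]
    (by
      intro k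
      fin_cases k
      · show -a ^ 2 ≠ 0
        exact neg_ne_zero.2 (pow_ne_zero 2 ha)
      · exact hb
      · show -c ^ 2 ≠ 0
        exact neg_ne_zero.2 (pow_ne_zero 2 hc))
    (by show -a ^ 2 - (c ^ 2 - a ^ 2) = -c ^ 2; ring) X
    (by
      have e : Pool.Agent.TH841.PT.mQ X = (X : ℚ[X]) := by
        unfold Pool.Agent.TH841.PT.mQ
        rw [Polynomial.map_X]
      rw [e]
      exact Polynomial.irreducible_X.squarefree) K 1
  obtain ⟨C1, hC1⟩ : ∃ C1 : ℝ, C1 =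
    (wt (EQ (a ^ 2 * -(((1 : ℕ)) : ℤ)) (-(c ^ 2 - a ^ 2) * -(((1 : ℕ)) : ℤ)))) ^ K := ⟨_, rfl⟩
  have hC10 : 0 ≤ C1 := by
    rw [hC1]
    exact pow_nonneg (wt_nonneg _) _
  refine ⟨C + C1, add_nonneg hC0 hC10, fun M => ?_⟩
  rcases Nat.lt_or_ge M 2 with h2 | h2
  · rcases Nat.lt_or_ge M 1 with h1 | h1
    · have : M = 0 := by omega
      subst this
      simp
    · have : M = 1 := by omega
      subst this
      rw [Icc_self, sum_singleton, ← hC1, Nat.cast_one, mul_one]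
      linarith
  · have h := hC M M (fun i => (i : ℤ)) (adm_int M h2) (Icc 1 M) (subset_refl _) (fun t ht => by
      show eval (t : ℤ) X ≠ 0
      rw [eval_X]
      have := (mem_Icc.1 ht).1
      omega)
    calc ∑ t ∈ Icc 1 M, (wt (EQ (a ^ 2 * -(t : ℤ)) (-(c ^ 2 - a ^ 2) * -(t : ℤ)))) ^ K
        ≤ ∑ t ∈ Icc 1 M, SN ((![-a ^ 2, c ^ 2 - a ^ 2, -c ^ 2] : Fin 3 → ℤ) 0 * X.eval (t : ℤ))
          ((![-a ^ 2, c ^ 2 - a ^ 2, -c ^ 2] : Fin 3 → ℤ) 1 * X.eval (t : ℤ)) ^ K := by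
          refine sum_le_sum fun t ht => pow_le_pow_left₀ (wt_nonneg _) ?_ K
          have ht0 : (t : ℤ) ≠ 0 := by
            have := (mem_Icc.1 ht).1
            omega
          rw [eval_X]
          have e1 : a ^ 2 * -(t : ℤ) = (![-a ^ 2, c ^ 2 - a ^ 2, -c ^ 2] : Fin 3 → ℤ) 0 * (t : ℤ) := by
            show a ^ 2 * -(t : ℤ) = -a ^ 2 * (t : ℤ)
            ring
          have e2 : -(c ^ 2 - a ^ 2) * -(t : ℤ) =
              (![-a ^ 2, c ^ 2 - a ^ 2, -c ^ 2] : Fin 3 → ℤ) 1 * (t : ℤ) := by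
            show -(c ^ 2 - a ^ 2) * -(t : ℤ) = (c ^ 2 - a ^ 2) * (t : ℤ)
            ring
          rw [← e1, ← e2]
          refine wt_le (mul_ne_zero (pow_ne_zero 2 ha) (neg_ne_zero.2 ht0))
            (mul_ne_zero (neg_ne_zero.2 hb) (neg_ne_zero.2 ht0)) fun he => ?_
          have h3 : c ^ 2 * (t : ℤ) = 0 := by linear_combination -he
          exact mul_ne_zero (pow_ne_zero 2 hc) ht0 h3
      _ ≤ C * M := h
      _ ≤ (C + C1) * M := by
          have : 0 ≤ C1 * M := by positivity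
          linarith

end Pool.Agent.N637.SLM.MB
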