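import Pool.Agent.N637.SLK.Lin

/-!
# Project SLM (helper637): averages over the family, means under the law
-/

set_option autoImplicit false
set_option linter.unusedVariables false

open scoped Classical

namespace Pool.Agent.N637.SLM

open Finset Filter Topology
open Pool.Agent.N637.SLK (plF)
open Pool.Agent.N637.SLX (alt gl)

/-- SLM-AVL: from the densities of the points and a bound for the second moment to the averages. -/
def S_AVL : Prop := ∀ (α : Type) [Countable α] (F : ℕ → Prop) (x : ℕ → α) (p f : α → ℝ) (C : ℝ),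
  (∀ a, 0 ≤ p a) → HasSum p 1 →
  (∀ a, Tendsto (fun X : ℕ => (((Icc 1 X).filter fun n => F n ∧ x n = a).card : ℝ) /
    (((Icc 1 X).filter fun n => F n).card : ℝ)) atTop (𝓝 (p a))) →
  (∀ᶠ X : ℕ in atTop, 0 < (((Icc 1 X).filter fun n => F n).card : ℝ)) →
  (∀ᶠ X : ℕ in atTop, ∑ n ∈ (Icc 1 X).filter (fun n => F n), (f (x n)) ^ 2 ≤
    C * (((Icc 1 X).filter fun n => F n).card : ℝ)) →
  Summable (fun a => p a * f a) ∧
  Tendsto (fun X : ℕ => (∑ n ∈ (Icc 1 X).filter (fun n => F n), f (x n)) /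
    (((Icc 1 X).filter fun n => F n).card : ℝ)) atTop (𝓝 (∑' a, p a * f a))

/-- the law of Fouvry and Klüners -/
noncomputable def fkl (r : ℕ) : ℝ := (∏' l : ℕ, (1 - (1 / 2 : ℝ) ^ (r + 1 + l))) / (gl r : ℝ)

/-- SLM-EV: means under the laws. -/
def S_EV : Prop :=
  (∀ r, 0 ≤ fkl r) ∧ HasSum fkl 1 ∧ HasSum (fun r => fkl r * 2 ^ r) 2 ∧
  HasSum (fun r => fkl r * 4 ^ r) 5 ∧
  (∀ (k : ℕ) (i : Fin k), HasSum (fun x : ℕ × (Fin k → ℕ) => plF x * 2 ^ (x.2 i)) 4) ∧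
  (∀ (k : ℕ) (i : Fin k), HasSum (fun x : ℕ × (Fin k → ℕ) => plF x * 4 ^ (x.2 i)) 31) ∧
  ∀ (k : ℕ) (i j : Fin k), i ≠ j →
    HasSum (fun x : ℕ × (Fin k → ℕ) => plF x * (2 ^ (x.2 i) * 2 ^ (x.2 j))) 25

/-- SLM-ALT4: the second moment of the number of the elements of the kernel of a random alternating matrix. -/
def S_ALT4 : Prop := ∀ r : ℕ, ∑ j ∈ range (r + 1), (alt r j : ℝ) * 4 ^ j =
  2 ^ (r * (r - 1) / 2) * (15 - 30 / 2 ^ r + 16 / 4 ^ r)

/-- SLM-FKM: the moments of the law of Fouvry and Klüners. -/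
def S_FKM : Prop := (∀ r, 0 ≤ fkl r) ∧ HasSum fkl 1 ∧ HasSum (fun r => fkl r * 2 ^ r) 2 ∧
  HasSum (fun r => fkl r * 4 ^ r) 5

end Pool.Agent.N637.SLM
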