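import Pool.Agent.N637.SLM.JL
import Pool.Agent.N637.SLM.MB
import Pool.Agent.N637.SLM.Stm5

/-!
# Project SLA: averages in the twist families
-/

set_option autoImplicit false
set_option linter.all false

open NumberField Filter Topology Finset

namespace Pool.Agent.N637.SLM.AR

open scoped Classical

open Pool.Agent.TH841.SH.D (Sha rk ShaTor)
open Pool.Agent.N637.SLM.JL
open Pool.Agent.N637.SLM (S_AVL S_EV S_FKM fkl)
open Pool.Agent.TH841.PT (EQ)
open Pool.Agent.N637.SLM.MB (wt wt_nonneg t_MB)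

/-- the rank -/
noncomputable def rank (W : WeierstrassCurve ℚ) : ℕ := Module.finrank ℤ W.toAffine.Point

/-- `2 ^ rank * #Ш[2]` -/
noncomputable def S (W : WeierstrassCurve ℚ) : ℝ :=
  (2 : ℝ) ^ rank W * (Nat.card {x : Sha W // 2 • x = 0} : ℝ)

/-- the average over the members `n ≤ X` of the family -/
noncomputable def avg (F : ℕ → Prop) (g : ℕ → ℝ) (X : ℕ) : ℝ :=
  (∑ n ∈ (Icc 1 X).filter (fun n => F n), g n) / (count F X : ℝ)

/-- the mean value of `g` over the family is `L` -/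
def Mean (F : ℕ → Prop) (g : ℕ → ℝ) (L : ℝ) : Prop := Tendsto (avg F g) atTop (𝓝 L)

/-- the upper mean value of `g` over the family is at most `L` -/
def UpperMean (F : ℕ → Prop) (g : ℕ → ℝ) (L : ℝ) : Prop :=
  ∀ ε : ℝ, 0 < ε → ∀ᶠ X : ℕ in atTop, avg F g X ≤ L + ε

variable {k : ℕ} {a c : Fin k → ℤ}

lemma cnt_eq (F : ℕ → Prop) (X : ℕ) : (((Icc 1 X).filter (fun n => F n)).card : ℝ) = count F X := by
  unfold count
  rfl

lemma count_inst' {Q : ℕ → Prop} (inst : DecidablePred Q) (X : ℕ) :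
    (@Finset.filter ℕ Q inst (Icc 1 X)).card = count Q X :=
  @count_inst Q inst X

lemma upper_of {F : ℕ → Prop} {g h : ℕ → ℝ} {L : ℝ} (hgh : ∀ n, F n → g n ≤ h n) (hh : Mean F h L) :
    UpperMean F g L := by
  intro ε hε
  filter_upwards [hh.eventually (gt_mem_nhds (show L < L + ε by linarith))] with X hX
  refine le_trans ?_ hX.le
  unfold avg
  exact div_le_div_of_nonneg_right (sum_le_sum fun n hn => hgh n (mem_filter.1 hn).2)
    (Nat.cast_nonneg _)

lemma S_eq {n : ℕ} {x : ℕ × (Fin k → ℕ)} (h : Joint a c x n) (i : Fin k) :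
    S (E (a i) (c i) n) = 2 ^ (x.2 i) := by
  have h1 := (h.1 i).2.2
  unfold S rank
  exact_mod_cast h1

/-- the twist in terms of the family of the moment bound -/
lemma E_eq (a c : ℤ) (n t : ℕ) (h : m n = -(t : ℤ)) :
    E a c n = EQ (a ^ 2 * -(t : ℤ)) (-(c ^ 2 - a ^ 2) * -(t : ℤ)) := by
  unfold E EQ
  rw [h]
  push_cast
  congr 1
  · ring
  · ring

lemma S_wt (W : WeierstrassCurve ℚ) : S W = wt W := rfl

/-- the moments are bounded -/
theorem mom_bound (hk : 0 < k) (h1 : ∀ i, Curve (a i) (c i)) (h2 : Compatible a c) (i : Fin k)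
    (K : ℕ) : ∃ C : ℝ, 0 ≤ C ∧ ∀ᶠ X : ℕ in atTop,
      ∑ n ∈ (Icc 1 X).filter (fun n => Family a c n), S (E (a i) (c i) n) ^ K ≤
        C * (count (Family a c) X : ℝ) := by
  obtain ⟨δ, hδ, hpos⟩ := fam_pos h1 h2
  obtain ⟨u1, u2, u3⟩ := Pool.Agent.N637.SLM.cv_ne (cvs h1 i)
  obtain ⟨C, hC0, hC⟩ := t_MB (a i) (c i) u1 u2 u3 K
  refine ⟨2 * C / δ, by positivity, ?_⟩
  filter_upwards [hpos] with X hX
  set g : ℕ → ℝ := fun t => (wt (EQ (a i ^ 2 * -(t : ℤ)) (-(c i ^ 2 - a i ^ 2) * -(t : ℤ)))) ^ K with hg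
  have hg0 : ∀ t, 0 ≤ g t := fun t => pow_nonneg (wt_nonneg _) _
  have hX1 : ∑ n ∈ (Icc 1 X).filter (fun n => Family a c n), S (E (a i) (c i) n) ^ K ≤
      2 * (C * X) := by
    rw [← sum_filter_add_sum_filter_not _ (fun n => n % 2 = 1), two_mul]
    refine add_le_add ?_ ?_
    · calc ∑ n ∈ ((Icc 1 X).filter (fun n => Family a c n)).filter (fun n => n % 2 = 1),
            S (E (a i) (c i) n) ^ K
          = ∑ n ∈ ((Icc 1 X).filter (fun n => Family a c n)).filter (fun n => n % 2 = 1), g n := by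
            refine sum_congr rfl fun n hn => ?_
            have h3 := (mem_filter.1 hn).2
            rw [S_wt, E_eq (a i) (c i) n n (if_pos h3)]
        _ ≤ ∑ n ∈ Icc 1 X, g n := sum_le_sum_of_subset_of_nonneg
            ((filter_subset _ _).trans (filter_subset _ _)) fun _ _ _ => hg0 _
        _ ≤ C * X := hC X
    · calc ∑ n ∈ ((Icc 1 X).filter (fun n => Family a c n)).filter (fun n => ¬ n % 2 = 1),
            S (E (a i) (c i) n) ^ K
          = ∑ n ∈ ((Icc 1 X).filter (fun n => Family a c n)).filter (fun n => ¬ n % 2 = 1),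
              g (n / 4) := by
            refine sum_congr rfl fun n hn => ?_
            have h3 := (mem_filter.1 hn).2
            rw [S_wt, E_eq (a i) (c i) n (n / 4) (if_neg h3)]
        _ = ∑ t ∈ (((Icc 1 X).filter (fun n => Family a c n)).filter (fun n => ¬ n % 2 = 1)).image
              (fun n => n / 4), g t := by
            rw [sum_image]
            intro n hn n' hn' he
            have e1 : ∀ n ∈ ((Icc 1 X).filter (fun n => Family a c n)).filter
                (fun n => ¬ n % 2 = 1), n % 4 = 0 := by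
              intro n hn
              obtain ⟨h3, h4⟩ := mem_filter.1 hn
              rcases (mem_filter.1 h3).2.1 with ⟨-, h5⟩ | ⟨k, h5, -⟩ <;> omega
            have h5 := e1 n (by exact_mod_cast hn)
            have h6 := e1 n' (by exact_mod_cast hn')
            have h7 : n / 4 = n' / 4 := he
            omega
        _ ≤ ∑ n ∈ Icc 1 X, g n := by
            refine sum_le_sum_of_subset_of_nonneg (fun t ht => ?_) fun _ _ _ => hg0 _
            obtain ⟨n, hn, rfl⟩ := mem_image.1 ht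
            obtain ⟨h3, h4⟩ := mem_filter.1 hn
            obtain ⟨h5, h6⟩ := mem_filter.1 h3
            rw [mem_Icc] at h5 ⊢
            have h7 : n % 4 = 0 := by
              rcases h6.1 with ⟨-, h7⟩ | ⟨k, h7, -⟩ <;> omega
            omega
        _ ≤ C * X := hC X
  calc _ ≤ 2 * (C * X) := hX1
    _ = 2 * C / δ * (δ * X) := by field_simp
    _ ≤ 2 * C / δ * (count (Family a c) X : ℝ) := mul_le_mul_of_nonneg_left hX (by positivity)

/-- the vectors `(r, s)` -/
noncomputable def rs (a c : Fin k → ℤ) (n : ℕ) : ℕ × (Fin k → ℕ) :=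
  if h : ∃ x : ℕ × (Fin k → ℕ), Joint a c x n then h.choose else (0, fun _ => 0)

lemma rs_joint (H : Hyps) (hk : 0 < k) (h1 : ∀ i, Curve (a i) (c i)) {n : ℕ}
    (h : Family a c n) : Joint a c (rs a c n) n := by
  obtain ⟨x, g1, -⟩ := formula H hk h1 h
  have h2 : ∃ x : ℕ × (Fin k → ℕ), Joint a c x n := ⟨x, g1⟩
  unfold rs
  rw [dif_pos h2]
  exact h2.choose_spec

lemma rs_prop (H : Hyps) (hk : 0 < k) (h1 : ∀ i, Curve (a i) (c i)) {n : ℕ}
    (h : Family a c n) : ∀ i, (rs a c n).1 ≤ (rs a c n).2 i ∧ (rs a c n).2 i ≤ 2 * (rs a c n).1 ∧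
      Even ((rs a c n).2 i) := by
  obtain ⟨x, g1, -, g3⟩ := formula H hk h1 h
  have e := joint_inj h (rs_joint H hk h1 h) g1
  rw [e]
  exact fun i => ⟨(g3 i).1, (g3 i).2.1, (g3 i).2.2.1⟩

lemma cnt_pos (h1 : ∀ i, Curve (a i) (c i)) (h2 : Compatible a c) :
    ∀ᶠ X : ℕ in atTop, 0 < (((Icc 1 X).filter fun n => Family a c n).card : ℝ) := by
  obtain ⟨δ, hδ, hpos⟩ := fam_pos h1 h2
  filter_upwards [hpos, eventually_ge_atTop 1] with X hX h3
  have h4 : (0 : ℝ) < δ * X := mul_pos hδ (by exact_mod_cast h3)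
  exact lt_of_lt_of_le h4 hX

/-- the second moment of a function of polynomial growth -/
lemma sq_bound (H : Hyps) (hk : 0 < k) (h1 : ∀ i, Curve (a i) (c i)) (h2 : Compatible a c)
    (f : ℕ × (Fin k → ℕ) → ℝ) (C₀ : ℝ) (K : ℕ) (hf : ∀ y, |f y| ≤ C₀ * 2 ^ (K * (y.1 + ∑ i, y.2 i))) :
    ∃ C : ℝ, ∀ᶠ X : ℕ in atTop,
      ∑ n ∈ (Icc 1 X).filter (fun n => Family a c n), (f (rs a c n)) ^ 2 ≤
        C * (((Icc 1 X).filter fun n => Family a c n).card : ℝ) := by
  choose C hC0 hC using fun i => mom_bound (a := a) (c := c) hk h1 h2 i (2 * K * (k + 1))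
  refine ⟨C₀ ^ 2 * ∑ i, C i, ?_⟩
  filter_upwards [eventually_all.2 hC] with X hX
  have hpt : ∀ n, Family a c n → (f (rs a c n)) ^ 2 ≤
      C₀ ^ 2 * ∑ i, S (E (a i) (c i) n) ^ (2 * K * (k + 1)) := by
    intro n hn
    have hJ := rs_joint H hk h1 hn
    have hP := rs_prop H hk h1 hn
    obtain ⟨i₀, -, hi₀⟩ := exists_max_image (univ : Finset (Fin k)) (fun i => (rs a c n).2 i)
      ⟨⟨0, hk⟩, mem_univ _⟩
    have e1 : (rs a c n).1 + ∑ i, (rs a c n).2 i ≤ (k + 1) * (rs a c n).2 i₀ := by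
      have e2 : ∑ i, (rs a c n).2 i ≤ ∑ _i : Fin k, (rs a c n).2 i₀ :=
        sum_le_sum fun i hi => hi₀ i hi
      rw [sum_const, card_univ, Fintype.card_fin, smul_eq_mul] at e2
      have e3 := (hP i₀).1
      nlinarith
    have e4 : (f (rs a c n)) ^ 2 ≤ (C₀ * 2 ^ (K * ((rs a c n).1 + ∑ i, (rs a c n).2 i))) ^ 2 := by
      rw [← sq_abs]
      exact pow_le_pow_left₀ (abs_nonneg _) (hf _) 2
    refine e4.trans ?_
    rw [mul_pow]
    refine mul_le_mul_of_nonneg_left ?_ (sq_nonneg _)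
    have e5 : S (E (a i₀) (c i₀) n) ^ (2 * K * (k + 1)) ≤
        ∑ i, S (E (a i) (c i) n) ^ (2 * K * (k + 1)) :=
      single_le_sum (f := fun i => S (E (a i) (c i) n) ^ (2 * K * (k + 1)))
        (fun i _ => pow_nonneg (by rw [S_wt]; exact wt_nonneg _) _) (mem_univ i₀)
    refine le_trans ?_ e5
    rw [S_eq hJ i₀, ← pow_mul, ← pow_mul]
    refine pow_le_pow_right₀ (by norm_num) ?_
    calc K * ((rs a c n).1 + ∑ i, (rs a c n).2 i) * 2
        ≤ K * ((k + 1) * (rs a c n).2 i₀) * 2 :=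
          Nat.mul_le_mul_right _ (Nat.mul_le_mul_left _ e1)
      _ = (rs a c n).2 i₀ * (2 * K * (k + 1)) := by ring
  calc ∑ n ∈ (Icc 1 X).filter (fun n => Family a c n), (f (rs a c n)) ^ 2
      ≤ ∑ n ∈ (Icc 1 X).filter (fun n => Family a c n),
        C₀ ^ 2 * ∑ i, S (E (a i) (c i) n) ^ (2 * K * (k + 1)) :=
        sum_le_sum fun n hn => hpt n (mem_filter.1 hn).2
    _ = C₀ ^ 2 * ∑ i, ∑ n ∈ (Icc 1 X).filter (fun n => Family a c n),
          S (E (a i) (c i) n) ^ (2 * K * (k + 1)) := by rw [← mul_sum, sum_comm]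
    _ ≤ C₀ ^ 2 * ∑ i, C i * (count (Family a c) X : ℝ) :=
        mul_le_mul_of_nonneg_left (sum_le_sum fun i _ => hX i) (sq_nonneg _)
    _ = C₀ ^ 2 * (∑ i, C i) * (((Icc 1 X).filter fun n => Family a c n).card : ℝ) := by
        rw [← sum_mul, mul_assoc]
        rfl

/-- **the averages of the functions of `(r, s)`** -/
theorem mean_rs (H : Hyps) (hA : S_AVL) (hk : 0 < k) (h1 : ∀ i, Curve (a i) (c i))
    (h2 : Compatible a c) (h3 : Independent a c)
    (f : ℕ × (Fin k → ℕ) → ℝ) (C₀ : ℝ) (K : ℕ) (hf : ∀ y, |f y| ≤ C₀ * 2 ^ (K * (y.1 + ∑ i, y.2 i))) :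
    Summable (fun y => law y * f y) ∧
      Mean (Family a c) (fun n => f (rs a c n)) (∑' y, law y * f y) := by
  obtain ⟨C, hC⟩ := sq_bound H hk h1 h2 f C₀ K hf
  have h := hA (ℕ × (Fin k → ℕ)) (Family a c) (rs a c) law f C (law_nonneg H) (H.mass k).2
    (fun y => ?_) (cnt_pos h1 h2) hC
  · exact h
  · refine (dens_pt H hk h1 h2 h3 y).congr fun X => ?_
    refine congrArg₂ (fun a b : ℕ => (a : ℝ) / (b : ℝ)) ?_ rfl
    refine Eq.trans ?_ (count_inst' _ X).symm
    refine count_congr (X := X) fun n => and_congr_right fun hn => ?_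
    constructor
    · exact fun hy => joint_inj hn (rs_joint H hk h1 hn) hy
    · rintro rfl
      exact rs_joint H hk h1 hn

/-- the density of the 4-rank -/
theorem dens_r (H : Hyps) (hk : 0 < k) (h1 : ∀ i, Curve (a i) (c i)) (h2 : Compatible a c) (r : ℕ) :
    Density (Family a c) (fun n => (rs a c n).1 = r) (fkl r) := by
  obtain ⟨n₀, p1, p2, p3⟩ := Pool.Agent.N637.SLM.exists_n0 (cvs h1) h2
  have h := H.den H.laj H.red 0 0 el0 e0 (Pool.Agent.N637.SLM.QQ a c) (Pool.Agent.N637.SLM.RR a c) n₀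
    (Pool.Agent.N637.SLM.QQ_pos (cvs h1))
    (lb00 (Pool.Agent.N637.SLM.QQ_pos (cvs h1))) (Or.inl fun i => i.elim0) (fun _ _ l => l.elim0)
    p1.prime.irreducible.squarefree (by omega)
    ((Pool.Agent.N637.SLM.mem_RR (cvs h1) n₀).2 p3) r j0
  have e1 : Pool.Agent.N637.SLK.lawF r j0 = fkl r := by
    unfold Pool.Agent.N637.SLK.lawF fkl
    rw [Finset.univ_eq_empty, Finset.prod_empty, div_mul_eq_mul_div, one_mul]
  rw [e1] at h
  unfold Density
  refine h.congr fun X => congrArg₂ (fun a b : ℕ => (a : ℝ) / (b : ℝ)) ?_ ?_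
  · rw [count_inst]
    refine count_congr (X := X) fun n => ?_
    rw [← fam_iff h1]
    refine and_congr_right fun hn => ?_
    obtain ⟨r0, j, -, g3, -, -, -, g7⟩ := numbers0 H hk h1 hn
    rw [g7]
    have e2 := joint_inj hn g3 (rs_joint H hk h1 hn)
    show r0 = r ↔ (rs a c n).1 = r
    rw [← e2]
  · rw [count_inst]
    exact count_congr (X := X) fun n => (fam_iff h1 n).symm

/-- **the averages of the functions of `r`** -/
theorem mean_r (H : Hyps) (hA : S_AVL) (hF : S_FKM) (hk : 0 < k) (h1 : ∀ i, Curve (a i) (c i))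
    (h2 : Compatible a c) (f : ℕ → ℝ) (C₀ : ℝ) (K : ℕ) (hf : ∀ r, |f r| ≤ C₀ * 2 ^ (K * r))
    (L : ℝ) (hL : HasSum (fun r => fkl r * f r) L) :
    Mean (Family a c) (fun n => f (rs a c n).1) L := by
  have hC0 : 0 ≤ C₀ := by
    have := hf 0
    rw [mul_zero, pow_zero, mul_one] at this
    exact (abs_nonneg _).trans this
  obtain ⟨C, hC⟩ := sq_bound H hk h1 h2 (fun y => f y.1) C₀ K (fun y => (hf y.1).trans
    (mul_le_mul_of_nonneg_left (pow_le_pow_right₀ (by norm_num)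
      (Nat.mul_le_mul_left _ (Nat.le_add_right _ _))) hC0))
  have h := hA ℕ (Family a c) (fun n => (rs a c n).1) fkl f C hF.1 hF.2.1
    (fun r => ?_) (cnt_pos h1 h2) hC
  · have h4 := h.2
    rw [hL.tsum_eq] at h4
    exact h4
  · refine (dens_r H hk h1 h2 r).congr fun X => ?_
    refine congrArg₂ (fun a b : ℕ => (a : ℝ) / (b : ℝ)) ?_ rfl
    exact (count_inst' _ X).symm

lemma mean_congr {F : ℕ → Prop} {g h : ℕ → ℝ} {L : ℝ} (hgh : ∀ n, F n → g n = h n)
    (hh : Mean F h L) : Mean F g L := by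
  refine hh.congr fun X => ?_
  unfold avg
  rw [sum_congr rfl fun n hn => hgh n (mem_filter.1 hn).2]

lemma rank_le {n : ℕ} {x : ℕ × (Fin k → ℕ)} (h : Joint a c x n) (i : Fin k) :
    rank (E (a i) (c i) n) ≤ x.2 i := by
  have h1 := (h.1 i).2.2
  have h2 : 2 ^ rank (E (a i) (c i) n) ∣ 2 ^ (x.2 i) := ⟨_, h1.symm⟩
  exact (Nat.pow_dvd_pow_iff_le_right (le_refl 2)).1 h2

lemma fkl_zero : fkl 0 = eta := by
  unfold fkl
  have e : Pool.Agent.N637.SLX.gl 0 = 1 := by
    unfold Pool.Agent.N637.SLX.gl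
    simp
  rw [e, Nat.cast_one, div_one]
  unfold eta
  refine tprod_congr fun l => ?_
  rw [show 0 + 1 + l = l + 1 by ring]

lemma has_one (b : ℕ) : HasSum (fun r => fkl r * (if r = b then 1 else 0)) (fkl b) := by
  have h := hasSum_single (f := fun r => fkl r * (if r = b then (1 : ℝ) else 0)) b
    (fun r hr => by rw [if_neg hr, mul_zero])
  rwa [if_pos rfl, mul_one] at h

/-- the bound for `2 r` -/
noncomputable def gr (r : ℕ) : ℝ := 3 / 4 * 2 ^ r - 3 / 4 * (if r = 0 then 1 else 0) +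
  1 / 2 * (if r = 1 then 1 else 0) + (if r = 2 then 1 else 0)

lemma two_mul_le_gr (r : ℕ) : 2 * (r : ℝ) ≤ gr r := by
  unfold gr
  rcases Nat.lt_or_ge r 3 with h | h
  · interval_cases r <;> norm_num
  · rw [if_neg (by omega), if_neg (by omega), if_neg (by omega)]
    have key : ∀ r : ℕ, 3 ≤ r → (8 : ℝ) * r ≤ 3 * 2 ^ r := by
      intro r hr
      induction r, hr using Nat.le_induction with
      | base => norm_num
      | succ r hr ih =>
        rw [pow_succ]
        push_cast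
        have : (3 : ℝ) ≤ r := by exact_mod_cast hr
        linarith
    have := key r h
    linarith

lemma gr_abs (r : ℕ) : |gr r| ≤ 3 * 2 ^ (1 * r) := by
  have h0 : (1 : ℝ) ≤ 2 ^ r := one_le_pow₀ (by norm_num)
  have h2 := two_mul_le_gr r
  have h3 : (0 : ℝ) ≤ r := Nat.cast_nonneg r
  rw [abs_of_nonneg (by linarith), one_mul]
  unfold gr
  split_ifs <;> linarith

lemma gr_sum (hF : S_FKM) (e1 : fkl 1 = 2 * eta) (e2 : fkl 2 = 4 / 9 * eta) :
    HasSum (fun r => fkl r * gr r) (3 / 2 + 25 / 36 * eta) := by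
  have h := (((hF.2.2.1.mul_left (3 / 4)).sub ((has_one 0).mul_left (3 / 4))).add
    ((has_one 1).mul_left (1 / 2))).add (has_one 2)
  rw [fkl_zero, e1, e2] at h
  have e3 : 3 / 4 * 2 - 3 / 4 * eta + 1 / 2 * (2 * eta) + 4 / 9 * eta = 3 / 2 + 25 / 36 * eta := by
    ring
  rw [e3] at h
  refine h.congr_fun fun r => ?_
  unfold gr
  ring

/-- **the average of the maximum of the ranks** -/
theorem max_rank (H : Hyps) (hA : S_AVL) (hF : S_FKM) (e1 : fkl 1 = 2 * eta)
    (e2 : fkl 2 = 4 / 9 * eta) (hk : 0 < k) (h1 : ∀ i, Curve (a i) (c i)) (h2 : Compatible a c) :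
    UpperMean (Family a c)
      (fun n => ((univ.sup fun i => rank (E (a i) (c i) n) : ℕ) : ℝ)) (3 / 2 + 25 / 36 * eta) := by
  refine upper_of (fun n hn => ?_) (mean_r H hA hF hk h1 h2 gr 3 1 gr_abs _ (gr_sum hF e1 e2))
  refine le_trans ?_ (two_mul_le_gr _)
  have h3 : (univ.sup fun i => rank (E (a i) (c i) n) : ℕ) ≤ 2 * (rs a c n).1 :=
    Finset.sup_le fun i _ => (rank_le (rs_joint H hk h1 hn) i).trans (rs_prop H hk h1 hn i).2.1
  exact_mod_cast h3

/-- the mean of `2 ^ rank * #Ш[2]` for a square -/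
theorem mean_sq (H : Hyps) (hA : S_AVL) (hF : S_FKM) (hk : 0 < k) (h1 : ∀ i, Curve (a i) (c i))
    (h2 : Compatible a c) (i : Fin k) (hs : IsSquare (a i ^ 2 - c i ^ 2)) :
    Mean (Family a c) (fun n => S (E (a i) (c i) n)) 5 := by
  have h := mean_r H hA hF hk h1 h2 (fun r => 4 ^ r) 1 2 (fun r => by
    rw [abs_of_nonneg (by positivity), one_mul, pow_mul]
    norm_num) 5 hF.2.2.2
  refine mean_congr (fun n hn => ?_) h
  have hJ := rs_joint H hk h1 hn
  rw [S_eq hJ i, sq_case H hk h1 hn hJ hs, pow_mul]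
  norm_num

lemma two_pow_le (y : ℕ × (Fin k → ℕ)) (i : Fin k) (K : ℕ) :
    (2 : ℝ) ^ (K * y.2 i) ≤ 2 ^ (K * (y.1 + ∑ i, y.2 i)) :=
  pow_le_pow_right₀ (by norm_num) (Nat.mul_le_mul_left _
    ((single_le_sum (f := fun i => y.2 i) (fun _ _ => Nat.zero_le _) (mem_univ i)).trans
      (Nat.le_add_left _ _)))

/-- the mean of a function of `(r, s)` with a known sum -/
theorem mean_val (H : Hyps) (hA : S_AVL) (hk : 0 < k) (h1 : ∀ i, Curve (a i) (c i))
    (h2 : Compatible a c) (h3 : Independent a c) (f : ℕ × (Fin k → ℕ) → ℝ) (C₀ : ℝ) (K : ℕ)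
    (hf : ∀ y, |f y| ≤ C₀ * 2 ^ (K * (y.1 + ∑ i, y.2 i))) (L : ℝ)
    (hL : HasSum (fun y => law y * f y) L) (g : ℕ → ℝ)
    (hg : ∀ n, Family a c n → g n = f (rs a c n)) : Mean (Family a c) g L := by
  have h := (mean_rs H hA hk h1 h2 h3 f C₀ K hf).2
  rw [hL.tsum_eq] at h
  exact mean_congr hg h

theorem mean_one (H : Hyps) (hA : S_AVL) (hE : S_EV) (hk : 0 < k)
    (h1 : ∀ i, Curve (a i) (c i)) (h2 : Compatible a c) (h3 : Independent a c) (i : Fin k) :
    Mean (Family a c) (fun n => S (E (a i) (c i) n)) 4 := by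
  refine mean_val H hA hk h1 h2 h3 (fun y => 2 ^ (y.2 i)) 1 1 (fun y => ?_) 4
    (hE.2.2.2.2.1 k i) _ fun n hn => S_eq (rs_joint H hk h1 hn) i
  rw [abs_of_nonneg (by positivity), one_mul]
  have := two_pow_le y i 1
  rwa [one_mul] at this

theorem mean_two (H : Hyps) (hA : S_AVL) (hE : S_EV) (hk : 0 < k)
    (h1 : ∀ i, Curve (a i) (c i)) (h2 : Compatible a c) (h3 : Independent a c) (i : Fin k) :
    Mean (Family a c) (fun n => S (E (a i) (c i) n) ^ 2) 31 := by
  refine mean_val H hA hk h1 h2 h3 (fun y => 4 ^ (y.2 i)) 1 2 (fun y => ?_) 31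
    (hE.2.2.2.2.2.1 k i) _ fun n hn => ?_
  · rw [abs_of_nonneg (by positivity), one_mul]
    have := two_pow_le y i 2
    rw [pow_mul] at this
    norm_num at this ⊢
    exact this
  · rw [S_eq (rs_joint H hk h1 hn) i, ← pow_mul, mul_comm, pow_mul]
    norm_num

theorem mean_pair (H : Hyps) (hA : S_AVL) (hE : S_EV) (hk : 0 < k)
    (h1 : ∀ i, Curve (a i) (c i)) (h2 : Compatible a c) (h3 : Independent a c) (i j : Fin k)
    (hij : i ≠ j) :
    Mean (Family a c) (fun n => S (E (a i) (c i) n) * S (E (a j) (c j) n)) 25 := by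
  refine mean_val H hA hk h1 h2 h3 (fun y => 2 ^ (y.2 i) * 2 ^ (y.2 j)) 1 2 (fun y => ?_) 25
    (hE.2.2.2.2.2.2 k i j hij) _ fun n hn => ?_
  · rw [abs_of_nonneg (by positivity), one_mul, mul_comm 2, pow_mul, pow_two]
    have e1 := two_pow_le y i 1
    have e2 := two_pow_le y j 1
    rw [one_mul, one_mul] at e1 e2
    exact mul_le_mul e1 e2 (by positivity) (by positivity)
  · rw [S_eq (rs_joint H hk h1 hn) i, S_eq (rs_joint H hk h1 hn) j]

/-- the bound for `s` -/
noncomputable def hr (s : ℕ) : ℝ := 1 / 4 * 2 ^ s - 1 / 4 * (if s = 0 then 1 else 0) +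
  (if s = 2 then 1 else 0)

lemma le_hr (s : ℕ) (hs : Even s) : (s : ℝ) ≤ hr s := by
  unfold hr
  rcases Nat.lt_or_ge s 4 with h | h
  · interval_cases s
    · norm_num
    · exact absurd hs (by decide)
    · norm_num
    · exact absurd hs (by decide)
  · rw [if_neg (by omega), if_neg (by omega)]
    have key : ∀ r : ℕ, 4 ≤ r → (4 : ℝ) * r ≤ 2 ^ r := by
      intro r hr
      induction r, hr using Nat.le_induction with
      | base => norm_num
      | succ r hr ih =>
        rw [pow_succ]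
        push_cast
        have : (4 : ℝ) ≤ r := by exact_mod_cast hr
        linarith
    have := key s h
    linarith

lemma hr_abs (s : ℕ) : |hr s| ≤ 2 * 2 ^ s := by
  have h0 : (1 : ℝ) ≤ 2 ^ s := one_le_pow₀ (by norm_num)
  have h1 : 0 ≤ hr s := by
    unfold hr
    split_ifs <;> linarith
  rw [abs_of_nonneg h1]
  unfold hr
  split_ifs <;> linarith

/-- **the average rank** -/
theorem mean_rank (H : Hyps) (hA : S_AVL) (hE : S_EV)
    (hd0 : ∀ (k : ℕ) (i : Fin k),
      HasSum (fun x : ℕ × (Fin k → ℕ) => law x * (if x.2 i = 0 then 1 else 0)) eta)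
    (hd2 : ∀ (k : ℕ) (i : Fin k),
      HasSum (fun x : ℕ × (Fin k → ℕ) => law x * (if x.2 i = 2 then 1 else 0)) (20 / 9 * eta))
    (hk : 0 < k) (h1 : ∀ i, Curve (a i) (c i)) (h2 : Compatible a c) (h3 : Independent a c)
    (i : Fin k) :
    UpperMean (Family a c) (fun n => (rank (E (a i) (c i) n) : ℝ)) (1 + 71 / 36 * eta) := by
  have hsum : HasSum (fun y : ℕ × (Fin k → ℕ) => law y * hr (y.2 i)) (1 + 71 / 36 * eta) := by
    have h := (((hE.2.2.2.2.1 k i).mul_left (1 / 4)).sub ((hd0 k i).mul_left (1 / 4))).add (hd2 k i)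
    have e : 1 / 4 * 4 - 1 / 4 * eta + 20 / 9 * eta = 1 + 71 / 36 * eta := by ring
    rw [e] at h
    refine h.congr_fun fun y => ?_
    unfold hr
    rw [law_eq]
    ring
  refine upper_of (fun n hn => ?_) (mean_val H hA hk h1 h2 h3 (fun y => hr (y.2 i)) 2 1
    (fun y => ?_) _ hsum (fun n => hr ((rs a c n).2 i)) fun n hn => rfl)
  · refine le_trans ?_ (le_hr _ (rs_prop H hk h1 hn i).2.2)
    exact_mod_cast rank_le (rs_joint H hk h1 hn) i
  · refine (hr_abs _).trans (mul_le_mul_of_nonneg_left ?_ (by norm_num))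
    have := two_pow_le y i 1
    rwa [one_mul] at this

end Pool.Agent.N637.SLM.AR
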