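import Pool.Agent.N637.SLM.AR
import Pool.Agent.N344.SLA.AVL
import Pool.Agent.N216.SLA.FKM
import Pool.Agent.N106.SLA.EV
import Pool.Agent.N106.SLA.Dens
import Pool.Agent.N228.SLA.ALT4

/-!
# Project SLA: the main theorem on the averages in the twist families
-/

set_option autoImplicit false
set_option linter.all false

open NumberField Filter Topology Finset

namespace Pool.Agent.N637.SLM.AR

open scoped Classical

open Pool.Agent.N637.SLM.JL
open Pool.Agent.N637.SLM (S_AVL S_EV S_FKM fkl)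
open Pool.Agent.N637.SLX (gl)
open Pool.Agent.N106.SLA.EV (ph one_mark)

theorem hA : S_AVL := Pool.Agent.N344.SLA.t_AVL

theorem hF : S_FKM := Pool.Agent.N216.SLA.t_FKM

theorem hE : S_EV := Pool.Agent.N106.SLA.EV.t_EV Pool.Agent.N228.SLA.t_ALT4 hF

theorem hd0 (k : ℕ) (i : Fin k) :
    HasSum (fun x : ℕ × (Fin k → ℕ) => law x * (if x.2 i = 0 then 1 else 0)) eta := by
  have h0 : ∀ r : ℕ, r ≠ 0 → ph (fun s => if s = 0 then 1 else 0) r = 0 := by
    intro r h1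
    unfold ph
    refine sum_eq_zero fun j hj => ?_
    show (Pool.Agent.N637.SLX.alt r j : ℝ) / 2 ^ (r * (r - 1) / 2) *
      (if r + j = 0 then 1 else 0) = 0
    rw [if_neg (by omega), mul_zero]
  have h1 : ph (fun s => if s = 0 then 1 else 0) 0 = 1 := by
    have h := Pool.Agent.N106.SLA.EV.ph_one 0
    unfold ph at h ⊢
    rw [sum_range_one] at h ⊢
    exact h
  have h3 : HasSum (fun r => fkl r * ph (fun s => if s = 0 then 1 else 0) r) (fkl 0) := by
    have h := hasSum_single (f := fun r => fkl r * ph (fun s => if s = 0 then 1 else 0) r) 0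
      (fun r hr => by rw [h0 r hr, mul_zero])
    rwa [h1, mul_one] at h
  rw [fkl_zero] at h3
  exact one_mark (fun s => if s = 0 then 1 else 0) (fun s => by
    show (0 : ℝ) ≤ if s = 0 then 1 else 0
    split_ifs <;> norm_num) i h3

theorem hd2 (k : ℕ) (i : Fin k) :
    HasSum (fun x : ℕ × (Fin k → ℕ) => law x * (if x.2 i = 2 then 1 else 0)) (20 / 9 * eta) :=
  Pool.Agent.N106.SLA.EV.dens2 k i

variable {k : ℕ} {a c : Fin k → ℤ}

/-- the mean of the maximum of the numbers `2 ^ rank * #Ш[2]` -/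
theorem mean_max (H : Hyps) (hk : 0 < k) (h1 : ∀ i, Curve (a i) (c i)) (h2 : Compatible a c) :
    UpperMean (Family a c) (fun n => ⨆ i, S (E (a i) (c i) n)) 5 := by
  have h := mean_r H hA hF hk h1 h2 (fun r => 4 ^ r) 1 2 (fun r => by
    rw [abs_of_nonneg (by positivity), one_mul, pow_mul]
    norm_num) 5 hF.2.2.2
  refine upper_of (fun n hn => ?_) h
  have hJ := rs_joint H hk h1 hn
  have hP := rs_prop H hk h1 hn
  haveI : Nonempty (Fin k) := ⟨⟨0, hk⟩⟩
  refine ciSup_le fun i => ?_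
  rw [S_eq hJ i]
  have e : (4 : ℝ) ^ (rs a c n).1 = 2 ^ (2 * (rs a c n).1) := by
    rw [pow_mul]
    norm_num
  rw [e]
  exact pow_le_pow_right₀ (by norm_num) (hP i).2.1

theorem mom_avg (hk : 0 < k) (h1 : ∀ i, Curve (a i) (c i)) (h2 : Compatible a c) (i : Fin k)
    (K : ℕ) : ∃ C : ℝ, ∀ᶠ X : ℕ in atTop,
      avg (Family a c) (fun n => S (E (a i) (c i) n) ^ K) X ≤ C := by
  obtain ⟨C, hC0, hC⟩ := mom_bound hk h1 h2 i K
  refine ⟨C, ?_⟩
  filter_upwards [hC, cnt_pos h1 h2] with X hX h3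
  unfold avg
  exact (div_le_iff₀ h3).2 hX

/-- **Main theorem** -/
theorem main : (0.2887 < eta ∧ eta < 0.2889) ∧
    (∀ a c : ℤ, Curve a c → Compatible (fun _ : Fin 1 => a) fun _ => c) ∧
    ∀ (k : ℕ) (_ : 0 < k) (a c : Fin k → ℤ) (_ : ∀ i, Curve (a i) (c i)) (_ : Compatible a c),
    (∃ δ : ℝ, 0 < δ ∧ ∀ᶠ X : ℕ in atTop, δ * X ≤ (count (Family a c) X : ℝ)) ∧
    UpperMean (Family a c) (fun n => ((univ.sup fun i => rank (E (a i) (c i) n) : ℕ) : ℝ))
      (3 / 2 + 25 / 36 * eta) ∧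
    UpperMean (Family a c) (fun n => ⨆ i, S (E (a i) (c i) n)) 5 ∧
    (∀ (i : Fin k) (K : ℕ), ∃ C : ℝ, ∀ᶠ X : ℕ in atTop,
      avg (Family a c) (fun n => S (E (a i) (c i) n) ^ K) X ≤ C) ∧
    (∀ i, IsSquare (a i ^ 2 - c i ^ 2) → Mean (Family a c) (fun n => S (E (a i) (c i) n)) 5) ∧
    (Independent a c →
      (∀ i, UpperMean (Family a c) (fun n => (rank (E (a i) (c i) n) : ℝ)) (1 + 71 / 36 * eta)) ∧
      (∀ i, Mean (Family a c) (fun n => S (E (a i) (c i) n)) 4) ∧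
      (∀ i, Mean (Family a c) (fun n => S (E (a i) (c i) n) ^ 2) 31) ∧
      (∀ i j, i ≠ j → Mean (Family a c) (fun n => S (E (a i) (c i) n) * S (E (a j) (c j) n)) 25) ∧
      ∀ (f : ℕ × (Fin k → ℕ) → ℝ) (C : ℝ) (K : ℕ),
        (∀ x, |f x| ≤ C * 2 ^ (K * (x.1 + ∑ i, x.2 i))) →
        ∀ g : ℕ → ℝ, (∀ n x, Family a c n → Joint a c x n → g n = f x) →
          Summable (fun x => law x * f x) ∧ Mean (Family a c) g (∑' x, law x * f x)) := by
  have H := hyps
  refine ⟨Pool.Agent.N637.SLM.JL.result.2.1, Pool.Agent.N637.SLM.JL.result.1,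
    fun k hk a c h1 h2 => ⟨fam_pos h1 h2,
      max_rank H hA hF Pool.Agent.N106.SLA.EV.fkl_one Pool.Agent.N106.SLA.EV.fkl_two hk h1 h2,
      mean_max H hk h1 h2, mom_avg hk h1 h2, fun i hs => mean_sq H hA hF hk h1 h2 i hs,
      fun h3 => ⟨mean_rank H hA hE hd0 hd2 hk h1 h2 h3, mean_one H hA hE hk h1 h2 h3,
        mean_two H hA hE hk h1 h2 h3, mean_pair H hA hE hk h1 h2 h3, fun f C K hf g hg => ?_⟩⟩⟩
  obtain ⟨g1, g2⟩ := mean_rs H hA hk h1 h2 h3 f C K hf
  exact ⟨g1, mean_congr (fun n hn => hg n _ hn (rs_joint H hk h1 hn)) g2⟩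

end Pool.Agent.N637.SLM.AR
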