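import Pool.Agent.N637.SLM.AR2

/-!
# Project SLA: the supremum of the ranks over all the admissible curves
-/

set_option autoImplicit false
set_option linter.all false

open NumberField Filter Topology Finset

namespace Pool.Agent.N637.SLM.AR

open scoped Classical

open Pool.Agent.N637.SLM.JL
open Pool.Agent.N637.SLM (S_AVL S_EV S_FKM fkl)
open Pool.Agent.N916.TE (FD)

/-- the 4-rank -/
noncomputable def R4 (n : ℕ) : ℕ :=
  if h : ∃ r : ℕ, ∀ (K : Type) [Field K] [NumberField K], IsQuad n K → FourRank K r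
  then h.choose else 0

lemma R4_eq {n r : ℕ} (hn : FD n)
    (h : ∀ (K : Type) [Field K] [NumberField K], IsQuad n K → FourRank K r) : R4 n = r := by
  have h2 : ∃ r : ℕ, ∀ (K : Type) [Field K] [NumberField K], IsQuad n K → FourRank K r := ⟨r, h⟩
  unfold R4
  rw [dif_pos h2]
  obtain ⟨K, i1, i2, h3, h4⟩ := exists_K hn
  exact cl_inj (h2.choose_spec K ⟨h3, h4⟩) (h K ⟨h3, h4⟩)

section

variable {k : ℕ} {a c : Fin k → ℤ}

lemma R4_rs (H : Hyps) (hk : 0 < k) (h1 : ∀ i, Curve (a i) (c i)) {n : ℕ} (h : Family a c n) :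
    R4 n = (rs a c n).1 :=
  R4_eq h.1 (rs_joint H hk h1 h).2

/-- **the averages of the functions of `r`** -/
theorem mean_r' (H : Hyps) (hk : 0 < k) (h1 : ∀ i, Curve (a i) (c i))
    (h2 : Compatible a c) (f : ℕ → ℝ) (C₀ : ℝ) (K : ℕ) (hf : ∀ r, |f r| ≤ C₀ * 2 ^ (K * r)) :
    Summable (fun r => fkl r * f r) ∧
      Mean (Family a c) (fun n => f (R4 n)) (∑' r, fkl r * f r) := by
  have hC0 : 0 ≤ C₀ := by
    have := hf 0
    rw [mul_zero, pow_zero, mul_one] at this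
    exact (abs_nonneg _).trans this
  obtain ⟨C, hC⟩ := sq_bound H hk h1 h2 (fun y => f y.1) C₀ K (fun y => (hf y.1).trans
    (mul_le_mul_of_nonneg_left (pow_le_pow_right₀ (by norm_num)
      (Nat.mul_le_mul_left _ (Nat.le_add_right _ _))) hC0))
  have h := hA ℕ (Family a c) (fun n => (rs a c n).1) fkl f C hF.1 hF.2.1
    (fun r => ?_) (cnt_pos h1 h2) hC
  · have h4 : Mean (Family a c) (fun n => f (rs a c n).1) (∑' r, fkl r * f r) := h.2
    exact ⟨h.1, mean_congr (fun n hn => by rw [R4_rs H hk h1 hn]) h4⟩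
  · refine (dens_r H hk h1 h2 r).congr fun X => ?_
    refine congrArg₂ (fun a b : ℕ => (a : ℝ) / (b : ℝ)) ?_ rfl
    exact (count_inst' _ X).symm

theorem mean_R (H : Hyps) (hk : 0 < k) (h1 : ∀ i, Curve (a i) (c i)) (h2 : Compatible a c) :
    UpperMean (Family a c) (fun n => 2 * (R4 n : ℝ)) (3 / 2 + 25 / 36 * eta) := by
  refine upper_of (fun n hn => ?_) (mean_r H hA hF hk h1 h2 gr 3 1 gr_abs _
    (gr_sum hF Pool.Agent.N106.SLA.EV.fkl_one Pool.Agent.N106.SLA.EV.fkl_two))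
  rw [R4_rs H hk h1 hn]
  exact two_mul_le_gr _

theorem mean_4R (H : Hyps) (hk : 0 < k) (h1 : ∀ i, Curve (a i) (c i)) (h2 : Compatible a c) :
    Mean (Family a c) (fun n => (4 : ℝ) ^ R4 n) 5 := by
  have h := mean_r H hA hF hk h1 h2 (fun r => 4 ^ r) 1 2 (fun r => by
    rw [abs_of_nonneg (by positivity), one_mul, pow_mul]
    norm_num) 5 hF.2.2.2
  exact mean_congr (fun n hn => by rw [R4_rs H hk h1 hn]) h

end

/-- one curve -/
theorem one_curve (H : Hyps) {a c : ℤ} (h1 : Curve a c) {n : ℕ} (hN : FundNeg n) (hA : Adm a c n) :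
    (∀ (K : Type) [Field K] [NumberField K], IsQuad n K → FourRank K (R4 n)) ∧
      rank (E a c n) ≤ 2 * R4 n ∧ (2 : ℝ) ^ R4 n ≤ S (E a c n) ∧ S (E a c n) ≤ 4 ^ R4 n := by
  have hk : 0 < 1 := one_pos
  have hF : Family (fun _ : Fin 1 => a) (fun _ => c) n := ⟨hN, fun _ => hA⟩
  have hC : ∀ i : Fin 1, Curve ((fun _ : Fin 1 => a) i) ((fun _ : Fin 1 => c) i) := fun _ => h1
  have hJ := rs_joint H hk hC hF
  have hP := rs_prop H hk hC hF 0
  have hR := R4_rs H hk hC hF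
  have hS : S (E a c n) = 2 ^ ((rs (fun _ : Fin 1 => a) (fun _ => c) n).2 0) := S_eq hJ 0
  have hr : rank (E a c n) ≤ (rs (fun _ : Fin 1 => a) (fun _ => c) n).2 0 := rank_le hJ 0
  refine ⟨fun K _ _ hK => ?_, ?_, ?_, ?_⟩
  · rw [hR]
    exact hJ.2 K hK
  · rw [hR]
    exact hr.trans hP.2.1
  · rw [hR, hS]
    exact pow_le_pow_right₀ (by norm_num) hP.1
  · rw [hR, hS]
    have e : (4 : ℝ) ^ (rs (fun _ : Fin 1 => a) (fun _ => c) n).1 =
        2 ^ (2 * (rs (fun _ : Fin 1 => a) (fun _ => c) n).1) := by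
      rw [pow_mul]
      norm_num
    rw [e]
    exact pow_le_pow_right₀ (by norm_num) hP.2.1

/-- **Main theorem** -/
theorem main3 : (0.2887 < eta ∧ eta < 0.2889) ∧
    (∀ a c : ℤ, Curve a c → Compatible (fun _ : Fin 1 => a) fun _ => c) ∧
    ∃ R : ℕ → ℕ,
    (∀ (n : ℕ) (a c : ℤ), FundNeg n → Curve a c → Adm a c n →
      (∀ (K : Type) [Field K] [NumberField K], IsQuad n K → FourRank K (R n)) ∧
      rank (E a c n) ≤ 2 * R n ∧ (2 : ℝ) ^ R n ≤ S (E a c n) ∧ S (E a c n) ≤ 4 ^ R n) ∧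
    ∀ (k : ℕ) (_ : 0 < k) (a c : Fin k → ℤ) (_ : ∀ i, Curve (a i) (c i)) (_ : Compatible a c),
    (∃ δ : ℝ, 0 < δ ∧ ∀ᶠ X : ℕ in atTop, δ * X ≤ (count (Family a c) X : ℝ)) ∧
    UpperMean (Family a c) (fun n => 2 * (R n : ℝ)) (3 / 2 + 25 / 36 * eta) ∧
    Mean (Family a c) (fun n => (4 : ℝ) ^ R n) 5 ∧
    (∀ (f : ℕ → ℝ) (C : ℝ) (K : ℕ), (∀ r, |f r| ≤ C * 2 ^ (K * r)) →
      Summable (fun r => fk r * f r) ∧ Mean (Family a c) (fun n => f (R n)) (∑' r, fk r * f r)) ∧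
    (∀ i, IsSquare (a i ^ 2 - c i ^ 2) → Mean (Family a c) (fun n => S (E (a i) (c i) n)) 5) ∧
    (Independent a c →
      (∀ i, UpperMean (Family a c) (fun n => (rank (E (a i) (c i) n) : ℝ)) (1 + 71 / 36 * eta)) ∧
      (∀ i, Mean (Family a c) (fun n => S (E (a i) (c i) n)) 4) ∧
      (∀ i, Mean (Family a c) (fun n => S (E (a i) (c i) n) ^ 2) 31) ∧
      (∀ i j, i ≠ j → Mean (Family a c) (fun n => S (E (a i) (c i) n) * S (E (a j) (c j) n)) 25) ∧
      ∀ (f : ℕ × (Fin k → ℕ) → ℝ) (C : ℝ) (K : ℕ),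
        (∀ x, |f x| ≤ C * 2 ^ (K * (x.1 + ∑ i, x.2 i))) →
        ∀ g : ℕ → ℝ, (∀ n x, Family a c n → Joint a c x n → g n = f x) →
          Summable (fun x => law x * f x) ∧ Mean (Family a c) g (∑' x, law x * f x)) := by
  have H := hyps
  refine ⟨Pool.Agent.N637.SLM.JL.result.2.1, Pool.Agent.N637.SLM.JL.result.1, R4,
    fun n a c hN h1 hA => one_curve H h1 hN hA,
    fun k hk a c h1 h2 => ⟨fam_pos h1 h2, mean_R H hk h1 h2, mean_4R H hk h1 h2,
      fun f C K hf => mean_r' H hk h1 h2 f C K hf, fun i hs => mean_sq H hA hF hk h1 h2 i hs,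
      fun h3 => ⟨mean_rank H hA hE hd0 hd2 hk h1 h2 h3, mean_one H hA hE hk h1 h2 h3,
        mean_two H hA hE hk h1 h2 h3, mean_pair H hA hE hk h1 h2 h3, fun f C K hf g hg => ?_⟩⟩⟩
  obtain ⟨g1, g2⟩ := mean_rs H hA hk h1 h2 h3 f C K hf
  exact ⟨g1, mean_congr (fun n hn => hg n _ hn (rs_joint H hk h1 hn)) g2⟩

end Pool.Agent.N637.SLM.AR
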