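import Pool.Agent.N637.SLM.Asm
import Pool.Agent.N637.SLK.Fam

/-!
# Project SLM: the family, residues
-/

set_option autoImplicit false
set_option linter.all false

open scoped Classical

namespace Pool.Agent.N637.SLM

open Finset Filter Topology NumberField
open Pool.Agent.N916.GB (Po Vt z2)
open Pool.Agent.Y703.CQ (nr)
open Pool.Agent.N916.TE (FD)
open Pool.Agent.N637.SLK (TyG mm ty_of jac_mm jac_congr jac_neg exists_nr Cmpt)

/-- no split multiplicative reduction of the twist, `n` prime to the odd bad primes, the condition at `2` -/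
def Adm (a c : ℤ) (n : ℕ) : Prop :=
  (∀ p : ℕ, p.Prime → p ≠ 2 → (p : ℤ) ∣ a * c → jacobiSym (-(n : ℤ)) p = -1) ∧
  (∀ p : ℕ, p.Prime → (p : ℤ) ∣ c ^ 2 - a ^ 2 → jacobiSym (n : ℤ) p = -1) ∧
  (c % 8 = 4 ∨ (c % 8 = 0 ∧ n % 8 ≠ 7) ∨ (c % 4 = 2 ∧ n % 8 = 3))

lemma dvd_ne_two {a c : ℤ} (hC : Cw a c) {p : ℕ} (h : (p : ℤ) ∣ c ^ 2 - a ^ 2) : p ≠ 2 := by
  rintro rfl
  have h1 : (2 : ℤ) ∣ c ^ 2 - a ^ 2 := by exact_mod_cast h
  obtain ⟨u, hu⟩ : ∃ u, a = 2 * u + 1 := ⟨a / 2, by have := hC.ha; omega⟩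
  obtain ⟨v, hv⟩ : ∃ v, c = 2 * v := ⟨c / 2, by have := hC.hc; omega⟩
  rw [hu, hv] at h1
  have e : (2 * v) ^ 2 - (2 * u + 1) ^ 2 = 2 * (2 * v ^ 2 - 2 * u ^ 2 - 2 * u) - 1 := by ring
  rw [e] at h1
  omega

/-- the residues modulo 8 -/
lemma two_mm {n : ℕ} (h : FD n) {c : ℤ}
    (hA : c % 8 = 4 ∨ (c % 8 = 0 ∧ n % 8 ≠ 7) ∨ (c % 4 = 2 ∧ n % 8 = 3)) : Two c (mm n) := by
  unfold Two
  rcases h with ⟨hs, h4⟩ | ⟨k, rfl, hs, h4⟩
  · have em : mm n = -(n : ℤ) := if_pos (by omega)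
    rw [em]
    omega
  · have em : mm (4 * k) = -(k : ℤ) := by
      unfold mm
      rw [if_neg (by omega)]
      congr 1
      omega
    rw [em]
    omega

/-- the conditions for `m` -/
theorem lm_of {n : ℕ} (h : FD n) {a c : ℤ} (hC : Cw a c) (hA : Adm a c n) : Lw a c (mm n) := by
  obtain ⟨t, r, s, S, hT, -, -⟩ := ty_of h
  refine ⟨hT.neg, hT.sqf, fun p hp h2 hd => ?_, fun p hp hd => ?_, two_mm h hA.2.2⟩
  · rw [(jac_mm h hp h2).1]
    exact hA.1 p hp h2 hd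
  · rw [(jac_mm h hp (dvd_ne_two hC hd)).2]
    exact hA.2.1 p hp hd

section bad

variable {k : ℕ} (a c : Fin k → ℤ)

/-- the odd bad primes -/
noncomputable def bad : Finset ℕ := univ.biUnion fun i =>
  ((a i * c i * (c i ^ 2 - a i ^ 2)).natAbs.primeFactors).erase 2

/-- the modulus -/
noncomputable def QQ : ℕ := 8 * ∏ p ∈ bad a c, p

/-- the residues -/
noncomputable def RR : Finset ℕ := (range (QQ a c)).filter fun x => ∀ i, Adm (a i) (c i) x

end bad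

section

variable {k : ℕ} {a c : Fin k → ℤ}

lemma mem_bad (hC : ∀ i, Cw (a i) (c i)) {p : ℕ} : p ∈ bad a c ↔ p.Prime ∧ p ≠ 2 ∧
    ∃ i, (p : ℤ) ∣ a i * c i * (c i ^ 2 - a i ^ 2) := by
  unfold bad
  simp only [mem_biUnion, mem_univ, true_and, mem_erase, Nat.mem_primeFactors]
  constructor
  · rintro ⟨i, h2, h1, h3, h4⟩
    exact ⟨h1, h2, i, Int.natCast_dvd.2 h3⟩
  · rintro ⟨h1, h2, i, h3⟩
    refine ⟨i, h2, h1, Int.natCast_dvd.1 h3, ?_⟩
    obtain ⟨u1, u2, u3⟩ := cv_ne (hC i)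
    exact Int.natAbs_ne_zero.2 (mul_ne_zero (mul_ne_zero u1 u2) u3)

lemma QQ_pos (hC : ∀ i, Cw (a i) (c i)) : 0 < QQ a c :=
  Nat.mul_pos (by norm_num) (Finset.prod_pos fun p hp => ((mem_bad hC).1 hp).1.pos)

lemma dvd_QQ {p : ℕ} (hp : p ∈ bad a c) : p ∣ QQ a c :=
  (Finset.dvd_prod_of_mem _ hp).mul_left 8

lemma eight_dvd : 8 ∣ QQ a c := Dvd.intro _ rfl

lemma adm_congr (hC : ∀ i, Cw (a i) (c i)) {x y : ℕ} (h : ∀ p ∈ bad a c, (p : ℤ) ∣ (x : ℤ) - y)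
    (h8 : x % 8 = y % 8) (i : Fin k) : Adm (a i) (c i) x → Adm (a i) (c i) y := by
  rintro ⟨h1, h2, h0⟩
  refine ⟨fun p hp hp2 hd => ?_, fun p hp hd => ?_, by rw [← h8]; exact h0⟩
  · rw [← h1 p hp hp2 hd]
    refine jac_congr ?_
    have h3 := h p ((mem_bad hC).2 ⟨hp, hp2, i, hd.mul_right _⟩)
    have e : -(y : ℤ) - -(x : ℤ) = x - y := by ring
    rw [e]
    exact h3
  · rw [← h2 p hp hd]
    refine jac_congr ?_
    have h3 := h p ((mem_bad hC).2 ⟨hp, dvd_ne_two (hC i) hd, i, hd.mul_left _⟩)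
    have e : (y : ℤ) - (x : ℤ) = -(x - y) := by ring
    rw [e]
    exact (dvd_neg).2 h3

lemma mem_RR (hC : ∀ i, Cw (a i) (c i)) (n : ℕ) : n % QQ a c ∈ RR a c ↔
    ∀ i, Adm (a i) (c i) n := by
  have hd : ∀ p ∈ bad a c, (p : ℤ) ∣ ((n % QQ a c : ℕ) : ℤ) - n := by
    intro p hp
    have h1 : ((QQ a c : ℕ) : ℤ) ∣ (n : ℤ) - ((n % QQ a c : ℕ) : ℤ) :=
      (Nat.modEq_iff_dvd).1 (Nat.mod_modEq n (QQ a c))
    have h2 : (p : ℤ) ∣ ((QQ a c : ℕ) : ℤ) := Int.natCast_dvd_natCast.2 (dvd_QQ hp)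
    have e : ((n % QQ a c : ℕ) : ℤ) - n = -((n : ℤ) - ((n % QQ a c : ℕ) : ℤ)) := by ring
    rw [e]
    exact (dvd_neg).2 (h2.trans h1)
  have h8 : n % QQ a c % 8 = n % 8 := Nat.mod_mod_of_dvd n eight_dvd
  unfold RR
  rw [mem_filter, mem_range]
  constructor
  · exact fun h i => adm_congr hC hd h8 i (h.2 i)
  · refine fun h => ⟨Nat.mod_lt _ (QQ_pos hC), fun i => adm_congr hC (fun p hp => ?_) h8.symm i (h i)⟩
    have := (dvd_neg).2 (hd p hp)
    have e : (n : ℤ) - ((n % QQ a c : ℕ) : ℤ) = -(((n % QQ a c : ℕ) : ℤ) - n) := by ring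
    rw [e]
    exact this

/-- the existence of a prime in the family -/
theorem exists_n0 (hC : ∀ i, Cw (a i) (c i)) (hM : Cmpt a c) :
    ∃ n : ℕ, n.Prime ∧ n % 8 = 3 ∧ ∀ i, Adm (a i) (c i) n := by
  -- residues
  have hx : ∀ p : ℕ, p.Prime → p ≠ 2 → ∃ x : ℕ, ¬ p ∣ x ∧
      ((∃ i, (p : ℤ) ∣ a i * c i) → jacobiSym (-(x : ℤ)) p = -1) ∧
      ((∃ i, (p : ℤ) ∣ c i ^ 2 - a i ^ 2) → jacobiSym (x : ℤ) p = -1) := by
    intro p hp h2
    have hnd : ∀ x : ℕ, (jacobiSym (x : ℤ) p = -1 ∨ x = 1) → ¬ p ∣ x := by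
      rintro x (h | rfl) hd
      · have : Fact p.Prime := ⟨hp⟩
        rw [← jacobiSym.legendreSym.to_jacobiSym, legendreSym.eq_neg_one_iff] at h
        refine h ⟨0, ?_⟩
        rw [mul_zero]
        push_cast
        exact (ZMod.natCast_eq_zero_iff _ _).2 hd
      · exact hp.one_lt.ne' (Nat.dvd_one.1 hd)
    by_cases h3 : p % 4 = 1
    · obtain ⟨x, hx⟩ := exists_nr hp h2
      refine ⟨x, hnd x (Or.inl hx), fun _ => ?_, fun _ => hx⟩
      rw [jac_neg hp h2, if_pos h3, hx]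
    · have h4 : p % 4 = 3 := by
        obtain ⟨u, hu⟩ := hp.odd_of_ne_two h2
        omega
      by_cases h5 : ∃ i, (p : ℤ) ∣ a i * c i
      · refine ⟨1, hnd 1 (Or.inr rfl), fun _ => ?_, fun ⟨j, hj⟩ => ?_⟩
        · rw [jac_neg hp h2, if_neg h3]
          push_cast
          rw [jacobiSym.one_left]
        · obtain ⟨i, hi⟩ := h5
          exact absurd hj (hM i j p hp h4 hi)
      · obtain ⟨x, hx⟩ := exists_nr hp h2
        exact ⟨x, hnd x (Or.inl hx), fun h => absurd h h5, fun _ => hx⟩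
  choose! f hf using hx
  -- the Chinese remainder theorem
  set s : ℕ → ℕ := fun p => if p = 2 then 8 else p with hs
  set g : ℕ → ℕ := fun p => if p = 2 then 3 else f p with hg
  set T : Finset ℕ := insert 2 (bad a c) with hT
  have hTp : ∀ p ∈ T, p.Prime := by
    intro p hp
    rcases mem_insert.1 hp with rfl | h
    · exact Nat.prime_two
    · exact ((mem_bad hC).1 h).1
  have hs2 : ∀ p : ℕ, s p ∣ p ^ 3 := by
    intro p
    show (if p = 2 then 8 else p) ∣ p ^ 3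
    split_ifs with h
    · rw [h]
      norm_num
    · exact Dvd.intro_left (p ^ 2) (by ring)
  have hs0 : ∀ p ∈ T, s p ≠ 0 := by
    intro p hp
    show (if p = 2 then 8 else p) ≠ 0
    split_ifs with h
    · norm_num
    · exact (hTp p hp).ne_zero
  have hco : Set.Pairwise (T : Set ℕ) (Function.onFun Nat.Coprime s) := by
    intro p hp q hq hpq
    have h1 : Nat.Coprime (p ^ 3) (q ^ 3) :=
      Nat.Coprime.pow 3 3 ((Nat.coprime_primes (hTp p hp) (hTp q hq)).2 hpq)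
    exact Nat.Coprime.coprime_dvd_left (hs2 p) (Nat.Coprime.coprime_dvd_right (hs2 q) h1)
  obtain ⟨x, hx⟩ := Nat.chineseRemainderOfFinset g s T hs0 hco
  have hx2 : x % 8 = 3 := by
    have h := hx 2 (mem_insert_self 2 _)
    have h1 : x ≡ 3 [MOD 8] := h
    exact h1
  have hxp : ∀ p ∈ bad a c, x ≡ f p [MOD p] := by
    intro p hp
    have h2 := ((mem_bad hC).1 hp).2.1
    have h := hx p (mem_insert_of_mem hp)
    have e1 : s p = p := if_neg h2
    have e2 : g p = f p := if_neg h2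
    rwa [e1, e2] at h
  -- Dirichlet
  have hcop : x.Coprime (QQ a c) := by
    have h4 : x.Coprime 8 := by
      rw [show (8 : ℕ) = 2 ^ 3 by norm_num]
      refine Nat.Coprime.pow_right 3 ?_
      rw [Nat.coprime_comm, Nat.Prime.coprime_iff_not_dvd Nat.prime_two]
      omega
    refine Nat.Coprime.mul_right h4 (Nat.Coprime.prod_right fun p hp => ?_)
    obtain ⟨h1, h2, -⟩ := (mem_bad hC).1 hp
    rw [Nat.coprime_comm, Nat.Prime.coprime_iff_not_dvd h1]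
    intro hd
    refine (hf p h1 h2).1 ?_
    exact (Nat.modEq_zero_iff_dvd).1 ((hxp p hp).symm.trans ((Nat.modEq_zero_iff_dvd).2 hd))
  obtain ⟨n, -, hn, hnx⟩ := Nat.forall_exists_prime_gt_and_modEq 0 (q := QQ a c) (a := x)
    (by have := QQ_pos hC; omega) hcop
  have hn8 : n % 8 = 3 := by
    have h : n ≡ x [MOD 8] := hnx.of_dvd eight_dvd
    have h1 : n % 8 = x % 8 := h
    rw [h1, hx2]
  refine ⟨n, hn, hn8, fun i => ?_⟩
  · have hnp : ∀ p ∈ bad a c, (p : ℤ) ∣ (f p : ℤ) - n := by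
      intro p hp
      have h1 : n ≡ x [MOD p] := hnx.of_dvd (dvd_QQ hp)
      exact (Nat.modEq_iff_dvd).1 (h1.trans (hxp p hp))
    refine ⟨fun p hp hp2 hd => ?_, fun p hp hd => ?_, by have := (hC i).hc; omega⟩
    · have hb := (mem_bad hC).2 ⟨hp, hp2, i, hd.mul_right _⟩
      rw [← (hf p hp hp2).2.1 ⟨i, hd⟩]
      refine jac_congr ?_
      have e : -(n : ℤ) - -(f p : ℤ) = f p - n := by ring
      rw [e]
      exact hnp p hb
    · have hp2 := dvd_ne_two (hC i) hd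
      have hb := (mem_bad hC).2 ⟨hp, hp2, i, hd.mul_left _⟩
      rw [← (hf p hp hp2).2.2 ⟨i, hd⟩]
      refine jac_congr ?_
      have e : (n : ℤ) - (f p : ℤ) = -(f p - n) := by ring
      rw [e]
      exact (dvd_neg).2 (hnp p hb)

end

end Pool.Agent.N637.SLM
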