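import Pool.Agent.N637.SLM.Stm

/-!
# Project SLK: the labels of several curves
-/

set_option autoImplicit false
set_option linter.unusedVariables false

open scoped Classical

namespace Pool.Agent.N637.SLM.Ind

open Finset
open Pool.Agent.Y703.CQ (nr)
open Pool.Agent.N973.ND (uu)
open Pool.Agent.N637.SLX (Bf)
open Pool.Agent.N637.SLM
open Pool.Agent.N637.SLK (lb Fm)

/-- the sign -/
def sg (u : ZMod 2) : ℤ := if u = 0 then 1 else -1

theorem sg_zero : sg 0 = 1 := rfl

theorem sg_add (u v : ZMod 2) : sg (u + v) = sg u * sg v := by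
  revert u v
  decide

theorem sg_eq_one {u : ZMod 2} (h : sg u = 1) : u = 0 := by
  unfold sg at h
  by_contra hu
  rw [if_neg hu] at h
  norm_num at h

theorem sg_sq (u : ZMod 2) : sg u ^ 2 = 1 := by
  revert u
  decide

theorem sg_sum {ι : Type*} (s : Finset ι) (f : ι → ZMod 2) :
    sg (∑ i ∈ s, f i) = ∏ i ∈ s, sg (f i) := by
  induction s using Finset.induction_on with
  | empty => rfl
  | insert a s ha ih => rw [Finset.sum_insert ha, Finset.prod_insert ha, sg_add, ih]

theorem jac_prime {p x : ℕ} (hp : p.Prime) (hx : x.Coprime p) :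
    jacobiSym x p = sg (nr p x) := by
  haveI : Fact p.Prime := ⟨hp⟩
  have h0 : ((x : ℤ) : ZMod p) ≠ 0 := by
    intro h
    have h1 : ((x : ℕ) : ZMod p) = 0 := by exact_mod_cast h
    rw [ZMod.natCast_eq_zero_iff] at h1
    have h2 := Nat.Coprime.eq_one_of_dvd hx.symm h1
    exact hp.one_lt.ne' h2
  rw [← jacobiSym.legendreSym.to_jacobiSym]
  unfold nr sg
  by_cases h : IsSquare ((x : ℕ) : ZMod p)
  · rw [if_pos h, if_pos rfl]
    rw [legendreSym.eq_one_iff p h0]
    exact_mod_cast h
  · rw [if_neg h, if_neg one_ne_zero]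
    rw [legendreSym.eq_neg_one_iff]
    intro h2
    apply h
    exact_mod_cast h2

/-- the odd prime divisors to an odd power -/
theorem jac {n x : ℕ} (hn : n ≠ 0) (hx : x.Coprime n) :
    jacobiSym x n = sg (∑ l ∈ n.primeFactors.filter (fun p => Odd (n.factorization p)), nr l x) := by
  have h1 : jacobiSym x n = n.factorization.prod fun p k => jacobiSym x (p ^ k) := by
    refine Nat.multiplicative_factorization (fun n => jacobiSym x n) (fun a b hab => ?_) ?_ hn
    · by_cases ha : a = 0
      · subst ha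
        have : b = 1 := by simpa using hab
        subst this
        simp
      by_cases hb : b = 0
      · subst hb
        have : a = 1 := by simpa using hab
        subst this
        simp
      exact jacobiSym.mul_right' _ ha hb
    · exact jacobiSym.one_right _
  rw [h1, sg_sum, Finset.prod_filter, Finsupp.prod, Nat.support_factorization]
  refine Finset.prod_congr rfl fun p hp => ?_
  have hpp := Nat.prime_of_mem_primeFactors hp
  have hpn := Nat.dvd_of_mem_primeFactors hp
  rw [jacobiSym.pow_right, jac_prime hpp (hx.coprime_dvd_right hpn)]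
  split_ifs with h
  · obtain ⟨m, hm⟩ := h
    rw [hm, pow_succ, pow_mul, sg_sq, one_pow, one_mul]
  · rw [Nat.not_odd_iff_even] at h
    obtain ⟨m, hm⟩ := h
    rw [hm, ← two_mul, pow_mul, sg_sq, one_pow]

theorem lb_eq (a c : ℤ) : lb a c = (c ^ 2 - a ^ 2).natAbs.primeFactors.filter
    (fun p => Odd ((c ^ 2 - a ^ 2).natAbs.factorization p)) := by
  unfold lb
  refine Finset.filter_congr fun p hp => ?_
  rw [Nat.factorization_def _ (Nat.prime_of_mem_primeFactors hp)]
  rfl

theorem mod8 {a c : ℤ} (h : Cw a c) (h4 : c % 4 = 0) : (a ^ 2 - c ^ 2) % 8 = 1 := by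
  obtain ⟨u, hu⟩ : ∃ u, a = 2 * u + 1 := ⟨a / 2, by have := h.ha; omega⟩
  obtain ⟨v, hv⟩ : ∃ v, c = 4 * v := ⟨c / 4, by omega⟩
  obtain ⟨w, hw⟩ := Int.even_mul_succ_self u
  have : a ^ 2 - c ^ 2 = 8 * (w - 2 * v ^ 2) + 1 := by
    rw [hu, hv]
    linear_combination 4 * hw
  omega

theorem mod4 {a c : ℤ} (h : Cw a c) : (a ^ 2 - c ^ 2) % 4 = 1 := by
  obtain ⟨u, hu⟩ : ∃ u, a = 2 * u + 1 := ⟨a / 2, by have := h.ha; omega⟩
  obtain ⟨v, hv⟩ : ∃ v, c = 2 * v := ⟨c / 2, by have := h.hc; omega⟩
  have : a ^ 2 - c ^ 2 = 4 * (u ^ 2 + u - v ^ 2) + 1 := by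
    rw [hu, hv]
    ring
  omega

theorem nz {a c : ℤ} (h : Cw a c) : (c ^ 2 - a ^ 2).natAbs ≠ 0 := by
  have := mod4 h
  omega

/-- a prime which is `1` modulo `4` and has the symbol `-1` -/
theorem exists_x {n : ℕ} (hn : Odd n) (hns : ¬ IsSquare n) (B : ℕ) :
    ∃ x : ℕ, x.Prime ∧ B < x ∧ x % 4 = 1 ∧ jacobiSym x n = -1 := by
  have hn0 : 0 < n := hn.pos
  obtain ⟨a, b, ha, hb, hab, hsq⟩ := Nat.sq_mul_squarefree_of_pos hn0
  have ha1 : a ≠ 1 := by
    rintro rfl
    exact hns ⟨b, by rw [← hab]; ring⟩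
  obtain ⟨t, ht, a', rfl⟩ := Nat.exists_prime_and_dvd ha1
  haveI : Fact t.Prime := ⟨ht⟩
  have hco := (Nat.squarefree_mul_iff.1 hsq).1
  have htn : t ∣ n := ⟨b ^ 2 * a', by rw [← hab]; ring⟩
  have htodd : Odd t := hn.of_dvd_nat htn
  have ht2 : t ≠ 2 := by
    rintro rfl
    exact absurd htodd (by decide)
  have ha'0 : a' ≠ 0 := by
    rintro rfl
    simp at ha
  -- a nonresidue
  obtain ⟨r, hr⟩ := quadraticChar_exists_neg_one (F := ZMod t) (by
    rw [ZMod.ringChar_zmod_n]
    exact ht2)
  have hr0 : r ≠ 0 := by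
    rintro rfl
    simp at hr
  have hrl : legendreSym t (r.val : ℤ) = -1 := by
    unfold legendreSym
    have : (((r.val : ℕ) : ℤ) : ZMod t) = r := by
      rw [Int.cast_natCast, ZMod.natCast_val, ZMod.cast_id', id]
    rw [this]
    exact hr
  have hrco : r.val.Coprime t := by
    have h1 : IsUnit ((r.val : ℕ) : ZMod t) := by
      rw [ZMod.natCast_val, ZMod.cast_id', id]
      exact isUnit_iff_ne_zero.2 hr0
    exact (ZMod.isUnit_iff_coprime _ _).1 h1
  have hco4 : t.Coprime (4 * a') := by
    refine Nat.Coprime.mul_right ?_ hco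
    have : t.Coprime 2 := (Nat.coprime_primes ht Nat.prime_two).2 ht2
    exact Nat.Coprime.pow_right 2 this
  obtain ⟨u, hu1, hu2⟩ := Nat.chineseRemainder hco4 r.val 1
  have hu : u.Coprime (t * (4 * a')) := by
    refine Nat.Coprime.mul_right ?_ ?_
    · have := Nat.ModEq.gcd_eq hu1
      rw [Nat.Coprime, this]
      exact hrco
    · have := Nat.ModEq.gcd_eq hu2
      rw [Nat.Coprime, this]
      exact Nat.gcd_one_left _
  obtain ⟨x, hxB, hxp, hxu⟩ := Nat.forall_exists_prime_gt_and_modEq (max B n)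
    (Nat.mul_ne_zero ht.ne_zero (Nat.mul_ne_zero (by norm_num) ha'0)) hu
  have hx1 : x ≡ r.val [MOD t] := (hxu.of_dvd (Dvd.intro _ rfl)).trans hu1
  have hx2 : x ≡ 1 [MOD 4 * a'] := (hxu.of_dvd (Dvd.intro_left _ rfl)).trans hu2
  refine ⟨x, hxp, (le_max_left _ _).trans_lt hxB, ?_, ?_⟩
  · have : x ≡ 1 [MOD 4] := hx2.of_dvd (Dvd.intro _ rfl)
    exact this
  · have e1 : jacobiSym x t = -1 := by
      rw [← jacobiSym.legendreSym.to_jacobiSym, ← hrl]
      unfold legendreSym
      congr 1
      rw [Int.cast_natCast, Int.cast_natCast]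
      exact (ZMod.natCast_eq_natCast_iff _ _ _).2 hx1
    have e2 : jacobiSym x a' = 1 := by
      have h3 : x ≡ 1 [MOD a'] := hx2.of_dvd (Dvd.intro_left _ rfl)
      have h4 : ((x : ℤ)) % (a' : ℤ) = ((1 : ℤ)) % (a' : ℤ) := by
        have := (Int.natCast_modEq_iff).2 h3
        rw [Nat.cast_one] at this
        exact this
      rw [jacobiSym.mod_left' h4, jacobiSym.one_left]
    have e3 : jacobiSym x (b ^ 2) = 1 := by
      rw [jacobiSym.pow_right]
      apply jacobiSym.sq_one
      have h5 : x.Coprime b := by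
        rw [Nat.Prime.coprime_iff_not_dvd hxp]
        intro hdvd
        have h6 := Nat.le_of_dvd hb hdvd
        have h7 : b ≤ n := by
          rw [← hab]
          have : 1 ≤ b * (t * a') := Nat.mul_pos hb ha
          nlinarith
        have h8 := le_max_right B n
        omega
      exact_mod_cast h5
    rw [← hab, jacobiSym.mul_right' _ (by positivity) (by positivity), e3,
      jacobiSym.mul_right' _ ht.ne_zero ha'0, e1, e2]
    norm_num

theorem jac_prod {ι : Type*} (s : Finset ι) (f : ι → ℕ) (hf : ∀ i, f i ≠ 0) (x : ℤ) :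
    jacobiSym x (∏ i ∈ s, f i) = ∏ i ∈ s, jacobiSym x (f i) := by
  induction s using Finset.induction_on with
  | empty => simp
  | insert a s ha ih =>
    rw [Finset.prod_insert ha, Finset.prod_insert ha, ← ih,
      jacobiSym.mul_right' _ (hf a) (Finset.prod_ne_zero_iff.2 fun i _ => hf i)]

theorem t_IND : S_IND := by
  intro k a c hCv hns Q hQ hlQ
  set T : Finset ℕ := Finset.univ.biUnion (fun i => lb (a i) (c i)) with hT
  have hlbT : ∀ i, lb (a i) (c i) ⊆ T := fun i =>
    Finset.subset_biUnion_of_mem (fun i => lb (a i) (c i)) (Finset.mem_univ i)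
  set ell : Fin T.card → ℕ := fun l => (T.equivFin.symm l : ℕ) with hell
  set e : Fin k → Fin T.card → ZMod 2 := fun i l => if ell l ∈ lb (a i) (c i) then 1 else 0 with he
  have hsum : ∀ (F : ℕ → ZMod 2) (i : Fin k),
      ∑ l, e i l * F (ell l) = ∑ t ∈ lb (a i) (c i), F t := by
    intro F i
    have h1 : ∑ l, e i l * F (ell l) =
        ∑ l : Fin T.card, (fun t : T => (if (t : ℕ) ∈ lb (a i) (c i) then 1 else 0) * F t)
          (T.equivFin.symm l) := rfl
    rw [h1, Equiv.sum_comp T.equivFin.symm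
      (fun t : T => (if (t : ℕ) ∈ lb (a i) (c i) then 1 else 0) * F t)]
    rw [Finset.sum_coe_sort T (fun t => (if t ∈ lb (a i) (c i) then 1 else 0) * F t)]
    rw [← Finset.sum_subset (hlbT i) (fun t _ ht => by rw [if_neg ht, zero_mul])]
    exact Finset.sum_congr rfl fun t ht => by rw [if_pos ht, one_mul]
  have hmem : ∀ l, ∃ i, ell l ∈ lb (a i) (c i) := by
    intro l
    have h1 : ell l ∈ T := (T.equivFin.symm l).2
    rw [hT, Finset.mem_biUnion] at h1
    obtain ⟨i, -, hi⟩ := h1
    exact ⟨i, hi⟩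
  refine ⟨T.card, ell, e, ⟨?_, ?_⟩, ?_, hmem, ?_⟩
  · intro l
    obtain ⟨i, hi⟩ := hmem l
    have h1 := (Finset.mem_filter.1 hi).1
    have h2 := Nat.dvd_of_mem_primeFactors h1
    refine ⟨Nat.prime_of_mem_primeFactors h1, ?_, hlQ i _ hi⟩
    intro h3
    rw [h3] at h2
    have := mod4 (hCv i)
    omega
  · intro s γ hsγ
    by_cases hγ : γ = 0
    · subst hγ
      have hs : s = 1 := by
        rcases hsγ with h | h
        · revert h
          revert s
          decide
        · exact absurd rfl h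
      subst hs
      obtain ⟨x, hx1, hxp, hx2⟩ := Nat.forall_exists_prime_gt_and_modEq (2 * Q)
        (q := 4) (a := 3) (by norm_num) (by norm_num)
      refine ⟨x, ?_, ?_⟩
      · rw [Nat.Prime.coprime_iff_not_dvd hxp]
        intro h
        have := Nat.le_of_dvd (by omega) h
        omega
      · have h3 : x % 4 = 3 := hx2
        simp [uu, h3]
    · set Tg : Finset (Fin k) := Finset.univ.filter fun i => γ i ≠ 0 with hTg
      have hTne : Tg.Nonempty := by
        by_contra h
        rw [Finset.not_nonempty_iff_eq_empty] at h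
        apply hγ
        funext i
        by_contra hi
        have : i ∈ Tg := Finset.mem_filter.2 ⟨Finset.mem_univ i, hi⟩
        rw [h] at this
        exact absurd this (Finset.notMem_empty i)
      set D : ℤ := ∏ i ∈ Tg, (a i ^ 2 - c i ^ 2) with hD
      have hD8 : D % 4 = 1 := by
        have h1 : ((D : ℤ) : ZMod 4) = 1 := by
          rw [hD, Int.cast_prod]
          apply Finset.prod_eq_one
          intro i _
          have h2 := mod4 (hCv i)
          have h3 : (((a i ^ 2 - c i ^ 2 : ℤ)) : ZMod 4) = ((1 : ℤ) : ZMod 4) := by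
            rw [ZMod.intCast_eq_intCast_iff]
            exact h2
          rw [h3, Int.cast_one]
        have h4 : ((D : ℤ) : ZMod 4) = ((1 : ℤ) : ZMod 4) := by rw [h1, Int.cast_one]
        rw [ZMod.intCast_eq_intCast_iff] at h4
        exact h4
      have hDn : D.natAbs = ∏ i ∈ Tg, (c i ^ 2 - a i ^ 2).natAbs := by
        have h1 : D.natAbs = ∏ i ∈ Tg, (a i ^ 2 - c i ^ 2).natAbs := by
          rw [hD]
          exact map_prod Int.natAbsHom _ _
        rw [h1]
        refine Finset.prod_congr rfl fun i _ => ?_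
        rw [← Int.natAbs_neg, neg_sub]
      have hDns : ¬ IsSquare D.natAbs := by
        rintro ⟨m, hm⟩
        rcases Int.natAbs_eq D with h | h
        · exact hns Tg hTne ⟨m, by rw [← hD, h, hm]; push_cast; ring⟩
        · rw [hm] at h
          push_cast at h
          have h5 : ((D : ℤ) : ZMod 4) = ((1 : ℤ) : ZMod 4) :=
            (ZMod.intCast_eq_intCast_iff _ _ _).2 hD8
          rw [h, Int.cast_one] at h5
          push_cast at h5
          exact (by decide : ∀ z : ZMod 4, -(z * z) ≠ 1) _ h5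
      obtain ⟨x, hxp, hxB, hx4, hxj⟩ := exists_x (n := D.natAbs) (by
        rw [Nat.odd_iff]
        omega) hDns (2 * Q + D.natAbs)
      have hxD : x.Coprime D.natAbs := by
        rw [Nat.Prime.coprime_iff_not_dvd hxp]
        intro h
        have := Nat.le_of_dvd (by omega) h
        omega
      refine ⟨x, ?_, ?_⟩
      · rw [Nat.Prime.coprime_iff_not_dvd hxp]
        intro h
        have := Nat.le_of_dvd (by omega) h
        omega
      · have hu : uu x = 0 := by
          unfold uu
          rw [if_neg (by omega)]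
        rw [hu, mul_zero, zero_add]
        have h1 : ∑ i, γ i * ∑ l, e i l * nr (ell l) x =
            ∑ i ∈ Tg, ∑ t ∈ lb (a i) (c i), nr t x := by
          rw [hTg, Finset.sum_filter]
          refine Finset.sum_congr rfl fun i _ => ?_
          rw [hsum (fun t => nr t x) i]
          split_ifs with h
          · have : ∀ g : ZMod 2, g ≠ 0 → g = 1 := by decide
            rw [this _ h, one_mul]
          · push Not at h
            rw [h, zero_mul]
        rw [h1]
        intro h2
        have h3 : jacobiSym x D.natAbs = 1 := by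
          rw [hDn, jac_prod _ _ (fun i => nz (hCv i))]
          have h4 : ∏ i ∈ Tg, jacobiSym x (c i ^ 2 - a i ^ 2).natAbs =
              ∏ i ∈ Tg, sg (∑ t ∈ lb (a i) (c i), nr t x) := by
            refine Finset.prod_congr rfl fun i hi => ?_
            rw [jac (nz (hCv i)) (hxD.coprime_dvd_right (by
              rw [hDn]
              exact Finset.dvd_prod_of_mem _ hi)), ← lb_eq]
          rw [h4, ← sg_sum, h2, sg_zero]
        rw [h3] at hxj
        norm_num at hxj
  · intro i hi4
    rw [hsum (fun t => nr t 2) i]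
    apply sg_eq_one
    have h0 := mod8 (hCv i) hi4
    have hodd : Odd (c i ^ 2 - a i ^ 2).natAbs := by
      rw [Nat.odd_iff]
      omega
    have h1 := jac (nz (hCv i)) (x := 2) (by
      rw [Nat.coprime_two_left]
      exact hodd)
    rw [← lb_eq] at h1
    rw [← h1]
    have h2 : ((2 : ℕ) : ℤ) = 2 := rfl
    rw [h2, jacobiSym.at_two hodd, ZMod.χ₈_nat_eq_if_mod_eight]
    rw [if_neg (by omega), if_pos (by omega)]
  · intro i V _ g y z
    unfold Fm
    exact hsum (fun t => Bf (g t) y z) i

end Pool.Agent.N637.SLM.Ind
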