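import Pool.Agent.N637.SLM.Stm
import Pool.Agent.N134.SLX.Inj

/-!
# SLK/INJ: the coordinates determine the vectors (helper498; adapted from Pool/Agent/N134/SLX/Inj.lean)
-/

set_option autoImplicit false

open scoped Classical

namespace Pool.Agent.N637.SLM.Inj

open Finset
open Pool.Agent.N916.GB (Po Vt)
open Pool.Agent.Y703.CQ (nr)
open Pool.Agent.N637.SLX (pdr dY)
open Pool.Agent.N637.SLM
open Pool.Agent.N637.SLK (TyG lb dXG)
open Pool.Agent.N134.SLX (z2_ext vt_prime dvd_iff int_prime dvd_prime dvd_pdr pdr_two pdr_ne)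

/-- SLK-INJ -/
theorem t_INJ : S_INJ := by
  intro t r s S m a c hTy _ _ x y x' y' hX hY
  have hpr : ∀ p : {x : ℕ // x ∈ Vt t S}, p.1.Prime := vt_prime hTy.po
  have hy : y = y' := by
    funext p
    apply z2_ext
    have h : ∀ q : {x : ℕ // x ∈ Vt t S}, ((p.1 : ℕ) : ℤ) ∣ ((q.1 : ℕ) : ℤ) ↔ q = p := by
      intro q
      rw [dvd_prime (hpr p) (hpr q), Subtype.ext_iff]
    have h1 := dvd_iff (fun q : {x : ℕ // x ∈ Vt t S} => ((q.1 : ℕ) : ℤ)) y (int_prime (hpr p)) p h
    have h2 := dvd_iff (fun q : {x : ℕ // x ∈ Vt t S} => ((q.1 : ℕ) : ℤ)) y' (int_prime (hpr p)) p h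
    rw [← h1, ← h2]
    unfold Pool.Agent.N637.SLX.dY at hY
    rw [hY]
  subst hy
  refine ⟨?_, rfl⟩
  unfold dXG at hX
  have hj : (∏ l ∈ lb a c, if ∑ q : {x : ℕ // x ∈ Vt t S}, nr l q.1 * y q = 1 then
      (if l % 4 = 1 then (l : ℤ) else -l) else 1) ≠ 0 := by
    refine Finset.prod_ne_zero_iff.2 fun l hl => ?_
    unfold lb at hl
    have h0 : (l : ℤ) ≠ 0 := by
      exact_mod_cast (Nat.prime_of_mem_primeFactors (mem_filter.1 hl).1).ne_zero
    split_ifs
    · exact h0
    · exact neg_ne_zero.2 h0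
    · exact one_ne_zero
  have hprod := mul_right_cancel₀ hj hX
  have hodd : ∀ p : {x : ℕ // x ∈ Vt t S}, p.1 ≠ 2 → x p = x' p := by
    intro p hp2
    apply z2_ext
    have h : ∀ q : {x : ℕ // x ∈ Vt t S}, ((p.1 : ℕ) : ℤ) ∣ pdr r s q.1 ↔ q = p := by
      intro q
      rw [dvd_pdr r s (hpr p) hp2 (hpr q), Subtype.ext_iff]
    have h1 := dvd_iff (fun q : {x : ℕ // x ∈ Vt t S} => pdr r s q.1) x (int_prime (hpr p)) p h
    have h2 := dvd_iff (fun q : {x : ℕ // x ∈ Vt t S} => pdr r s q.1) x' (int_prime (hpr p)) p h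
    rw [← h1, ← h2, hprod]
  funext p
  by_cases hp2 : p.1 = 2
  · rw [← Finset.mul_prod_erase univ _ (mem_univ p), ← Finset.mul_prod_erase univ
      (fun p : {x : ℕ // x ∈ Vt t S} => if x' p = 1 then pdr r s p.1 else 1) (mem_univ p)] at hprod
    have he : (∏ q ∈ univ.erase p, if x q = 1 then pdr r s q.1 else 1) =
        ∏ q ∈ univ.erase p, if x' q = 1 then pdr r s q.1 else 1 := by
      refine Finset.prod_congr rfl fun q hq => ?_
      rw [hodd q (fun h => (mem_erase.1 hq).1 (Subtype.ext (h.trans hp2.symm)))]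
    have hne : (∏ q ∈ univ.erase p, if x' q = 1 then pdr r s q.1 else 1) ≠ 0 := by
      refine Finset.prod_ne_zero_iff.2 fun q _ => ?_
      split_ifs
      · exact pdr_ne r s (hpr q)
      · exact one_ne_zero
    rw [he] at hprod
    have h3 := mul_right_cancel₀ hne hprod
    apply z2_ext
    have h4 : pdr r s p.1 ≠ 1 := by rw [hp2]; exact pdr_two r s
    constructor
    · intro h
      by_contra h'
      rw [if_pos h, if_neg h'] at h3
      exact h4 h3
    · intro h
      by_contra h'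
      rw [if_pos h, if_neg h'] at h3
      exact h4 h3.symm
  · exact hodd p hp2

end Pool.Agent.N637.SLM.Inj
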