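import Pool.Agent.N637.SLM.Stm
import Pool.Agent.N691.SLK.L2

/-!
# Project SLM: the place `2`, solvability, `m = 5 mod 8`
-/

set_option autoImplicit false
set_option linter.all false

namespace Pool.Agent.N637.SLM.L2a

open Pool.Agent.N637.SLM (Cw S_LT S_L2a)
open Pool.Agent.TH841.SH (LocC)
open Pool.Agent.N637.P21 (sq8)
open Pool.Agent.N691.SLK (chg odd_sq pt hex)

/-- the place `2` -/
theorem t_L2a (hLT : S_LT) : S_L2a := by
  intro m a c hC hsm hc8 hm d1 d2 hs1 hs2 h1 h2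
  have ha := hC.ha
  obtain ⟨c', hc⟩ : ∃ c', c = 2 * c' := ⟨c / 2, by have := hC.hc; omega⟩
  have ha2 := odd_sq ha
  have hm0 : m ≠ 0 := hsm.ne_zero
  have hd1 : d1 ≠ 0 := hs1.ne_zero
  have hd2 : d2 ≠ 0 := hs2.ne_zero
  obtain ⟨hT, hA⟩ := hLT ℚ_[2] m a c hm0 hC (hex ha hm0)
  have one1 : IsSquare ((1 : ℤ) : ℚ_[2]) := sq8 (by norm_num)
  -- `a ^ 2 - c ^ 2`
  have hac : (a ^ 2 - c ^ 2) % 8 = 1 ∨ (a ^ 2 - c ^ 2) % 8 = 5 := by
    have e : c ^ 2 = 4 * (c' * c') := by rw [hc]; ring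
    rw [e]
    omega
  -- assembly
  have asm : LocC ℚ_[2] 0 (a ^ 2 * m) (-(c ^ 2 - a ^ 2) * m) d1 1 →
      LocC ℚ_[2] 0 (a ^ 2 * m) (-(c ^ 2 - a ^ 2) * m) 1 d2 →
      LocC ℚ_[2] 0 (a ^ 2 * m) (-(c ^ 2 - a ^ 2) * m) d1 d2 := by
    intro h1 h2
    have := hA d1 1 1 d2 hd1 one_ne_zero one_ne_zero hd2 h1 h2
    rwa [mul_one, one_mul] at this
  have T1 : IsSquare (d1 : ℚ_[2]) ∨ IsSquare ((d1 : ℚ_[2]) * m) →
      LocC ℚ_[2] 0 (a ^ 2 * m) (-(c ^ 2 - a ^ 2) * m) d1 1 := fun h =>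
    hT d1 1 hd1 one_ne_zero (Or.inl ⟨one1, h⟩)
  have T2 : ∀ d : ℤ, d % 8 = 1 → LocC ℚ_[2] 0 (a ^ 2 * m) (-(c ^ 2 - a ^ 2) * m) 1 d := by
    intro d hd
    refine hT 1 d one_ne_zero (by omega) (Or.inl ⟨sq8 hd, Or.inl one1⟩)
  have T3 : ∀ d : ℤ, d % 8 = 3 → LocC ℚ_[2] 0 (a ^ 2 * m) (-(c ^ 2 - a ^ 2) * m) 1 d := by
    intro d hd
    refine hT 1 d one_ne_zero (by omega) (Or.inr ⟨?_, ?_⟩)
    · have h := sq8 (n := d * (-m)) (by
        have e : (-m) % 8 = 3 := by omega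
        rw [Int.mul_emod, hd, e]; norm_num)
      push_cast at h
      exact h
    · rcases hac with h3 | h3
      · left
        have h := sq8 h3
        push_cast at h ⊢
        have e : (1 : ℚ_[2]) * (-((c : ℚ_[2]) ^ 2 - (a : ℚ_[2]) ^ 2)) = (a : ℚ_[2]) ^ 2 - c ^ 2 := by
          ring
        rw [e]
        exact h
      · right
        have h := sq8 (n := (a ^ 2 - c ^ 2) * m) (by rw [Int.mul_emod, h3, hm]; norm_num)
        push_cast at h ⊢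
        have e : (1 : ℚ_[2]) * (-((c : ℚ_[2]) ^ 2 - (a : ℚ_[2]) ^ 2)) * m =
            ((a : ℚ_[2]) ^ 2 - c ^ 2) * m := by
          ring
        rw [e]
        exact h
  have P5 : ∀ d : ℤ, d % 8 = 5 → LocC ℚ_[2] 0 (a ^ 2 * m) (-(c ^ 2 - a ^ 2) * m) 1 d := by
    intro d hd
    refine pt 1 1 0 (1 - 4 * m) (2 * c' ^ 2 * m) ha one_ne_zero (by ring) (by omega)
      (by rw [hc]; ring) one1 ?_
    rw [pow_zero, one_mul]
    refine sq8 ?_
    have h1 : (1 - 4 * m) % 8 = 5 := by omega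
    rw [Int.mul_emod, hd, h1]
    norm_num
  have P7 : ∀ d : ℤ, d % 8 = 7 → LocC ℚ_[2] 0 (a ^ 2 * m) (-(c ^ 2 - a ^ 2) * m) 1 d := by
    intro d hd
    have h := hA 1 3 1 5 one_ne_zero (by norm_num) one_ne_zero (by norm_num) (T3 3 (by norm_num))
      (P5 5 (by norm_num))
    refine chg (1 * 1) (3 * 5) h (by norm_num) (by norm_num) ?_ ?_
    · exact ⟨1, by norm_num⟩
    · have h := sq8 (n := 15 * d) (by rw [Int.mul_emod, hd]; norm_num)
      push_cast at h ⊢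
      exact h
  apply asm
  · have h18 : d1 % 8 = 1 ∨ d1 % 8 = 5 := by omega
    rcases h18 with h18 | h18
    · exact T1 (Or.inl (sq8 h18))
    · refine T1 (Or.inr ?_)
      have := sq8 (n := d1 * m) (by rw [Int.mul_emod, h18, hm]; norm_num)
      push_cast at this
      exact this
  · have h28 : d2 % 8 = 1 ∨ d2 % 8 = 5 ∨ d2 % 8 = 3 ∨ d2 % 8 = 7 := by omega
    rcases h28 with h28 | h28 | h28 | h28
    · exact T2 _ h28
    · exact P5 _ h28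
    · exact T3 _ h28
    · exact P7 _ h28

end Pool.Agent.N637.SLM.L2a
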