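import Pool.Agent.N637.SLM.Stm
import Pool.Agent.N691.SLK.L2
import Pool.Agent.N530.SLK.N2
import Pool.Agent.N681.SLK.Lt

/-!
# SLM: the real place (proof of helper691) and the place 2
-/

set_option autoImplicit false
set_option linter.all false

open scoped Classical

namespace Pool.Agent.N637.SLM.LR

open Pool.Agent.N637.SLM
open Pool.Agent.TH841.SH (LocC)

/-- the real place -/
theorem t_LR : S_LR := by
  intro m a c hC hm d1 d2 hs1 hs2
  have hd1 : d1 ≠ 0 := hs1.ne_zero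
  have hd2 : d2 ≠ 0 := hs2.ne_zero
  have hm' : (m : ℝ) < 0 := by exact_mod_cast hm
  have ha : (1 : ℝ) ≤ (a : ℝ) ^ 2 := by
    have h1 : a ≠ 0 := by
      rintro rfl
      have := hC.ha
      norm_num at this
    have h2 : 1 ≤ a ^ 2 := by
      have : 0 < a ^ 2 := by positivity
      omega
    exact_mod_cast h2
  have hc : (1 : ℝ) ≤ (c : ℝ) ^ 2 := by
    have h1 : c ≠ 0 := by
      rintro rfl
      exact hC.h0 rfl
    have h2 : 1 ≤ c ^ 2 := by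
      have : 0 < c ^ 2 := by positivity
      omega
    exact_mod_cast h2
  constructor
  · rintro ⟨x, y, hy, he, -, h2⟩
    rw [Real.isSquare_iff] at h2
    push_cast at he h2
    have hy2 : 0 < y ^ 2 := by positivity
    have hx : 0 < x - (a : ℝ) ^ 2 * m := by
      by_contra hcon
      push Not at hcon
      have k1 : x < 0 := by nlinarith
      have k2 : x - -((c : ℝ) ^ 2 - (a : ℝ) ^ 2) * m < 0 := by nlinarith
      have k3 : 0 ≤ (x - (a : ℝ) ^ 2 * m) * (x - -((c : ℝ) ^ 2 - (a : ℝ) ^ 2) * m) :=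
        mul_nonneg_of_nonpos_of_nonpos hcon k2.le
      have k4 : x * ((x - (a : ℝ) ^ 2 * m) * (x - -((c : ℝ) ^ 2 - (a : ℝ) ^ 2) * m)) ≤ 0 :=
        mul_nonpos_of_nonpos_of_nonneg k1.le k3
      have k5 : y ^ 2 = x * ((x - (a : ℝ) ^ 2 * m) * (x - -((c : ℝ) ^ 2 - (a : ℝ) ^ 2) * m)) := by
        rw [he]; ring
      linarith
    have h3 : (0 : ℝ) ≤ d2 := nonneg_of_mul_nonneg_right h2 hx
    have h4 : 0 ≤ d2 := by exact_mod_cast h3
    omega
  · intro hd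
    have hd2' : (0 : ℝ) < d2 := by exact_mod_cast hd
    have key : ∀ x : ℝ, 0 < x * (x - (a : ℝ) ^ 2 * m) * (x + ((c : ℝ) ^ 2 - (a : ℝ) ^ 2) * m) →
        0 ≤ x * d1 → 0 ≤ x - (a : ℝ) ^ 2 * m →
        LocC ℝ 0 (a ^ 2 * m) (-(c ^ 2 - a ^ 2) * m) d1 d2 := by
      intro x h1 h2 h3
      refine ⟨x, Real.sqrt (x * (x - (a : ℝ) ^ 2 * m) * (x + ((c : ℝ) ^ 2 - (a : ℝ) ^ 2) * m)),
        (Real.sqrt_pos.2 h1).ne', ?_, ?_, ?_⟩
      · rw [Real.sq_sqrt h1.le]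
        push_cast
        ring
      · push_cast
        rw [sub_zero]
        exact (Real.isSquare_iff).2 h2
      · push_cast
        exact (Real.isSquare_iff).2 (mul_nonneg h3 hd2'.le)
    rcases lt_or_gt_of_ne hd1 with h | h
    · have h' : (d1 : ℝ) < 0 := by exact_mod_cast h
      have k1 : (a : ℝ) ^ 2 * m - m / 2 < 0 := by nlinarith
      have k2 : 0 < (a : ℝ) ^ 2 * m - m / 2 - (a : ℝ) ^ 2 * m := by linarith
      have k3 : (a : ℝ) ^ 2 * m - m / 2 + ((c : ℝ) ^ 2 - (a : ℝ) ^ 2) * m < 0 := by nlinarith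
      refine key ((a : ℝ) ^ 2 * m - m / 2) ?_ (mul_nonneg_of_nonpos_of_nonpos k1.le h'.le) k2.le
      exact mul_pos_of_neg_of_neg (mul_neg_of_neg_of_pos k1 k2) k3
    · have h' : (0 : ℝ) < d1 := by exact_mod_cast h
      have k1 : 0 < ((a : ℝ) ^ 2 + (c : ℝ) ^ 2) * (-m) := mul_pos (by linarith) (by linarith)
      have k2 : 0 < ((a : ℝ) ^ 2 + (c : ℝ) ^ 2) * (-m) - (a : ℝ) ^ 2 * m := by nlinarith
      have k3 : 0 < ((a : ℝ) ^ 2 + (c : ℝ) ^ 2) * (-m) + ((c : ℝ) ^ 2 - (a : ℝ) ^ 2) * m := by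
        nlinarith
      exact key (((a : ℝ) ^ 2 + (c : ℝ) ^ 2) * (-m)) (mul_pos (mul_pos k1 k2) k3)
        (mul_nonneg k1.le h'.le) k2.le


lemma cv_of {a c : ℤ} (h : Cw a c) (h4 : c % 8 = 4) : Pool.Agent.N637.SLK.Cv a c := ⟨h.ha, h4, h.co⟩

/-- the place 2, necessity -/
theorem t_N2 (ha : S_N2a) (hb : S_N2b) (hc : S_N2c) : S_N2 := by
  intro m a c hC hm hT d1 d2 h1 h2 hl
  rcases hT with h | ⟨h, h'⟩ | ⟨h, h'⟩
  · exact Pool.Agent.N530.SLK.t_N2 m a c (cv_of hC h) hm d1 d2 h1 h2 hl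
  · refine ⟨fun h4 => ha m a c hC hm h (by omega) d1 d2 h1 h2 hl,
      fun h4 => hb m a c hC hm h h4 d1 d2 h1 h2 hl⟩
  · exact ⟨fun _ => hc m a c hC hm h h' d1 d2 h1 h2 hl, fun h4 => absurd (by omega) h4⟩

/-- the place 2, solvability -/
theorem t_L2 (ha : S_L2a) (hb : S_L2b) : S_L2 := by
  intro m a c hC hm hT d1 d2 h1 h2
  rcases hT with h | ⟨h, h'⟩ | ⟨h, h'⟩
  · exact Pool.Agent.N691.SLK.t_L2 Pool.Agent.N681.SLK.t_LT m a c (cv_of hC h) hm d1 d2 h1 h2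
  · exact ⟨fun h4 h5 h6 => ha m a c hC hm (Or.inl h) (by omega) d1 d2 h1 h2 h5 h6,
      fun h4 h5 h6 => hb m a c hC hm h h4 d1 d2 h1 h2 h5 h6⟩
  · exact ⟨fun h4 h5 h6 => ha m a c hC hm (Or.inr h) h' d1 d2 h1 h2 h5 h6,
      fun h4 => absurd (by omega) h4⟩

end Pool.Agent.N637.SLM.LR
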