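import Pool.Agent.N637.SLM.Stm
import Pool.Agent.N738.SLX.Lt

/-!
# Project SLK (helper637): torsion classes and additivity of the local images of the curves `E_{a,c}`
-/

set_option autoImplicit false
set_option linter.unusedVariables false

namespace Pool.Agent.N637.SLM.LT

open WeierstrassCurve
open Pool.Agent.TH841.SH (LocC IsR)
open Pool.Agent.N763.QB (al al_mul al_zero al_eq al_some)
open Pool.Agent.N738.SLX (sq_of_eq sq_cancel)
open Pool.Agent.N637.SLM (Cw)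

theorem Cw.nz {a c : ℤ} (h : Cw a c) : a ≠ 0 ∧ c ≠ 0 ∧ c ^ 2 - a ^ 2 ≠ 0 := by
  have h1 := h.ha
  have h2 := h.hc
  refine ⟨by omega, h.h0, fun h3 => ?_⟩
  have h4 : c ^ 2 = a ^ 2 := by linarith
  rcases sq_eq_sq_iff_eq_or_eq_neg.mp h4 with h5 | h5 <;> omega

theorem tors_loc {K : Type} [Field K] [CharZero K] {m a c : ℤ} (hm : m ≠ 0) (hC : Cw a c)
    (h0 : ∃ x y : K, y ≠ 0 ∧ y ^ 2 = x * (x - a ^ 2 * m) * (x + (c ^ 2 - a ^ 2) * m) ∧ IsSquare x ∧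
      IsSquare (x - a ^ 2 * m) ∧ IsSquare (x + (c ^ 2 - a ^ 2) * m)) (d1 d2 : ℤ)
    (h : (IsSquare (d2 : K) ∧ (IsSquare (d1 : K) ∨ IsSquare ((d1 : K) * m))) ∨
      (IsSquare ((d2 : K) * (-m)) ∧ (IsSquare ((d1 : K) * (-(c ^ 2 - a ^ 2))) ∨
        IsSquare ((d1 : K) * (-(c ^ 2 - a ^ 2)) * m)))) :
    LocC K 0 (a ^ 2 * m) (-(c ^ 2 - a ^ 2) * m) d1 d2 := by
  obtain ⟨x, y, hy, hxy, s1, s2, s3⟩ := h0
  obtain ⟨za, zc, zb⟩ := Cw.nz hC
  have hmK : (m : K) ≠ 0 := Int.cast_ne_zero.mpr hm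
  have haK : (a : K) ≠ 0 := Int.cast_ne_zero.mpr za
  have hcK : (c : K) ≠ 0 := Int.cast_ne_zero.mpr zc
  have hbK : (c : K) ^ 2 - (a : K) ^ 2 ≠ 0 := by
    have := (Int.cast_ne_zero (α := K)).mpr zb
    push_cast at this
    exact this
  have hne : x * (x - a ^ 2 * m) * (x + (c ^ 2 - a ^ 2) * m) ≠ 0 := by
    rw [← hxy]
    exact pow_ne_zero 2 hy
  have h1 : x ≠ 0 := left_ne_zero_of_mul (left_ne_zero_of_mul hne)
  have h2 : x - a ^ 2 * m ≠ 0 := right_ne_zero_of_mul (left_ne_zero_of_mul hne)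
  have h3 : x + (c ^ 2 - a ^ 2) * m ≠ 0 := right_ne_zero_of_mul hne
  rcases h with ⟨q2, q1 | q1⟩ | ⟨q2, q1 | q1⟩
  · refine ⟨x, y, hy, ?_, ?_, ?_⟩
    · push_cast
      rw [hxy]
      ring
    · exact sq_of_eq s1 q1 (c := 1) (by push_cast; ring)
    · exact sq_of_eq s2 q2 (c := 1) (by push_cast; ring)
  · refine ⟨a ^ 2 * m * (x + (c ^ 2 - a ^ 2) * m) / (x - a ^ 2 * m),
      a ^ 2 * c ^ 2 * m ^ 2 * y / (x - a ^ 2 * m) ^ 2, ?_, ?_, ?_, ?_⟩
    · exact div_ne_zero (mul_ne_zero (mul_ne_zero (mul_ne_zero (pow_ne_zero 2 haK)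
        (pow_ne_zero 2 hcK)) (pow_ne_zero 2 hmK)) hy) (pow_ne_zero 2 h2)
    · push_cast
      have f2 : (a : K) ^ 2 * m * (x + (c ^ 2 - a ^ 2) * m) / (x - a ^ 2 * m) - a ^ 2 * m =
          a ^ 2 * c ^ 2 * m ^ 2 / (x - a ^ 2 * m) := by
        field_simp
        ring
      have f3 : (a : K) ^ 2 * m * (x + (c ^ 2 - a ^ 2) * m) / (x - a ^ 2 * m) -
          -(c ^ 2 - a ^ 2) * m = c ^ 2 * m * x / (x - a ^ 2 * m) := by
        field_simp
        ring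
      rw [div_pow, mul_pow, mul_pow, hxy, f2, f3, sub_zero]
      field_simp
      try ring
    · exact sq_of_eq (s3.mul s2) q1 (c := (a : K) / (x - a ^ 2 * m))
        (by push_cast; field_simp; ring)
    · exact sq_of_eq s2 q2 (c := (a : K) * c * m / (x - a ^ 2 * m))
        (by push_cast; field_simp; ring)
  · refine ⟨-(a ^ 2 * (c ^ 2 - a ^ 2)) * m ^ 2 / x, a ^ 2 * (c ^ 2 - a ^ 2) * m ^ 2 * y / x ^ 2,
      ?_, ?_, ?_, ?_⟩
    · exact div_ne_zero (mul_ne_zero (mul_ne_zero (mul_ne_zero (pow_ne_zero 2 haK) hbK)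
        (pow_ne_zero 2 hmK)) hy) (pow_ne_zero 2 h1)
    · push_cast
      rw [div_pow, mul_pow, mul_pow, hxy]
      field_simp
      ring
    · exact sq_of_eq s1 q1 (c := (a : K) * m / x) (by push_cast; field_simp; ring)
    · exact sq_of_eq (s3.mul s1) q2 (c := (a : K) / x) (by push_cast; field_simp; ring)
  · refine ⟨-(c ^ 2 - a ^ 2) * m * (x - a ^ 2 * m) / (x + (c ^ 2 - a ^ 2) * m),
      (c ^ 2 - a ^ 2) * c ^ 2 * m ^ 2 * y / (x + (c ^ 2 - a ^ 2) * m) ^ 2, ?_, ?_, ?_, ?_⟩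
    · exact div_ne_zero (mul_ne_zero (mul_ne_zero (mul_ne_zero hbK (pow_ne_zero 2 hcK))
        (pow_ne_zero 2 hmK)) hy) (pow_ne_zero 2 h3)
    · push_cast
      have f2 : -((c : K) ^ 2 - a ^ 2) * m * (x - a ^ 2 * m) / (x + (c ^ 2 - a ^ 2) * m) -
          a ^ 2 * m = -c ^ 2 * m * x / (x + (c ^ 2 - a ^ 2) * m) := by
        field_simp
        ring
      have f3 : -((c : K) ^ 2 - a ^ 2) * m * (x - a ^ 2 * m) / (x + (c ^ 2 - a ^ 2) * m) -
          -(c ^ 2 - a ^ 2) * m = (c ^ 2 - a ^ 2) * c ^ 2 * m ^ 2 / (x + (c ^ 2 - a ^ 2) * m) := by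
        field_simp
        ring
      rw [div_pow, mul_pow, mul_pow, hxy, f2, f3, sub_zero]
      field_simp
      try ring
    · exact sq_of_eq (s2.mul s3) q1 (c := 1 / (x + (c ^ 2 - a ^ 2) * m))
        (by push_cast; field_simp; ring)
    · exact sq_of_eq (s1.mul s3) q2 (c := (c : K) / (x + (c ^ 2 - a ^ 2) * m))
        (by push_cast; field_simp; ring)

theorem add_loc {K : Type} [Field K] [CharZero K] {m A C : ℤ} (hm : m ≠ 0) (hC : Cw A C)
    (h0 : ∃ x y : K, y ≠ 0 ∧ y ^ 2 = x * (x - A ^ 2 * m) * (x + (C ^ 2 - A ^ 2) * m) ∧ IsSquare x ∧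
      IsSquare (x - A ^ 2 * m) ∧ IsSquare (x + (C ^ 2 - A ^ 2) * m)) (d1 d2 d3 d4 : ℤ)
    (n1 : d1 ≠ 0) (n2 : d2 ≠ 0) (n3 : d3 ≠ 0) (n4 : d4 ≠ 0)
    (hp : LocC K 0 (A ^ 2 * m) (-(C ^ 2 - A ^ 2) * m) d1 d2)
    (hq : LocC K 0 (A ^ 2 * m) (-(C ^ 2 - A ^ 2) * m) d3 d4) :
    LocC K 0 (A ^ 2 * m) (-(C ^ 2 - A ^ 2) * m) (d1 * d3) (d2 * d4) := by
  classical
  obtain ⟨za, zc, zb⟩ := Cw.nz hC
  have hmK : (m : K) ≠ 0 := Int.cast_ne_zero.mpr hm
  have haK : (A : K) ≠ 0 := Int.cast_ne_zero.mpr za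
  have hcK : (C : K) ≠ 0 := Int.cast_ne_zero.mpr zc
  have hbK : (C : K) ^ 2 - (A : K) ^ 2 ≠ 0 := by
    have := (Int.cast_ne_zero (α := K)).mpr zb
    push_cast at this
    exact this
  obtain ⟨x1, y1, hy1, e1, p1, p2⟩ := hp
  obtain ⟨x2, y2, hy2, e2, r1, r2⟩ := hq
  set a : K := ((0 : ℤ) : K) with ha
  set b : K := ((A ^ 2 * m : ℤ) : K) with hb
  set c : K := ((-(C ^ 2 - A ^ 2) * m : ℤ) : K) with hc
  have a0 : a = 0 := by rw [ha, Int.cast_zero]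
  have b0 : b = A ^ 2 * m := by rw [hb]; push_cast; ring
  have c0 : c = -(C ^ 2 - A ^ 2) * m := by rw [hc]; push_cast; ring
  have t2 : (2 : K) ≠ 0 := by norm_num
  have hab : a ≠ b := by
    rw [a0, b0]
    exact (mul_ne_zero (pow_ne_zero 2 haK) hmK).symm
  have hac : a ≠ c := by
    rw [a0, c0]
    exact (mul_ne_zero (neg_ne_zero.mpr hbK) hmK).symm
  have hbc : b ≠ c := by
    rw [b0, c0]
    intro h
    exact mul_ne_zero (pow_ne_zero 2 hcK) hmK (by linear_combination h)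
  set W : WeierstrassCurve K := ⟨0, -(a + b + c), 0, a * b + a * c + b * c, -(a * b * c)⟩ with hW
  have hR : IsR W a b c := ⟨rfl, rfl, rfl, rfl, rfl⟩
  have g1 : (x1 - a) * (x1 - b) * (x1 - c) ≠ 0 := by rw [← e1]; exact pow_ne_zero 2 hy1
  have g2 : (x2 - a) * (x2 - b) * (x2 - c) ≠ 0 := by rw [← e2]; exact pow_ne_zero 2 hy2
  have k1 : x1 - a ≠ 0 := left_ne_zero_of_mul (left_ne_zero_of_mul g1)
  have k2 : x1 - b ≠ 0 := right_ne_zero_of_mul (left_ne_zero_of_mul g1)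
  have k3 : x2 - a ≠ 0 := left_ne_zero_of_mul (left_ne_zero_of_mul g2)
  have k4 : x2 - b ≠ 0 := right_ne_zero_of_mul (left_ne_zero_of_mul g2)
  have hn1 : W.toAffine.Nonsingular x1 y1 := hR.nons t2 hab hac hbc e1
  have hn2 : W.toAffine.Nonsingular x2 y2 := hR.nons t2 hab hac hbc e2
  set P : W.toAffine.Point := .some x1 y1 hn1 with hP
  set Q : W.toAffine.Point := .some x2 y2 hn2 with hQ
  have f1 := al_mul hR t2 hab hac P Q
  have f2 := al_mul hR.swap t2 hab.symm hbc P Q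
  rw [hP, hQ, al_some hn1 (sub_ne_zero.mp k1), al_some hn2 (sub_ne_zero.mp k3), ← hP, ← hQ] at f1
  rw [hP, hQ, al_some hn1 (sub_ne_zero.mp k2), al_some hn2 (sub_ne_zero.mp k4), ← hP, ← hQ] at f2
  -- the classes of the sum
  have F1 : IsSquare ((((d1 * d3 : ℤ)) : K) * al W a b c (P + Q)) := by
    refine sq_cancel (v := (x1 - a) * (x2 - a)) (mul_ne_zero k1 k3) ?_ f1
    exact sq_of_eq p1 r1 (c := 1) (by push_cast; ring)
  have F2 : IsSquare ((((d2 * d4 : ℤ)) : K) * al W b a c (P + Q)) := by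
    refine sq_cancel (v := (x1 - b) * (x2 - b)) (mul_ne_zero k2 k4) ?_ f2
    exact sq_of_eq p2 r2 (c := 1) (by push_cast; ring)
  set D1 : ℤ := d1 * d3 with hD1
  set D2 : ℤ := d2 * d4 with hD2
  rcases hS : P + Q with _ | ⟨X, Y, hn⟩
  · rw [hS] at F1 F2
    have F1' : IsSquare ((D1 : K) * 1) := F1
    have F2' : IsSquare ((D2 : K) * 1) := F2
    rw [mul_one] at F1' F2'
    exact tors_loc hm hC h0 D1 D2 (Or.inl ⟨F2', Or.inl F1'⟩)
  · rw [hS] at F1 F2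
    have he := (hR.eqn _ _).1 hn.1
    by_cases hX1 : X = a
    · subst hX1
      rw [al_eq] at F1
      rw [al_some hn hab] at F2
      refine tors_loc hm hC h0 D1 D2 (Or.inr ⟨?_, Or.inl ?_⟩)
      · obtain ⟨s, hs⟩ := F2
        refine ⟨s / A, ?_⟩
        field_simp
        rw [a0, b0] at hs
        linear_combination hs
      · obtain ⟨s, hs⟩ := F1
        refine ⟨s / (A * m), ?_⟩
        field_simp
        rw [a0, b0, c0] at hs
        linear_combination hs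
    by_cases hX2 : X = b
    · subst hX2
      rw [al_some hn hX1] at F1
      rw [al_eq] at F2
      refine tors_loc hm hC h0 D1 D2 (Or.inl ⟨?_, Or.inr ?_⟩)
      · obtain ⟨s, hs⟩ := F2
        refine ⟨s / (A * C * m), ?_⟩
        field_simp
        rw [a0, b0, c0] at hs
        linear_combination hs
      · obtain ⟨s, hs⟩ := F1
        refine ⟨s / A, ?_⟩
        field_simp
        rw [a0, b0] at hs
        linear_combination hs
    rw [al_some hn hX1] at F1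
    rw [al_some hn hX2] at F2
    by_cases hX3 : X = c
    · subst hX3
      refine tors_loc hm hC h0 D1 D2 (Or.inr ⟨?_, Or.inr ?_⟩)
      · obtain ⟨s, hs⟩ := F2
        refine ⟨s / C, ?_⟩
        field_simp
        rw [b0, c0] at hs
        linear_combination hs
      · rw [a0, c0] at F1
        have e : (D1 : K) * (-(C ^ 2 - A ^ 2)) * m = D1 * (-(C ^ 2 - A ^ 2) * m - 0) := by ring
        rw [e]
        exact F1
    refine ⟨X, Y, ?_, he, ?_, ?_⟩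
    · rintro rfl
      rw [zero_pow two_ne_zero] at he
      exact mul_ne_zero (mul_ne_zero (sub_ne_zero.mpr hX1) (sub_ne_zero.mpr hX2))
        (sub_ne_zero.mpr hX3) he.symm
    · rw [mul_comm]
      exact F1
    · rw [mul_comm]
      exact F2

/-- **SLK-LT** -/
theorem t_LT : Pool.Agent.N637.SLM.S_LT := by
  intro K _ _ m a c hm hC h0
  exact ⟨fun d1 d2 _ _ h => tors_loc hm hC h0 d1 d2 h, fun d1 d2 d3 d4 n1 n2 n3 n4 hp hq =>
    add_loc hm hC h0 d1 d2 d3 d4 n1 n2 n3 n4 hp hq⟩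

end Pool.Agent.N637.SLM.LT
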