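import Pool.Agent.N637.SLM.Stm
import Pool.Agent.N488.SLX.NEC

/-!
# Project SLK (helper637), part NEC (subtask 5554), by helper456: the Selmer classes satisfy the linear
systems (after Pool.Agent.N488.SLX.NEC of helper488)
-/

set_option autoImplicit false
set_option linter.all false

namespace Pool.Agent.N637.SLM.Nec

open Finset
open Pool.Agent.N875.X15 (sq_cancel even_val val_zero val_one not_dvd_of_even Ram)
open Pool.Agent.N916.GB (Po Vt sy)
open Pool.Agent.N637.SLX (pdr NS IsLk dY)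
open Pool.Agent.TH841.SH (SelG LocC)
open Pool.Agent.Y703.CQ (nr)
open Pool.Agent.N973.ND (uu)
open Pool.Agent.Y667.RP (mod_of_sq)
open Pool.Agent.N637.SLM
open Pool.Agent.N637.SLK (TyG lb dXG RwF)
open Pool.Agent.N488.SLX (Dat dvd_prod_iff prod_sgp gd_prod gd_two gd_odd gd_mul sgp_mod sgp prod_abs
  ra ch ch_two ch_odd ch_mul ch_pm ch_iff Gd ra_mul ra_zero sum_ra oe oe_cases oe_mod odd_pf not_sq
  nr_ra nr_recip ra_neg_one not_dvd_two sum_ind prod_ind ind ind_zero ind_one isLk_iff last_eq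
  sy_nat one_one L_prod sq_int)

theorem z2_one : ∀ x : ZMod 2, x ≠ 0 → x = 1 := by decide

theorem z2_eq : ∀ x y : ZMod 2, x + y = 0 → y = x := by decide

/-! ### the data of the discriminant -/

theorem dat_of_ty {t : Bool} {r s : ZMod 2} {S : Finset ℕ} {m : ℤ} (h : TyG t r s S m) :
    Dat (Vt t S) (pdr r s) m := by
  have hodd : ∀ p : ℕ, p ≠ 2 → pdr r s p = sgp p := by
    intro p hp
    unfold pdr sgp
    rw [if_neg hp]
  have h2S : 2 ∉ S := fun h2 => (h.po 2 h2).2 rfl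
  have hG : ∏ p ∈ S, pdr r s p = ∏ p ∈ S, sgp p :=
    Finset.prod_congr rfl fun p hp => hodd p (h.po p hp).2
  have hdv : ∀ p : ℕ, p.Prime → ((p : ℤ) ∣ ((∏ p ∈ S, p : ℕ) : ℤ) ↔ p ∈ S) := by
    intro p hp
    rw [Int.natCast_dvd_natCast]
    exact dvd_prod_iff h.po hp
  have hpr : ∀ p ∈ Vt t S, p.Prime := by
    intro p hp
    unfold Vt at hp
    split_ifs at hp with ht
    · rw [Finset.mem_insert] at hp
      rcases hp with hp | hp
      · rw [hp]; exact Nat.prime_two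
      · exact (h.po p hp).1
    · exact (h.po p hp).1
  have hps := prod_sgp h.po
  obtain ⟨P, hP⟩ : ∃ P : ℕ, P = ∏ p ∈ S, p := ⟨_, rfl⟩
  have hty := h.ty
  rw [← hP] at hps hty
  simp only [← hP] at hdv
  rcases hty with ⟨ht, hs, hm, hm4⟩ | ⟨ht, hr, hs, hm, hm4⟩ | ⟨ht, hr, hs, hm, hm4⟩ |
    ⟨ht, hr, hs, hm, hm4⟩
  · have hV : Vt t S = S := by unfold Vt; rw [if_neg]; simp [ht]
    refine ⟨hpr, ?_, hodd, ?_, ?_, h.sqf⟩
    · intro p hp
      unfold Ram
      rw [hV, hm, dvd_neg, hdv p hp]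
      constructor
      · rintro (h1 | h1)
        · exact h1
        · omega
      · exact fun h1 => Or.inl h1
    · rw [hV]
      exact fun h1 => absurd h1 h2S
    · rw [hV, hG]
      omega
  all_goals
    have hV : Vt t S = insert 2 S := by unfold Vt; rw [if_pos ht]
  · have hg2 : pdr r s 2 = -1 := by
      unfold pdr
      rw [if_pos rfl, hs, hr, if_neg (by decide), if_pos rfl]
    refine ⟨hpr, ?_, hodd, fun _ => Or.inl ⟨hg2, hm4⟩, ?_, h.sqf⟩
    · intro p hp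
      unfold Ram
      rw [hV, Finset.mem_insert, hm, dvd_neg, hdv p hp]
      constructor
      · rintro (h1 | h1)
        · exact Or.inr h1
        · exact Or.inl h1.1
      · rintro (h1 | h1)
        · exact Or.inr ⟨h1, by omega⟩
        · exact Or.inl h1
    · rw [hV, Finset.prod_insert h2S, hG, hg2]
      omega
  · have hg2 : pdr r s 2 = -2 := by
      unfold pdr
      rw [if_pos rfl, hs, hr, if_neg (by decide), if_neg (by decide)]
    refine ⟨hpr, ?_, hodd, fun _ => Or.inr ⟨Or.inr hg2, by rw [hm]; exact ⟨-P, by ring⟩⟩, ?_,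
      h.sqf⟩
    · intro p hp
      unfold Ram
      have hpp := Nat.prime_iff_prime_int.1 hp
      rw [hV, Finset.mem_insert, ← hdv p hp, hm, dvd_neg]
      constructor
      · rintro (h1 | h1)
        · rcases hpp.dvd_or_dvd h1 with h2 | h2
          · left
            exact (Nat.prime_dvd_prime_iff_eq hp Nat.prime_two).1 (by exact_mod_cast h2)
          · exact Or.inr h2
        · exact Or.inl h1.1
      · rintro (h1 | h1)
        · exact Or.inr ⟨h1, by omega⟩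
        · exact Or.inl (h1.mul_left 2)
    · rw [hV, Finset.prod_insert h2S, hG, hg2]
      omega
  · have hg2 : pdr r s 2 = 2 := by
      unfold pdr
      rw [if_pos rfl, hs, if_pos rfl]
    refine ⟨hpr, ?_, hodd, fun _ => Or.inr ⟨Or.inl hg2, by rw [hm]; exact ⟨-P, by ring⟩⟩, ?_,
      h.sqf⟩
    · intro p hp
      unfold Ram
      have hpp := Nat.prime_iff_prime_int.1 hp
      rw [hV, Finset.mem_insert, ← hdv p hp, hm, dvd_neg]
      constructor
      · rintro (h1 | h1)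
        · rcases hpp.dvd_or_dvd h1 with h2 | h2
          · left
            exact (Nat.prime_dvd_prime_iff_eq hp Nat.prime_two).1 (by exact_mod_cast h2)
          · exact Or.inr h2
        · exact Or.inl h1.1
      · rintro (h1 | h1)
        · exact Or.inr ⟨h1, by omega⟩
        · exact Or.inl (h1.mul_left 2)
    · rw [hV, Finset.prod_insert h2S, hG, hg2]
      omega

theorem sy_ra {t : Bool} {r s : ZMod 2} {S : Finset ℕ} {m : ℤ} (h : TyG t r s S m) {p q : ℕ}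
    (hp : p ∈ Vt t S) (hq : q ∈ Vt t S) (hpq : p ≠ q) : sy r s q p = ra q (pdr r s p) := by
  have D := dat_of_ty h
  have hpp := D.pr p hp
  have hqp := D.pr q hq
  by_cases hp2 : p = 2
  · subst hp2
    have hq2 : q ≠ 2 := Ne.symm hpq
    have : Fact q.Prime := ⟨hqp⟩
    have ht : t = true := by
      by_contra ht
      unfold Vt at hp
      rw [if_neg ht] at hp
      exact (h.po 2 hp).2 rfl
    have e1 := nr_ra hq2 (not_dvd_two hqp hq2)
    rw [Nat.cast_ofNat] at e1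
    have e2 := ra_neg_one (q := q) hq2
    have g1 : Gd q (-1) := by
      rw [gd_odd hq2, dvd_neg]
      intro h3
      have h4 : q ∣ 1 := by exact_mod_cast h3
      exact hqp.one_lt.ne' (Nat.dvd_one.1 h4)
    have g2 : Gd q 2 := by
      rw [gd_odd hq2]
      intro h3
      exact not_dvd_two hqp hq2 (by exact_mod_cast h3)
    have e3 := ra_mul (q := q) g1 g2
    unfold sy pdr
    rw [if_pos rfl, if_pos rfl]
    rcases h.ty with ⟨h1, -⟩ | ⟨-, hr, hs, -⟩ | ⟨-, hr, hs, -⟩ | ⟨-, hr, hs, -⟩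
    · rw [ht] at h1
      exact absurd h1 (by decide)
    · rw [hr, hs, if_neg (by decide), if_pos rfl, e2]
      ring
    · rw [hr, hs, if_neg (by decide), if_neg (by decide), e1, ← e2, one_mul, one_mul,
        show (-2 : ℤ) = -1 * 2 by norm_num, e3, add_comm]
    · rw [hr, hs, if_pos rfl, e1]
      ring
  · unfold sy
    rw [if_neg hp2, nr_recip hqp hpp hp2 hpq.symm]
    congr 1
    unfold pdr sgp
    rw [if_neg hp2]

theorem rwF_iff {t : Bool} {r s : ZMod 2} {S : Finset ℕ} (Λ : Finset ℕ) (x y : ℕ → ZMod 2) :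
    RwF (NS t r s S) Λ (fun l p => nr l p.1) (fun p => x p.1) (fun p => y p.1) ↔ ∀ p ∈ Vt t S,
      ∑ q ∈ (Vt t S).erase p, (x q + x p) * sy r s p q =
        ∑ l ∈ Λ, nr l p * (y p + ∑ q ∈ Vt t S, nr l q * y q) := by
  have hj : ∀ l, ∑ q : {x : ℕ // x ∈ Vt t S}, nr l q.1 * y q.1 =
      ∑ q ∈ Vt t S, nr l q * y q := fun l =>
    Finset.sum_coe_sort (Vt t S) (fun q => nr l q * y q)
  have key : ∀ p ∈ Vt t S,
      ∑ q : {x : ℕ // x ∈ Vt t S}, (x q.1 + x p) * sy r s p q.1 =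
      ∑ q ∈ (Vt t S).erase p, (x q + x p) * sy r s p q := by
    intro p hp
    rw [Finset.sum_coe_sort (Vt t S) (fun q => (x q + x p) * sy r s p q),
      ← Finset.add_sum_erase _ _ hp]
    have : ∀ a : ZMod 2, a + a = 0 := by decide
    rw [this, zero_mul, zero_add]
  unfold RwF
  simp only [hj]
  constructor
  · intro h p hp
    rw [← key p hp]
    exact h ⟨p, hp⟩
  · rintro h ⟨p, hp⟩
    have := h p hp
    rw [← key p hp] at this
    exact this

/-! ### decomposition -/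

theorem decompG {V : Finset ℕ} {g : ℕ → ℤ} {m : ℤ} (D : Dat V g m) {e P d : ℤ}
    (hd : Squarefree d) (hde : d = P * e) (hP : P % 4 = 1)
    (hsup : ∀ p : ℕ, p.Prime → (p : ℤ) ∣ e → p ∈ V) (h4 : 2 ∉ V → e % 4 = 1)
    (h2 : 2 ∈ V → IsSquare (d : ℚ_[2]) ∨ IsSquare ((d : ℚ_[2]) * m)) :
    ∃ X ⊆ V, ∏ p ∈ X, g p = e ∧ (2 ∈ V → 2 ∉ X → IsSquare (d : ℚ_[2])) ∧
      (2 ∈ X → IsSquare ((d : ℚ_[2]) * m)) := by
  have he : Squarefree e := fun x hx => hd x (by rw [hde]; exact hx.mul_left _)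
  have hd0 := hd.ne_zero
  have hm0 := D.sqf.ne_zero
  have hd0' : (d : ℚ_[2]) ≠ 0 := by exact_mod_cast hd0
  have hm0' : (m : ℚ_[2]) ≠ 0 := by exact_mod_cast hm0
  have hdm : d % 4 = (e % 4) % 4 := by
    rw [hde, Int.mul_emod, hP, one_mul]
  set X0 := e.natAbs.primeFactors.erase 2 with hX0
  have hX0V : X0 ⊆ V := fun p hp => hsup p (odd_pf hp).1 (odd_pf hp).2.2
  have h2X0 : 2 ∉ X0 := Finset.notMem_erase _ _
  have hprod : ∏ p ∈ X0, g p = oe e :=
    Finset.prod_congr rfl fun p hp => D.odd p (odd_pf hp).2.1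
  have hprod2 : ∏ p ∈ insert 2 X0, g p = g 2 * oe e := by
    rw [Finset.prod_insert h2X0, hprod]
  have hcases := oe_cases he
  have hoe := oe_mod e
  by_cases hV : 2 ∈ V
  swap
  · have h5 := h4 hV
    refine ⟨X0, hX0V, ?_, fun h => absurd h hV, fun h => absurd h h2X0⟩
    rw [hprod]
    omega
  have hX1V : insert 2 X0 ⊆ V := Finset.insert_subset hV hX0V
  -- parity
  have hpar1 : (2 : ℤ) ∣ d → ¬ IsSquare (d : ℚ_[2]) := fun h => not_sq (p := 2) hd h
  have hpar2 : ¬ (2 : ℤ) ∣ d → (2 : ℤ) ∣ m → ¬ IsSquare ((d : ℚ_[2]) * m) := by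
    intro h1 h2 h3
    have h4 := even_val (mul_ne_zero hd0' hm0') h3
    rw [Padic.valuation_mul hd0' hm0', val_zero (p := 2) h1, val_one (p := 2) h2 D.sqf] at h4
    exact absurd h4 (by decide)
  have hpar3 : (2 : ℤ) ∣ d → ¬ (2 : ℤ) ∣ m → ¬ IsSquare ((d : ℚ_[2]) * m) := by
    intro h1 h2 h3
    have h4 := even_val (mul_ne_zero hd0' hm0') h3
    rw [Padic.valuation_mul hd0' hm0', val_zero (p := 2) h2, val_one (p := 2) h1 hd] at h4
    exact absurd h4 (by decide)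
  rcases D.two hV with ⟨hg2, hm4⟩ | ⟨hg2, hm2⟩
  · -- `m = 3 mod 4`
    have hm2 : ¬ (2 : ℤ) ∣ m := by omega
    have hd2 : ¬ (2 : ℤ) ∣ d := by
      intro h
      rcases h2 hV with h5 | h5
      · exact hpar1 h h5
      · exact hpar3 h hm2 h5
    rcases hcases with ⟨-, h5 | h5⟩ | ⟨h5, -⟩
    · refine ⟨X0, hX0V, by rw [hprod]; exact h5.symm, fun _ _ => ?_, fun h => absurd h h2X0⟩
      refine (h2 hV).resolve_right fun h6 => ?_
      have h7 := mod_of_sq (d := d * m) (by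
        intro h
        rcases Int.prime_two.dvd_or_dvd h with h | h
        · exact hd2 h
        · exact hm2 h) (by push_cast; exact h6)
      have h8 : d % 4 * (m % 4) % 4 = 1 := by
        rw [← Int.mul_emod]
        omega
      rw [hm4] at h8
      omega
    · refine ⟨insert 2 X0, hX1V, by rw [hprod2, hg2]; omega, fun _ h =>
        absurd (Finset.mem_insert_self _ _) h, fun _ => ?_⟩
      refine (h2 hV).resolve_left fun h6 => ?_
      have := mod_of_sq hd2 h6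
      omega
    · exact absurd h5 (by omega)
  · -- `m` even
    rcases hcases with ⟨h5, h6⟩ | ⟨h5, h6⟩
    · have hd2 : ¬ (2 : ℤ) ∣ d := by omega
      have h7 := (h2 hV).resolve_right (hpar2 hd2 hm2)
      have h8 := mod_of_sq hd2 h7
      refine ⟨X0, hX0V, ?_, fun _ _ => h7, fun h => absurd h h2X0⟩
      rw [hprod]
      omega
    · have hd2 : (2 : ℤ) ∣ d := by omega
      have h7 := (h2 hV).resolve_left (hpar1 hd2)
      refine ⟨insert 2 X0, hX1V, ?_, fun _ h => absurd (Finset.mem_insert_self _ _) h,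
        fun _ => h7⟩
      rw [hprod2]
      -- the product of the other prime discriminants
      obtain ⟨M, hM, hM4⟩ : ∃ M : ℤ, m = g 2 * M ∧ M % 4 = 1 := by
        refine ⟨∏ p ∈ V.erase 2, g p, ?_, ?_⟩
        · rw [Finset.mul_prod_erase _ _ hV, D.prod]
        · rw [← gd_two]
          refine gd_prod Nat.prime_two _ _ fun p hp => ?_
          rw [gd_two, D.odd p (Finset.ne_of_mem_erase hp)]
          exact sgp_mod (D.pr p (Finset.mem_of_mem_erase hp)) (Finset.ne_of_mem_erase hp)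
      have key : ∀ a b : ℤ, (a = 1 ∨ a = -1) → (b = 1 ∨ b = -1) → e = 2 * (a * oe e) →
          g 2 = 2 * b → a = b := by
        intro a b ha hb h8 h9
        have h10 : IsSquare (((a * b * (oe e * M * P) : ℤ)) : ℚ_[2]) := by
          have e1 : (d : ℚ_[2]) * m = (2 * 2) * (((a * b * (oe e * M * P) : ℤ)) : ℚ_[2]) := by
            rw [hM, h9, hde]
            nth_rewrite 1 [h8]
            push_cast
            ring
          rw [e1] at h7
          exact sq_cancel (mul_ne_zero two_ne_zero two_ne_zero) (IsSquare.mul_self _) h7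
        have h11 : oe e * M * P % 4 = 1 := by
          rw [Int.mul_emod, Int.mul_emod (oe e), hoe, hM4, hP]
          norm_num
        generalize oe e * M * P = Z at h10 h11
        rcases ha with rfl | rfl <;> rcases hb with rfl | rfl
        · rfl
        · exfalso
          have := mod_of_sq (d := 1 * -1 * Z) (by omega) h10
          omega
        · exfalso
          have := mod_of_sq (d := -1 * 1 * Z) (by omega) h10
          omega
        · rfl
      rcases h6 with h6 | h6 <;> rcases hg2 with h8 | h8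
      · rw [h8]; exact h6.symm
      · exfalso
        have := key 1 (-1) (Or.inl rfl) (Or.inr rfl) (by rw [one_mul]; exact h6) (by rw [h8]; rfl)
        omega
      · exfalso
        have := key (-1) 1 (Or.inr rfl) (Or.inl rfl) (by rw [← mul_assoc]; exact h6)
          (by rw [h8]; rfl)
        omega
      · rw [h8]; exact h6.symm

/-! ### the labels -/

theorem sqf_part {n : ℕ} (hn : n ≠ 0) :
    ∃ k : ℕ, n = (∏ p ∈ n.primeFactors.filter (fun p => Odd (n.factorization p)), p) * k ^ 2 := by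
  refine ⟨∏ p ∈ n.primeFactors, p ^ (n.factorization p / 2), ?_⟩
  conv_lhs => rw [← Nat.prod_factorization_pow_eq_self hn]
  rw [Finsupp.prod, Nat.support_factorization, ← Finset.prod_pow, Finset.prod_filter,
    ← Finset.prod_mul_distrib]
  refine Finset.prod_congr rfl fun p _ => ?_
  split_ifs with h
  · obtain ⟨v, hv⟩ := h
    rw [hv, ← pow_mul, ← pow_succ']
    congr 1
    omega
  · rw [Nat.not_odd_iff_even] at h
    obtain ⟨v, hv⟩ := h
    rw [hv, ← pow_mul, one_mul]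
    congr 1
    omega

/-- the properties of the labels -/
structure Lab (a c m : ℤ) (V : Finset ℕ) (Λ : Finset ℕ) : Prop where
  pr : ∀ l ∈ Λ, l.Prime
  o2 : ∀ l ∈ Λ, l ≠ 2
  nm : ∀ l ∈ Λ, ¬ (l : ℤ) ∣ m
  nV : ∀ l ∈ Λ, l ∉ V
  mem : ∀ l : ℕ, l.Prime → (l ∈ Λ ↔ Odd (padicValInt l (c ^ 2 - a ^ 2)))
  prod : ∃ k : ℤ, k ≠ 0 ∧ -(c ^ 2 - a ^ 2) = (∏ l ∈ Λ, sgp l) * k ^ 2
  m8 : 2 ∈ V → (∏ l ∈ Λ, sgp l) % 8 = 1
  m4 : ∀ J ⊆ Λ, (∏ l ∈ J, sgp l) % 4 = 1

theorem bb_mod {a c : ℤ} (h : Cw a c) (h2 : c % 4 = 0) : -(c ^ 2 - a ^ 2) % 8 = 1 := by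
  have h1 := h.ha
  obtain ⟨x, hx⟩ : ∃ x, a = 2 * x + 1 := ⟨a / 2, by omega⟩
  obtain ⟨y, hy⟩ : ∃ y, c = 4 * y := ⟨c / 4, by omega⟩
  obtain ⟨z, hz⟩ : ∃ z, x * (x + 1) = 2 * z := by
    obtain ⟨z, hz⟩ := Int.even_mul_succ_self x
    exact ⟨z, by omega⟩
  have h3 : -(c ^ 2 - a ^ 2) = 8 * (z - 2 * y ^ 2) + 1 := by
    rw [hx, hy]
    linear_combination 4 * hz
  omega

theorem bb_mod4 {a c : ℤ} (h : Cw a c) : -(c ^ 2 - a ^ 2) % 4 = 1 := by
  have h1 := h.ha
  have h2 := h.hc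
  obtain ⟨x, hx⟩ : ∃ x, a = 2 * x + 1 := ⟨a / 2, by omega⟩
  obtain ⟨y, hy⟩ : ∃ y, c = 2 * y := ⟨c / 2, by omega⟩
  have h3 : -(c ^ 2 - a ^ 2) = 4 * (x ^ 2 + x - y ^ 2) + 1 := by
    rw [hx, hy]
    ring
  omega

theorem lab {t : Bool} {r s : ZMod 2} {S : Finset ℕ} {m a c : ℤ} (h : TyG t r s S m)
    (hC : Cw a c) (hL : Lw a c m) : Lab a c m (Vt t S) (lb a c) := by
  have D := dat_of_ty h
  have hb8 := bb_mod4 hC
  have hc4 : 2 ∈ Vt t S → -(c ^ 2 - a ^ 2) % 8 = 1 := by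
    intro h2
    have hm : m % 4 ≠ 1 := by
      intro h3
      rcases (D.ram 2 Nat.prime_two).2 h2 with h4 | h4
      · have : (2 : ℤ) ∣ m := by exact_mod_cast h4
        omega
      · exact h4.2 h3
    refine bb_mod hC ?_
    rcases hL.tw with h5 | ⟨h5, -⟩ | ⟨-, h5⟩ <;> omega
  set b := c ^ 2 - a ^ 2 with hb
  have hb0 : b ≠ 0 := by
    intro h0
    rw [h0] at hb8
    norm_num at hb8
  have hbn : b.natAbs ≠ 0 := Int.natAbs_ne_zero.2 hb0
  have hmem : ∀ l, l ∈ lb a c ↔ (l.Prime ∧ (l : ℤ) ∣ b) ∧ Odd (padicValInt l b) := by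
    intro l
    unfold lb
    rw [Finset.mem_filter, Nat.mem_primeFactors, Int.natCast_dvd]
    constructor
    · rintro ⟨⟨h1, h3, -⟩, h4⟩
      exact ⟨⟨h1, h3⟩, h4⟩
    · rintro ⟨⟨h1, h3⟩, h4⟩
      exact ⟨⟨h1, h3, hbn⟩, h4⟩
  have h2b : ¬ (2 : ℤ) ∣ b := by omega
  have o2 : ∀ l ∈ lb a c, l ≠ 2 := by
    rintro l hl rfl
    exact h2b (by exact_mod_cast ((hmem 2).1 hl).1.2)
  have nm : ∀ l ∈ lb a c, ¬ (l : ℤ) ∣ m := by
    intro l hl hd
    obtain ⟨⟨h1, h3⟩, -⟩ := (hmem l).1 hl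
    have h4 := hL.bb l h1 h3
    rw [jacobiSym.mod_left, Int.emod_eq_zero_of_dvd ((dvd_neg).2 hd),
      jacobiSym.zero_left h1.one_lt] at h4
    exact absurd h4 (by decide)
  have m4 : ∀ J ⊆ lb a c, (∏ l ∈ J, sgp l) % 4 = 1 := by
    intro J hJ
    rw [← gd_two]
    refine gd_prod Nat.prime_two _ _ fun p hp => ?_
    rw [gd_two]
    exact sgp_mod ((hmem p).1 (hJ hp)).1.1 (o2 p (hJ hp))
  have hpr : ∃ k : ℤ, k ≠ 0 ∧ -b = (∏ l ∈ lb a c, sgp l) * k ^ 2 ∧ k ^ 2 % 8 = 1 := by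
    obtain ⟨k, hk⟩ := sqf_part hbn
    have e1 : b.natAbs.primeFactors.filter (fun p => Odd (b.natAbs.factorization p)) = lb a c := by
      unfold lb
      refine Finset.filter_congr fun p hp => ?_
      rw [Nat.factorization_def _ (Nat.prime_of_mem_primeFactors hp)]
      rfl
    rw [e1, ← prod_abs] at hk
    have hk0 : k ≠ 0 := by
      rintro rfl
      apply hbn
      rw [hk]
      ring
    have h5 := m4 _ (Finset.Subset.refl (lb a c))
    have hk1 : k % 2 = 1 := by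
      by_contra h6
      obtain ⟨i, hi⟩ : ∃ i, k = 2 * i := ⟨k / 2, by omega⟩
      apply h2b
      have h7 : 2 ∣ b.natAbs := by
        rw [hk, hi]
        exact ⟨(∏ l ∈ lb a c, sgp l).natAbs * (2 * i ^ 2), by ring⟩
      have h8 : ((2 : ℕ) : ℤ) ∣ b := Int.natCast_dvd.2 h7
      exact_mod_cast h8
    have hk8 : ((k : ℤ)) ^ 2 % 8 = 1 := by
      obtain ⟨i, hi⟩ : ∃ i, k = 2 * i + 1 := ⟨k / 2, by omega⟩
      obtain ⟨z, hz⟩ := Nat.even_mul_succ_self i
      have : (k : ℤ) ^ 2 = 8 * z + 1 := by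
        rw [hi]
        push_cast
        have hz' : (i : ℤ) * (i + 1) = z + z := by exact_mod_cast hz
        linear_combination 4 * hz'
      omega
    refine ⟨k, by exact_mod_cast hk0, ?_, hk8⟩
    have h9 : ((b.natAbs : ℕ) : ℤ) = ((∏ l ∈ lb a c, sgp l).natAbs : ℤ) * (k : ℤ) ^ 2 := by
      rw [hk]
      push_cast
      rfl
    have h10 : b.natAbs = (( (∏ l ∈ lb a c, sgp l) * (k : ℤ) ^ 2)).natAbs := by
      rw [Int.natAbs_mul, Int.natAbs_pow, Int.natAbs_natCast]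
      exact hk
    have h11 : ((∏ l ∈ lb a c, sgp l) * (k : ℤ) ^ 2) % 4 = 1 := by
      rw [Int.mul_emod, h5]
      have : (k : ℤ) ^ 2 % 4 = 1 := by omega
      rw [this]
      norm_num
    generalize (∏ l ∈ lb a c, sgp l) * (k : ℤ) ^ 2 = Z at h10 h11 ⊢
    omega
  obtain ⟨k, hk0, hk, hk8⟩ := hpr
  refine ⟨fun l hl => ((hmem l).1 hl).1.1, o2, nm, fun l hl hV => ?_, fun l hl => ?_,
    ⟨k, hk0, hk⟩, ?_, m4⟩
  · rcases (D.ram l ((hmem l).1 hl).1.1).2 hV with h3 | h3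
    · exact nm l hl h3
    · exact o2 l hl h3.1
  · rw [hmem]
    constructor
    · exact fun h3 => h3.2
    · intro h3
      refine ⟨⟨hl, ?_⟩, h3⟩
      haveI : Fact l.Prime := ⟨hl⟩
      by_contra h4
      rw [padicValInt.eq_zero_of_not_dvd h4] at h3
      exact absurd h3 (by decide)
  · intro h2
    have h3 := hc4 h2
    rw [hk, Int.mul_emod, hk8, mul_one, Int.emod_emod] at h3
    exact h3

/-! ### the local conditions -/

structure LocG (m a c d1 d2 : ℤ) : Prop where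
  s1 : Squarefree d1
  s2 : Squarefree d2
  pos : 0 < d2
  good : ∀ (p : ℕ), p.Prime → p ≠ 2 → ¬ (p : ℤ) ∣ m → ¬ (p : ℤ) ∣ d2 ∧
    ((p : ℤ) ∣ d1 ↔ (Odd (padicValInt p (c ^ 2 - a ^ 2)) ∧ jacobiSym d2 p = -1))
  odd2 : m % 4 = 1 → d1 % 4 = 1 ∧ d2 % 2 = 1
  at2 : m % 4 ≠ 1 → IsSquare (d1 : ℚ_[2]) ∨ IsSquare ((d1 : ℚ_[2]) * m)
  dv : ∀ (p : ℕ) [Fact p.Prime], p ≠ 2 → (p : ℤ) ∣ m →
    (IsSquare (d2 : ℚ_[p]) ∧ (IsSquare (d1 : ℚ_[p]) ∨ IsSquare ((d1 : ℚ_[p]) * m))) ∨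
    (IsSquare ((d2 : ℚ_[p]) * (-m)) ∧ (IsSquare ((d1 : ℚ_[p]) * (-(c ^ 2 - a ^ 2))) ∨
      IsSquare ((d1 : ℚ_[p]) * (-(c ^ 2 - a ^ 2)) * m)))

theorem locG (hNG : S_NG) (hNM : S_NM) (hN2 : S_N2) (hLR : S_LR) {m a c : ℤ} (hC : Cw a c)
    (hL : Lw a c m) {d1 d2 : ℤ} (h : (d1, d2) ∈ SelG 0 (a ^ 2 * m) (-(c ^ 2 - a ^ 2) * m)) :
    LocG m a c d1 d2 := by
  obtain ⟨s1, s2, hR', hp⟩ := h
  simp only at s1 s2 hR' hp
  have h2 := hN2 m a c hC hL.sqf hL.tw d1 d2 s1 s2 (hp 2)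
  refine ⟨s1, s2, (hLR m a c hC hL.neg d1 d2 s1 s2).1 hR', ?_, h2.1, h2.2, ?_⟩
  · intro p hpp hp2 hpm
    haveI : Fact p.Prime := ⟨hpp⟩
    exact hNG m a c hC hL p hp2 hpm d1 d2 s1 s2 (hp p)
  · intro p hpp hp2 hpm
    exact hNM m a c hC hL p hp2 hpm d1 d2 s1 s2 (hp p)

section

variable {V : Finset ℕ} {g : ℕ → ℤ} {m a c d1 d2 : ℤ}

theorem exists_Y (D : Dat V g m) (L : LocG m a c d1 d2) :
    ∃ Y ⊆ V, ∏ p ∈ Y, (p : ℤ) = d2 ∧ ∀ p : ℕ, p.Prime → (p ∈ Y ↔ (p : ℤ) ∣ d2) := by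
  refine ⟨d2.natAbs.primeFactors, fun p hp => ?_, ?_, fun p hp => ?_⟩
  · obtain ⟨h3, h4, -⟩ := Nat.mem_primeFactors.1 hp
    have h5 : (p : ℤ) ∣ d2 := Int.natCast_dvd.2 h4
    rw [← D.ram p h3]
    by_cases hpm : (p : ℤ) ∣ m
    · exact Or.inl hpm
    by_cases hp2 : p = 2
    · subst hp2
      right
      refine ⟨rfl, fun h6 => ?_⟩
      have h7 := (L.odd2 h6).2
      have h8 : (2 : ℤ) ∣ d2 := by exact_mod_cast h5
      omega
    · exact absurd h5 (L.good p h3 hp2 hpm).1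
  · have h1 : ∏ p ∈ d2.natAbs.primeFactors, p = d2.natAbs :=
      Nat.prod_primeFactors_of_squarefree (Int.squarefree_natAbs.2 L.s2)
    have h2 : ((∏ p ∈ d2.natAbs.primeFactors, p : ℕ) : ℤ) = d2 := by
      rw [h1]
      exact Int.natAbs_of_nonneg L.pos.le
    rw [Nat.cast_prod] at h2
    exact h2
  · rw [Nat.mem_primeFactors]
    constructor
    · rintro ⟨-, h4, -⟩
      exact Int.natCast_dvd.2 h4
    · intro h
      exact ⟨hp, Int.natCast_dvd.1 h, Int.natAbs_ne_zero.2 L.s2.ne_zero⟩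

theorem lk_odd (D : Dat V g m) (L : LocG m a c d1 d2) {Y : Finset ℕ} (hY : Y ⊆ V)
    (hYd : ∏ p ∈ Y, (p : ℤ) = d2) {q : ℕ} [Fact q.Prime] (hq : q ∈ V) (hq2 : q ≠ 2) :
    ∑ p ∈ V.erase q, (ind Y p * ra q (p : ℤ) + ind Y q * ra q (g p)) = 0 := by
  obtain ⟨M, h1, h2⟩ := D.minus hq hq2
  rw [← h2 Y hY, hYd, h1 d2 L.s2.ne_zero]
  rcases L.dv q hq2 (D.dvd hq hq2) with h | h
  · exact Or.inl h.1
  · exact Or.inr h.1

end

section

variable {t : Bool} {r s : ZMod 2} {S : Finset ℕ} {m a c d1 d2 : ℤ}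

theorem lk_all (h : TyG t r s S m) (L : LocG m a c d1 d2) {Y : Finset ℕ} (hY : Y ⊆ Vt t S)
    (hYd : ∏ p ∈ Y, (p : ℤ) = d2) : ∀ p ∈ Vt t S,
      ∑ q ∈ (Vt t S).erase p, (ind Y q * sy r s q p + ind Y p * sy r s p q) = 0 := by
  have D := dat_of_ty h
  have hodd : ∀ p ∈ Vt t S, p ≠ 2 →
      ∑ q ∈ (Vt t S).erase p, (ind Y q * sy r s q p + ind Y p * sy r s p q) = 0 := by
    intro p hp hp2
    have : Fact p.Prime := ⟨D.pr p hp⟩
    rw [← lk_odd D L hY hYd hp hp2]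
    refine Finset.sum_congr rfl fun q hq => ?_
    have hqV := Finset.mem_of_mem_erase hq
    have hqp := Finset.ne_of_mem_erase hq
    rw [sy_nat (D.pr p hp) (D.pr q hqV) hp2 hqp.symm, sy_ra h hqV hp hqp]
  intro p hp
  by_cases hp2 : p = 2
  · exact last_eq (fun q p => ind Y q * sy r s q p) p (fun q hq hqp => hodd q hq (by omega)) hp
  · exact hodd p hp hp2

/-- the sums of the labels -/
theorem j_iff (h : TyG t r s S m) (Λ : Lab a c m (Vt t S) (lb a c)) (L : LocG m a c d1 d2)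
    {Y : Finset ℕ} (hY : Y ⊆ Vt t S) (hYd : ∏ p ∈ Y, (p : ℤ) = d2) {l : ℕ} (hl : l ∈ lb a c) :
    ∑ q ∈ Vt t S, nr l q * ind Y q = 1 ↔ (l : ℤ) ∣ d1 := by
  have D := dat_of_ty h
  have hF : l.Prime := Λ.pr l hl
  have hl2 := Λ.o2 l hl
  haveI : Fact l.Prime := ⟨hF⟩
  have hg := L.good l hF hl2 (Λ.nm l hl)
  have hne : ∀ q ∈ Vt t S, ¬ (l : ℤ) ∣ (q : ℤ) := by
    intro q hq h8
    have h9 : l = q := (Nat.prime_dvd_prime_iff_eq hF (D.pr q hq)).1 (by exact_mod_cast h8)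
    exact Λ.nV l hl (by rw [h9]; exact hq)
  have e1 : ∑ q ∈ Vt t S, nr l q * ind Y q = ∑ q ∈ Y, ra l (q : ℤ) := by
    rw [sum_ind hY]
    refine Finset.sum_congr rfl fun q hq => ?_
    rw [mul_comm, nr_ra hl2]
    exact fun h8 => hne q hq (by exact_mod_cast h8)
  have e2 : (∑ q ∈ Y, ra l (q : ℤ) = 0 ↔ jacobiSym d2 l = 1) := by
    rw [sum_ra hF Y (fun q => (q : ℤ)), hYd, ch_odd hl2]
    intro q hq
    rw [gd_odd hl2]
    exact hne q (hY hq)
  have e3 : jacobiSym d2 l = 1 ∨ jacobiSym d2 l = -1 := by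
    rw [← ch_odd hl2]
    exact ch_pm hF ((gd_odd hl2 d2).2 hg.1)
  rw [e1, hg.2]
  have h01 : ∀ x : ZMod 2, x = 1 ↔ ¬ x = 0 := by decide
  rw [h01, e2]
  constructor
  · intro h4
    exact ⟨(Λ.mem l hF).1 hl, e3.resolve_left h4⟩
  · rintro ⟨-, h4⟩ h5
    rw [h5] at h4
    exact absurd h4 (by decide)

/-- the value of the first coordinate at the odd primes -/
theorem val_d1 (h : TyG t r s S m) (L : LocG m a c d1 d2) {Y : Finset ℕ}
    (hYp : ∀ p : ℕ, p.Prime → (p ∈ Y ↔ (p : ℤ) ∣ d2)) (hb0 : -(c ^ 2 - a ^ 2) ≠ 0)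
    {p : ℕ} [Fact p.Prime] (hp : p ∈ Vt t S)
    (hp2 : p ≠ 2) {M : ℤ → ZMod 2} (h1 : ∀ a b, a ≠ 0 → b ≠ 0 → M (a * b) = M a + M b)
    (h2 : ∀ a, a ≠ 0 → (M a = 0 ↔ IsSquare (a : ℚ_[p]) ∨ IsSquare ((a : ℚ_[p]) * m))) :
    M d1 = M (-(c ^ 2 - a ^ 2)) * ind Y p := by
  have D := dat_of_ty h
  have hpp := D.pr p hp
  have hd10 := L.s1.ne_zero
  have hd20 := L.s2.ne_zero
  have hpm := D.dvd hp hp2
  have c0 : IsSquare (d2 : ℚ_[p]) → p ∉ Y := by
    intro h5 h6
    exact not_sq (p := p) L.s2 ((hYp p hpp).1 h6) h5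
  have c1 : IsSquare ((d2 : ℚ_[p]) * (-m)) → p ∈ Y := by
    intro h5
    rw [hYp p hpp]
    by_contra h6
    have hd2' : (d2 : ℚ_[p]) ≠ 0 := by exact_mod_cast hd20
    have hm' : ((-m : ℤ) : ℚ_[p]) ≠ 0 := by exact_mod_cast (neg_ne_zero.2 D.sqf.ne_zero)
    have hsm : Squarefree (-m) := fun x hx => D.sqf x (by rwa [dvd_neg] at hx)
    have h5' : IsSquare ((d2 : ℚ_[p]) * ((-m : ℤ) : ℚ_[p])) := by
      push_cast
      exact h5
    have h7 := even_val (mul_ne_zero hd2' hm') h5'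
    rw [Padic.valuation_mul hd2' hm', val_zero (p := p) h6,
      val_one (p := p) ((dvd_neg).2 hpm) hsm] at h7
    exact absurd h7 (by decide)
  have key : ∀ a b : ZMod 2, a + b = 0 → a = b * 1 := by decide
  rcases L.dv p hp2 hpm with h5 | h5
  · rw [ind_zero (c0 h5.1), mul_zero, h2 d1 hd10]
    exact h5.2
  · rw [ind_one (c1 h5.1)]
    refine key _ _ ?_
    rw [← h1 _ _ hd10 hb0, h2 _ (mul_ne_zero hd10 hb0)]
    push_cast
    exact h5.2

end

theorem t_NEC : S_NG → S_NM → S_N2 → S_LR → S_NEC := by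
  rintro hNG hNM hN2 hLR t r s S m a c h hC hL ⟨d1, d2⟩ hz
  have L := locG hNG hNM hN2 hLR hC hL hz
  have D := dat_of_ty h
  have Λ := lab h hC hL
  obtain ⟨Y, hY, hYd, hYp⟩ := exists_Y D L
  have hd10 := L.s1.ne_zero
  -- the labels which divide the first coordinate
  set j : ℕ → ZMod 2 := fun l => ∑ q ∈ Vt t S, nr l q * ind Y q with hj
  have hj1 : ∀ l ∈ lb a c, (j l = 1 ↔ (l : ℤ) ∣ d1) := fun l hl => j_iff h Λ L hY hYd hl
  set J := (lb a c).filter fun l => j l = 1 with hJ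
  have hJs : J ⊆ lb a c := Finset.filter_subset _ _
  set P : ℤ := ∏ l ∈ J, sgp l with hP
  have hP4 : P % 4 = 1 := Λ.m4 J hJs
  have hPd : P ∣ d1 := by
    rw [hP]
    refine Finset.prod_dvd_of_coprime ?_ ?_
    · intro x hx y hy hxy
      have hx' := Λ.pr x (hJs hx)
      have hy' := Λ.pr y (hJs hy)
      show IsCoprime (sgp x) (sgp y)
      rw [Int.isCoprime_iff_gcd_eq_one, Int.gcd, Pool.Agent.N488.SLX.sgp_abs,
        Pool.Agent.N488.SLX.sgp_abs]
      exact (Nat.coprime_primes hx' hy').2 hxy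
    · intro x hx
      have h3 := (hj1 x (hJs hx)).1 (Finset.mem_filter.1 hx).2
      rw [← Int.natAbs_dvd, Pool.Agent.N488.SLX.sgp_abs]
      exact h3
  obtain ⟨e, he⟩ := hPd
  have hP0 : P ≠ 0 := by
    intro h0
    rw [h0] at hP4
    exact absurd hP4 (by decide)
  have he0 : e ≠ 0 := by
    intro h0
    rw [h0, mul_zero] at he
    exact hd10 he
  have hsup : ∀ p : ℕ, p.Prime → (p : ℤ) ∣ e → p ∈ Vt t S := by
    intro p hp hpe
    by_contra hpV
    have hpd : (p : ℤ) ∣ d1 := by rw [he]; exact hpe.mul_left _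
    have hpr : ¬ Ram m p := fun h3 => hpV ((D.ram p hp).1 h3)
    have hp2 : p ≠ 2 := by
      rintro rfl
      have h4 : m % 4 = 1 := by
        by_contra h4
        exact hpr (Or.inr ⟨rfl, h4⟩)
      have h5 := (L.odd2 h4).1
      have h6 : (2 : ℤ) ∣ d1 := by exact_mod_cast hpd
      omega
    have hpm : ¬ (p : ℤ) ∣ m := fun h3 => hpr (Or.inl h3)
    have h4 := ((L.good p hp hp2 hpm).2).1 hpd
    have h5 : p ∈ lb a c := (Λ.mem p hp).2 h4.1
    have h6 : p ∈ J := Finset.mem_filter.2 ⟨h5, (hj1 p h5).2 hpd⟩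
    have h7 : (p : ℤ) ∣ P := by
      have h8 : sgp p ∣ P := Finset.dvd_prod_of_mem _ h6
      rw [← Int.natAbs_dvd, Pool.Agent.N488.SLX.sgp_abs] at h8
      exact h8
    have h8 := L.s1 p (by rw [he]; exact mul_dvd_mul h7 hpe)
    rw [Int.isUnit_iff] at h8
    have := hp.one_lt
    omega
  have he4 : 2 ∉ Vt t S → e % 4 = 1 := by
    intro h2
    have h3 := (L.odd2 (D.m4 h2)).1
    rw [he, Int.mul_emod, hP4, one_mul] at h3
    omega
  have he2 : 2 ∈ Vt t S → IsSquare (d1 : ℚ_[2]) ∨ IsSquare ((d1 : ℚ_[2]) * m) := by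
    intro h2
    refine L.at2 fun h3 => ?_
    rcases (D.ram 2 Nat.prime_two).2 h2 with h4 | h4
    · have : (2 : ℤ) ∣ m := by exact_mod_cast h4
      omega
    · exact h4.2 h3
  obtain ⟨X, hX, hXe, hX0, hX1⟩ := decompG D L.s1 he hP4 hsup he4 he2
  obtain ⟨k, hk0, hk⟩ := Λ.prod
  have hΛ0 : (∏ l ∈ lb a c, sgp l) ≠ 0 := by
    intro h0
    have := Λ.m4 _ (Finset.Subset.refl _)
    rw [h0] at this
    exact absurd this (by decide)
  have hb0 : -(c ^ 2 - a ^ 2) ≠ 0 := by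
    rw [hk]
    exact mul_ne_zero hΛ0 (pow_ne_zero _ hk0)
  -- sums over the labels
  have h01 : ∀ x : ZMod 2, x ≠ 1 → x = 0 := by decide
  have hsumJ : ∀ f : ℕ → ZMod 2, ∑ l ∈ lb a c, f l * j l = ∑ l ∈ J, f l := by
    intro f
    rw [hJ, Finset.sum_filter]
    refine Finset.sum_congr rfl fun l _ => ?_
    split_ifs with h3
    · rw [h3, mul_one]
    · rw [h01 _ h3, mul_zero]
  refine ⟨fun p => ind X p.1, fun p => ind Y p.1, (isLk_iff (ind Y)).2 (lk_all h L hY hYd),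
    (rwF_iff (lb a c) (ind X) (ind Y)).2 fun p hp => ?_, ?_⟩
  · have hpp := D.pr p hp
    have : Fact p.Prime := ⟨hpp⟩
    have hsum : ∑ q ∈ (Vt t S).erase p, (ind X q + ind X p) * sy r s p q =
        ∑ q ∈ (Vt t S).erase p, (ind X q + ind X p) * ra p (pdr r s q) :=
      Finset.sum_congr rfl fun q hq => by
        rw [sy_ra h (Finset.mem_of_mem_erase hq) hp (Finset.ne_of_mem_erase hq)]
    have hnr : ∀ l ∈ lb a c, nr l p = ra p (sgp l) := fun l hl =>
      nr_recip hpp (Λ.pr l hl) (Λ.o2 l hl) fun h3 => Λ.nV l hl (h3 ▸ hp)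
    have hrhs : ∑ l ∈ lb a c, nr l p * (ind Y p + ∑ q ∈ Vt t S, nr l q * ind Y q) =
        (∑ l ∈ lb a c, ra p (sgp l)) * ind Y p + ∑ l ∈ J, ra p (sgp l) := by
      have h3 : ∀ l ∈ lb a c, nr l p * (ind Y p + ∑ q ∈ Vt t S, nr l q * ind Y q) =
          ra p (sgp l) * ind Y p + ra p (sgp l) * j l := by
        intro l hl
        rw [hnr l hl, mul_add]
      rw [Finset.sum_congr rfl h3, Finset.sum_add_distrib, hsumJ, Finset.sum_mul]
    rw [hsum, hrhs]
    by_cases hp2 : p = 2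
    · subst hp2
      have hgl : ∀ l ∈ lb a c, Gd 2 (sgp l) := fun l hl => by
        rw [gd_two]
        exact sgp_mod (Λ.pr l hl) (Λ.o2 l hl)
      have hz1 : ∑ l ∈ lb a c, ra 2 (sgp l) = 0 := by
        rw [sum_ra Nat.prime_two _ _ hgl, ch_two, if_pos (Λ.m8 hp)]
      have hz2 : ∑ l ∈ J, ra 2 (sgp l) = ra 2 P := by
        have h3 := sum_ra Nat.prime_two J sgp fun l hl => hgl l (hJs hl)
        by_cases h4 : ch 2 P = 1
        · rw [h3.2 h4, ra, if_pos h4]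
        · have h5 : ∑ l ∈ J, ra 2 (sgp l) ≠ 0 := fun h6 => h4 (h3.1 h6)
          rw [ra, if_neg h4]
          exact z2_one _ h5
      rw [hz1, zero_mul, zero_add, hz2]
      have hP2 : Gd 2 P := (gd_two P).2 hP4
      have hgd : ∀ q ∈ (Vt t S).erase 2, Gd 2 (pdr r s q) := by
        intro q hq
        rw [gd_two, D.odd q (Finset.ne_of_mem_erase hq)]
        exact sgp_mod (D.pr q (Finset.mem_of_mem_erase hq)) (Finset.ne_of_mem_erase hq)
      have hsr : ∀ s' : Finset ℕ, (∀ q ∈ s', Gd 2 (pdr r s q)) →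
          ∑ q ∈ s', ra 2 (pdr r s q) = ra 2 (∏ q ∈ s', pdr r s q) := by
        intro s' hs'
        have h3 := sum_ra Nat.prime_two s' (fun q => pdr r s q) hs'
        by_cases h4 : ch 2 (∏ q ∈ s', pdr r s q) = 1
        · rw [h3.2 h4, ra, if_pos h4]
        · have h5 : ∑ q ∈ s', ra 2 (pdr r s q) ≠ 0 := fun h6 => h4 (h3.1 h6)
          rw [ra, if_neg h4]
          exact z2_one _ h5
      have hra : ∀ A : ℤ, Gd 2 A → IsSquare ((P * A : ℤ) : ℚ_[2]) → ra 2 A = ra 2 P := by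
        intro A hA hsq
        have h3 := gd_mul Nat.prime_two hP2 hA
        have h4 := (ch_iff h3).2 hsq
        have h5 : ra 2 (P * A) = 0 := by rw [ra, if_pos h4]
        rw [ra_mul hP2 hA] at h5
        exact z2_eq _ _ h5
      by_cases h2X : 2 ∈ X
      · -- the complement
        have h5 := hX1 h2X
        have hsub : Vt t S \ X ⊆ (Vt t S).erase 2 := by
          intro q hq
          obtain ⟨h6, h7⟩ := Finset.mem_sdiff.1 hq
          exact Finset.mem_erase.2 ⟨fun h8 => h7 (h8 ▸ h2X), h6⟩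
        have h6 : ∑ q ∈ (Vt t S).erase 2, (ind X q + ind X 2) * ra 2 (pdr r s q) =
            ∑ q ∈ Vt t S \ X, ra 2 (pdr r s q) := by
          rw [sum_ind hsub]
          refine Finset.sum_congr rfl fun q hq => ?_
          congr 1
          rw [ind_one h2X]
          by_cases hqX : q ∈ X
          · rw [ind_one hqX, ind_zero (fun h => (Finset.mem_sdiff.1 h).2 hqX)]
            exact one_one
          · rw [ind_zero hqX, ind_one (Finset.mem_sdiff.2 ⟨Finset.mem_of_mem_erase hq, hqX⟩)]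
            exact zero_add 1
        have hg2 : ∀ q ∈ Vt t S \ X, Gd 2 (pdr r s q) := fun q hq => hgd q (hsub hq)
        rw [h6, hsr _ hg2]
        refine hra _ (gd_prod Nat.prime_two _ _ hg2) ?_
        have he0' : (e : ℚ_[2]) ≠ 0 := by exact_mod_cast he0
        have h7 : (d1 : ℚ_[2]) * m =
            (e * e) * ((P * ∏ q ∈ Vt t S \ X, pdr r s q : ℤ) : ℚ_[2]) := by
          have h8 : m = (∏ q ∈ Vt t S \ X, pdr r s q) * e := by
            rw [← hXe, Finset.prod_sdiff hX, D.prod]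
          have h9 : (m : ℚ_[2]) = ((∏ q ∈ Vt t S \ X, pdr r s q : ℤ) : ℚ_[2]) * e := by
            rw [← Int.cast_mul, ← h8]
          rw [h9, he, Int.cast_mul, Int.cast_mul]
          ring
        rw [h7] at h5
        exact sq_cancel (mul_ne_zero he0' he0') (IsSquare.mul_self _) h5
      · have h5 := hX0 hp h2X
        have hsub : X ⊆ (Vt t S).erase 2 := fun q hq =>
          Finset.mem_erase.2 ⟨fun h8 => h2X (h8 ▸ hq), hX hq⟩
        have h6 : ∑ q ∈ (Vt t S).erase 2, (ind X q + ind X 2) * ra 2 (pdr r s q) =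
            ∑ q ∈ X, ra 2 (pdr r s q) := by
          rw [sum_ind hsub]
          refine Finset.sum_congr rfl fun q hq => ?_
          rw [ind_zero h2X, add_zero]
        have hg2 : ∀ q ∈ X, Gd 2 (pdr r s q) := fun q hq => hgd q (hsub hq)
        rw [h6, hsr _ hg2]
        refine hra _ (gd_prod Nat.prime_two _ _ hg2) ?_
        rw [hXe, ← he]
        exact h5
    · obtain ⟨M, h1, h2, h3, h4, h5⟩ := D.plus hp hp2
      rw [← h5 X hX, hXe]
      have hv := val_d1 h L hYp hb0 hp hp2 h1 h2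
      have hMl : ∀ l ∈ lb a c, M (sgp l) = ra p (sgp l) := by
        intro l hl
        refine h3 _ fun h6 => ?_
        rw [Pool.Agent.N488.SLX.dvd_sgp] at h6
        have h7 : p = l := (Nat.prime_dvd_prime_iff_eq hpp (Λ.pr l hl)).1 h6
        exact Λ.nV l hl (h7 ▸ hp)
      have hs0 : ∀ l ∈ lb a c, sgp l ≠ 0 := by
        intro l hl h0
        have h6 := sgp_mod (Λ.pr l hl) (Λ.o2 l hl)
        rw [h0] at h6
        exact absurd h6 (by decide)
      have hMJ : M P = ∑ l ∈ J, ra p (sgp l) := by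
        rw [hP, L_prod h1 _ _ fun l hl => hs0 l (hJs hl)]
        exact Finset.sum_congr rfl fun l hl => hMl l (hJs hl)
      have hMb : M (-(c ^ 2 - a ^ 2)) = ∑ l ∈ lb a c, ra p (sgp l) := by
        rw [hk, h1 _ _ hΛ0 (pow_ne_zero _ hk0), pow_two, h1 _ _ hk0 hk0,
          L_prod h1 _ _ hs0, Finset.sum_congr rfl hMl]
        have h6 : ∀ x y : ZMod 2, x + (y + y) = x := by decide
        exact h6 _ _
      rw [hMb] at hv
      rw [← hMJ, ← hv, he, h1 _ _ hP0 he0]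
      have h6 : ∀ x y : ZMod 2, y = x + y + x := by decide
      exact h6 _ _
  · have e1 : dXG t r s S (lb a c) (fun p => ind X p.1) (fun p => ind Y p.1) = d1 := by
      unfold dXG
      rw [prod_ind hX (fun p => pdr r s p), hXe, he, mul_comm, hP, hJ, Finset.prod_filter]
      congr 1
      refine Finset.prod_congr rfl fun l _ => ?_
      have h3 : ∑ q : {x : ℕ // x ∈ Vt t S}, nr l q.1 * ind Y q.1 = j l :=
        Finset.sum_coe_sort (Vt t S) (fun q => nr l q * ind Y q)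
      rw [h3]
      rfl
    have e2 : dY t S (fun p => ind Y p.1) = d2 := by
      unfold dY
      rw [prod_ind hY (fun p => (p : ℤ)), hYd]
    rw [e1, e2]

end Pool.Agent.N637.SLM.Nec
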