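import Pool.Agent.N637.SLM.Stm
import Pool.Agent.N637.P21.Loc

/-!
# Project SLK: the odd places, necessity
-/

set_option autoImplicit false

namespace Pool.Agent.N637.SLM.Odd

open Pool.Agent.TH841.SH (LocC)
open Pool.Agent.N637.SLM (Cw Lw S_NG S_NM)
open Pool.Agent.N637.P21 (val_neg zmod_sq)
open Pool.Agent.N875.X15 (norm_eq_iff close closeV even_val sq_cancel sq_trans loc_ram loc_unr
  val_zero val_one not_dvd_of_even drop to_coord)

variable {p : ℕ} [hp : Fact p.Prime]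

/-- the local condition in terms of `u = x` -/
lemma locC_iff {m a b d1 d2 : ℤ} (h : LocC ℚ_[p] 0 (a ^ 2 * m) (-b * m) d1 d2) :
    ∃ u : ℚ_[p], u ≠ 0 ∧ u - a ^ 2 * m ≠ 0 ∧ u + b * m ≠ 0 ∧
      IsSquare (u * (u - a ^ 2 * m) * (u + b * m)) ∧ IsSquare (u * d1) ∧
      IsSquare ((u - a ^ 2 * m) * d2) := by
  obtain ⟨x, y, hy, hxy, h1, h2⟩ := h
  push_cast at hxy h1 h2
  have e1 : x - 0 = x := sub_zero x
  have e2 : x - -(b : ℚ_[p]) * (m : ℚ_[p]) = x + b * m := by ring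
  rw [e1, e2] at hxy
  rw [e1] at h1
  have h0 : x * (x - a ^ 2 * m) * (x + b * m) ≠ 0 := by rw [← hxy]; exact pow_ne_zero 2 hy
  exact ⟨x, left_ne_zero_of_mul (left_ne_zero_of_mul h0), right_ne_zero_of_mul
    (left_ne_zero_of_mul h0), right_ne_zero_of_mul h0, ⟨y, by rw [← hxy, pow_two]⟩, h1, h2⟩

/-- a unit which is a square has trivial symbol -/
lemma jac_of_sq {n : ℤ} (hn : ¬ (p : ℤ) ∣ n) (h : IsSquare (n : ℚ_[p])) : jacobiSym n p = 1 := by
  have h1 := zmod_sq (p := p) h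
  rw [← jacobiSym.legendreSym.to_jacobiSym]
  have h0 : ((n : ℤ) : ZMod p) ≠ 0 := by
    intro h0
    exact hn ((ZMod.intCast_zmod_eq_zero_iff_dvd n p).1 h0)
  exact (legendreSym.eq_one_iff p h0).2 h1

lemma jac_ne_zero {n : ℤ} (h : jacobiSym n p = -1) : ¬ (p : ℤ) ∣ n := by
  intro h1
  rw [← jacobiSym.legendreSym.to_jacobiSym] at h
  have h2 : legendreSym p n = 0 := by
    rw [legendreSym.eq_zero_iff]
    exact (ZMod.intCast_zmod_eq_zero_iff_dvd n p).2 h1
  rw [h2] at h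
  norm_num at h

lemma val_mul_m {x : ℚ_[p]} (hx : x ≠ 0) {m : ℤ} (hm : m ≠ 0) (hpm : ¬ (p : ℤ) ∣ m) :
    (x * (m : ℚ_[p])).valuation = x.valuation := by
  rw [Padic.valuation_mul hx (by exact_mod_cast hm), val_zero hpm, add_zero]

structure Dat (p : ℕ) (m a b c : ℤ) : Prop where
  eq : b = c ^ 2 - a ^ 2
  co : IsCoprime a c
  a0 : a ≠ 0
  b0 : b ≠ 0
  c0 : c ≠ 0
  m0 : m ≠ 0
  ac : (p : ℤ) ∣ a * c → jacobiSym m p = -1
  bb : (p : ℤ) ∣ b → jacobiSym (-m) p = -1

lemma dat {m a c : ℤ} (h : Cw a c) (hl : Lw a c m) (hp2 : p ≠ 2) :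
    Dat p m a (c ^ 2 - a ^ 2) c := by
  have ha := h.ha
  have hc := h.hc
  refine ⟨rfl, h.co, by omega, ?_, h.h0, hl.neg.ne, fun h1 => hl.ac p hp.out hp2 h1,
    fun h1 => hl.bb p hp.out h1⟩
  intro h0
  have h1 : (c ^ 2 - a ^ 2) % 2 = 1 := by
    have e1 : a ^ 2 % 2 = 1 := by
      rw [pow_two, Int.mul_emod, ha]; norm_num
    have e2 : c ^ 2 % 2 = 0 := by
      have : c % 2 = 0 := by omega
      rw [pow_two, Int.mul_emod, this]; norm_num
    omega
  rw [h0] at h1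
  norm_num at h1

section

variable {m a b c : ℤ} (D : Dat p m a b c)
include D

lemma Dat.nab (h : (p : ℤ) ∣ a) : ¬ (p : ℤ) ∣ c ∧ ¬ (p : ℤ) ∣ b := by
  have hpr : Prime (p : ℤ) := Nat.prime_iff_prime_int.1 hp.out
  have h1 : ¬ (p : ℤ) ∣ c := by
    intro h2
    exact hpr.not_isUnit (D.co.isUnit_of_dvd' h h2)
  refine ⟨h1, fun h2 => h1 ?_⟩
  have h3 : (p : ℤ) ∣ c ^ 2 := by
    have e : c ^ 2 = b + a * a := by rw [D.eq]; ring
    rw [e]
    exact dvd_add h2 (dvd_mul_of_dvd_left h a)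
  exact hpr.dvd_of_dvd_pow h3

lemma Dat.ncb (h : (p : ℤ) ∣ c) : ¬ (p : ℤ) ∣ a ∧ ¬ (p : ℤ) ∣ b := by
  have hpr : Prime (p : ℤ) := Nat.prime_iff_prime_int.1 hp.out
  have h1 : ¬ (p : ℤ) ∣ a := by
    intro h2
    exact hpr.not_isUnit (D.co.isUnit_of_dvd' h2 h)
  refine ⟨h1, fun h2 => h1 ?_⟩
  have h3 : (p : ℤ) ∣ a ^ 2 := by
    have e : a ^ 2 = c * c - b := by rw [D.eq]; ring
    rw [e]
    exact dvd_sub (dvd_mul_of_dvd_left h c) h2
  exact hpr.dvd_of_dvd_pow h3

lemma Dat.nbac (h : (p : ℤ) ∣ b) : ¬ (p : ℤ) ∣ a ∧ ¬ (p : ℤ) ∣ c :=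
  ⟨fun h1 => (D.nab h1).2 h, fun h1 => (D.ncb h1).2 h⟩

theorem Dat.ndvd (hp2 : p ≠ 2) (hpm : ¬ (p : ℤ) ∣ m) {d1 d2 : ℤ} (hd1 : Squarefree d1)
    (hd2 : Squarefree d2) (h : LocC ℚ_[p] 0 (a ^ 2 * m) (-b * m) d1 d2) : ¬ (p : ℤ) ∣ d2 ∧
    ((p : ℤ) ∣ d1 ↔ (Odd (padicValInt p b) ∧ jacobiSym d2 p = -1)) := by
  obtain ⟨u, hu, hv, hw, hs, h1, h2⟩ := locC_iff h
  have hpr : Prime (p : ℤ) := Nat.prime_iff_prime_int.1 hp.out
  have m' : (m : ℚ_[p]) ≠ 0 := by exact_mod_cast D.m0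
  have a' : (a : ℚ_[p]) ≠ 0 := by exact_mod_cast D.a0
  have b' : (b : ℚ_[p]) ≠ 0 := by exact_mod_cast D.b0
  have c' : (c : ℚ_[p]) ≠ 0 := by exact_mod_cast D.c0
  have eb : (b : ℚ_[p]) = c ^ 2 - a ^ 2 := by exact_mod_cast D.eq
  have E1 : u - a ^ 2 * (m : ℚ_[p]) - u = -(a ^ 2 * m) := by ring
  have E2 : u + b * (m : ℚ_[p]) - u = b * m := by ring
  have E3 : u + b * (m : ℚ_[p]) - (u - a ^ 2 * m) = c ^ 2 * m := by rw [eb]; ring
  have E1' : u - (u - a ^ 2 * (m : ℚ_[p])) = a ^ 2 * m := by ring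
  have E2' : u - (u + b * (m : ℚ_[p])) = -(b * m) := by ring
  have E3' : u - a ^ 2 * (m : ℚ_[p]) - (u + b * m) = -(c ^ 2 * m) := by rw [eb]; ring
  have na : (a : ℚ_[p]) ^ 2 * m ≠ 0 := mul_ne_zero (pow_ne_zero 2 a') m'
  have nb : (b : ℚ_[p]) * m ≠ 0 := mul_ne_zero b' m'
  have nc : (c : ℚ_[p]) ^ 2 * m ≠ 0 := mul_ne_zero (pow_ne_zero 2 c') m'
  have va : ((a : ℚ_[p]) ^ 2 * m).valuation = 2 * (a : ℚ_[p]).valuation := by
    rw [val_mul_m (pow_ne_zero 2 a') D.m0 hpm, Padic.valuation_pow]; norm_num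
  have vc : ((c : ℚ_[p]) ^ 2 * m).valuation = 2 * (c : ℚ_[p]).valuation := by
    rw [val_mul_m (pow_ne_zero 2 c') D.m0 hpm, Padic.valuation_pow]; norm_num
  have vb : ((b : ℚ_[p]) * m).valuation = (b : ℚ_[p]).valuation := val_mul_m b' D.m0 hpm
  have nsq : ∀ {e : ℤ}, e ≠ 0 → (p : ℤ) ∣ a * c → ¬ IsSquare ((e : ℚ_[p]) ^ 2 * m) := by
    intro e he h3 h4
    have e' : (e : ℚ_[p]) ≠ 0 := by exact_mod_cast he
    have h5 : IsSquare (m : ℚ_[p]) := sq_cancel (pow_ne_zero 2 e') ⟨e, by rw [pow_two]⟩ h4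
    have h6 := jac_of_sq hpm h5
    rw [D.ac h3] at h6
    norm_num at h6
  by_cases hb : (p : ℤ) ∣ b
  · -- the labels
    obtain ⟨hpa, hpc⟩ := D.nbac hb
    have va0 : ((a : ℚ_[p]) ^ 2 * m).valuation = 0 := by rw [va, val_zero hpa, mul_zero]
    have vb1 : (1 : ℤ) ≤ (b : ℚ_[p]).valuation := by
      rw [Padic.valuation_intCast]
      have : 1 ≤ padicValInt p b := by
        by_contra hcon
        have h3 : padicValInt p b = 0 := by omega
        rw [padicValInt.eq_zero_iff] at h3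
        rcases h3 with h3 | h3 | h3
        · exact hp.out.one_lt.ne' h3
        · exact D.b0 h3
        · exact h3 hb
      exact_mod_cast this
    have hj := D.bb hb
    have hnm : ¬ (p : ℤ) ∣ -m := by rwa [dvd_neg]
    have hsum : Even (u.valuation + (u - a ^ 2 * m).valuation + (u + b * m).valuation) := by
      have := even_val (mul_ne_zero (mul_ne_zero hu hv) hw) hs
      rwa [Padic.valuation_mul (mul_ne_zero hu hv) hw, Padic.valuation_mul hu hv] at this
    obtain ⟨k, hk⟩ := hsum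
    have hodd : Odd (padicValInt p b) ↔ Odd (b : ℚ_[p]).valuation := by
      rw [Padic.valuation_intCast, Int.odd_coe_nat]
    have nsqm : ¬ IsSquare (-(m : ℚ_[p])) := by
      intro h4
      have h5 : IsSquare ((-m : ℤ) : ℚ_[p]) := by push_cast; exact h4
      have h6 := jac_of_sq hnm h5
      rw [hj] at h6
      norm_num at h6
    rcases lt_or_ge u.valuation (b : ℚ_[p]).valuation with t1 | t1
    · -- `w ~ u`
      obtain ⟨a1, a2⟩ := closeV hp2 hw hu (by rw [E2]; exact nb) (by rw [E2, vb]; exact t1)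
      have b1 : IsSquare (u - a ^ 2 * m) := by
        have e : u * (u - a ^ 2 * m) * (u + b * m) = ((u + b * m) * u) * (u - a ^ 2 * m) := by ring
        rw [e] at hs
        exact sq_cancel (mul_ne_zero hw hu) a1 hs
      have b2 := even_val hv b1
      have k2 : ¬ (p : ℤ) ∣ d2 := not_dvd_of_even hv b2 hd2 h2
      have j2 : jacobiSym d2 p = 1 := jac_of_sq k2 (sq_cancel hv b1 h2)
      refine ⟨k2, ?_⟩
      have hue : Even u.valuation := by
        rcases lt_trichotomy u.valuation 0 with t2 | t2 | t2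
        · obtain ⟨-, a3⟩ := closeV hp2 hv hu (by rw [E1]; exact neg_ne_zero.2 na)
            (by rw [E1, val_neg, va0]; exact t2)
          rw [← a3]
          exact b2
        · rw [t2]
          exact Even.zero
        · exfalso
          have E4 : u - a ^ 2 * (m : ℚ_[p]) - -(a ^ 2 * m) = u := by ring
          obtain ⟨a4, -⟩ := closeV hp2 hv (neg_ne_zero.2 na) (by rw [E4]; exact hu)
            (by rw [E4, val_neg, va0]; exact t2)
          have a5 : IsSquare (-((a : ℚ_[p]) ^ 2 * m)) := sq_cancel hv b1 a4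
          have a6 : IsSquare (-(m : ℚ_[p])) := by
            refine sq_cancel (pow_ne_zero 2 a') ⟨(a : ℚ_[p]), by rw [pow_two]⟩ ?_
            have e : (a : ℚ_[p]) ^ 2 * -m = -((a : ℚ_[p]) ^ 2 * m) := by ring
            rwa [e]
          exact nsqm a6
      constructor
      · intro h3
        exact absurd h3 (not_dvd_of_even hu hue hd1 h1)
      · rintro ⟨-, h3⟩
        rw [j2] at h3
        norm_num at h3
    · -- `v ~ - a² m`
      have t2 : 0 < u.valuation := by omega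
      have E4 : u - a ^ 2 * (m : ℚ_[p]) - -(a ^ 2 * m) = u := by ring
      obtain ⟨a4, a4'⟩ := closeV hp2 hv (neg_ne_zero.2 na) (by rw [E4]; exact hu)
        (by rw [E4, val_neg, va0]; exact t2)
      rw [val_neg, va0] at a4'
      have k2 : ¬ (p : ℤ) ∣ d2 := not_dvd_of_even hv (by rw [a4']; exact Even.zero) hd2 h2
      have a6 : IsSquare ((u - a ^ 2 * m) * -(m : ℚ_[p])) := by
        have e : -((a : ℚ_[p]) ^ 2 * m) = (a : ℚ_[p]) ^ 2 * -m := by ring
        rw [e] at a4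
        exact drop ⟨(a : ℚ_[p]), by rw [pow_two]⟩ (pow_ne_zero 2 a') a4
      have j2 : jacobiSym d2 p = -1 := by
        have h3 : IsSquare (((d2 * -m : ℤ)) : ℚ_[p]) := by
          push_cast
          exact to_coord hv a6 h2
        have h4 := jac_of_sq (n := d2 * -m) (by
          intro h5
          rcases hpr.dvd_or_dvd h5 with h6 | h6
          · exact k2 h6
          · exact hnm h6) h3
        rw [jacobiSym.mul_left, hj] at h4
        linarith
      refine ⟨k2, ?_⟩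
      have hpar : Odd u.valuation ↔ Odd (b : ℚ_[p]).valuation := by
        rcases eq_or_lt_of_le t1 with t3 | t3
        · rw [t3]
        · have E5 : u + b * (m : ℚ_[p]) - b * m = u := by ring
          obtain ⟨-, a7⟩ := closeV hp2 hw nb (by rw [E5]; exact hu)
            (by rw [E5, vb]; exact t3)
          rw [a7, a4', vb] at hk
          constructor
          · rintro ⟨r, hr⟩
            exact ⟨k - r - 1, by omega⟩
          · rintro ⟨r, hr⟩
            exact ⟨k - r - 1, by omega⟩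
      have hd10 : (d1 : ℚ_[p]) ≠ 0 := by exact_mod_cast hd1.ne_zero
      have h3 := even_val (mul_ne_zero hu hd10) h1
      rw [Padic.valuation_mul hu hd10] at h3
      constructor
      · intro h4
        refine ⟨hodd.2 (hpar.1 ?_), j2⟩
        rw [val_one h4 hd1] at h3
        obtain ⟨r, hr⟩ := h3
        exact ⟨r - 1, by omega⟩
      · rintro ⟨h4, -⟩
        by_contra h5
        rw [val_zero h5, add_zero] at h3
        exact (Int.not_even_iff_odd.2 (hpar.2 (hodd.1 h4))) h3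
  · -- the other primes
    have hv0 : padicValInt p b = 0 := by
      rw [padicValInt.eq_zero_iff]; exact Or.inr (Or.inr hb)
    have vb0 : ((b : ℚ_[p]) * m).valuation = 0 := by rw [vb, val_zero hb]
    have main : Even u.valuation ∧ Even (u - a ^ 2 * (m : ℚ_[p])).valuation := by
      by_cases hc : (p : ℤ) ∣ c
      · have hpa := (D.ncb hc).1
        have va0 : ((a : ℚ_[p]) ^ 2 * m).valuation = 0 := by rw [va, val_zero hpa, mul_zero]
        have hs' : IsSquare ((u - a ^ 2 * (m : ℚ_[p])) * (u + b * m) * u) := by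
          have e : (u - a ^ 2 * (m : ℚ_[p])) * (u + b * m) * u =
            u * (u - a ^ 2 * m) * (u + b * m) := by ring
          rwa [e]
        have vcn : 0 ≤ (c : ℚ_[p]).valuation := by
          rw [Padic.valuation_intCast]; positivity
        have := loc_unr hp2 (u := u - a ^ 2 * (m : ℚ_[p])) (v := u + b * m) (w := u) hv hw hu hs'
          (by rw [E3]; exact nc) (by rw [E1']; exact na)
          (by rw [E2']; exact neg_ne_zero.2 nb) (l := 2 * (c : ℚ_[p]).valuation) (k := 0)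
          (by rw [E3, vc]) (by rw [E1', va0]) (by rw [E2', val_neg, vb0]) (by omega)
          Even.zero ⟨(c : ℚ_[p]).valuation, by ring⟩
          (fun _ hsq => by
            rw [E1'] at hsq
            exact nsq D.a0 (dvd_mul_of_dvd_right hc a) hsq)
        exact ⟨this.2.2, this.1⟩
      · have vc0 : ((c : ℚ_[p]) ^ 2 * m).valuation = 0 := by rw [vc, val_zero hc, mul_zero]
        have hs' : IsSquare ((u - a ^ 2 * (m : ℚ_[p])) * u * (u + b * m)) := by
          have e : (u - a ^ 2 * (m : ℚ_[p])) * u * (u + b * m) =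
            u * (u - a ^ 2 * m) * (u + b * m) := by ring
          rwa [e]
        have van : 0 ≤ (a : ℚ_[p]).valuation := by
          rw [Padic.valuation_intCast]; positivity
        have := loc_unr hp2 (u := u - a ^ 2 * (m : ℚ_[p])) (v := u) (w := u + b * m) hv hu hw hs'
          (by rw [E1']; exact na) (by rw [E3]; exact nc)
          (by rw [E2]; exact nb) (l := 2 * (a : ℚ_[p]).valuation) (k := 0)
          (by rw [E1', va]) (by rw [E3, vc0]) (by rw [E2, vb0]) (by omega)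
          Even.zero ⟨(a : ℚ_[p]).valuation, by ring⟩
          (fun h3 hsq => by
            rw [E3] at hsq
            have hpa : (p : ℤ) ∣ a := by
              by_contra h4
              rw [val_zero h4] at h3
              norm_num at h3
            exact nsq D.c0 (dvd_mul_of_dvd_left hpa c) hsq)
        exact ⟨this.2.1, this.1⟩
    refine ⟨not_dvd_of_even hv main.2 hd2 h2, ?_⟩
    rw [hv0]
    constructor
    · intro h3
      exact absurd h3 (not_dvd_of_even hu main.1 hd1 h1)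
    · rintro ⟨h3, -⟩
      exact absurd h3 (by decide)

theorem Dat.dvd (hp2 : p ≠ 2) (hm : Squarefree m) (hpm : (p : ℤ) ∣ m) {d1 d2 : ℤ}
    (h : LocC ℚ_[p] 0 (a ^ 2 * m) (-b * m) d1 d2) :
    (IsSquare (d2 : ℚ_[p]) ∧ (IsSquare (d1 : ℚ_[p]) ∨ IsSquare ((d1 : ℚ_[p]) * m))) ∨
    (IsSquare ((d2 : ℚ_[p]) * (-m)) ∧ (IsSquare ((d1 : ℚ_[p]) * (-b)) ∨
      IsSquare ((d1 : ℚ_[p]) * (-b) * m))) := by
  obtain ⟨u, hu, hv, hw, hs, h1, h2⟩ := locC_iff h
  have hpr : Prime (p : ℤ) := Nat.prime_iff_prime_int.1 hp.out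
  have hpac : ¬ (p : ℤ) ∣ a * c := fun h3 => jac_ne_zero (D.ac h3) hpm
  have hpb : ¬ (p : ℤ) ∣ b := fun h3 => jac_ne_zero (D.bb h3) (by rwa [dvd_neg])
  have hpa : ¬ (p : ℤ) ∣ a := fun h3 => hpac (dvd_mul_of_dvd_left h3 c)
  have hpc : ¬ (p : ℤ) ∣ c := fun h3 => hpac (dvd_mul_of_dvd_right h3 a)
  have m' : (m : ℚ_[p]) ≠ 0 := by exact_mod_cast D.m0
  have a' : (a : ℚ_[p]) ≠ 0 := by exact_mod_cast D.a0
  have b' : (b : ℚ_[p]) ≠ 0 := by exact_mod_cast D.b0
  have c' : (c : ℚ_[p]) ≠ 0 := by exact_mod_cast D.c0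
  have eb : (b : ℚ_[p]) = c ^ 2 - a ^ 2 := by exact_mod_cast D.eq
  have vm := val_one hpm hm
  have E1 : u - a ^ 2 * (m : ℚ_[p]) - u = -(a ^ 2 * m) := by ring
  have E2 : u + b * (m : ℚ_[p]) - u = b * m := by ring
  have E3 : u + b * (m : ℚ_[p]) - (u - a ^ 2 * m) = c ^ 2 * m := by rw [eb]; ring
  have E1' : u - (u - a ^ 2 * (m : ℚ_[p])) = a ^ 2 * m := by ring
  have E2' : u - (u + b * (m : ℚ_[p])) = -b * m := by ring
  have E3' : u - a ^ 2 * (m : ℚ_[p]) - (u + b * m) = c ^ 2 * (-m) := by rw [eb]; ring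
  have E4 : -((a : ℚ_[p]) ^ 2 * (m : ℚ_[p])) = a ^ 2 * (-m) := by ring
  have na : (a : ℚ_[p]) ^ 2 * m ≠ 0 := mul_ne_zero (pow_ne_zero 2 a') m'
  have nb : (b : ℚ_[p]) * m ≠ 0 := mul_ne_zero b' m'
  have nc : (c : ℚ_[p]) ^ 2 * m ≠ 0 := mul_ne_zero (pow_ne_zero 2 c') m'
  have sa : IsSquare ((a : ℚ_[p]) ^ 2) := ⟨(a : ℚ_[p]), by rw [pow_two]⟩
  have sc : IsSquare ((c : ℚ_[p]) ^ 2) := ⟨(c : ℚ_[p]), by rw [pow_two]⟩
  have va : ((a : ℚ_[p]) ^ 2 * m).valuation = 1 := by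
    rw [Padic.valuation_mul (pow_ne_zero 2 a') m', Padic.valuation_pow, val_zero hpa, vm]
    norm_num
  have vc : ((c : ℚ_[p]) ^ 2 * m).valuation = 1 := by
    rw [Padic.valuation_mul (pow_ne_zero 2 c') m', Padic.valuation_pow, val_zero hpc, vm]
    norm_num
  have vb : ((b : ℚ_[p]) * m).valuation = 1 := by
    rw [Padic.valuation_mul b' m', val_zero hpb, vm]
    norm_num
  have := loc_ram hp2 (u := u) (v := u - a ^ 2 * (m : ℚ_[p])) (w := u + b * m) hu hv hw hs
    (by rw [E1]; exact neg_ne_zero.2 na) (by rw [E2]; exact nb)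
    (by rw [E3]; exact nc) (l := 1) (k := 1) (by rw [E1, val_neg, va])
    (by rw [E2, vb]) (by rw [E3, vc]) (le_refl _) (by decide)
  rw [E1', E2', E3, E3', E2, E1, E4] at this
  have hone : ∀ {x : ℚ_[p]}, IsSquare x → IsSquare (x * 1) := fun h => by rwa [mul_one]
  rcases this with ⟨x, y⟩ | ⟨x, y⟩ | ⟨x, y⟩ | ⟨x, y⟩
  · left
    have c1 := to_coord hu (hone x) h1
    have c2 := to_coord hv (hone y) h2
    rw [mul_one] at c1 c2
    exact ⟨c2, Or.inl c1⟩
  · right
    have x' := drop sa (pow_ne_zero 2 a') x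
    refine ⟨to_coord hv x' h2, Or.inl ?_⟩
    have c : IsSquare (u * (-b)) := by
      have c1 := hs.mul (x'.mul y)
      have e : u * (u - a ^ 2 * (m : ℚ_[p])) * (u + b * m) * ((u - a ^ 2 * (m : ℚ_[p])) * (-m) *
          ((u + b * m) * (b * m))) =
        (((u - a ^ 2 * (m : ℚ_[p])) * (u + b * m) * m) *
          ((u - a ^ 2 * (m : ℚ_[p])) * (u + b * m) * m)) * (u * (-b)) := by ring
      rw [e] at c1
      have h0 : (u - a ^ 2 * (m : ℚ_[p])) * (u + b * m) * m ≠ 0 :=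
        mul_ne_zero (mul_ne_zero hv hw) m'
      exact sq_cancel (mul_ne_zero h0 h0) (IsSquare.mul_self _) c1
    exact to_coord hu c h1
  · left
    have x' := drop sa (pow_ne_zero 2 a') x
    have y' := drop sc (pow_ne_zero 2 c') y
    refine ⟨?_, Or.inr (to_coord hu x' h1)⟩
    have c : IsSquare ((u - a ^ 2 * (m : ℚ_[p])) * 1) := by
      have c1 := hs.mul (x'.mul y')
      have e : u * (u - a ^ 2 * (m : ℚ_[p])) * (u + b * m) * (u * m * ((u + b * m) * m)) =
        ((u * (u + b * m) * m) * (u * (u + b * m) * m)) *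
          ((u - a ^ 2 * (m : ℚ_[p])) * 1) := by ring
      rw [e] at c1
      have h0 : u * (u + b * (m : ℚ_[p])) * m ≠ 0 := mul_ne_zero (mul_ne_zero hu hw) m'
      exact sq_cancel (mul_ne_zero h0 h0) (IsSquare.mul_self _) c1
    have := to_coord hv c h2
    rwa [mul_one] at this
  · right
    refine ⟨to_coord hv (drop sc (pow_ne_zero 2 c') y) h2, Or.inr ?_⟩
    have := to_coord hu x h1
    rwa [← mul_assoc] at this

end

theorem t_NG : S_NG := by
  intro m a c hC hL p _ hp2 hpm d1 d2 hd1 hd2 h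
  exact (dat (p := p) hC hL hp2).ndvd hp2 hpm hd1 hd2 h

theorem t_NM : S_NM := by
  intro m a c hC hL p _ hp2 hpm d1 d2 hd1 hd2 h
  have h1 := (dat (p := p) hC hL hp2).dvd hp2 hL.sqf hpm h
  push_cast at h1
  exact h1

end Pool.Agent.N637.SLM.Odd
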