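import Pool.Agent.N637.SLM.Stm
import Pool.Agent.N327.SLX.RED

/-!
# Project SLK (helper637): the criterion satisfies the hypothesis of the machine
-/

set_option autoImplicit false
set_option linter.all false

open scoped Classical

namespace Pool.Agent.N637.SLM.RED

open Finset Filter
open Pool.Agent.Y703.CQ (nr sg)
open Pool.Agent.N973.ND (uu nr_rec nr_self)
open Pool.Agent.N916.GB (Po ps sx pt Vt sy)
open Pool.Agent.N916.AM (LAH LAV Nd Rich Bs sub_Bs nr_Bs uu_mod nr_mod)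
open Pool.Agent.N958.GB (lb rr rr_inj rr_im NR sgm two_tuples rec_NR ud wd z2 mem_Vt
  Vt_sub sy_ne)
open Pool.Agent.N637.SLX (IsLk Bf NS)
open Pool.Agent.N327.SLX (islk_equiv bf_equiv)
open Pool.Agent.N637.SLM
open Pool.Agent.N637.SLK (Fm RadF CritF GjF lawF Stg S_LAJ)

/-! ### transport -/

theorem fm_equiv {V W : Type} [Fintype V] [Fintype W] (φ : V ≃ W) {L : ℕ}
    (f : Fin L → W → ZMod 2) (c : Fin L → ZMod 2) (y z : W → ZMod 2) :
    Fm (fun l i => f l (φ i)) c (y ∘ φ) (z ∘ φ) = Fm f c y z := by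
  unfold Fm
  refine sum_congr rfl fun l _ => ?_
  rw [bf_equiv φ (f l) y z]

theorem radF_equiv {V W : Type} [Fintype V] [Fintype W] (φ : V ≃ W) {L : ℕ} (N : W → W → ZMod 2)
    (f : Fin L → W → ZMod 2) (c : Fin L → ZMod 2) (y : W → ZMod 2) :
    RadF (fun i j => N (φ i) (φ j)) (fun l i => f l (φ i)) c (y ∘ φ) ↔ RadF N f c y := by
  unfold RadF
  rw [islk_equiv]
  refine and_congr_right fun _ => ?_
  constructor
  · intro H z hz
    rw [← fm_equiv φ]
    exact H _ ((islk_equiv φ N z).2 hz)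
  · intro H z hz
    have h1 : z = (z ∘ φ.symm) ∘ φ := by
      funext i
      simp
    rw [h1] at hz ⊢
    rw [fm_equiv]
    exact H _ ((islk_equiv φ N _).1 hz)

theorem critF_equiv {V W : Type} [Fintype V] [Fintype W] (φ : V ≃ W) {k L : ℕ}
    (N : W → W → ZMod 2) (f : Fin L → W → ZMod 2) (c : Fin k → Fin L → ZMod 2) (r : ℕ)
    (j : Fin k → ℕ) :
    CritF (fun i j => N (φ i) (φ j)) (fun l i => f l (φ i)) c r j ↔ CritF N f c r j := by
  unfold CritF
  refine and_congr ?_ (forall_congr' fun i => ?_)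
  · rw [Pool.Agent.N327.SLX.card_equiv φ]
    simp_rw [islk_equiv]
  · rw [Pool.Agent.N327.SLX.card_equiv φ]
    simp_rw [radF_equiv]

/-! ### the labels -/

/-- the labels of a tuple -/
noncomputable def fR {L : ℕ} (ell : Fin L → ℕ) {V : Type} (ρ : V → ℕ) (l : Fin L) (x : V) : ZMod 2 :=
  nr (ell l) (ρ x)

theorem Gj_iff {V : Type} [Fintype V] {k L : ℕ} (t : Bool) (r s : ZMod 2) (ell : Fin L → ℕ)
    (c : Fin k → Fin L → ZMod 2) (a : ℕ) (j : Fin k → ℕ) {ρ : V → ℕ}
    (hρ : Function.Injective ρ) {S : Finset ℕ} (hS : univ.image ρ = Vt t S) :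
    GjF t r s ell c a j S ↔ CritF (NR r s ρ) (fR ell ρ) c a j := by
  have h1 : ∀ i, ρ i ∈ Vt t S := fun i => by
    rw [← hS]
    exact mem_image_of_mem _ (mem_univ _)
  have hb : Function.Bijective (fun i => (⟨ρ i, h1 i⟩ : {x : ℕ // x ∈ Vt t S})) := by
    constructor
    · intro i j h
      exact hρ (congrArg Subtype.val h)
    · rintro ⟨x, hx⟩
      rw [← hS, mem_image] at hx
      obtain ⟨i, -, hi⟩ := hx
      exact ⟨i, Subtype.ext hi⟩
  have h2 := critF_equiv (Equiv.ofBijective _ hb) (NS t r s S) (fun l p => nr (ell l) p.1) c a j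
  unfold GjF
  rw [← h2]
  rfl

/-! ### the symbols modulo an odd prime -/

theorem nr_mul {q : ℕ} (hq : q.Prime) {m n : ℕ} (hm : ¬ q ∣ m) (hn : ¬ q ∣ n) :
    nr q (m * n) = nr q m + nr q n := by
  have := Fact.mk hq
  have h0 : ((m : ℤ) : ZMod q) ≠ 0 := by
    rw [Int.cast_natCast, Ne, ZMod.natCast_eq_zero_iff]
    exact hm
  have h1 : ((n : ℤ) : ZMod q) ≠ 0 := by
    rw [Int.cast_natCast, Ne, ZMod.natCast_eq_zero_iff]
    exact hn
  have h2 : (((m * n : ℕ) : ℤ) : ZMod q) ≠ 0 := by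
    push_cast at h0 h1 ⊢
    exact mul_ne_zero h0 h1
  have hmul := legendreSym.mul q (m : ℤ) (n : ℤ)
  have e1 := legendreSym.eq_one_iff q h0
  have e2 := legendreSym.eq_one_iff q h1
  have e3 := legendreSym.eq_one_iff q h2
  have f1 := legendreSym.eq_one_or_neg_one q h0
  have f2 := legendreSym.eq_one_or_neg_one q h1
  rw [Int.cast_natCast] at e1 e2 e3
  unfold nr
  rcases f1 with f1 | f1 <;> rcases f2 with f2 | f2
  · have g1 := e1.1 f1
    have g2 := e2.1 f2
    have g3 : IsSquare ((m * n : ℕ) : ZMod q) := e3.1 (by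
      rw [Nat.cast_mul, hmul, f1, f2, one_mul])
    rw [if_pos g1, if_pos g2, if_pos g3, add_zero]
  · have g1 := e1.1 f1
    have g2 : ¬ IsSquare ((n : ℕ) : ZMod q) := fun h => by
      have := e2.2 h
      rw [f2] at this
      omega
    have g3 : ¬ IsSquare ((m * n : ℕ) : ZMod q) := fun h => by
      have := e3.2 h
      rw [Nat.cast_mul, hmul, f1, f2] at this
      omega
    rw [if_pos g1, if_neg g2, if_neg g3, zero_add]
  · have g1 : ¬ IsSquare ((m : ℕ) : ZMod q) := fun h => by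
      have := e1.2 h
      rw [f1] at this
      omega
    have g2 := e2.1 f2
    have g3 : ¬ IsSquare ((m * n : ℕ) : ZMod q) := fun h => by
      have := e3.2 h
      rw [Nat.cast_mul, hmul, f1, f2] at this
      omega
    rw [if_neg g1, if_pos g2, if_neg g3, add_zero]
  · have g1 : ¬ IsSquare ((m : ℕ) : ZMod q) := fun h => by
      have := e1.2 h
      rw [f1] at this
      omega
    have g2 : ¬ IsSquare ((n : ℕ) : ZMod q) := fun h => by
      have := e2.2 h
      rw [f2] at this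
      omega
    have g3 : IsSquare ((m * n : ℕ) : ZMod q) := e3.1 (by
      rw [Nat.cast_mul, hmul, f1, f2]
      norm_num)
    rw [if_neg g1, if_neg g2, if_pos g3]
    decide

theorem nr_prod {q : ℕ} (hq : q.Prime) (F : Finset ℕ) (hF : ∀ x ∈ F, ¬ q ∣ x) :
    ¬ q ∣ (∏ x ∈ F, x) ∧ nr q (∏ x ∈ F, x) = ∑ x ∈ F, nr q x := by
  induction F using Finset.induction_on with
  | empty =>
    rw [prod_empty, sum_empty]
    refine ⟨fun h => hq.one_lt.ne' (Nat.dvd_one.1 h), ?_⟩
    unfold nr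
    rw [if_pos]
    exact ⟨1, by simp⟩
  | insert a S ha ih =>
    obtain ⟨h1, h2⟩ := ih fun x hx => hF x (mem_insert_of_mem hx)
    have h3 := hF a (mem_insert_self a S)
    rw [prod_insert ha, sum_insert ha, nr_mul hq h3 h1, h2]
    refine ⟨?_, rfl⟩
    intro h4
    rcases (hq.dvd_mul).1 h4 with h | h
    · exact h3 h
    · exact h1 h

theorem nr_cls {q M x y : ℕ} (hq : q ∣ M) (h : x % M = y % M) : nr q x = nr q y := by
  have h1 : (x : ZMod q) = (y : ZMod q) := by
    rw [ZMod.natCast_eq_natCast_iff']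
    rw [← Nat.mod_mod_of_dvd x hq, h, Nat.mod_mod_of_dvd y hq]
  unfold nr
  rw [h1]

/-! ### the classes -/

theorem rich_cls {M V₀ : ℕ} (hM0 : 0 < M) {S₀ : Finset ℕ}
    {ι : Type} [Fintype ι] {p : ι → ℕ} (hp : Function.Injective p)
    (hR : Rich M (2 * V₀) S₀ (univ.image p)) {x : ℕ} (hx : x.Coprime M) (P : ι → Prop)
    [DecidablePred P] (hP : ∀ i, p i % M = x % M → P i) {n : ℕ} (hn : n ≤ S₀.card + 1) :
    V₀ * (n + 1) ≤ (univ.filter P).card := by
  have hxc : (x % M).Coprime M := by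
    rw [Nat.Coprime, ← Nat.gcd_rec, Nat.gcd_comm]
    exact hx
  have h1 := hR (x % M) (Nat.mod_lt _ hM0) hxc
  rw [Finset.filter_image, Finset.card_image_of_injective _ hp] at h1
  have h2 : (univ.filter fun i => p i % M = x % M).card ≤ (univ.filter P).card := by
    refine card_le_card fun i hi => ?_
    rw [mem_filter] at hi ⊢
    exact ⟨hi.1, hP i hi.2⟩
  refine le_trans ?_ (h1.trans h2)
  calc V₀ * (n + 1) ≤ V₀ * (S₀.card + 1 + 1) := Nat.mul_le_mul_left _ (by omega)
    _ ≤ V₀ * (2 * (S₀.card + 1)) := Nat.mul_le_mul_left _ (by omega)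
    _ = 2 * V₀ * (S₀.card + 1) := by ring

theorem bf_one {V : Type} [Fintype V] (f w y : V → ZMod 2) (h : ∑ x, f x * w x = 1) :
    Bf f w y = ∑ x, f x * ((1 + w x) * y x) := by
  unfold Bf
  rw [h, one_mul, ← sum_add_distrib]
  refine sum_congr rfl fun x _ => ?_
  ring

/-! ### the setting -/

theorem stg {k L : ℕ} {ell : Fin L → ℕ} {c : Fin k → Fin L → ZMod 2} {M V₀ : ℕ} (hM : 8 ∣ M)
    (hM0 : 0 < M) (hL : Lb0 ell c M) {t : Bool} {r s : ZMod 2}
    {K : Finset ℕ} (hts : t = false → s = 0) (htr : t = true → r ≠ 0 ∨ s ≠ 0)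
    (htw : t = true → ∀ i, ∑ l, c i l * nr (ell l) 2 = 0)
    (hK : ∀ a ∈ K, a % 4 = if s = 0 then 3 else 1)
    (hK7 : ∀ a ∈ K, ∀ l, ¬ ell l ∣ a ∧ nr (ell l) a + (if t = true then r * nr (ell l) 2 else 0) = 1)
    (ι : Type) [Fintype ι]
    [LinearOrder ι] (S₀ : Finset ℕ) (p : ι → ℕ) (hS₀ : ∀ v ∈ S₀, Po v)
    (hp : ∀ i, Po (p i) ∧ p i ∉ S₀ ∧ (p i).Coprime M) (hpi : Function.Injective p)
    (hpK : ((∏ v ∈ S₀, v) * ∏ i, p i) % M ∈ K) (hN : Nd M S₀ (univ.image p))
    (hR : Rich M (2 * V₀) S₀ (univ.image p)) :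
    Stg (Vt t S₀ : Finset ℕ) ι (wd r (rr t S₀ p)) (ud s (rr t S₀ p)) (fR ell (rr t S₀ p)) c
      (NR r s (rr t S₀ p)) V₀ := by
  have h2S : 2 ∉ S₀ := fun h => (hS₀ 2 h).2 rfl
  have ht : ∀ v ∈ Vt t S₀, v = 2 → t = true := by
    intro v hv hv2
    rcases mem_Vt.1 hv with h | h
    · exact h.1
    · exact absurd (hv2 ▸ h) h2S
  set r₀ := rr t S₀ p with hr₀
  have hrp : ∀ i, (r₀ i).Prime := by
    rintro (v | k)
    · rcases mem_Vt.1 v.2 with h | h
      · show (v : ℕ).Prime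
        rw [h.2]
        exact Nat.prime_two
      · exact (hS₀ _ h).1
    · exact (hp k).1.1
  have hrinj : Function.Injective r₀ := rr_inj t hpi (fun i => (hp i).2.1) fun i => (hp i).1.2
  have hur : ∀ k : ι, ud s r₀ (Sum.inr k) = uu (p k) := by
    intro k
    exact if_neg (hp k).1.2
  have h4M : (4 : ℕ) ∣ M := Dvd.dvd.trans (by norm_num) hM
  have d1 : Fintype.card (Vt t S₀ : Finset ℕ) ≤ S₀.card + 1 := by
    rw [Fintype.card_coe]
    exact (card_le_card (Vt_sub t S₀)).trans (card_insert_le _ _)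
  have hdis : Disjoint S₀ (univ.image p) := by
    rw [Finset.disjoint_left]
    intro x hx hx'
    obtain ⟨i, -, rfl⟩ := mem_image.1 hx'
    exact (hp i).2.1 hx
  have a7 : ∏ x ∈ S₀ ∪ univ.image p, x = (∏ v ∈ S₀, v) * ∏ i, p i := by
    rw [prod_union hdis, prod_image fun i _ j _ h => hpi h]
  refine ⟨fun k => if_neg (hp k).1.2, ?_, fun i j hij => rec_NR r s hrinj hrp i j hij, ?_, ?_, ?_,
    ?_⟩
  · -- hu
    rw [Fintype.sum_sum_type]
    have a1 : ∑ i, ud s r₀ (Sum.inr i : (Vt t S₀ : Finset ℕ) ⊕ ι) = ∑ i, uu (p i) :=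
      sum_congr rfl fun i _ => hur i
    have a2 : ∑ v : (Vt t S₀ : Finset ℕ), ud s r₀ (Sum.inl v : (Vt t S₀ : Finset ℕ) ⊕ ι) =
        ∑ x ∈ Vt t S₀, if x = 2 then s else uu x := by
      rw [← Finset.sum_coe_sort (Vt t S₀)]
      rfl
    have a3 : ∑ x ∈ S₀, (if x = 2 then s else uu x) = ∑ x ∈ S₀, uu x :=
      sum_congr rfl fun x hx => if_neg (hS₀ x hx).2
    have a4 : ∑ x ∈ Vt t S₀, (if x = 2 then s else uu x) = s + ∑ x ∈ S₀, uu x := by
      cases t with
      | true =>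
        show ∑ x ∈ insert 2 S₀, (if x = 2 then s else uu x) = s + ∑ x ∈ S₀, uu x
        rw [sum_insert h2S, a3, if_pos rfl]
      | false =>
        show ∑ x ∈ S₀, (if x = 2 then s else uu x) = s + ∑ x ∈ S₀, uu x
        rw [a3, hts rfl, zero_add]
    have a5 : ∑ i, uu (p i) = ∑ x ∈ univ.image p, uu x :=
      (sum_image fun i _ j _ h => hpi h).symm
    have a6 : ∑ x ∈ S₀ ∪ univ.image p, uu x = ∑ x ∈ S₀, uu x + ∑ x ∈ univ.image p, uu x :=
      sum_union hdis
    have a8 := Pool.Agent.N916.GB.sum_uu (S₀ ∪ univ.image p) (by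
      intro x hx
      rcases mem_union.1 hx with h | h
      · exact hS₀ x h
      · obtain ⟨i, -, rfl⟩ := mem_image.1 h
        exact (hp i).1)
    rw [a7] at a8
    have a9 := hK _ hpK
    rw [Nat.mod_mod_of_dvd _ h4M, a8, a6] at a9
    rw [a1, a2, a4, a5]
    rcases z2 s with hs | hs <;> rcases z2 (∑ x ∈ S₀, uu x + ∑ x ∈ univ.image p, uu x) with h | h
    · rw [h, hs, if_pos rfl, if_pos rfl] at a9
      omega
    · rw [hs, zero_add, h]
    · rw [hs, add_assoc, h, add_zero]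
    · rw [h, hs, if_neg (by decide), if_neg (by decide)] at a9
      omega
  · -- hv
    intro v hv
    have b1 : ∀ v' : (Vt t S₀ : Finset ℕ), wd r r₀ (Sum.inl v') = 0 → (v' : ℕ) = 2 ∧ r = 0 := by
      intro v' hv'
      have hv'' : (if (v' : ℕ) = 2 then r else 1) = 0 := hv'
      by_cases h : (v' : ℕ) = 2
      · rw [if_pos h] at hv''
        exact ⟨h, hv''⟩
      · rw [if_neg h] at hv''
        exact absurd hv'' (by decide)
    obtain ⟨b2, b3⟩ := b1 v hv
    refine ⟨?_, fun v' hv' => Subtype.ext (b2.trans (b1 v' hv').1.symm)⟩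
    have b4 : s = 1 := by
      rcases z2 s with h | h
      · exact absurd (htr (ht v v.2 b2)) (by
          rintro (h' | h')
          · exact h' b3
          · exact h' h)
      · exact h
    show (if (v : ℕ) = 2 then s else uu v) = 1
    rw [if_pos b2, b4]
  · -- nd
    intro b s' hbs
    set w : ℕ → ZMod 2 := fun n => if h : n ∈ Vt t S₀ then b ⟨n, h⟩ else 0 with hw
    have hw1 : ∀ v : (Vt t S₀ : Finset ℕ), w v = b v := fun v => by
      rw [hw]
      exact dif_pos v.2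
    have hw2 : ∀ n, n ∉ Vt t S₀ → w n = 0 := fun n hn => by
      rw [hw]
      exact dif_neg hn
    have hsub : Vt t S₀ ⊆ Bs M S₀ := (Vt_sub t S₀).trans (sub_Bs hM hM0 S₀)
    obtain ⟨x, hx, hx2⟩ := hN w s' (by
      rcases hbs with ⟨v, hv⟩ | h
      · exact Or.inl ⟨v, hsub v.2, by rw [hw1]; exact hv⟩
      · exact Or.inr h)
    obtain ⟨k, -, rfl⟩ := mem_image.1 hx
    refine ⟨k, ?_⟩
    rw [hur]
    intro h0
    apply hx2
    refine Eq.trans ?_ h0
    congr 1
    have c2 : ∑ v ∈ Vt t S₀, w v * nr (p k) v = ∑ v ∈ Bs M S₀, w v * nr (p k) v :=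
      sum_subset hsub fun x _ hx => by rw [hw2 x hx, zero_mul]
    have c3 : ∑ v : (Vt t S₀ : Finset ℕ), b v * NR r s r₀ (Sum.inl v) (Sum.inr k) =
        ∑ v ∈ Vt t S₀, w v * nr (p k) v := by
      rw [← Finset.sum_coe_sort (Vt t S₀)]
      refine sum_congr rfl fun v _ => ?_
      rw [hw1]
      congr 1
      exact sy_ne r s (hp k).1.2
    exact c2.symm.trans c3.symm
  · -- rad
    intro i δ _ y hy
    -- the sum of the labels
    have hone : ∀ l, ∑ x, fR ell r₀ l x * wd r r₀ x = 1 := by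
      intro l
      obtain ⟨hlp, hl2, hlM⟩ := hL.pr l
      obtain ⟨k1, k2⟩ := hK7 _ hpK l
      rw [nr_cls hlM (Nat.mod_mod _ _)] at k2
      have k3 : ¬ ell l ∣ (∏ v ∈ S₀, v) * ∏ i, p i := by
        intro h
        exact k1 ((Nat.dvd_mod_iff hlM).2 h)
      rw [← a7] at k2 k3
      have k4 : ∀ x ∈ S₀ ∪ univ.image p, ¬ ell l ∣ x := by
        intro x hx h
        exact k3 (h.trans (Finset.dvd_prod_of_mem _ hx))
      rw [(nr_prod hlp _ k4).2, sum_union hdis] at k2
      rw [Fintype.sum_sum_type]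
      have a1 : ∑ v : (Vt t S₀ : Finset ℕ), fR ell r₀ l (Sum.inl v) * wd r r₀ (Sum.inl v) =
          ∑ x ∈ Vt t S₀, nr (ell l) x * (if x = 2 then r else 1) := by
        rw [← Finset.sum_coe_sort (Vt t S₀)]
        rfl
      have a3 : ∑ x ∈ S₀, nr (ell l) x * (if x = 2 then r else 1) = ∑ x ∈ S₀, nr (ell l) x :=
        sum_congr rfl fun x hx => by rw [if_neg (hS₀ x hx).2, mul_one]
      have a2 : ∑ x ∈ Vt t S₀, nr (ell l) x * (if x = 2 then r else 1) =
          (if t = true then r * nr (ell l) 2 else 0) + ∑ x ∈ S₀, nr (ell l) x := by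
        cases t with
        | true =>
          show ∑ x ∈ insert 2 S₀, nr (ell l) x * (if x = 2 then r else 1) = _
          rw [sum_insert h2S, a3, if_pos rfl, if_pos rfl, mul_comm]
        | false =>
          show ∑ x ∈ S₀, nr (ell l) x * (if x = 2 then r else 1) = _
          rw [a3, if_neg (by decide), zero_add]
      have a4 : ∑ x : ι, fR ell r₀ l (Sum.inr x) * wd r r₀ (Sum.inr x) =
          ∑ x ∈ univ.image p, nr (ell l) x := by
        rw [sum_image fun i _ j _ h => hpi h]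
        refine sum_congr rfl fun x _ => ?_
        have h1 : wd r r₀ (Sum.inr x) = 1 := if_neg (hp x).1.2
        rw [h1, mul_one]
        rfl
      rw [a1, a2, a4, ← k2]
      ring
    unfold Fm
    have h1 : ∑ l, c i l * Bf (fR ell r₀ l) (wd r r₀) y =
        ∑ x, (∑ l, c i l * fR ell r₀ l x) * ((1 + wd r r₀ x) * y x) := by
      simp_rw [bf_one _ _ y (hone _), mul_sum, sum_mul]
      rw [sum_comm]
      refine sum_congr rfl fun x _ => sum_congr rfl fun l _ => ?_
      ring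
    rw [h1]
    refine sum_eq_zero fun x _ => ?_
    by_cases h : r₀ x = 2
    · have ht' : t = true := by
        rcases x with v | i'
        · exact ht v.1 v.2 h
        · exact absurd h (hp i').1.2
      have h2 : ∑ l, c i l * fR ell r₀ l x = 0 := by
        have h3 := htw ht' i
        unfold fR
        rw [h]
        exact h3
      rw [h2, zero_mul]
    · have h2 : wd r r₀ x = 1 := if_neg h
      rw [h2, CharTwo.add_self_eq_zero, zero_mul, mul_zero]
  · -- cc
    intro s' γ hsγ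
    obtain ⟨x, hx, hx2⟩ := hL.ind s' γ hsγ
    have hxM : x.Coprime M := Nat.Coprime.coprime_dvd_right (Dvd.intro_left 2 rfl) hx
    refine rich_cls hM0 hpi hR hxM _ ?_ d1
    intro k' hk'
    intro h0
    apply hx2
    rw [← h0]
    have e1 : uu x = ud s r₀ (Sum.inr k') := by
      rw [hur]
      exact (uu_mod hM hk').symm
    rw [e1]
    congr 1
    refine sum_congr rfl fun i _ => ?_
    congr 1
    refine sum_congr rfl fun l _ => ?_
    congr 1
    exact nr_cls (hL.pr l).2.2 hk'.symm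

/-- SLK-RED -/
theorem t_RED : S_RED := by
  intro hLAJ k L ell c M hM hM0 hL t r s K hts htr htw hK hK7 a j ε hε
  obtain ⟨V₀, hV₀⟩ := hLAJ k L a j ε hε
  refine ⟨2 * V₀, ?_⟩
  intro ι _ _ S₀ p hS₀ hp hpi hpK hN hR
  have h2 := hV₀ (Vt t S₀ : Finset ℕ) ι _ _ _ _ _
    (stg hM hM0 hL hts htr htw hK hK7 ι S₀ p hS₀ hp hpi hpK hN hR)
  set r₀ := rr t S₀ p with hr₀
  have h4M : (4 : ℕ) ∣ M := Dvd.dvd.trans (by norm_num) hM
  refine ⟨fun σ => CritF (pt (NR r s r₀) (sx (σ + sgm p))) (fR ell r₀) c a j, ?_, ?_⟩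
  · intro q hqi hq
    rw [Gj_iff t r s ell c a j (rr_inj t hqi (fun i => (hq i).2.1) fun i => (hq i).1.2) (rr_im t)]
    have hmod4 : ∀ i, q i % 4 = p i % 4 := by
      intro i
      rw [← Nat.mod_mod_of_dvd (q i) h4M, (hq i).2.2.1, Nat.mod_mod_of_dvd (p i) h4M]
    have huu : ∀ i, uu (q i) = uu (p i) := fun i => uu_mod hM (hq i).2.2.1
    have hqc : ∀ i, (q i).Coprime M := by
      intro i
      have h1 := (hp i).2.2
      rw [Nat.coprime_comm, Nat.Coprime, Nat.gcd_rec] at h1 ⊢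
      rw [(hq i).2.2.1]
      exact h1
    have a0 := two_tuples (S₀ := S₀) (τ := fun i => p i % 4) t r s hqi hpi (fun i => (hq i).1)
      (fun i => (hp i).1) hmod4 (fun i => rfl) (fun i => by
        have hv : ∀ v ∈ Bs M S₀, nr (q i) v = nr (p i) v :=
          nr_Bs hM (hq i).1 (hp i).1 (hqc i) (hp i).2.2 (hq i).2.2.1 (hq i).2.2.2
        refine Prod.ext ?_ ?_
        · funext v
          exact hv v (sub_Bs hM hM0 S₀ v.2)
        · funext v
          show nr v (q i) = nr v (p i)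
          have hne1 : q i ≠ v := fun h => (hq i).2.1 (h ▸ v.2)
          have hne2 : p i ≠ v := fun h => (hp i).2.1 (h ▸ v.2)
          rw [nr_rec (hq i).1.1 (hq i).1.2 (hS₀ v v.2).1 (hS₀ v v.2).2 hne1,
            nr_rec (hp i).1.1 (hp i).1.2 (hS₀ v v.2).1 (hS₀ v v.2).2 hne2, huu,
            hv v (sub_Bs hM hM0 S₀ (mem_insert_of_mem v.2))])
    have a1 : fR ell (rr t S₀ q) = fR ell r₀ := by
      funext l x
      rcases x with v | k
      · rfl
      · exact nr_cls (hL.pr l).2.2 (hq k).2.2.1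
    rw [a1]
    show CritF (NR r s (rr t S₀ q)) (fR ell r₀) c a j ↔
      CritF (pt (NR r s r₀) (sx (sgm q + sgm p))) (fR ell r₀) c a j
    rw [a0]
  · have hQc : (univ.filter fun σ : ps ι → ZMod 2 =>
          CritF (pt (NR r s r₀) (sx (σ + sgm p))) (fR ell r₀) c a j).card =
        (univ.filter fun σ : ps ι → ZMod 2 =>
          CritF (pt (NR r s r₀) (sx σ)) (fR ell r₀) c a j).card := by
      refine card_bij (fun σ _ => σ + sgm p) ?_ ?_ ?_
      · intro σ hσ
        rw [mem_filter] at hσ ⊢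
        exact ⟨mem_univ _, hσ.2⟩
      · intro σ _ σ' _ h
        exact add_right_cancel h
      · intro σ hσ
        refine ⟨σ - sgm p, ?_, sub_add_cancel _ _⟩
        rw [mem_filter] at hσ ⊢
        refine ⟨mem_univ _, ?_⟩
        simp only [sub_add_cancel]
        exact hσ.2
    rw [hQc]
    exact h2

end Pool.Agent.N637.SLM.RED
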