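import Pool.Agent.N637.SLK.Ari

/-!
# Project SLM (helper637): all the curves with a rational subgroup `ℤ/2 × ℤ/4`, up to isogeny

As project SLK, but `c` is any nonzero even integer; if `c` is not `4 mod 8` there is a condition at `2` for the twist
(`Two`). `E_{a,c} : y² = x (x - a²) (x + c² - a²)`.
-/

set_option autoImplicit false
set_option linter.unusedVariables false

open scoped Classical

namespace Pool.Agent.N637.SLM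

open Finset Filter Topology NumberField
open Pool.Agent.N916.GB (Po Vt sy)
open Pool.Agent.Y703.CQ (nr)
open Pool.Agent.N637.SLX (NS pdr dY IsLk Bf Dn S_HR)
open Pool.Agent.N637.SLK (TyG lb dXG RwF Fm BL CritF GjF GnF lawF)
open Pool.Agent.N637.SLK (S_LAJ)
open Pool.Agent.N916.AM (LAH)
open Pool.Agent.N916.TE (FD)
open Pool.Agent.N973.ND (uu)
open Pool.Agent.TH841.SH (SelG LocC IsR)

/-- the curve -/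
structure Cw (a c : ℤ) : Prop where
  ha : a % 2 = 1
  hc : c % 2 = 0
  h0 : c ≠ 0
  co : IsCoprime a c

/-- the condition at `2` -/
def Two (c m : ℤ) : Prop := c % 8 = 4 ∨ (c % 8 = 0 ∧ m % 8 ≠ 1) ∨ (c % 4 = 2 ∧ m % 8 = 5)

/-- `m` is admissible for the curve -/
structure Lw (a c m : ℤ) : Prop where
  neg : m < 0
  sqf : Squarefree m
  ac : ∀ p : ℕ, p.Prime → p ≠ 2 → (p : ℤ) ∣ a * c → jacobiSym m p = -1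
  bb : ∀ p : ℕ, p.Prime → (p : ℤ) ∣ c ^ 2 - a ^ 2 → jacobiSym (-m) p = -1
  tw : Two c m

/-- SLM-NEC: the Selmer classes satisfy the linear systems. -/
def S_NEC : Prop := ∀ (t : Bool) (r s : ZMod 2) (S : Finset ℕ) (m a c : ℤ), TyG t r s S m → Cw a c →
  Lw a c m → ∀ z ∈ SelG 0 (a ^ 2 * m) (-(c ^ 2 - a ^ 2) * m),
  ∃ x y : {x : ℕ // x ∈ Vt t S} → ZMod 2, IsLk (NS t r s S) y ∧
    RwF (NS t r s S) (lb a c) (fun l p => nr l p.1) x y ∧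
    z = (dXG t r s S (lb a c) x y, dY t S y)

/-- SLM-SUF: the solutions of the linear systems are Selmer classes. -/
def S_SUF : Prop := ∀ (t : Bool) (r s : ZMod 2) (S : Finset ℕ) (m a c : ℤ), TyG t r s S m → Cw a c →
  Lw a c m → ∀ x y : {x : ℕ // x ∈ Vt t S} → ZMod 2, IsLk (NS t r s S) y →
    RwF (NS t r s S) (lb a c) (fun l p => nr l p.1) x y →
    (dXG t r s S (lb a c) x y, dY t S y) ∈ SelG 0 (a ^ 2 * m) (-(c ^ 2 - a ^ 2) * m)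

/-- SLM-INJ: the coordinates determine the vectors. -/
def S_INJ : Prop := ∀ (t : Bool) (r s : ZMod 2) (S : Finset ℕ) (m a c : ℤ), TyG t r s S m → Cw a c →
  Lw a c m → ∀ x y x' y' : {x : ℕ // x ∈ Vt t S} → ZMod 2,
    dXG t r s S (lb a c) x y = dXG t r s S (lb a c) x' y' → dY t S y = dY t S y' → x = x' ∧ y = y'

/-- SLM-LT: torsion classes and additivity. -/
def S_LT : Prop := ∀ (K : Type) [Field K] [CharZero K] (m a c : ℤ), m ≠ 0 → Cw a c →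
  (∃ x y : K, y ≠ 0 ∧ y ^ 2 = x * (x - a ^ 2 * m) * (x + (c ^ 2 - a ^ 2) * m) ∧ IsSquare x ∧
    IsSquare (x - a ^ 2 * m) ∧ IsSquare (x + (c ^ 2 - a ^ 2) * m)) →
  (∀ d1 d2 : ℤ, d1 ≠ 0 → d2 ≠ 0 →
    (IsSquare (d2 : K) ∧ (IsSquare (d1 : K) ∨ IsSquare ((d1 : K) * m))) ∨
      (IsSquare ((d2 : K) * (-m)) ∧ (IsSquare ((d1 : K) * (-(c ^ 2 - a ^ 2))) ∨
        IsSquare ((d1 : K) * (-(c ^ 2 - a ^ 2)) * m))) →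
    LocC K 0 (a ^ 2 * m) (-(c ^ 2 - a ^ 2) * m) d1 d2) ∧
  ∀ d1 d2 d3 d4 : ℤ, d1 ≠ 0 → d2 ≠ 0 → d3 ≠ 0 → d4 ≠ 0 →
    LocC K 0 (a ^ 2 * m) (-(c ^ 2 - a ^ 2) * m) d1 d2 →
    LocC K 0 (a ^ 2 * m) (-(c ^ 2 - a ^ 2) * m) d3 d4 →
    LocC K 0 (a ^ 2 * m) (-(c ^ 2 - a ^ 2) * m) (d1 * d3) (d2 * d4)

/-- SLM-LG: the odd places not dividing `m`, solvability. -/
def S_LG : Prop := ∀ (m a c : ℤ), Cw a c → Lw a c m → ∀ (p : ℕ) [Fact p.Prime], p ≠ 2 →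
  ¬ (p : ℤ) ∣ m → ∀ d1 d2 : ℤ, Squarefree d1 → Squarefree d2 → ¬ (p : ℤ) ∣ d2 →
  ((p : ℤ) ∣ d1 ↔ (Odd (padicValInt p (c ^ 2 - a ^ 2)) ∧ jacobiSym d2 p = -1)) →
  LocC ℚ_[p] 0 (a ^ 2 * m) (-(c ^ 2 - a ^ 2) * m) d1 d2

/-- SLM-NG: the odd places not dividing `m`, necessity. -/
def S_NG : Prop := ∀ (m a c : ℤ), Cw a c → Lw a c m → ∀ (p : ℕ) [Fact p.Prime], p ≠ 2 →
  ¬ (p : ℤ) ∣ m → ∀ d1 d2 : ℤ, Squarefree d1 → Squarefree d2 →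
  LocC ℚ_[p] 0 (a ^ 2 * m) (-(c ^ 2 - a ^ 2) * m) d1 d2 → ¬ (p : ℤ) ∣ d2 ∧
  ((p : ℤ) ∣ d1 ↔ (Odd (padicValInt p (c ^ 2 - a ^ 2)) ∧ jacobiSym d2 p = -1))

/-- SLM-NM: the odd places dividing `m`, necessity. -/
def S_NM : Prop := ∀ (m a c : ℤ), Cw a c → Lw a c m → ∀ (p : ℕ) [Fact p.Prime], p ≠ 2 →
  (p : ℤ) ∣ m → ∀ d1 d2 : ℤ, Squarefree d1 → Squarefree d2 →
  LocC ℚ_[p] 0 (a ^ 2 * m) (-(c ^ 2 - a ^ 2) * m) d1 d2 →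
  (IsSquare (d2 : ℚ_[p]) ∧ (IsSquare (d1 : ℚ_[p]) ∨ IsSquare ((d1 : ℚ_[p]) * m))) ∨
    (IsSquare ((d2 : ℚ_[p]) * (-m)) ∧ (IsSquare ((d1 : ℚ_[p]) * (-(c ^ 2 - a ^ 2))) ∨
      IsSquare ((d1 : ℚ_[p]) * (-(c ^ 2 - a ^ 2)) * m)))

/-- SLM-L2: the place `2`, solvability. -/
def S_L2 : Prop := ∀ (m a c : ℤ), Cw a c → Squarefree m → Two c m → ∀ d1 d2 : ℤ, Squarefree d1 →
  Squarefree d2 →
  (m % 4 = 1 → d1 % 4 = 1 → d2 % 2 = 1 →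
    LocC ℚ_[2] 0 (a ^ 2 * m) (-(c ^ 2 - a ^ 2) * m) d1 d2) ∧
  (m % 4 ≠ 1 → (IsSquare (d1 : ℚ_[2]) ∨ IsSquare ((d1 : ℚ_[2]) * m)) →
    (∃ x y : ℚ_[2], (d2 : ℚ_[2]) = x ^ 2 - m * y ^ 2) →
    LocC ℚ_[2] 0 (a ^ 2 * m) (-(c ^ 2 - a ^ 2) * m) d1 d2)

/-- SLM-N2: the place `2`, necessity. -/
def S_N2 : Prop := ∀ (m a c : ℤ), Cw a c → Squarefree m → Two c m → ∀ d1 d2 : ℤ, Squarefree d1 →
  Squarefree d2 → LocC ℚ_[2] 0 (a ^ 2 * m) (-(c ^ 2 - a ^ 2) * m) d1 d2 →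
  (m % 4 = 1 → d1 % 4 = 1 ∧ d2 % 2 = 1) ∧
  (m % 4 ≠ 1 → IsSquare (d1 : ℚ_[2]) ∨ IsSquare ((d1 : ℚ_[2]) * m))

/-- SLM-LR: the real place. -/
def S_LR : Prop := ∀ (m a c : ℤ), Cw a c → m < 0 → ∀ d1 d2 : ℤ, Squarefree d1 → Squarefree d2 →
  (LocC ℝ 0 (a ^ 2 * m) (-(c ^ 2 - a ^ 2) * m) d1 d2 ↔ 0 < d2)

/-- SLM-HIL: the translation of the left kernel and of the form. -/
def S_HIL : Prop := ∀ (t : Bool) (r s : ZMod 2) (S : Finset ℕ) (m : ℤ) (n : ℕ), TyG t r s S m →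
  ((n : ℤ) = if t = true then -4 * m else -m) →
  Nat.card {d : ℕ // Dn n d} =
    Nat.card {y : {x : ℕ // x ∈ Vt t S} → ZMod 2 // IsLk (NS t r s S) y} ∧
  ∀ a c : ℤ, Cw a c → Lw a c m →
  Nat.card {d : ℕ // Dn n d ∧ ∀ d' : ℕ, Dn n d' → BL (lb a c) d d' = 0} =
    Nat.card {y : {x : ℕ // x ∈ Vt t S} → ZMod 2 // IsLk (NS t r s S) y ∧
      ∀ z, IsLk (NS t r s S) z →
        ∑ l ∈ lb a c, Bf (fun p : {x : ℕ // x ∈ Vt t S} => nr l p.1) y z = 0}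

/-- the labels: odd primes dividing `Q`; independence of the forms -/
structure Lb0 {k L : ℕ} (ell : Fin L → ℕ) (c : Fin k → Fin L → ZMod 2) (Q : ℕ) : Prop where
  pr : ∀ l, (ell l).Prime ∧ ell l ≠ 2 ∧ ell l ∣ Q
  ind : ∀ (s : ZMod 2) (γ : Fin k → ZMod 2), (s ≠ 0 ∨ γ ≠ 0) →
    ∃ x : ℕ, x.Coprime (2 * Q) ∧ s * uu x + ∑ i, γ i * ∑ l, c i l * nr (ell l) x ≠ 0

/-- SLM-IND: the labels of several curves. -/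
def S_IND : Prop := ∀ (k : ℕ) (a c : Fin k → ℤ), (∀ i, Cw (a i) (c i)) →
  (∀ T : Finset (Fin k), T.Nonempty → ¬ IsSquare (∏ i ∈ T, (a i ^ 2 - c i ^ 2))) →
  ∀ Q : ℕ, 0 < Q → (∀ i, ∀ l ∈ lb (a i) (c i), l ∣ Q) →
  ∃ (L : ℕ) (ell : Fin L → ℕ) (e : Fin k → Fin L → ZMod 2), Lb0 ell e Q ∧
    (∀ i, c i % 4 = 0 → ∑ l, e i l * nr (ell l) 2 = 0) ∧
    (∀ l, ∃ i, ell l ∈ lb (a i) (c i)) ∧
    ∀ (i : Fin k) (V : Type) [Fintype V] (g : ℕ → V → ZMod 2) (y z : V → ZMod 2),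
      Fm (fun l => g (ell l)) (e i) y z = ∑ l ∈ lb (a i) (c i), Bf (g l) y z

/-- SLM-RED: the criterion satisfies the hypothesis of the machine. -/
def S_RED : Prop := S_LAJ → ∀ (k L : ℕ) (ell : Fin L → ℕ) (c : Fin k → Fin L → ZMod 2) (M : ℕ),
  8 ∣ M → 0 < M → Lb0 ell c M → ∀ (t : Bool) (r s : ZMod 2) (K : Finset ℕ), (t = false → s = 0) →
  (t = true → r ≠ 0 ∨ s ≠ 0) → (t = true → ∀ i, ∑ l, c i l * nr (ell l) 2 = 0) →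
  (∀ a ∈ K, a % 4 = if s = 0 then 3 else 1) →
  (∀ a ∈ K, ∀ l, ¬ ell l ∣ a ∧ nr (ell l) a + (if t = true then r * nr (ell l) 2 else 0) = 1) →
  ∀ (a : ℕ) (j : Fin k → ℕ), LAH M K (GjF t r s ell c a j) (lawF a j)

/-- SLM-DEN: the natural density of the criterion among the fundamental discriminants `-n` with `n` modulo `Q` in
`R`. -/
def S_DEN : Prop := S_LAJ → S_RED → ∀ (k L : ℕ) (ell : Fin L → ℕ) (c : Fin k → Fin L → ZMod 2) (Q : ℕ)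
  (R : Finset ℕ) (n₀ : ℕ), 0 < Q → Lb0 ell c Q → ((∀ i, ∑ l, c i l * nr (ell l) 2 = 0) ∨
    (8 ∣ Q ∧ ∀ x ∈ R, x % 8 = 3)) → (∀ x ∈ R, ∀ l, nr (ell l) x = 1) →
  Squarefree n₀ → n₀ % 4 = 3 → n₀ % Q ∈ R → ∀ (a : ℕ) (j : Fin k → ℕ), Tendsto (fun X : ℕ =>
  (((Icc 1 X).filter fun n => (FD n ∧ n % Q ∈ R) ∧ GnF ell c a j n).card : ℝ) /
    (((Icc 1 X).filter fun n => FD n ∧ n % Q ∈ R).card : ℝ)) atTop (𝓝 (lawF a j))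

/-- SLM-N2a -/
def S_N2a : Prop := ∀ (m a c : ℤ), Cw a c → Squarefree m → c % 8 = 0 → m % 8 = 5 → ∀ d1 d2 : ℤ,
  Squarefree d1 → Squarefree d2 → LocC ℚ_[2] 0 (a ^ 2 * m) (-(c ^ 2 - a ^ 2) * m) d1 d2 →
  d1 % 4 = 1 ∧ d2 % 2 = 1

/-- SLM-N2b -/
def S_N2b : Prop := ∀ (m a c : ℤ), Cw a c → Squarefree m → c % 8 = 0 → m % 4 ≠ 1 → ∀ d1 d2 : ℤ,
  Squarefree d1 → Squarefree d2 → LocC ℚ_[2] 0 (a ^ 2 * m) (-(c ^ 2 - a ^ 2) * m) d1 d2 →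
  IsSquare (d1 : ℚ_[2]) ∨ IsSquare ((d1 : ℚ_[2]) * m)

/-- SLM-N2c -/
def S_N2c : Prop := ∀ (m a c : ℤ), Cw a c → Squarefree m → c % 4 = 2 → m % 8 = 5 → ∀ d1 d2 : ℤ,
  Squarefree d1 → Squarefree d2 → LocC ℚ_[2] 0 (a ^ 2 * m) (-(c ^ 2 - a ^ 2) * m) d1 d2 →
  d1 % 4 = 1 ∧ d2 % 2 = 1

/-- SLM-L2a -/
def S_L2a : Prop := ∀ (m a c : ℤ), Cw a c → Squarefree m → (c % 8 = 0 ∨ c % 4 = 2) → m % 8 = 5 →
  ∀ d1 d2 : ℤ, Squarefree d1 → Squarefree d2 → d1 % 4 = 1 → d2 % 2 = 1 →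
    LocC ℚ_[2] 0 (a ^ 2 * m) (-(c ^ 2 - a ^ 2) * m) d1 d2

/-- SLM-L2b -/
def S_L2b : Prop := ∀ (m a c : ℤ), Cw a c → Squarefree m → c % 8 = 0 → m % 4 ≠ 1 → ∀ d1 d2 : ℤ,
  Squarefree d1 → Squarefree d2 → (IsSquare (d1 : ℚ_[2]) ∨ IsSquare ((d1 : ℚ_[2]) * m)) →
    (∃ x y : ℚ_[2], (d2 : ℚ_[2]) = x ^ 2 - m * y ^ 2) →
    LocC ℚ_[2] 0 (a ^ 2 * m) (-(c ^ 2 - a ^ 2) * m) d1 d2

end Pool.Agent.N637.SLM
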