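import Pool.Agent.N362.SLX.Ch
import Pool.Agent.N637.SLM.Stm

/-!
# Project SLK (helper637): the solutions of the linear systems are Selmer classes

(The SLX version, by helper362, is `Pool.Agent.N362.SLX.SUF`.)
-/

set_option autoImplicit false
set_option linter.unusedVariables false

open scoped Classical

namespace Pool.Agent.N637.SLM.SUF

open Finset
open Pool.Agent.N875.X15 (sq_cancel)
open Pool.Agent.N916.GB (Po Vt sy)
open Pool.Agent.Y703.CQ (nr)
open Pool.Agent.TH841.SH (SelG LocC)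
open Pool.Agent.N362.SLX (ra ch Gd sgp gd_two gd_odd gd_mul gd_one gd_prod ra_mul ra_prod ra_iff ra_one
  recip_ra nr_eq pdr_odd pdr_two gd_pdr sy_eq sq_int sq_of_zmod jac_of_sq not_dvd_prime sgp_abs sgp_mod
  dvd_sgp ch_odd ch_pm)
open Pool.Agent.N637.SLX (NS pdr dY IsLk S_HR)
open Pool.Agent.N637.SLM
open Pool.Agent.N637.SLK (TyG lb dXG RwF)

lemma z01 : ∀ c : ZMod 2, c = 0 ∨ c = 1 := by decide

lemma zcc : ∀ c : ZMod 2, c + c = 0 := by decide

section

variable {t : Bool} {r s : ZMod 2} {S : Finset ℕ} {m : ℤ}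

lemma mem_Vt {p : ℕ} : p ∈ Vt t S ↔ (p = 2 ∧ t = true) ∨ p ∈ S := by
  unfold Vt
  split_ifs with h <;> simp [h]

lemma pr_Vt (h : TyG t r s S m) {p : ℕ} (hp : p ∈ Vt t S) : p.Prime := by
  rcases mem_Vt.1 hp with ⟨rfl, -⟩ | h1
  · exact Nat.prime_two
  · exact (h.po p h1).1

lemma two_notMem (h : TyG t r s S m) : 2 ∉ S := fun h1 => (h.po 2 h1).2 rfl

lemma rs_ne (h : TyG t r s S m) {p : ℕ} (hp : p ∈ Vt t S) (hp2 : p = 2) : r ≠ 0 ∨ s ≠ 0 := by
  subst hp2
  rcases mem_Vt.1 hp with ⟨-, ht⟩ | h1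
  · rcases h.ty with ⟨h2, -⟩ | ⟨-, h2, h3, -⟩ | ⟨-, h2, h3, -⟩ | ⟨-, h2, h3, -⟩
    · rw [ht] at h2
      exact absurd h2 (by decide)
    · right
      rw [h3]
      decide
    · left
      rw [h2]
      decide
    · left
      rw [h2]
      decide
  · exact absurd h1 (two_notMem h)

lemma prod_sgp_abs (T : Finset ℕ) : (∏ p ∈ T, sgp p).natAbs = ∏ p ∈ T, p := by
  classical
  induction T using Finset.induction_on with
  | empty => rfl
  | insert a T ha ih => rw [Finset.prod_insert ha, Finset.prod_insert ha, Int.natAbs_mul, ih, sgp_abs]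

/-- the product of the prime discriminants -/
lemma prod_Vt (h : TyG t r s S m) : ∏ p ∈ Vt t S, pdr r s p = m := by
  have h2 := two_notMem h
  have e1 : ∏ p ∈ S, pdr r s p = ∏ p ∈ S, sgp p :=
    Finset.prod_congr rfl fun p hp => pdr_odd fun h3 => h2 (h3 ▸ hp)
  have e2 : (∏ p ∈ S, sgp p) % 4 = 1 := by
    rw [← gd_two]
    refine gd_prod Nat.prime_two _ _ fun p hp => ?_
    rw [gd_two]
    exact sgp_mod (h.po p hp).1 (h.po p hp).2
  have e3 := prod_sgp_abs S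
  have e4 : t = true → ∏ p ∈ Vt t S, pdr r s p = pdr r s 2 * ∏ p ∈ S, sgp p := by
    intro ht
    unfold Vt
    rw [if_pos ht, Finset.prod_insert h2, e1]
  rcases h.ty with ⟨ht, hs, hm, h4⟩ | ⟨ht, hr, hs, hm, h4⟩ | ⟨ht, hr, hs, hm, h4⟩ |
    ⟨ht, hr, hs, hm, h4⟩
  · have e5 : Vt t S = S := by
      unfold Vt
      rw [ht]
      exact if_neg (by decide)
    rw [e5, e1]
    omega
  · rw [e4 ht, pdr_two, hs, hr, if_neg (by decide), if_pos rfl]
    omega
  · rw [e4 ht, pdr_two, hs, hr, if_neg (by decide), if_neg (by decide)]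
    omega
  · rw [e4 ht, pdr_two, hs, hr, if_pos rfl]
    omega

/-- the odd primes dividing `m` -/
lemma dvd_m (h : TyG t r s S m) {p : ℕ} (hp : p.Prime) (hp2 : p ≠ 2) : (p : ℤ) ∣ m ↔ p ∈ Vt t S := by
  rw [← prod_Vt h]
  constructor
  · intro h1
    obtain ⟨q, hq, h2⟩ := (Nat.prime_iff_prime_int.1 hp).exists_mem_finset_dvd h1
    by_contra hcon
    have h3 : Gd p (pdr r s q) := gd_pdr (pr_Vt h hq) hp (fun h4 => hcon (h4 ▸ hq))
    rw [gd_odd hp2] at h3
    exact h3 h2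
  · intro h1
    refine Dvd.dvd.trans ?_ (Finset.dvd_prod_of_mem _ h1)
    rw [pdr_odd hp2, dvd_sgp]

lemma four_iff (h : TyG t r s S m) : m % 4 = 1 ↔ t = false := by
  rcases h.ty with ⟨ht, hs, hm, h4⟩ | ⟨ht, hr, hs, hm, h4⟩ | ⟨ht, hr, hs, hm, h4⟩ |
    ⟨ht, hr, hs, hm, h4⟩
  · exact ⟨fun _ => ht, fun _ => h4⟩
  · rw [ht]
    simp
    omega
  · rw [ht]
    simp
    omega
  · rw [ht]
    simp
    omega

/-- the symbols -/
lemma NS_eq (h : TyG t r s S m) {p q : {x : ℕ // x ∈ Vt t S}} (hpq : p ≠ q) :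
    NS t r s S q p = ra q.1 (pdr r s p.1) :=
  sy_eq (pr_Vt h p.2) (pr_Vt h q.2) (fun h1 => hpq (Subtype.ext h1)) (rs_ne h p.2)

/-- the symbols, reversed -/
lemma NS_eq' (h : TyG t r s S m) {p q : {x : ℕ // x ∈ Vt t S}} (hpq : p ≠ q) (hp2 : p.1 ≠ 2) :
    NS t r s S q p = ra p.1 ((q.1 : ℕ) : ℤ) := by
  rw [NS_eq h hpq, pdr_odd hp2, recip_ra (pr_Vt h q.2) (pr_Vt h p.2) hp2]

lemma gdp (h : TyG t r s S m) {p q : {x : ℕ // x ∈ Vt t S}} (hpq : p ≠ q) :
    Gd q.1 (pdr r s p.1) :=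
  gd_pdr (pr_Vt h p.2) (pr_Vt h q.2) fun h1 => hpq (Subtype.ext h1)

lemma gdn (h : TyG t r s S m) {p q : {x : ℕ // x ∈ Vt t S}} (hpq : p ≠ q) (hq2 : q.1 ≠ 2) :
    Gd q.1 ((p.1 : ℕ) : ℤ) := by
  rw [gd_odd hq2]
  exact not_dvd_prime (pr_Vt h p.2) (pr_Vt h q.2) fun h1 => hpq (Subtype.ext h1)

lemma dY_eq (y : {x : ℕ // x ∈ Vt t S} → ZMod 2) : dY t S y =
    ∏ p ∈ univ.filter (fun p => y p = 1), ((p.1 : ℕ) : ℤ) := by
  unfold dY
  rw [Finset.prod_filter]

lemma prod_all (h : TyG t r s S m) : ∏ p : {x : ℕ // x ∈ Vt t S}, pdr r s p.1 = m := by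
  rw [← prod_Vt h]
  exact Finset.prod_coe_sort (Vt t S) (fun p => pdr r s p)

lemma prod_AC (h : TyG t r s S m) (x : {x : ℕ // x ∈ Vt t S} → ZMod 2) :
    (∏ p ∈ univ.filter (fun p => x p = 1), pdr r s p.1) *
      (∏ p ∈ univ.filter (fun p => ¬ x p = 1), pdr r s p.1) = m := by
  rw [Finset.prod_filter_mul_prod_filter_not, prod_all h]

lemma m_ne (h : TyG t r s S m) : m ≠ 0 := h.neg.ne

lemma DA_ne (h : TyG t r s S m) (x : {x : ℕ // x ∈ Vt t S} → ZMod 2) :
    (∏ p ∈ univ.filter (fun p => x p = 1), pdr r s p.1) ≠ 0 ∧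
      (∏ p ∈ univ.filter (fun p => ¬ x p = 1), pdr r s p.1) ≠ 0 := by
  have h1 := prod_AC h x
  have h2 := m_ne h
  rw [← h1] at h2
  exact ⟨left_ne_zero_of_mul h2, right_ne_zero_of_mul h2⟩

/-- the row of the first system, `x p = 0` -/
lemma rw_zero (h : TyG t r s S m) (x : {x : ℕ // x ∈ Vt t S} → ZMod 2) (p : {x : ℕ // x ∈ Vt t S})
    (hx : x p = 0) : ∑ q, (x q + x p) * NS t r s S p q =
      ra p.1 (∏ q ∈ univ.filter (fun q => x q = 1), pdr r s q.1) := by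
  have hne : ∀ q, x q = 1 → q ≠ p := by
    rintro q hq rfl
    rw [hx] at hq
    exact absurd hq (by decide)
  rw [← ra_prod (pr_Vt h p.2) _ _ (fun q hq => gdp h (hne q (Finset.mem_filter.1 hq).2)),
    Finset.sum_filter]
  refine Finset.sum_congr rfl fun q _ => ?_
  rcases z01 (x q) with hq | hq
  · rw [hq, hx, if_neg (by decide), add_zero, zero_mul]
  · rw [hq, hx, if_pos rfl, add_zero, one_mul, NS_eq h (hne q hq)]

/-- the row of the first system, `x p = 1` -/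
lemma rw_one (h : TyG t r s S m) (x : {x : ℕ // x ∈ Vt t S} → ZMod 2) (p : {x : ℕ // x ∈ Vt t S})
    (hx : x p = 1) : ∑ q, (x q + x p) * NS t r s S p q =
      ra p.1 (∏ q ∈ univ.filter (fun q => ¬ x q = 1), pdr r s q.1) := by
  have hne : ∀ q, ¬ x q = 1 → q ≠ p := by
    rintro q hq rfl
    exact hq hx
  rw [← ra_prod (pr_Vt h p.2) _ _ (fun q hq => gdp h (hne q (Finset.mem_filter.1 hq).2)),
    Finset.sum_filter]
  refine Finset.sum_congr rfl fun q _ => ?_
  rcases z01 (x q) with hq | hq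
  · rw [hq, hx, if_pos (by decide), zero_add, one_mul, NS_eq h (hne q (by rw [hq]; decide))]
  · rw [hq, hx, if_neg (by decide), zcc, zero_mul]

/-- the row of the second system, `y p = 0` -/
lemma lk_zero (h : TyG t r s S m) (y : {x : ℕ // x ∈ Vt t S} → ZMod 2) (p : {x : ℕ // x ∈ Vt t S})
    (hp2 : p.1 ≠ 2) (hy : y p = 0) : ∑ q, (y q * NS t r s S q p + y p * NS t r s S p q) =
      ra p.1 (∏ q ∈ univ.filter (fun q => y q = 1), ((q.1 : ℕ) : ℤ)) := by
  have hne : ∀ q, y q = 1 → q ≠ p := by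
    rintro q hq rfl
    rw [hy] at hq
    exact absurd hq (by decide)
  rw [← ra_prod (pr_Vt h p.2) _ _ (fun q hq => gdn h (hne q (Finset.mem_filter.1 hq).2) hp2),
    Finset.sum_filter]
  refine Finset.sum_congr rfl fun q _ => ?_
  rcases z01 (y q) with hq | hq
  · rw [hq, hy, if_neg (by decide), zero_mul, zero_mul, add_zero]
  · rw [hq, hy, if_pos rfl, zero_mul, add_zero, one_mul, NS_eq' h (hne q hq).symm hp2]

/-- the row of the second system, `y p = 1` -/
lemma lk_one (h : TyG t r s S m) (y : {x : ℕ // x ∈ Vt t S} → ZMod 2) (p : {x : ℕ // x ∈ Vt t S})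
    (hp2 : p.1 ≠ 2) (hy : y p = 1) : ∑ q, (y q * NS t r s S q p + y p * NS t r s S p q) =
      ra p.1 (∏ q ∈ (univ.filter (fun q => y q = 1)).erase p, ((q.1 : ℕ) : ℤ)) +
      ra p.1 (∏ q ∈ univ.erase p, pdr r s q.1) := by
  rw [← ra_prod (pr_Vt h p.2) _ _ (fun q hq => gdn h (Finset.ne_of_mem_erase hq) hp2),
    ← ra_prod (pr_Vt h p.2) _ _ (fun q hq => gdp h (Finset.ne_of_mem_erase hq))]
  have e1 : ∀ q, y q * NS t r s S q p + y p * NS t r s S p q =
      (if q ∈ (univ.filter (fun q => y q = 1)).erase p then ra p.1 ((q.1 : ℕ) : ℤ) else 0) +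
      (if q ∈ univ.erase p then ra p.1 (pdr r s q.1) else 0) := by
    intro q
    by_cases hqp : q = p
    · subst hqp
      rw [if_neg (Finset.notMem_erase _ _), if_neg (Finset.notMem_erase _ _), hy, one_mul, zcc,
        add_zero]
    · rw [if_pos (Finset.mem_erase.2 ⟨hqp, Finset.mem_univ _⟩), hy, one_mul, NS_eq h hqp,
        NS_eq' h (Ne.symm hqp) hp2]
      congr 1
      rcases z01 (y q) with hq | hq
      · rw [hq, zero_mul, if_neg]
        intro h1
        have h2 := (Finset.mem_filter.1 (Finset.mem_erase.1 h1).2).2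
        rw [hq] at h2
        exact absurd h2 (by decide)
      · rw [hq, one_mul, if_pos (Finset.mem_erase.2 ⟨hqp, Finset.mem_filter.2 ⟨Finset.mem_univ _, hq⟩⟩)]
  rw [Finset.sum_congr rfl fun q _ => e1 q, Finset.sum_add_distrib, Finset.sum_ite_mem,
    Finset.sum_ite_mem, Finset.univ_inter, Finset.univ_inter]

/-- `d₂` at the odd primes dividing `m` -/
lemma second (h : TyG t r s S m) (y : {x : ℕ // x ∈ Vt t S} → ZMod 2) (hl : IsLk (NS t r s S) y)
    (p : {x : ℕ // x ∈ Vt t S}) (hp2 : p.1 ≠ 2) [hp : Fact p.1.Prime] :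
    (y p = 0 ∧ IsSquare ((dY t S y : ℤ) : ℚ_[p.1])) ∨
    (y p = 1 ∧ IsSquare (((dY t S y : ℤ) : ℚ_[p.1]) * (-m))) := by
  have h0 := hl p
  rw [dY_eq]
  rcases z01 (y p) with hy | hy
  · left
    refine ⟨hy, ?_⟩
    rw [lk_zero h y p hp2 hy] at h0
    refine (ra_iff ?_).1 h0
    refine gd_prod hp.out _ _ fun q hq => gdn h ?_ hp2
    rintro rfl
    have := (Finset.mem_filter.1 hq).2
    rw [hy] at this
    exact absurd this (by decide)
  · right
    refine ⟨hy, ?_⟩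
    have hpm : p ∈ univ.filter (fun q => y q = 1) := Finset.mem_filter.2 ⟨Finset.mem_univ _, hy⟩
    have g1 : Gd p.1 (∏ q ∈ (univ.filter (fun q => y q = 1)).erase p, ((q.1 : ℕ) : ℤ)) :=
      gd_prod hp.out _ _ fun q hq => gdn h (Finset.ne_of_mem_erase hq) hp2
    have g2 : Gd p.1 (∏ q ∈ univ.erase p, pdr r s q.1) :=
      gd_prod hp.out _ _ fun q hq => gdp h (Finset.ne_of_mem_erase hq)
    rw [lk_one h y p hp2 hy, ← ra_mul hp.out g1 g2, ra_iff (gd_mul hp.out g1 g2)] at h0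
    have e1 := Finset.mul_prod_erase univ (fun q : {x : ℕ // x ∈ Vt t S} => pdr r s q.1)
      (Finset.mem_univ p)
    rw [prod_all h] at e1
    have e2 := Finset.mul_prod_erase (univ.filter (fun q => y q = 1))
      (fun q : {x : ℕ // x ∈ Vt t S} => ((q.1 : ℕ) : ℤ)) hpm
    rw [← e2]
    have hneg : IsSquare (((-(sgp p.1 * p.1) : ℤ)) : ℚ_[p.1]) := by
      unfold sgp
      split_ifs with h6
      · have h7 : IsSquare ((-1 : ℤ) : ℚ_[p.1]) := by
          refine sq_of_zmod hp2 ?_ ?_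
          · intro h8
            have h9 : p.1 ∣ 1 := by
              rw [dvd_neg] at h8
              exact_mod_cast h8
            exact hp.out.one_lt.ne' (Nat.dvd_one.1 h9)
          · push_cast
            rw [ZMod.exists_sq_eq_neg_one_iff]
            omega
        have e3 : (((-((p.1 : ℤ) * p.1) : ℤ)) : ℚ_[p.1]) = ((-1 : ℤ) : ℚ_[p.1]) * (p.1 * p.1) := by
          push_cast
          ring
        rw [e3]
        exact h7.mul (IsSquare.mul_self _)
      · have e3 : (((-(-(p.1 : ℤ) * p.1) : ℤ)) : ℚ_[p.1]) = (p.1 : ℚ_[p.1]) * p.1 := by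
          push_cast
          ring
        rw [e3]
        exact IsSquare.mul_self _
    have e4 : ((((p.1 : ℕ) : ℤ) * ∏ q ∈ (univ.filter (fun q => y q = 1)).erase p, ((q.1 : ℕ) : ℤ)) *
        (-m)) = (-(sgp p.1 * p.1)) * ((∏ q ∈ (univ.filter (fun q => y q = 1)).erase p,
          ((q.1 : ℕ) : ℤ)) * ∏ q ∈ univ.erase p, pdr r s q.1) := by
      conv_lhs => rw [← e1]
      rw [pdr_odd hp2]
      ring
    have e5 := hneg.mul h0
    rw [← Int.cast_mul, ← e4, Int.cast_mul, Int.cast_neg] at e5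
    exact e5

lemma dY_pos (h : TyG t r s S m) (y : {x : ℕ // x ∈ Vt t S} → ZMod 2) : 0 < dY t S y := by
  rw [dY_eq]
  exact Finset.prod_pos fun p _ => by exact_mod_cast (pr_Vt h p.2).pos

lemma sqf_dY (h : TyG t r s S m) (y : {x : ℕ // x ∈ Vt t S} → ZMod 2) : Squarefree (dY t S y) := by
  rw [dY_eq]
  refine Finset.squarefree_prod_of_pairwise_isCoprime ?_ ?_
  · intro p _ q _ hpq
    have h1 := (Nat.coprime_primes (pr_Vt h p.2) (pr_Vt h q.2)).2 (fun h1 => hpq (Subtype.ext h1))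
    exact (Nat.isCoprime_iff_coprime.2 h1).isRelPrime
  · intro p _
    exact (Nat.prime_iff_prime_int.1 (pr_Vt h p.2)).squarefree

lemma dY_dvd (h : TyG t r s S m) (y : {x : ℕ // x ∈ Vt t S} → ZMod 2) : dY t S y ∣ 2 * m := by
  rw [dY_eq]
  refine (Finset.prod_dvd_prod_of_subset _ _ _ (Finset.filter_subset _ _)).trans ?_
  rw [Finset.prod_coe_sort (Vt t S) (fun p => ((p : ℕ) : ℤ))]
  by_cases ht : t = true
  · unfold Vt
    rw [if_pos ht, Finset.prod_insert (two_notMem h)]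
    refine mul_dvd_mul_left _ ?_
    have e : ((∏ p ∈ S, p : ℕ) : ℤ) = ∏ p ∈ S, ((p : ℕ) : ℤ) := by push_cast; rfl
    rw [← e]
    rcases h.ty with ⟨-, -, hm, -⟩ | ⟨-, -, -, hm, -⟩ | ⟨-, -, -, hm, -⟩ | ⟨-, -, -, hm, -⟩
    · exact ⟨-1, by rw [hm]; ring⟩
    · exact ⟨-1, by rw [hm]; ring⟩
    · exact ⟨-2, by rw [hm]; ring⟩
    · exact ⟨-2, by rw [hm]; ring⟩
  · unfold Vt
    rw [if_neg ht]
    have e : ((∏ p ∈ S, p : ℕ) : ℤ) = ∏ p ∈ S, ((p : ℕ) : ℤ) := by push_cast; rfl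
    rw [← e]
    rcases h.ty with ⟨-, -, hm, -⟩ | ⟨-, -, -, hm, -⟩ | ⟨-, -, -, hm, -⟩ | ⟨-, -, -, hm, -⟩
    · exact ⟨-2, by rw [hm]; ring⟩
    · exact ⟨-2, by rw [hm]; ring⟩
    · exact ⟨-4, by rw [hm]; ring⟩
    · exact ⟨-4, by rw [hm]; ring⟩

end

/-! ### the labels -/

section labels

variable {a c m : ℤ}

lemma b_ne (hv : Cw a c) : c ^ 2 - a ^ 2 ≠ 0 := by
  intro h0
  have h1 := hv.ha
  have h2 := hv.hc
  have h3 : (c ^ 2 - a ^ 2) % 2 = 1 := by
    have e1 : c % 2 = 0 := by omega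
    rw [Int.sub_emod, pow_two, pow_two, Int.mul_emod, Int.mul_emod a, e1, h1]
    norm_num
  rw [h0] at h3
  norm_num at h3

lemma b_mod (hv : Cw a c) : (-(c ^ 2 - a ^ 2)) % 4 = 1 := by
  have h1 := hv.ha
  have h2 := hv.hc
  obtain ⟨x, hx⟩ : ∃ x, a = 2 * x + 1 := ⟨a / 2, by omega⟩
  obtain ⟨y, hy⟩ : ∃ y, c = 2 * y := ⟨c / 2, by omega⟩
  have h3 : -(c ^ 2 - a ^ 2) = 4 * (x ^ 2 + x - y ^ 2) + 1 := by
    rw [hx, hy]
    ring
  omega

lemma b_mod8 (h : Cw a c) (h2 : c % 4 = 0) : (-(c ^ 2 - a ^ 2)) % 8 = 1 := by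
  have h1 := h.ha
  obtain ⟨x, hx⟩ : ∃ x, a = 2 * x + 1 := ⟨a / 2, by omega⟩
  obtain ⟨y, hy⟩ : ∃ y, c = 4 * y := ⟨c / 4, by omega⟩
  obtain ⟨z, hz⟩ : ∃ z, x * (x + 1) = 2 * z := by
    obtain ⟨z, hz⟩ := Int.even_mul_succ_self x
    exact ⟨z, by omega⟩
  have h3 : -(c ^ 2 - a ^ 2) = 8 * (z - 2 * y ^ 2) + 1 := by
    rw [hx, hy]
    linear_combination 4 * hz
  omega

lemma mem_lb {l : ℕ} (hv : Cw a c) (hl : l.Prime) :
    l ∈ lb a c ↔ Odd (padicValInt l (c ^ 2 - a ^ 2)) := by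
  unfold lb
  rw [Finset.mem_filter, Nat.mem_primeFactors]
  constructor
  · exact fun h => h.2
  · intro h
    refine ⟨⟨hl, ?_, Int.natAbs_ne_zero.2 (b_ne hv)⟩, h⟩
    have h1 : padicValNat l (c ^ 2 - a ^ 2).natAbs ≠ 0 := by
      intro h2
      unfold padicValInt at h
      rw [h2] at h
      exact absurd h (by decide)
    exact dvd_of_one_le_padicValNat (Nat.one_le_iff_ne_zero.2 h1)

lemma lb_pr {l : ℕ} (h : l ∈ lb a c) : l.Prime ∧ (l : ℤ) ∣ c ^ 2 - a ^ 2 := by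
  unfold lb at h
  rw [Finset.mem_filter, Nat.mem_primeFactors] at h
  exact ⟨h.1.1, Int.natCast_dvd.2 h.1.2.1⟩

lemma lb_two {l : ℕ} (hv : Cw a c) (h : l ∈ lb a c) : l ≠ 2 := by
  rintro rfl
  have h1 := (lb_pr h).2
  have h2 := b_mod hv
  omega

/-- the primes that divide `c² - a²` do not divide `m` -/
lemma ndvd (hm : Lw a c m) {p : ℕ} (hp : p.Prime) (h : (p : ℤ) ∣ c ^ 2 - a ^ 2) : ¬ (p : ℤ) ∣ m := by
  intro h1
  have h2 := hm.bb p hp h
  have : Fact p.Prime := ⟨hp⟩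
  rw [← jacobiSym.legendreSym.to_jacobiSym] at h2
  have h3 : legendreSym p (-m) = 0 := by
    rw [legendreSym.eq_zero_iff]
    exact (ZMod.intCast_zmod_eq_zero_iff_dvd _ _).2 ((dvd_neg).2 h1)
  rw [h3] at h2
  norm_num at h2

/-- a natural number as the product of the primes that divide it to an odd power, and a square -/
lemma odd_part (n : ℕ) (hn : n ≠ 0) : ∃ k : ℕ, n =
    (∏ p ∈ n.primeFactors.filter fun p => Odd (padicValNat p n), p) * k ^ 2 := by
  refine ⟨∏ p ∈ n.primeFactors, p ^ (padicValNat p n / 2), ?_⟩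
  rw [Finset.prod_filter, ← Finset.prod_pow, ← Finset.prod_mul_distrib]
  have e0 : n = ∏ p ∈ n.primeFactors, p ^ padicValNat p n := by
    conv_lhs => rw [← Nat.prod_factorization_pow_eq_self hn]
    rw [Finsupp.prod, Nat.support_factorization]
    refine Finset.prod_congr rfl fun p hp => ?_
    rw [Nat.factorization_def n (Nat.prime_of_mem_primeFactors hp)]
  conv_lhs => rw [e0]
  refine Finset.prod_congr rfl fun p hp => ?_
  split_ifs with h
  · rw [← pow_mul, ← pow_succ']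
    congr 1
    have := Nat.odd_iff.1 h
    omega
  · rw [← pow_mul, one_mul]
    congr 1
    rw [Nat.not_odd_iff] at h
    omega

/-- `-b` is the product of the prime discriminants of the labels, times a square -/
lemma b_eq (hv : Cw a c) : ∃ k : ℤ, -(c ^ 2 - a ^ 2) = (∏ l ∈ lb a c, sgp l) * k ^ 2 := by
  obtain ⟨k, hk⟩ := odd_part (c ^ 2 - a ^ 2).natAbs (Int.natAbs_ne_zero.2 (b_ne hv))
  refine ⟨k, ?_⟩
  have h1 : (∏ l ∈ lb a c, sgp l) % 4 = 1 := by
    rw [← gd_two]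
    refine gd_prod Nat.prime_two _ _ fun p hp => ?_
    rw [gd_two]
    exact sgp_mod (lb_pr hp).1 (lb_two hv hp)
  have h2 := prod_sgp_abs (lb a c)
  have h3 : lb a c = (c ^ 2 - a ^ 2).natAbs.primeFactors.filter fun p =>
      Odd (padicValNat p (c ^ 2 - a ^ 2).natAbs) := rfl
  rw [← h3, ← h2] at hk
  have h4 := b_mod hv
  have h5 : (c ^ 2 - a ^ 2).natAbs = ((∏ l ∈ lb a c, sgp l) * (k : ℤ) ^ 2).natAbs := by
    rw [Int.natAbs_mul, Int.natAbs_pow, Int.natAbs_natCast]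
    exact hk
  have h6 : ((k : ℤ) ^ 2) % 4 = 1 := by
    have h7 : (k : ℤ) % 2 = 1 := by
      by_contra h8
      have h9 : (k : ℤ) ^ 2 % 2 = 0 := by
        have h10 : (k : ℤ) % 2 = 0 := by omega
        rw [pow_two, Int.mul_emod, h10]
        norm_num
      have h11 : ((∏ l ∈ lb a c, sgp l) * (k : ℤ) ^ 2) % 2 = 0 := by
        rw [Int.mul_emod, h9]
        norm_num
      omega
    have h8 : (k : ℤ) % 4 = 1 ∨ (k : ℤ) % 4 = 3 := by omega
    rw [pow_two, Int.mul_emod]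
    rcases h8 with h8 | h8 <;> rw [h8] <;> norm_num
  have h7 : ((∏ l ∈ lb a c, sgp l) * (k : ℤ) ^ 2) % 4 = 1 := by
    rw [Int.mul_emod, h1, h6]
    norm_num
  omega

end labels

section main

variable {t : Bool} {r s : ZMod 2} {S : Finset ℕ} {m a c : ℤ}

lemma gdb (hv : Cw a c) {p : ℕ} (hp : p.Prime) (h : p ≠ 2 → ¬ (p : ℤ) ∣ c ^ 2 - a ^ 2) :
    Gd p (-(c ^ 2 - a ^ 2)) := by
  by_cases h2 : p = 2
  · subst h2
    rw [gd_two]
    have := b_mod hv
    omega
  · rw [gd_odd h2, dvd_neg]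
    exact h h2

lemma gd_lb {p : ℕ} (hv : Cw a c) (hp : p.Prime) {l : ℕ} (hl : l ∈ lb a c) (h : l ≠ p) :
    Gd p (sgp l) := by
  have h1 := gd_pdr (r := 0) (s := 0) (lb_pr hl).1 hp h
  rwa [pdr_odd (lb_two hv hl)] at h1

/-- the sum of the symbols of the labels -/
lemma lb_sum (hv : Cw a c) {p : ℕ} (hp : p.Prime) (h : p ≠ 2 → ¬ (p : ℤ) ∣ c ^ 2 - a ^ 2) :
    ∑ l ∈ lb a c, ra p (sgp l) = ra p (-(c ^ 2 - a ^ 2)) := by
  have : Fact p.Prime := ⟨hp⟩
  have hne : ∀ l ∈ lb a c, l ≠ p := by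
    rintro l hl rfl
    exact h (lb_two hv hl) (lb_pr hl).2
  have g1 : Gd p (∏ l ∈ lb a c, sgp l) := gd_prod hp _ _ fun l hl => gd_lb hv hp hl (hne l hl)
  rw [ra_prod hp _ _ fun l hl => gd_lb hv hp hl (hne l hl)]
  obtain ⟨k, hk⟩ := b_eq hv
  have g2 : Gd p (-(c ^ 2 - a ^ 2)) := gdb hv hp h
  have g3 : Gd p (k ^ 2) := by
    by_cases h2 : p = 2
    · subst h2
      rw [gd_two] at g1 g2 ⊢
      rw [hk, Int.mul_emod, g1, one_mul, Int.emod_emod_of_dvd _ (by norm_num)] at g2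
      exact g2
    · rw [gd_odd h2] at g2 ⊢
      intro h3
      apply g2
      rw [hk]
      exact h3.mul_left _
  rw [hk, ra_mul hp g1 g3]
  have h4 : ra p (k ^ 2) = 0 := by
    rw [ra_iff g3]
    refine ⟨(k : ℚ_[p]), ?_⟩
    push_cast
    ring
  rw [h4, add_zero]

/-- the constant -/
def cb (a c : ℤ) (v : ZMod 2) : ℤ := if v = 1 then -(c ^ 2 - a ^ 2) else 1

lemma cb_zero : cb a c 0 = 1 := if_neg (by decide)

lemma cb_one : cb a c 1 = -(c ^ 2 - a ^ 2) := if_pos rfl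

lemma ra_cb {p : ℕ} (v : ZMod 2) : ra p (cb a c v) = ra p (-(c ^ 2 - a ^ 2)) * v := by
  rcases z01 v with h | h
  · rw [h, cb_zero, ra_one, mul_zero]
  · rw [h, cb_one, mul_one]

lemma gd_cb (hv : Cw a c) {p : ℕ} (hp : p.Prime) (h : p ≠ 2 → ¬ (p : ℤ) ∣ c ^ 2 - a ^ 2)
    (v : ZMod 2) : Gd p (cb a c v) := by
  unfold cb
  split_ifs
  · exact gdb hv hp h
  · exact gd_one hp

/-- the number `j_l` -/
noncomputable def jl (y : {x : ℕ // x ∈ Vt t S} → ZMod 2) (l : ℕ) : ZMod 2 := ∑ q, nr l q.1 * y q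

/-- the second factor of the first coordinate -/
noncomputable def EX (a c : ℤ) (y : {x : ℕ // x ∈ Vt t S} → ZMod 2) : ℤ :=
  ∏ l ∈ (lb a c).filter (fun l => jl y l = 1), sgp l

lemma dXG_eq (x y : {x : ℕ // x ∈ Vt t S} → ZMod 2) : dXG t r s S (lb a c) x y =
    (∏ p ∈ univ.filter (fun p => x p = 1), pdr r s p.1) * EX a c y := by
  unfold dXG EX jl sgp
  rw [Finset.prod_filter, Finset.prod_filter]

/-- the ramified primes do not divide `b` -/
lemma nd_Vt (h : TyG t r s S m) (hm : Lw a c m) (p : {x : ℕ // x ∈ Vt t S}) :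
    p.1 ≠ 2 → ¬ ((p.1 : ℕ) : ℤ) ∣ c ^ 2 - a ^ 2 := by
  intro h2 h1
  exact ndvd hm (pr_Vt h p.2) h1 ((dvd_m h (pr_Vt h p.2) h2).2 p.2)

lemma lb_ne (h : TyG t r s S m) (hv : Cw a c) (hm : Lw a c m) (p : {x : ℕ // x ∈ Vt t S}) {l : ℕ}
    (hl : l ∈ lb a c) : l ≠ p.1 := by
  rintro h1
  exact nd_Vt h hm p (h1 ▸ lb_two hv hl) (h1 ▸ (lb_pr hl).2)

lemma nr_lb (h : TyG t r s S m) (hv : Cw a c) (hm : Lw a c m) (p : {x : ℕ // x ∈ Vt t S}) {l : ℕ}
    (hl : l ∈ lb a c) : nr l p.1 = ra p.1 (sgp l) := by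
  have h1 := lb_ne h hv hm p hl
  rw [recip_ra (pr_Vt h p.2) (lb_pr hl).1 (lb_two hv hl)]
  exact nr_eq (lb_pr hl).1 (lb_two hv hl) (not_dvd_prime (pr_Vt h p.2) (lb_pr hl).1 h1.symm)

lemma gd_EX (hv : Cw a c) {p : ℕ} (hp : p.Prime) (h : p ≠ 2 → ¬ (p : ℤ) ∣ c ^ 2 - a ^ 2)
    (y : {x : ℕ // x ∈ Vt t S} → ZMod 2) : Gd p (EX a c y) := by
  refine gd_prod hp _ _ fun l hl => ?_
  have hl' := (Finset.mem_filter.1 hl).1
  refine gd_lb hv hp hl' ?_
  rintro rfl
  exact h (lb_two hv hl') (lb_pr hl').2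

/-- the right side of the row -/
lemma row_rhs (h : TyG t r s S m) (hv : Cw a c) (hm : Lw a c m)
    (y : {x : ℕ // x ∈ Vt t S} → ZMod 2) (p : {x : ℕ // x ∈ Vt t S}) :
    ∑ l ∈ lb a c, nr l p.1 * (y p + ∑ q, nr l q.1 * y q) =
      ra p.1 (-(c ^ 2 - a ^ 2)) * y p + ra p.1 (EX a c y) := by
  have hp := pr_Vt h p.2
  rw [← lb_sum hv hp (nd_Vt h hm p), Finset.sum_mul, EX, ← ra_prod hp, Finset.sum_filter,
    ← Finset.sum_add_distrib]
  · refine Finset.sum_congr rfl fun l hl => ?_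
    rw [nr_lb h hv hm p hl, mul_add]
    congr 1
    have e : ∑ q, nr l q.1 * y q = jl y l := rfl
    rw [e]
    rcases z01 (jl y l) with h1 | h1
    · rw [h1, if_neg (by decide), mul_zero]
    · rw [h1, if_pos rfl, mul_one]
  · intro l hl
    exact gd_lb hv hp (Finset.mem_filter.1 hl).1 (lb_ne h hv hm p (Finset.mem_filter.1 hl).1)

/-- `d₁` at the ramified primes -/
lemma firstG (h : TyG t r s S m) (hv : Cw a c) (hm : Lw a c m)
    (x y : {x : ℕ // x ∈ Vt t S} → ZMod 2)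
    (hr : RwF (NS t r s S) (lb a c) (fun l p => nr l p.1) x y)
    (p : {x : ℕ // x ∈ Vt t S}) [hp : Fact p.1.Prime] :
    IsSquare ((((dXG t r s S (lb a c) x y) * cb a c (y p) : ℤ)) : ℚ_[p.1]) ∨
    IsSquare ((((dXG t r s S (lb a c) x y) * m * cb a c (y p) : ℤ)) : ℚ_[p.1]) := by
  have h0 := hr p
  rw [row_rhs h hv hm y p] at h0
  rw [dXG_eq]
  have e1 := prod_AC h x
  have gE : Gd p.1 (EX a c y) := gd_EX hv hp.out (nd_Vt h hm p) y
  have gc : Gd p.1 (cb a c (y p)) := gd_cb hv hp.out (nd_Vt h hm p) (y p)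
  rcases z01 (x p) with hx | hx
  · left
    have g1 : Gd p.1 (∏ q ∈ univ.filter (fun q => x q = 1), pdr r s q.1) := by
      refine gd_prod hp.out _ _ fun q hq => gdp h ?_
      rintro rfl
      have := (Finset.mem_filter.1 hq).2
      rw [hx] at this
      exact absurd this (by decide)
    rw [rw_zero h x p hx] at h0
    have g2 := gd_mul hp.out g1 gE
    rw [← ra_iff (gd_mul hp.out g2 gc), ra_mul hp.out g2 gc, ra_mul hp.out g1 gE, ra_cb, h0]
    generalize ra p.1 (-(c ^ 2 - a ^ 2)) = e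
    generalize y p = v
    generalize ra p.1 (EX a c y) = w
    revert e v w
    decide
  · right
    have g1 : Gd p.1 (∏ q ∈ univ.filter (fun q => ¬ x q = 1), pdr r s q.1) := by
      refine gd_prod hp.out _ _ fun q hq => gdp h ?_
      rintro rfl
      exact (Finset.mem_filter.1 hq).2 hx
    rw [rw_one h x p hx] at h0
    have g2 := gd_mul hp.out g1 gE
    have h1 : IsSquare ((((∏ q ∈ univ.filter (fun q => ¬ x q = 1), pdr r s q.1) * EX a c y *
        cb a c (y p) : ℤ)) : ℚ_[p.1]) := by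
      rw [← ra_iff (gd_mul hp.out g2 gc), ra_mul hp.out g2 gc, ra_mul hp.out g1 gE, ra_cb, h0]
      generalize ra p.1 (-(c ^ 2 - a ^ 2)) = e
      generalize y p = v
      generalize ra p.1 (EX a c y) = w
      revert e v w
      decide
    have e2 : (∏ q ∈ univ.filter (fun q => x q = 1), pdr r s q.1) * EX a c y * m * cb a c (y p) =
        ((∏ q ∈ univ.filter (fun q => x q = 1), pdr r s q.1) *
          (∏ q ∈ univ.filter (fun q => x q = 1), pdr r s q.1)) *
        ((∏ q ∈ univ.filter (fun q => ¬ x q = 1), pdr r s q.1) * EX a c y * cb a c (y p)) := by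
      rw [← e1]
      ring
    rw [e2, Int.cast_mul, Int.cast_mul]
    exact (IsSquare.mul_self _).mul h1

lemma EX_sqf (y : {x : ℕ // x ∈ Vt t S} → ZMod 2) : Squarefree (EX a c y) := by
  unfold EX
  have hpr : ∀ l ∈ (lb a c).filter (fun l => jl y l = 1), Prime (sgp l) := by
    intro l hl
    rw [Int.prime_iff_natAbs_prime, sgp_abs]
    exact (lb_pr (Finset.mem_filter.1 hl).1).1
  refine Finset.squarefree_prod_of_pairwise_isCoprime ?_ ?_
  · intro p hp q hq hpq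
    have h1 := (lb_pr (Finset.mem_filter.1 hp).1).1
    have h2 := (lb_pr (Finset.mem_filter.1 hq).1).1
    have h3 : IsCoprime (sgp p) (sgp q) := by
      rw [Int.isCoprime_iff_nat_coprime, sgp_abs, sgp_abs]
      exact (Nat.coprime_primes h1 h2).2 hpq
    exact h3.isRelPrime
  · intro p hp
    exact (hpr p hp).squarefree

lemma sqf_dXG (h : TyG t r s S m) (hv : Cw a c) (hm : Lw a c m)
    (x y : {x : ℕ // x ∈ Vt t S} → ZMod 2) : Squarefree (dXG t r s S (lb a c) x y) := by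
  have h1 := prod_AC h x
  have h2 : Squarefree (∏ p ∈ univ.filter (fun p => x p = 1), pdr r s p.1) :=
    h.sqf.squarefree_of_dvd ⟨_, h1.symm⟩
  rw [dXG_eq]
  have h4 : IsCoprime (∏ p ∈ univ.filter (fun p => x p = 1), pdr r s p.1) (EX a c y) := by
    unfold EX
    refine IsCoprime.prod_right fun l hl => ?_
    have hl' := (Finset.mem_filter.1 hl).1
    have hpr : Prime (sgp l) := by
      rw [Int.prime_iff_natAbs_prime, sgp_abs]
      exact (lb_pr hl').1
    rw [isCoprime_comm]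
    refine hpr.coprime_iff_not_dvd.2 fun h5 => ?_
    have h6 : sgp l ∣ m := h5.trans ⟨_, h1.symm⟩
    refine ndvd hm (lb_pr hl').1 (lb_pr hl').2 (Dvd.dvd.trans ?_ h6)
    exact dvd_sgp.2 dvd_rfl
  exact (squarefree_mul_iff).2 ⟨h4.isRelPrime, h2, EX_sqf y⟩

/-- the number `j_p` -/
lemma jl_eq (h : TyG t r s S m) (y : {x : ℕ // x ∈ Vt t S} → ZMod 2) {p : ℕ} (hp : p.Prime)
    (hp2 : p ≠ 2) (hpV : p ∉ Vt t S) : jl y p = ra p (dY t S y) ∧ Gd p (dY t S y) := by
  have hne : ∀ q : {x : ℕ // x ∈ Vt t S}, q.1 ≠ p := fun q h1 => hpV (h1 ▸ q.2)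
  have g : ∀ q : {x : ℕ // x ∈ Vt t S}, Gd p ((q.1 : ℕ) : ℤ) := by
    intro q
    rw [gd_odd hp2]
    exact not_dvd_prime (pr_Vt h q.2) hp (hne q)
  rw [dY_eq]
  refine ⟨?_, gd_prod hp _ _ fun q _ => g q⟩
  unfold jl
  rw [← ra_prod hp _ _ (fun q _ => g q), Finset.sum_filter]
  refine Finset.sum_congr rfl fun q _ => ?_
  rw [nr_eq hp hp2 (not_dvd_prime (pr_Vt h q.2) hp (hne q))]
  rcases z01 (y q) with hq | hq
  · rw [hq, if_neg (by decide), mul_zero]
  · rw [hq, if_pos rfl, mul_one]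

/-- the primes that divide the second factor -/
lemma dvd_EX (hv : Cw a c) {p : ℕ} (hp : p.Prime) (y : {x : ℕ // x ∈ Vt t S} → ZMod 2) :
    (p : ℤ) ∣ EX a c y ↔ p ∈ lb a c ∧ jl y p = 1 := by
  constructor
  · intro h1
    unfold EX at h1
    obtain ⟨l, hl, h2⟩ := (Nat.prime_iff_prime_int.1 hp).exists_mem_finset_dvd h1
    rw [dvd_sgp, Nat.prime_dvd_prime_iff_eq hp (lb_pr (Finset.mem_filter.1 hl).1).1] at h2
    subst h2
    exact Finset.mem_filter.1 hl
  · intro h1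
    unfold EX
    refine Dvd.dvd.trans ?_ (Finset.dvd_prod_of_mem _ (Finset.mem_filter.2 h1))
    exact dvd_sgp.2 dvd_rfl

end main

/-- **The solutions of the linear systems are Selmer classes.** -/
theorem t_SUF : S_LT → S_LG → S_L2 → S_LR → Pool.Agent.N637.SLX.S_HR → S_SUF := by
  intro hLT hLG hL2 hLR hHR t r s S m a c h hv hm x y hl hr
  set d1 := dXG t r s S (lb a c) x y with hd1
  set d2 := dY t S y with hd2
  have n2 : 0 < d2 := dY_pos h y
  have q1 : Squarefree d1 := sqf_dXG h hv hm x y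
  have q2 : Squarefree d2 := sqf_dY h y
  have n1 : d1 ≠ 0 := q1.ne_zero
  refine ⟨q1, q2, (hLR m a c hv h.neg d1 d2 q1 q2).2 n2, ?_⟩
  intro p hp
  by_cases hpV : p ∈ Vt t S
  · by_cases hp2 : p = 2
    · -- the place `2`
      subst hp2
      have hm4 : m % 4 ≠ 1 := by
        rw [Ne, four_iff h]
        intro ht
        rw [mem_Vt, ht] at hpV
        rcases hpV with h1 | h1
        · exact absurd h1.2 (by decide)
        · exact two_notMem h h1
      refine (hL2 m a c hv h.sqf hm.tw d1 d2 q1 q2).2 hm4 ?_ ?_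
      · have h1 := firstG h hv hm x y hr ⟨2, hpV⟩
        rw [← hd1] at h1
        have h2 : IsSquare (((cb a c (y ⟨2, hpV⟩) : ℤ)) : ℚ_[2]) := by
          refine sq_int ?_
          unfold cb
          split_ifs
          · exact b_mod8 hv (by rcases hm.tw with h5 | ⟨h5, -⟩ | ⟨-, h5⟩ <;> omega)
          · norm_num
        have h3 : (((cb a c (y ⟨2, hpV⟩) : ℤ)) : ℚ_[2]) ≠ 0 := by
          have h4 : cb a c (y ⟨2, hpV⟩) ≠ 0 := by
            unfold cb
            split_ifs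
            · exact neg_ne_zero.2 (b_ne hv)
            · norm_num
          exact_mod_cast h4
        rcases h1 with h1 | h1
        · left
          rw [Int.cast_mul, mul_comm] at h1
          exact sq_cancel h3 h2 h1
        · right
          rw [Int.cast_mul, mul_comm, Int.cast_mul] at h1
          exact sq_cancel h3 h2 h1
      · refine hHR m h.sqf h.neg d2 q2 n2 (dY_dvd h y) ?_ (fun h1 => absurd h1 hm4)
        intro q hq hq2 hqm
        have hqV := (dvd_m h hq.out hq2).1 hqm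
        rcases second h y hl ⟨q, hqV⟩ hq2 with h1 | h1
        · exact Or.inl h1.2
        · exact Or.inr h1.2
    · -- the odd primes dividing `m`
      refine (hLT ℚ_[p] m a c (m_ne h) hv ?_).1 d1 d2 n1 n2.ne' ?_
      · obtain ⟨X, Y, hY, hXY, a1, a2, a3⟩ :=
          Pool.Agent.TH841.SH.pt_pad p 0 (a ^ 2 * m) (-(c ^ 2 - a ^ 2) * m)
        push_cast at hXY a1 a2 a3
        rw [sub_zero] at hXY a1
        have e : X - -((c : ℚ_[p]) ^ 2 - a ^ 2) * (m : ℚ_[p]) = X + (c ^ 2 - a ^ 2) * m := by ring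
        rw [e] at hXY a3
        exact ⟨X, Y, hY, hXY, a1, a2, a3⟩
      · have h1 := firstG h hv hm x y hr ⟨p, hpV⟩
        rw [← hd1] at h1
        rcases second h y hl ⟨p, hpV⟩ hp2 with ⟨h2, h3⟩ | ⟨h2, h3⟩
        · left
          rw [h2, cb_zero, mul_one, mul_one] at h1
          refine ⟨h3, ?_⟩
          rcases h1 with h1 | h1
          · exact Or.inl h1
          · right
            rw [Int.cast_mul] at h1
            exact h1
        · right
          rw [h2, cb_one] at h1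
          refine ⟨h3, ?_⟩
          rcases h1 with h1 | h1
          · left
            have e : ((d1 * -(c ^ 2 - a ^ 2) : ℤ) : ℚ_[p]) =
              (d1 : ℚ_[p]) * (-((c : ℚ_[p]) ^ 2 - a ^ 2)) := by push_cast; ring
            rw [e] at h1
            exact h1
          · right
            have e : ((d1 * m * -(c ^ 2 - a ^ 2) : ℤ) : ℚ_[p]) =
              (d1 : ℚ_[p]) * (-((c : ℚ_[p]) ^ 2 - a ^ 2)) * m := by push_cast; ring
            rw [e] at h1
            exact h1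
  · -- the unramified primes
    have hg : ∀ q : {x : ℕ // x ∈ Vt t S}, q.1 ≠ p := fun q h1 => hpV (h1 ▸ q.2)
    have g1 : Gd p (∏ q ∈ univ.filter (fun q => x q = 1), pdr r s q.1) :=
      gd_prod hp.out _ _ fun q _ => gd_pdr (pr_Vt h q.2) hp.out (hg q)
    have g2 : ¬ (p : ℤ) ∣ d2 := by
      rw [hd2, dY_eq]
      intro h1
      obtain ⟨q, hq, h2⟩ := (Nat.prime_iff_prime_int.1 hp.out).exists_mem_finset_dvd h1
      exact not_dvd_prime (pr_Vt h q.2) hp.out (hg q) h2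
    by_cases hp2 : p = 2
    · subst hp2
      have ht : t = false := by
        rw [mem_Vt] at hpV
        push Not at hpV
        have := hpV.1 rfl
        simpa using this
      refine (hL2 m a c hv h.sqf hm.tw d1 d2 q1 q2).1 ((four_iff h).2 ht) ?_ ?_
      · rw [hd1, dXG_eq, ← gd_two]
        exact gd_mul Nat.prime_two g1 (gd_EX hv Nat.prime_two (fun h => absurd rfl h) y)
      · omega
    · have hpm : ¬ (p : ℤ) ∣ m := (dvd_m h hp.out hp2).not.2 hpV
      refine hLG m a c hv hm p hp2 hpm d1 d2 q1 q2 g2 ?_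
      obtain ⟨k1, k2⟩ := jl_eq h y hp.out hp2 hpV
      rw [← hd2] at k1 k2
      rw [gd_odd hp2] at g1
      rw [hd1, dXG_eq, (Nat.prime_iff_prime_int.1 hp.out).dvd_mul, dvd_EX hv hp.out,
        mem_lb hv hp.out, k1]
      have hc : ch p d2 = jacobiSym d2 p := ch_odd hp2 d2
      rw [← hc]
      unfold ra
      constructor
      · rintro (h1 | ⟨h1, h2⟩)
        · exact absurd h1 g1
        · refine ⟨h1, ?_⟩
          rcases ch_pm hp.out k2 with h3 | h3
          · rw [if_pos h3] at h2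
            exact absurd h2 (by decide)
          · exact h3
      · rintro ⟨h1, h2⟩
        right
        refine ⟨h1, ?_⟩
        rw [h2, if_neg (by norm_num)]

end Pool.Agent.N637.SLM.SUF
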