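import Pool.Agent.N637.SLM.Fam
import Pool.Agent.N637.SLM.LT
import Pool.Agent.N637.SLM.LG
import Pool.Agent.N637.SLM.Odd
import Pool.Agent.N637.SLM.Inj
import Pool.Agent.N637.SLM.Hil
import Pool.Agent.N637.SLM.LR
import Pool.Agent.N637.SLM.Ind
import Pool.Agent.N637.SLM.RED
import Pool.Agent.N637.SLM.Den
import Pool.Agent.N637.SLM.Nec
import Pool.Agent.N637.SLM.SUF
import Pool.Agent.N637.SLM.L2a
import Pool.Agent.N637.SLX.Stm4
import Pool.Agent.N969.P15.QF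
import Pool.Agent.N916.GB.Num
import Pool.Agent.N916.AM.Low
import Pool.Agent.Y667.RZ.Sha
import Pool.Agent.N494.SLX.Ser
import Pool.Agent.N222.SLX.Eqs
import Pool.Agent.N664.SLX.HR
import Pool.Agent.N747.SLX.SelQ
import Pool.Agent.N136.SLX.VAL
import Pool.Agent.N558.SLK.Qc
import Pool.Agent.N273.SLK.CNT
import Pool.Agent.N755.SLK.REL
import Pool.Agent.N456.SLK.Mom
import Pool.Agent.N80.SLK.INV
import Pool.Agent.N424.SLK.Laj
import Pool.Agent.N222.SLK.Mass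
import Pool.Agent.N945.SLK.SCH
import Pool.Agent.N690.SLK.LIN
import Pool.Agent.N322.SLK.RK4
import Pool.Agent.N490.SLM.N2a
import Pool.Agent.N482.SLM.N2b
import Pool.Agent.N394.SLM.N2c
import Pool.Agent.N603.SLM.L2b

/-!
# The joint law of the 4-rank and of the 2-Selmer groups of the quadratic twists of several elliptic curves

For coprime integers `a` odd, `c ≠ 0` even let `E_n : y² = x (x - a² m) (x + (c² - a²) m)`, `m = -n` or `-n / 4`,
be the quadratic twist by the fundamental discriminant `-n` of `y² = x (x + a²) (x + c²)`. (Classically, up to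
isogeny, the curves `y² = x (x + a²) (x + c²)` are all the elliptic curves over `ℚ` whose torsion subgroup contains
`ℤ/2 × ℤ/4`, and their twists all the curves with rational 2-torsion and a rational cyclic subgroup of order `4`;
`(3, 4)` is the modular curve `X_0(21)`, `(1, 4)` is isogenous to `X_0(15)`.) Let `(a_i, c_i)`, `i < k`, be finitely
many such pairs, such that no prime `3 mod 4` divides some `a_i c_i` and some `c_j² - a_j²` (automatic for `k = 1`).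
Let `n` run through the family of the fundamental discriminants `-n` such that the odd primes dividing `a_i c_i` are
inert in `ℚ(√-n)`, `n` is a nonresidue modulo the primes dividing `c_i² - a_i²`, and `n ≢ 7 mod 8` if `8 ∣ c_i`,
`n = 3 mod 8` if `c_i = 2 mod 4`. Let `r` be the 4-rank of the class group of `ℚ(√-n)` and `s_i = rank E_n^(i)(ℚ) + dim Ш(E_n^(i)/ℚ)[2]`.

* For every `n` in the family: `2 ^ (r + 1) = #D_n`, `D_n` the group of the squarefree `d ∣ n` which are norms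
  from `ℚ_p(√-n)` for the odd `p ∣ n`, and `s_i = 2 r - rank B_i`, `B_i` the alternating form
  `∑_l (χ_l(d) χ_l(d') + χ_l((d, d')))` on `D_n`, `l` the primes dividing `c_i² - a_i²` to an odd power. In
  particular `r ≤ s_i ≤ 2 r` and `s_i` is even.
* If no product of some of the `a_i² - c_i²` is a square: for every set `A`, the `n` with `(r, s_1, …, s_k)` in `A`
  have a natural density in the family (which has positive density), given by an explicit probability law: `r` has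
  the law of Fouvry and Klüners and, given `r`, the `s_i - r` are independent and distributed as the coranks of
  random alternating `r × r` matrices over `𝔽_2`.
* If `a_i² - c_i²` is a square, `s_i = 2 r`; if all are squares, `r` has the law of Fouvry and Klüners.
* So, for every `k`, all the `k` twists have rank `0` and trivial `Ш[2^∞]` for the proportion `η = 0.2888` (not
  `η ^ k`), and `s_1 = … = s_k = 2` for the proportion `(2 + 4 / (9 · 2 ^ k)) η`.
-/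

set_option autoImplicit false
set_option linter.style.haveILetI false

open NumberField Filter Topology Finset

namespace Pool.Agent.N637.SLM.JL

open scoped Classical

open Pool.Agent.TH841.SH.D (Sha)

/-- `-n` is a fundamental discriminant. -/
def FundNeg (n : ℕ) : Prop := (Squarefree n ∧ n % 4 = 3) ∨
  ∃ m : ℕ, n = 4 * m ∧ Squarefree m ∧ (m % 4 = 1 ∨ m % 4 = 2)

/-- The parameters of the curves: `a` odd, `c` even and not `0`, coprime. -/
def Curve (a c : ℤ) : Prop := a % 2 = 1 ∧ c % 2 = 0 ∧ c ≠ 0 ∧ IsCoprime a c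

/-- No product of some of the `a_i² - c_i²` is a square. -/
def Independent {k : ℕ} (a c : Fin k → ℤ) : Prop :=
  ∀ T : Finset (Fin k), T.Nonempty → ¬ IsSquare (∏ i ∈ T, (a i ^ 2 - c i ^ 2))

/-- No prime `3 mod 4` divides some `a_i c_i` and some `c_j² - a_j²`. -/
def Compatible {k : ℕ} (a c : Fin k → ℤ) : Prop :=
  ∀ i j, ∀ p : ℕ, p.Prime → p % 4 = 3 → (p : ℤ) ∣ a i * c i → ¬ (p : ℤ) ∣ c j ^ 2 - a j ^ 2

/-- The twist by `-n` has no split multiplicative reduction at the odd primes dividing the conductor of the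
curve, and `n` is prime to them; the condition at `2`. -/
def Adm (a c : ℤ) (n : ℕ) : Prop :=
  (∀ p : ℕ, p.Prime → p ≠ 2 → (p : ℤ) ∣ a * c → jacobiSym (-(n : ℤ)) p = -1) ∧
  (∀ p : ℕ, p.Prime → (p : ℤ) ∣ c ^ 2 - a ^ 2 → jacobiSym (n : ℤ) p = -1) ∧
  (c % 8 = 4 ∨ (c % 8 = 0 ∧ n % 8 ≠ 7) ∨ (c % 4 = 2 ∧ n % 8 = 3))

/-- The family. -/
def Family {k : ℕ} (a c : Fin k → ℤ) (n : ℕ) : Prop := FundNeg n ∧ ∀ i, Adm (a i) (c i) n

/-- The squarefree integer `m n` with `ℚ(√(m n)) = ℚ(√-n)`. -/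
def m (n : ℕ) : ℤ := if n % 2 = 1 then -(n : ℤ) else -((n / 4 : ℕ) : ℤ)

/-- The quadratic twist by `-n` of the curve with the parameters `a`, `c`: the curve
`y² = x (x - a² m) (x + (c² - a²) m)`, `m = m n`. -/
def E (a c : ℤ) (n : ℕ) : WeierstrassCurve ℚ :=
  ⟨0, ((c : ℚ) ^ 2 - 2 * (a : ℚ) ^ 2) * (m n : ℚ), 0,
    -((a : ℚ) ^ 2 * ((c : ℚ) ^ 2 - (a : ℚ) ^ 2) * (m n : ℚ) ^ 2), 0⟩

/-- `K` is the quadratic field `ℚ(√-n)`. -/
def IsQuad (n : ℕ) (K : Type) [Field K] [NumberField K] : Prop :=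
  Module.finrank ℚ K = 2 ∧ ∃ s : K, s ^ 2 = (m n : K)

/-- The 4-rank of the class group of `K` is `r`: `#Cl(K)[4] = 2 ^ r * #Cl(K)[2]`. -/
def FourRank (K : Type) [Field K] [NumberField K] (r : ℕ) : Prop :=
  Nat.card {c : ClassGroup (𝓞 K) // c ^ 4 = 1} =
    2 ^ r * Nat.card {c : ClassGroup (𝓞 K) // c ^ 2 = 1}

/-- `rank W(ℚ) + dim Ш(W/ℚ)[2] = s`. -/
def SelRank (W : WeierstrassCurve ℚ) (s : ℕ) : Prop :=
  AddGroup.FG W.toAffine.Point ∧ Finite {x : Sha W // 2 • x = 0} ∧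
    2 ^ Module.finrank ℤ W.toAffine.Point * Nat.card {x : Sha W // 2 • x = 0} = 2 ^ s

/-- `x = (r, s)`: the 4-rank of the class group of `ℚ(√-n)` is `r` and `rank + dim Ш[2] = s i` for the twist
number `i`. -/
def Joint {k : ℕ} (a c : Fin k → ℤ) (x : ℕ × (Fin k → ℕ)) (n : ℕ) : Prop :=
  (∀ i, SelRank (E (a i) (c i) n) (x.2 i)) ∧
    ∀ (K : Type) [Field K] [NumberField K], IsQuad n K → FourRank K x.1

/-- `a` is of the form `x² - b y²` in `ℚ_p`: the Hilbert symbol `(a, b)_p` is `1`. -/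
def Nm (p : ℕ) (a b : ℤ) : Prop := ∀ [Fact p.Prime], ∃ x y : ℚ_[p], (a : ℚ_[p]) = x ^ 2 - b * y ^ 2

/-- The group `D_n` of the squarefree divisors `d` of `n` which are norms from `ℚ_p(√-n)` for all the odd
`p ∣ n`. -/
def Dn (n d : ℕ) : Prop := Squarefree d ∧ d ∣ n ∧ ∀ p : ℕ, p.Prime → p ≠ 2 → p ∣ n → Nm p d (-n)

/-- The Legendre symbol modulo `l`, written additively. -/
noncomputable def chi (l d : ℕ) : ZMod 2 := if IsSquare (d : ZMod l) then 0 else 1

/-- The primes dividing `c² - a²` to an odd power. -/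
noncomputable def labels (a c : ℤ) : Finset ℕ :=
  (c ^ 2 - a ^ 2).natAbs.primeFactors.filter fun p => Odd (padicValInt p (c ^ 2 - a ^ 2))

/-- The alternating form on `D_n`. -/
noncomputable def B (a c : ℤ) (d d' : ℕ) : ZMod 2 :=
  ∑ l ∈ labels a c, (chi l d * chi l d' + chi l (d.gcd d'))

/-- The radical of the form. -/
def Rn (a c : ℤ) (n d : ℕ) : Prop := Dn n d ∧ ∀ d' : ℕ, Dn n d' → B a c d d' = 0

/-- The matrix `M` over the field with two elements is alternating. -/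
def Alt {r : ℕ} (M : Fin r → Fin r → ZMod 2) : Prop := (∀ a, M a a = 0) ∧ ∀ a b, M a b = M b a

/-- The kernel of the matrix `M` over the field with two elements has dimension `j`. -/
def Cor {r : ℕ} (M : Fin r → Fin r → ZMod 2) (j : ℕ) : Prop :=
  (univ.filter fun x : Fin r → ZMod 2 => ∀ a, ∑ b, M a b * x b = 0).card = 2 ^ j

/-- The number of the alternating `r × r` matrices of corank `j` over the field with two elements. -/
noncomputable def alt (r j : ℕ) : ℕ :=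
  (univ.filter fun M : Fin r → Fin r → ZMod 2 => Alt M ∧ Cor M j).card

/-- The order of the group `GL_r` over the field with two elements. -/
def gl (r : ℕ) : ℕ := ∏ i ∈ range r, (2 ^ r - 2 ^ i)

/-- The law: the probability of `(r, s)` is `∏_{l > r} (1 - 2^(-l)) / #GL_r(𝔽_2)` (the law of Fouvry and
Klüners of the 4-rank) times the product over `i` of the probabilities that an alternating `r × r` matrix has
corank `s i - r`. -/
noncomputable def law {k : ℕ} (x : ℕ × (Fin k → ℕ)) : ℝ :=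
  if ∀ i, x.1 ≤ x.2 i then
    (∏ i, (alt x.1 (x.2 i - x.1) : ℝ) / 2 ^ (x.1 * (x.1 - 1) / 2)) / (gl x.1 : ℝ) *
      ∏' l : ℕ, (1 - (1 / 2 : ℝ) ^ (x.1 + 1 + l)) else 0

/-- The law of Fouvry and Klüners of the 4-rank. -/
noncomputable def fk (r : ℕ) : ℝ := (∏' l : ℕ, (1 - (1 / 2 : ℝ) ^ (r + 1 + l))) / (gl r : ℝ)

/-- `η = (1 - 1/2) (1 - 1/4) (1 - 1/8) ⋯` -/
noncomputable def eta : ℝ := ∏' i : ℕ, (1 - (1 / 2 : ℝ) ^ (i + 1))

/-- The number of the `n ≤ X` with the property `Q`. -/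
noncomputable def count (Q : ℕ → Prop) (X : ℕ) : ℕ := ((Icc 1 X).filter fun n => Q n).card

/-- The natural density of `Q` in the family `F` is `δ`. -/
def Density (F Q : ℕ → Prop) (δ : ℝ) : Prop :=
  Tendsto (fun X : ℕ => (count (fun n => F n ∧ Q n) X : ℝ) / (count F X : ℝ)) atTop (𝓝 δ)

section proof

open Pool.Agent.N637.SLM
open Pool.Agent.N637.SLK (TyG lb Fm BL CritF GjF GnF lawF plF S_LAJ S_MASS S_SCH nL nR mem_lb nr_eq mm ty_of)
open Pool.Agent.N916.GB (Po Vt)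
open Pool.Agent.N916.TE (FD)
open Pool.Agent.TH841.SH (IsR)
open Pool.Agent.Y703.CQ (nr)

/-- all the parts -/
structure Hyps : Prop where
  ha : HA
  laj : S_LAJ
  red : S_RED
  den : S_DEN
  mass : S_MASS
  sch : S_SCH
  hil : S_HIL

/-- the place `2`, necessity -/
theorem hN2 : S_N2 :=
  LR.t_N2 Pool.Agent.N490.SLM.t_N2a Pool.Agent.N482.SLM.t_N2b Pool.Agent.N394.SLM.t_N2c

/-- the place `2`, solvability -/
theorem hL2 : S_L2 :=
  LR.t_L2 (L2a.t_L2a LT.t_LT) (Pool.Agent.N603.SLM.t_L2b LT.t_LT)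

/-- the parts -/
theorem hyps : Hyps where
  ha :=
    { LIN := Pool.Agent.N690.SLK.t_LIN
      NEC := Nec.t_NEC Odd.t_NG Odd.t_NM hN2 LR.t_LR
      SUF := SUF.t_SUF LT.t_LT (LG.t_LG LT.t_LT) hL2 LR.t_LR Pool.Agent.N664.SLX.t_HR
      INJ := Inj.t_INJ
      SELQ := Pool.Agent.N637.SLX.t_SELQ
      RK4 := Pool.Agent.N322.SLK.t_RK4
      IND := Ind.t_IND }
  laj := Pool.Agent.N424.SLK.t_LAJ Pool.Agent.N80.SLK.t_INV Pool.Agent.N494.SLX.t_SER
    (Pool.Agent.N456.SLK.t_MOM Pool.Agent.N222.SLX.Eqs.t_EQS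
      (Pool.Agent.N273.SLK.t_CNT Pool.Agent.N558.SLK.t_QC) Pool.Agent.N755.SLK.t_REL)
    Pool.Agent.N755.SLK.t_REL
  red := RED.t_RED
  den := Den.t_DEN
  mass := Pool.Agent.N222.SLK.t_MASS
  sch := Pool.Agent.N945.SLK.t_SCH
  hil := Hil.t_HIL

lemma isR (a c : ℤ) (n : ℕ) :
    IsR (E a c n) ((0 : ℤ) : ℚ) ((a ^ 2 * mm n : ℤ) : ℚ) ((-(c ^ 2 - a ^ 2) * mm n : ℤ) : ℚ) := by
  refine ⟨rfl, ?_, rfl, ?_, ?_⟩
  · show ((c : ℚ) ^ 2 - 2 * (a : ℚ) ^ 2) * (mm n : ℚ) = _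
    push_cast
    ring
  · show -((a : ℚ) ^ 2 * ((c : ℚ) ^ 2 - (a : ℚ) ^ 2) * (mm n : ℚ) ^ 2) = _
    push_cast
    ring
  · show (0 : ℚ) = _
    push_cast
    ring

lemma exists_K {n : ℕ} (h : FD n) : ∃ (K : Type) (_ : Field K) (_ : NumberField K),
    Module.finrank ℚ K = 2 ∧ ∃ z : K, z ^ 2 = (m n : K) := by
  obtain ⟨t, r, s, S, hT, -, -⟩ := ty_of h
  have hneg := hT.neg
  obtain ⟨k, hk⟩ : ∃ k : ℕ, mm n = -(k : ℤ) := ⟨(mm n).natAbs, by omega⟩
  obtain ⟨K, i1, i2, h6, z, hz⟩ := Pool.Agent.N969.P15.exists_qf (n := k) (by omega)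
  refine ⟨K, i1, i2, h6, z, ?_⟩
  show z ^ 2 = (mm n : K)
  rw [hz, hk]
  push_cast
  rfl

variable {k : ℕ} {a c : Fin k → ℤ}

lemma cvs (h1 : ∀ i, Curve (a i) (c i)) (i : Fin k) : Cw (a i) (c i) :=
  ⟨(h1 i).1, (h1 i).2.1, (h1 i).2.2.1, (h1 i).2.2.2⟩

/-- the labels -/
lemma exists_labels (H : Hyps) (h1 : ∀ i, Curve (a i) (c i)) (h3 : Independent a c) :
    ∃ (L : ℕ) (ell : Fin L → ℕ) (e : Fin k → Fin L → ZMod 2), Lbs a c ell e (QQ a c) := by
  obtain ⟨L, ell, e, h4, h7, h5, h6⟩ := H.ha.IND k a c (cvs h1) h3 (QQ a c) (QQ_pos (cvs h1))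
    (fun i l hl => dvd_QQ ((mem_bad (cvs h1)).2 ⟨(mem_lb hl).1, lb_ne_two (cvs h1 i) hl, i,
      (mem_lb hl).2.mul_left _⟩))
  exact ⟨L, ell, e, h4, h7, h5, h6⟩

lemma four_dvd {t : Bool} {r s : ZMod 2} {S : Finset ℕ} {a c m : ℤ} (hT : TyG t r s S m)
    (hC : Cw a c) (hL : Lw a c m) (ht : t = true) : c % 4 = 0 := by
  have h1 : m % 4 ≠ 1 := by
    rcases hT.ty with ⟨h, -⟩ | ⟨-, -, -, -, h⟩ | ⟨-, -, -, h, -⟩ | ⟨-, -, -, h, -⟩
    · rw [ht] at h
      exact absurd h (by decide)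
    · omega
    · omega
    · omega
  have h2 := hL.tw
  unfold Two at h2
  omega

/-- the labels of a curve with `a² - c²` a square -/
lemma lb_square {a c : ℤ} (hs : IsSquare (a ^ 2 - c ^ 2)) : lb a c = ∅ := by
  rw [Finset.eq_empty_iff_forall_notMem]
  intro l hl
  have hp : l.Prime := (mem_lb hl).1
  unfold lb at hl
  have h1 := (mem_filter.1 hl).2
  obtain ⟨b, hb⟩ := hs
  have e1 : c ^ 2 - a ^ 2 = -(b * b) := by rw [← hb]; ring
  have hb0 : b ≠ 0 := by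
    rintro rfl
    rw [e1] at h1
    simp at h1
  have : Fact l.Prime := ⟨hp⟩
  rw [e1] at h1
  have e2 : padicValInt l (-(b * b)) = padicValInt l (b * b) := by
    unfold padicValInt
    rw [Int.natAbs_neg]
  rw [e2, padicValInt.mul hb0 hb0, ← two_mul] at h1
  exact (Nat.not_odd_iff_even.2 (even_two_mul _)) h1

/-- the labels at `2` -/
lemma two_single (H : Hyps) {a c : ℤ} (hC : Cw a c) (h4 : c % 4 = 0) :
    ∑ l ∈ lb a c, nr l 2 = 0 := by
  by_cases hs : IsSquare (a ^ 2 - c ^ 2)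
  · rw [lb_square hs, Finset.sum_empty]
  · have hC1 : ∀ i : Fin 1, Cw ((fun _ : Fin 1 => a) i) ((fun _ : Fin 1 => c) i) := fun _ => hC
    have hI : ∀ T : Finset (Fin 1), T.Nonempty →
        ¬ IsSquare (∏ i ∈ T, ((fun _ : Fin 1 => a) i ^ 2 - (fun _ : Fin 1 => c) i ^ 2)) := by
      intro T hT
      have : T = {0} := by
        obtain ⟨x, hx⟩ := hT
        ext y
        have h1 := Subsingleton.elim x 0
        have h2 := Subsingleton.elim y 0
        subst h1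
        subst h2
        simp [hx]
      rw [this, Finset.prod_singleton]
      exact hs
    obtain ⟨L, ell, e, g1, g2, g3, g4⟩ := H.ha.IND 1 (fun _ => a) (fun _ => c) hC1 hI
      (QQ (fun _ : Fin 1 => a) (fun _ => c)) (QQ_pos hC1)
      (fun i l hl => dvd_QQ ((mem_bad hC1).2 ⟨(mem_lb hl).1, lb_ne_two (hC1 i) hl, i,
        (mem_lb hl).2.mul_left _⟩))
    exact two_of (a := fun _ => a) (c := fun _ => c) (e := e)
      (Q := QQ (fun _ : Fin 1 => a) (fun _ => c)) ⟨g1, g2, g3, g4⟩ 0 h4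

/-- no labels -/
def el0 : Fin 0 → ℕ := fun i => i.elim0

/-- no labels -/
def e0 : Fin 0 → Fin 0 → ZMod 2 := fun i => i.elim0

/-- no forms -/
def j0 : Fin 0 → ℕ := fun i => i.elim0

/-- **The numbers of a member of the family.** -/
theorem numbers0 (H : Hyps) (hk : 0 < k) (h1 : ∀ i, Curve (a i) (c i)) {n : ℕ}
    (h : Family a c n) :
    ∃ (r : ℕ) (j : Fin k → ℕ), (∀ i, j i ≤ r ∧ Even (r + j i)) ∧
      Joint a c (r, fun i => r + j i) n ∧ Nat.card {d : ℕ // Dn n d} = 2 ^ (r + 1) ∧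
      (∀ i, Nat.card {d : ℕ // Rn (a i) (c i) n d} = 2 ^ (j i + 1)) ∧
      (∀ {L : ℕ} {ell : Fin L → ℕ} {e : Fin k → Fin L → ZMod 2}, Lbs a c ell e (QQ a c) →
        GnF ell e r j n) ∧ ∀ r' : ℕ, GnF el0 e0 r' j0 n ↔ r = r' := by
  obtain ⟨hF, hA⟩ := h
  obtain ⟨t, r, s, S, hT, hn, hG⟩ := ty_of hF
  have hLm : ∀ i, Lw (a i) (c i) (mm n) := fun i => lm_of hF (cvs h1 i) (hA i)
  have hm : mm n ≠ -1 := ne_neg_one (cvs h1 ⟨0, hk⟩) (hLm ⟨0, hk⟩)
  obtain ⟨x, hx, hy⟩ := ex_num hT hm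
  choose j hj using fun i => hy (a i) (c i) (cvs h1 i) (hLm i)
    (fun ht => two_single H (cvs h1 i) (four_dvd hT (cvs h1 i) (hLm i) ht))
  obtain ⟨e1, e2⟩ := H.hil t r s S (mm n) n hT hn
  refine ⟨x, j, fun i => (hj i).2, ⟨fun i => ?_, fun K _ _ hQ => ?_⟩, ?_, fun i => ?_,
    fun hL => ?_, fun r' => ?_⟩
  · exact main_sel H.ha hT (cvs h1 i) (hLm i) (isR (a i) (c i) n) hx (hj i).1
  · exact main_rk4 H.ha hT hm K hQ.1 hQ.2 hx
  · rw [← hx]
    exact e1
  · rw [← (hj i).1]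
    exact e2 (a i) (c i) (cvs h1 i) (hLm i)
  · rw [hG, crit_iff hL]
    exact ⟨hx, fun i => (hj i).1⟩
  · rw [hG]
    unfold GjF
    rw [Pool.Agent.N637.SLK.crit_gen]
    constructor
    · rintro ⟨h2, -⟩
      have e3 : 2 ^ (x + 1) = 2 ^ (r' + 1) := hx.symm.trans h2
      have := Nat.pow_right_injective (le_refl 2) e3
      omega
    · rintro rfl
      exact ⟨hx, fun i => i.elim0⟩

/-- **The numbers of a member of the family.** -/
theorem numbers (H : Hyps) (hk : 0 < k) (h1 : ∀ i, Curve (a i) (c i)) {L : ℕ} {ell : Fin L → ℕ}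
    {e : Fin k → Fin L → ZMod 2} (hL : Lbs a c ell e (QQ a c)) {n : ℕ} (h : Family a c n) :
    ∃ (r : ℕ) (j : Fin k → ℕ), GnF ell e r j n ∧ (∀ i, j i ≤ r ∧ Even (r + j i)) ∧
      Joint a c (r, fun i => r + j i) n ∧ Nat.card {d : ℕ // Dn n d} = 2 ^ (r + 1) ∧
      ∀ i, Nat.card {d : ℕ // Rn (a i) (c i) n d} = 2 ^ (j i + 1) := by
  obtain ⟨r, j, g1, g2, g3, g4, g5, -⟩ := numbers0 H hk h1 h
  exact ⟨r, j, g5 hL, g1, g2, g3, g4⟩

lemma cl_inj {K : Type} [Field K] [NumberField K] {r r' : ℕ} (h : FourRank K r)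
    (h' : FourRank K r') : r = r' := by
  unfold FourRank at h h'
  rw [h] at h'
  exact Nat.pow_right_injective (le_refl 2)
    (Nat.eq_of_mul_eq_mul_right (Pool.Agent.N637.SLX.cl2_pos K) h')

lemma sel_inj {W : WeierstrassCurve ℚ} {s s' : ℕ} (h : SelRank W s) (h' : SelRank W s') :
    s = s' := by
  have h1 := h.2.2
  rw [h'.2.2] at h1
  exact Nat.pow_right_injective (le_refl 2) h1.symm

lemma joint_inj {n : ℕ} (h : Family a c n) {x x' : ℕ × (Fin k → ℕ)} (h1 : Joint a c x n)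
    (h2 : Joint a c x' n) : x = x' := by
  obtain ⟨K, i1, i2, h3, h4⟩ := exists_K (show FD n from h.1)
  refine Prod.ext (cl_inj (h1.2 K ⟨h3, h4⟩) (h2.2 K ⟨h3, h4⟩)) (funext fun i => ?_)
  exact sel_inj (h1.1 i) (h2.1 i)

lemma gn_inj {L : ℕ} {ell : Fin L → ℕ} {e : Fin k → Fin L → ZMod 2}
    (hL : Lbs a c ell e (QQ a c)) {n : ℕ} (h : FD n) {r r' : ℕ} {j j' : Fin k → ℕ}
    (h1 : GnF ell e r j n) (h2 : GnF ell e r' j' n) : r = r' ∧ j = j' := by
  obtain ⟨t, u, s, S, hT, hn, hG⟩ := ty_of h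
  rw [hG, crit_iff hL] at h1 h2
  have e1 : 2 ^ (r + 1) = 2 ^ (r' + 1) := h1.1.symm.trans h2.1
  refine ⟨by have := Nat.pow_right_injective (le_refl 2) e1; omega, funext fun i => ?_⟩
  have e2 : 2 ^ (j i + 1) = 2 ^ (j' i + 1) := (h1.2 i).symm.trans (h2.2 i)
  have := Nat.pow_right_injective (le_refl 2) e2
  omega

/-- **The event in terms of the criterion.** -/
theorem joint_iff (H : Hyps) (hk : 0 < k) (h1 : ∀ i, Curve (a i) (c i)) {L : ℕ} {ell : Fin L → ℕ}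
    {e : Fin k → Fin L → ZMod 2} (hL : Lbs a c ell e (QQ a c)) {n : ℕ} (h : Family a c n)
    (x : ℕ × (Fin k → ℕ)) :
    Joint a c x n ↔ (∀ i, x.1 ≤ x.2 i) ∧ GnF ell e x.1 (fun i => x.2 i - x.1) n := by
  obtain ⟨r, j, g1, -, g3, -, -⟩ := numbers H hk h1 hL h
  constructor
  · intro h2
    have h4 := joint_inj h h2 g3
    subst h4
    refine ⟨fun i => Nat.le_add_right _ _, ?_⟩
    have e1 : (fun i => r + j i - r) = j := funext fun i => Nat.add_sub_cancel_left _ _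
    show GnF ell e r (fun i => r + j i - r) n
    rw [e1]
    exact g1
  · rintro ⟨h2, h4⟩
    obtain ⟨e1, e2⟩ := gn_inj hL (show FD n from h.1) g1 h4
    have e3 : x = (r, fun i => r + j i) := by
      refine Prod.ext e1.symm (funext fun i => ?_)
      have h5 := congrFun e2 i
      have h6 := h2 i
      show x.2 i = r + j i
      have h7 : j i = x.2 i - x.1 := h5
      omega
    rw [e3]
    exact g3

lemma law_eq (x : ℕ × (Fin k → ℕ)) : law x = plF x := rfl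

lemma count_inst {Q : ℕ → Prop} [DecidablePred Q] (X : ℕ) :
    ((Icc 1 X).filter Q).card = count Q X := by
  unfold count
  congr

lemma count_congr {Q Q' : ℕ → Prop} {X : ℕ} (h : ∀ n, Q n ↔ Q' n) : count Q X = count Q' X := by
  have e : Q = Q' := funext fun n => propext (h n)
  rw [e]

lemma fam_iff (h1 : ∀ i, Curve (a i) (c i)) (n : ℕ) :
    Family a c n ↔ FD n ∧ n % QQ a c ∈ RR a c := by
  rw [mem_RR (cvs h1)]
  exact Iff.rfl

lemma res_nr {L : ℕ} {ell : Fin L → ℕ}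
    {e : Fin k → Fin L → ZMod 2} (hL : Lbs a c ell e (QQ a c)) :
    ∀ x ∈ RR a c, ∀ l, nr (ell l) x = 1 := by
  intro x hx l
  obtain ⟨i, hi⟩ := hL.mem l
  have hA : Adm (a i) (c i) x := (mem_filter.1 hx).2 i
  rw [(nr_eq (ell l) (mem_lb hi).1 x).1]
  exact hA.2.1 (ell l) (mem_lb hi).1 (mem_lb hi).2

lemma dens_pt (H : Hyps) (hk : 0 < k) (h1 : ∀ i, Curve (a i) (c i)) (h2 : Compatible a c)
    (h3 : Independent a c) (x : ℕ × (Fin k → ℕ)) :
    Density (Family a c) (Joint a c x) (law x) := by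
  obtain ⟨L, ell, e, hL⟩ := exists_labels H h1 h3
  unfold Density
  have halt : (∀ i, ∑ l, e i l * nr (ell l) 2 = 0) ∨ (8 ∣ QQ a c ∧ ∀ x ∈ RR a c, x % 8 = 3) := by
    by_cases h4 : ∀ i, c i % 4 = 0
    · exact Or.inl fun i => hL.two i (h4 i)
    · obtain ⟨i, hi⟩ := not_forall.1 h4
      refine Or.inr ⟨eight_dvd, fun x hx => ?_⟩
      have hA : Adm (a i) (c i) x := (mem_filter.1 hx).2 i
      have hA2 := hA.2.2
      omega
  by_cases hx : ∀ i, x.1 ≤ x.2 i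
  · obtain ⟨n₀, p1, p2, p3⟩ := exists_n0 (cvs h1) h2
    have h := H.den H.laj H.red k L ell e (QQ a c) (RR a c) n₀ (QQ_pos (cvs h1)) hL.lbl halt
      (res_nr hL) p1.prime.irreducible.squarefree (by omega) ((mem_RR (cvs h1) n₀).2 p3) x.1
      (fun i => x.2 i - x.1)
    have e1 : law x = lawF x.1 (fun i => x.2 i - x.1) := if_pos hx
    rw [e1]
    refine h.congr fun X => congrArg₂ (fun a b : ℕ => (a : ℝ) / (b : ℝ)) ?_ ?_
    · rw [count_inst]
      refine count_congr (X := X) fun n => ?_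
      rw [← fam_iff h1]
      constructor
      · exact fun h => ⟨h.1, (joint_iff H hk h1 hL h.1 x).2 ⟨hx, h.2⟩⟩
      · exact fun h => ⟨h.1, ((joint_iff H hk h1 hL h.1 x).1 h.2).2⟩
    · rw [count_inst]
      exact count_congr (X := X) fun n => (fam_iff h1 n).symm
  · have e1 : law x = 0 := if_neg hx
    rw [e1]
    refine tendsto_const_nhds.congr fun X => ?_
    have h0 : count (fun n => Family a c n ∧ Joint a c x n) X = 0 := by
      rw [← count_inst, Finset.card_eq_zero, Finset.filter_eq_empty_iff]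
      rintro n - ⟨h4, h5⟩
      exact hx ((joint_iff H hk h1 hL h4 x).1 h5).1
    rw [h0, Nat.cast_zero, zero_div]

/-- the formulas -/
theorem formula (H : Hyps) (hk : 0 < k) (h1 : ∀ i, Curve (a i) (c i))
    {n : ℕ} (h : Family a c n) : ∃ x : ℕ × (Fin k → ℕ), Joint a c x n ∧
      Nat.card {d : ℕ // Dn n d} = 2 ^ (x.1 + 1) ∧
      ∀ i, x.1 ≤ x.2 i ∧ x.2 i ≤ 2 * x.1 ∧ Even (x.2 i) ∧
        2 ^ x.1 * Nat.card {d : ℕ // Rn (a i) (c i) n d} = 2 ^ (x.2 i + 1) := by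
  obtain ⟨r, j, g2, g3, g4, g5, -, -⟩ := numbers0 H hk h1 h
  refine ⟨_, g3, g4, fun i => ⟨Nat.le_add_right _ _, ?_, (g2 i).2, ?_⟩⟩
  · show r + j i ≤ 2 * r
    have := (g2 i).1
    omega
  · show 2 ^ r * _ = 2 ^ (r + j i + 1)
    rw [g5 i]
    ring

/-- the radical if `a² - c²` is a square -/
lemma rn_square {a c : ℤ} (hs : IsSquare (a ^ 2 - c ^ 2)) (n : ℕ) :
    Nat.card {d : ℕ // Rn a c n d} = Nat.card {d : ℕ // Dn n d} := by
  refine Nat.card_congr (Equiv.subtypeEquivRight fun d => ?_)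
  unfold Rn B
  have e : labels a c = ∅ := lb_square hs
  constructor
  · exact fun h => h.1
  · intro h
    refine ⟨h, fun d' _ => ?_⟩
    rw [e, Finset.sum_empty]

/-- the case of a square -/
theorem sq_case (H : Hyps) (hk : 0 < k) (h1 : ∀ i, Curve (a i) (c i)) {n : ℕ}
    (h : Family a c n) {x : ℕ × (Fin k → ℕ)} (hx : Joint a c x n) {i : Fin k}
    (hs : IsSquare (a i ^ 2 - c i ^ 2)) : x.2 i = 2 * x.1 := by
  obtain ⟨x', g1, g2, g3⟩ := formula H hk h1 h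
  have e1 := joint_inj h hx g1
  subst e1
  have h4 := (g3 i).2.2.2
  rw [rn_square hs, g2, ← pow_add] at h4
  have := Nat.pow_right_injective (le_refl 2) h4
  omega

/-- the trivial labels -/
lemma lb00 {Q : ℕ} (hQ : 0 < Q) : Lb0 el0 e0 Q := by
  refine ⟨fun l => l.elim0, fun s γ h => ?_⟩
  have hγ : γ = 0 := Subsingleton.elim _ _
  have hs : s ≠ 0 := by
    rcases h with h | h
    · exact h
    · exact absurd hγ h
  have hs1 : s = 1 := (by decide : ∀ s : ZMod 2, s ≠ 0 → s = 1) s hs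
  refine ⟨4 * Q - 1, ?_, ?_⟩
  · have h1 : (4 * Q - 1).Coprime (4 * Q) := by
      have h2 : 4 * Q = (4 * Q - 1) + 1 := by omega
      conv_rhs => rw [h2]
      exact Nat.coprime_self_add_right.2 (Nat.coprime_one_right _)
    exact h1.coprime_dvd_right ⟨2, by ring⟩
  · have h3 : (4 * Q - 1) % 4 = 3 := by omega
    have e1 : Pool.Agent.N973.ND.uu (4 * Q - 1) = 1 := if_pos h3
    rw [hs1, e1, Finset.univ_eq_empty, Finset.sum_empty]
    decide

/-- the law if all the `a_i² - c_i²` are squares -/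
theorem dens_sq (H : Hyps) (hk : 0 < k) (h1 : ∀ i, Curve (a i) (c i)) (h2 : Compatible a c)
    (hs : ∀ i, IsSquare (a i ^ 2 - c i ^ 2)) (r : ℕ) :
    Density (Family a c) (Joint a c (r, fun _ => 2 * r)) (fk r) := by
  obtain ⟨n₀, p1, p2, p3⟩ := exists_n0 (cvs h1) h2
  have h := H.den H.laj H.red 0 0 el0 e0 (QQ a c) (RR a c) n₀ (QQ_pos (cvs h1))
    (lb00 (QQ_pos (cvs h1))) (Or.inl fun i => i.elim0) (fun _ _ l => l.elim0)
    p1.prime.irreducible.squarefree (by omega) ((mem_RR (cvs h1) n₀).2 p3) r j0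
  have e1 : lawF r j0 = fk r := by
    unfold Pool.Agent.N637.SLK.lawF fk
    rw [Finset.univ_eq_empty, Finset.prod_empty, div_mul_eq_mul_div, one_mul]
    rfl
  rw [e1] at h
  unfold Density
  refine h.congr fun X => congrArg₂ (fun a b : ℕ => (a : ℝ) / (b : ℝ)) ?_ ?_
  · rw [count_inst]
    refine count_congr (X := X) fun n => ?_
    rw [← fam_iff h1]
    refine and_congr_right fun hn => ?_
    obtain ⟨r0, j, -, g3, -, -, -, g7⟩ := numbers0 H hk h1 hn
    rw [g7]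
    constructor
    · rintro rfl
      have e2 : (fun i => r0 + j i) = fun _ => 2 * r0 := funext fun i =>
        sq_case H hk h1 hn g3 (hs i)
      rw [e2] at g3
      exact g3
    · intro h5
      exact congrArg Prod.fst (joint_inj hn g3 h5)
  · rw [count_inst]
    exact count_congr (X := X) fun n => (fam_iff h1 n).symm

lemma law_nonneg (H : Hyps) (x : ℕ × (Fin k → ℕ)) : 0 ≤ law x := by
  rw [law_eq]
  unfold plF
  split_ifs
  · exact ((H.mass k).1 _ _).1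
  · exact le_refl 0

/-- the limit law -/
theorem dens_set (H : Hyps) (hk : 0 < k) (h1 : ∀ i, Curve (a i) (c i)) (h2 : Compatible a c)
    (h3 : Independent a c) (A : Set (ℕ × (Fin k → ℕ))) :
    Density (Family a c) (fun n => ∃ x ∈ A, Joint a c x n) (∑' x : A, law x.1) := by
  have h := H.sch (ℕ × (Fin k → ℕ)) (Family a c) (Joint a c) law
    (fun n hn => by
      obtain ⟨x, hx, -⟩ := formula H hk h1 hn
      exact ⟨x, hx, fun x' hx' => joint_inj hn hx' hx⟩) (law_nonneg H) (H.mass k).2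
    (fun x => (dens_pt H hk h1 h2 h3 x).congr fun X => ?_) A
  · refine h.congr fun X => ?_
    rw [count_inst, count_inst]
  · rw [count_inst, count_inst]

/-- the case `s = 0` -/
theorem zero_case {W : WeierstrassCurve ℚ} (h : SelRank W 0) : Finite W.toAffine.Point ∧
    ∀ (k : ℕ) (x : Sha W), (2 ^ k : ℕ) • x = 0 → x = 0 := by
  obtain ⟨h1, h2, h3⟩ := h
  rw [pow_zero] at h3
  have h4 : Module.finrank ℤ W.toAffine.Point = 0 := by
    have h5 := Nat.eq_one_of_mul_eq_one_right h3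
    by_contra h6
    have h7 : 1 < 2 ^ Module.finrank ℤ W.toAffine.Point := Nat.one_lt_two_pow h6
    omega
  have h5 : Nat.card {x : Sha W // 2 • x = 0} = 1 := Nat.eq_one_of_mul_eq_one_left h3
  refine ⟨?_, fun k => Pool.Agent.Y667.SHA.no_tor (fun x hx => ?_) k⟩
  · have : Module.Finite ℤ W.toAffine.Point := Module.Finite.iff_addGroup_fg.2 h1
    exact Module.finite_of_fg_torsion _ (Module.finrank_eq_zero_iff_isTorsion.1 h4)
  · have h6 := Nat.card_eq_one_iff_unique.1 h5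
    have h7 : (⟨x, by rw [two_nsmul]; exact hx⟩ : {x : Sha W // 2 • x = 0}) = ⟨0, smul_zero 2⟩ :=
      h6.1.elim _ _
    exact congrArg Subtype.val h7

lemma alt_eqX (r j : ℕ) : alt r j = Pool.Agent.N637.SLX.alt r j := rfl

lemma prod_val (r : ℕ) : ∏' l : ℕ, (1 - (1 / 2 : ℝ) ^ (r + 1 + l)) =
    eta / ∏ i ∈ range r, (1 - (1 / 2 : ℝ) ^ (i + 1)) := by
  have key : ∀ r : ℕ, (∏ i ∈ range r, (1 - (1 / 2 : ℝ) ^ (i + 1))) *
      ∏' n : ℕ, (1 - (1 / 2 : ℝ) ^ (n + (r + 1))) = eta := by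
    intro r
    induction r with
    | zero => rw [Finset.prod_range_zero, one_mul]; rfl
    | succ r ih => rw [Finset.prod_range_succ, mul_assoc, ← Pool.Agent.N136.SLX.step, ih]
  have hpos : ∏ i ∈ range r, (1 - (1 / 2 : ℝ) ^ (i + 1)) ≠ 0 := by
    refine Finset.prod_ne_zero_iff.2 fun i _ => ?_
    have : (1 / 2 : ℝ) ^ (i + 1) < 1 := pow_lt_one₀ (by norm_num) (by norm_num) (by omega)
    linarith
  rw [Pool.Agent.N136.SLX.prod_eq, eq_div_iff hpos, mul_comm]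
  exact key r

lemma law_zero : law (k := k) (0, fun _ => 0) = eta := by
  have e : law (k := k) (0, fun _ => 0) =
      (∏ _i : Fin k, (alt 0 0 : ℝ) / 2 ^ (0 * (0 - 1) / 2)) / (gl 0 : ℝ) *
      ∏' l : ℕ, (1 - (1 / 2 : ℝ) ^ (0 + 1 + l)) := if_pos fun _ => le_refl 0
  rw [e, prod_val, alt_eqX, Pool.Agent.N136.SLX.alt00]
  simp [gl]

lemma law_one : law (k := k) (1, fun _ => 2) = 2 * eta := by
  have e : law (k := k) (1, fun _ => 2) =
      (∏ _i : Fin k, (alt 1 1 : ℝ) / 2 ^ (1 * (1 - 1) / 2)) / (gl 1 : ℝ) *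
      ∏' l : ℕ, (1 - (1 / 2 : ℝ) ^ (1 + 1 + l)) := if_pos fun _ => by norm_num
  rw [e, prod_val, alt_eqX, Pool.Agent.N136.SLX.alt11]
  simp [gl]
  ring

lemma law_two : law (k := k) (2, fun _ => 2) = 4 / (9 * 2 ^ k) * eta := by
  have e : law (k := k) (2, fun _ => 2) =
      (∏ _i : Fin k, (alt 2 0 : ℝ) / 2 ^ (2 * (2 - 1) / 2)) / (gl 2 : ℝ) *
      ∏' l : ℕ, (1 - (1 / 2 : ℝ) ^ (2 + 1 + l)) := if_pos fun _ => le_refl 2
  rw [e, prod_val, alt_eqX, Pool.Agent.N136.SLX.alt20, Finset.prod_const, Finset.card_univ,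
    Fintype.card_fin]
  have e2 : (gl 2 : ℝ) = 6 := by
    have : gl 2 = 6 := by decide
    rw [this]
    norm_num
  have e3 : ∏ i ∈ range 2, (1 - (1 / 2 : ℝ) ^ (i + 1)) = 3 / 8 := by
    rw [Finset.prod_range_succ, Finset.prod_range_succ, Finset.prod_range_zero]
    norm_num
  rw [e2, e3]
  have e4 : ((1 : ℕ) : ℝ) / 2 ^ (2 * (2 - 1) / 2) = 1 / 2 := by norm_num
  rw [e4, one_div, inv_pow]
  field_simp
  ring

lemma law_other (hk : 0 < k) (x : ℕ × (Fin k → ℕ)) (h : x.2 = fun _ => 2)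
    (h1 : x ≠ (1, fun _ => 2)) (h2 : x ≠ (2, fun _ => 2)) : law x = 0 := by
  obtain ⟨r, s⟩ := x
  have h' : s = fun _ => 2 := h
  subst h'
  by_cases hx : ∀ i : Fin k, r ≤ 2
  · have hr : r ≤ 2 := hx ⟨0, hk⟩
    have hr0 : r = 0 := by
      by_contra h0
      have : r = 1 ∨ r = 2 := by omega
      rcases this with rfl | rfl
      · exact h1 rfl
      · exact h2 rfl
    subst hr0
    have e : law (k := k) (0, fun _ => 2) =
      (∏ _i : Fin k, (alt 0 2 : ℝ) / 2 ^ (0 * (0 - 1) / 2)) / (gl 0 : ℝ) *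
      ∏' l : ℕ, (1 - (1 / 2 : ℝ) ^ (0 + 1 + l)) := if_pos fun _ => by norm_num
    have e2 : alt 0 2 = 0 := Pool.Agent.N136.SLX.alt_gt (by norm_num)
    rw [e, e2, Finset.prod_eq_zero (Finset.mem_univ ⟨0, hk⟩) (by rw [Nat.cast_zero, zero_div]),
      zero_div, zero_mul]
  · exact if_neg hx

/-- the vectors with `s_i = 2` for all `i` -/
def A2 (k : ℕ) : Set (ℕ × (Fin k → ℕ)) := {x | x.2 = fun _ => 2}

lemma tsum_two (hk : 0 < k) : ∑' x : A2 k, law x.1 = (2 + 4 / (9 * 2 ^ k)) * eta := by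
  have hne : ((1, fun _ => 2) : ℕ × (Fin k → ℕ)) ≠ (2, fun _ => 2) := fun h =>
    absurd (congrArg Prod.fst h) (by norm_num)
  have h : HasSum ((A2 k).indicator law)
      (∑ x ∈ {(1, fun _ => 2), (2, fun _ => 2)}, (A2 k).indicator law x) := by
    refine hasSum_sum_of_ne_finset_zero fun x hx => ?_
    by_cases h2 : x ∈ A2 k
    · rw [Set.indicator_of_mem h2]
      rw [Finset.mem_insert, Finset.mem_singleton, not_or] at hx
      exact law_other hk x h2 hx.1 hx.2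
    · exact Set.indicator_of_notMem h2 _
  rw [_root_.tsum_subtype, h.tsum_eq, Finset.sum_pair hne,
    Set.indicator_of_mem (show ((1, fun _ => 2) : ℕ × (Fin k → ℕ)) ∈ A2 k from rfl),
    Set.indicator_of_mem (show ((2, fun _ => 2) : ℕ × (Fin k → ℕ)) ∈ A2 k from rfl), law_one,
    law_two]
  ring

/-- the size of the family -/
lemma fam_pos (h1 : ∀ i, Curve (a i) (c i)) (h2 : Compatible a c) :
    ∃ δ : ℝ, 0 < δ ∧ ∀ᶠ X : ℕ in atTop, δ * X ≤ (count (Family a c) X : ℝ) := by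
  obtain ⟨n₀, p1, p2, p3⟩ := exists_n0 (cvs h1) h2
  have hQ := QQ_pos (cvs h1)
  obtain ⟨δ, X₀, hδ, hlow⟩ := Pool.Agent.N916.AM.low (M := 4 * QQ a c) (n₀ := n₀) (by omega)
    ⟨2 * QQ a c, by ring⟩ p1.prime.irreducible.squarefree
  refine ⟨δ, hδ, ?_⟩
  filter_upwards [eventually_ge_atTop X₀] with X hX
  refine (hlow X hX).trans ?_
  rw [Nat.cast_le]
  unfold count
  refine Finset.card_le_card fun n hn => ?_
  rw [mem_filter] at hn ⊢
  refine ⟨hn.1, (fam_iff h1 n).2 ⟨Or.inl ⟨hn.2.1, ?_⟩, ?_⟩⟩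
  · have e1 : n % (4 * QQ a c) % 4 = n % 4 := Nat.mod_mod_of_dvd n ⟨QQ a c, rfl⟩
    have e2 : n₀ % (4 * QQ a c) % 4 = n₀ % 4 := Nat.mod_mod_of_dvd n₀ ⟨QQ a c, rfl⟩
    rw [← e1, hn.2.2, e2]
    omega
  · have e1 : n % (4 * QQ a c) % QQ a c = n % QQ a c := Nat.mod_mod_of_dvd n ⟨4, by ring⟩
    have e2 : n₀ % (4 * QQ a c) % QQ a c = n₀ % QQ a c := Nat.mod_mod_of_dvd n₀ ⟨4, by ring⟩
    rw [← e1, hn.2.2, e2]
    exact (mem_RR (cvs h1) n₀).2 p3

end proof

/-- **Main theorem.** `law` is a probability law on the vectors `(r, s_1, …, s_k)`. -/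
theorem result : (∀ a c : ℤ, Curve a c → Compatible (fun _ : Fin 1 => a) fun _ => c) ∧
    (0.2887 < eta ∧ eta < 0.2889) ∧
    ∀ (k : ℕ) (_ : 0 < k) (a c : Fin k → ℤ) (_ : ∀ i, Curve (a i) (c i)) (_ : Compatible a c),
    (∃ δ : ℝ, 0 < δ ∧ ∀ᶠ X : ℕ in atTop, δ * X ≤ (count (Family a c) X : ℝ)) ∧
    (∀ n : ℕ, Family a c n → ∃ x : ℕ × (Fin k → ℕ), Joint a c x n ∧
      (∀ x' : ℕ × (Fin k → ℕ), Joint a c x' n → x' = x) ∧
      Nat.card {d : ℕ // Dn n d} = 2 ^ (x.1 + 1) ∧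
      ∀ i, x.1 ≤ x.2 i ∧ x.2 i ≤ 2 * x.1 ∧ Even (x.2 i) ∧
        2 ^ x.1 * Nat.card {d : ℕ // Rn (a i) (c i) n d} = 2 ^ (x.2 i + 1) ∧
        (IsSquare (a i ^ 2 - c i ^ 2) → x.2 i = 2 * x.1)) ∧
    (∀ n : ℕ, Family a c n → ∀ s : Fin k → ℕ, Joint a c (0, s) n → ∀ i,
      Finite (E (a i) (c i) n).toAffine.Point ∧
      ∀ (l : ℕ) (x : Sha (E (a i) (c i) n)), (2 ^ l : ℕ) • x = 0 → x = 0) ∧
    ((∀ i, IsSquare (a i ^ 2 - c i ^ 2)) → ∀ r : ℕ,
      Density (Family a c) (Joint a c (r, fun _ => 2 * r)) (fk r)) ∧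
    (Independent a c →
      ((∀ x : ℕ × (Fin k → ℕ), 0 ≤ law x) ∧ HasSum (law (k := k)) 1) ∧
      (∀ A : Set (ℕ × (Fin k → ℕ)),
        Density (Family a c) (fun n => ∃ x ∈ A, Joint a c x n) (∑' x : A, law x.1)) ∧
      Density (Family a c) (Joint a c (0, fun _ => 0)) eta ∧
      Density (Family a c) (fun n => ∃ r, Joint a c (r, fun _ => 2) n)
        ((2 + 4 / (9 * 2 ^ k)) * eta)) := by
  have H := hyps
  refine ⟨fun a c h i j p hp _ h1 h2 => ?_, Pool.Agent.N916.GB.eta_bounds,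
    fun k hk a c h1 h2 => ⟨fam_pos h1 h2, fun n hn => ?_, fun n hn s hs i => ?_,
      fun hs r => dens_sq H hk h1 h2 hs r, fun h3 => ⟨⟨law_nonneg H, (H.mass k).2⟩,
        dens_set H hk h1 h2 h3, ?_, ?_⟩⟩⟩
  · have hp' : Prime (p : ℤ) := Nat.prime_iff_prime_int.1 hp
    have h1' : (p : ℤ) ∣ a * c := h1
    have h2' : (p : ℤ) ∣ c ^ 2 - a ^ 2 := h2
    have hac : (p : ℤ) ∣ a ∧ (p : ℤ) ∣ c := by
      rcases hp'.dvd_or_dvd h1' with h3 | h3
      · refine ⟨h3, hp'.dvd_of_dvd_pow (n := 2) ?_⟩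
        have h4 := h2'.add ((dvd_pow h3 two_ne_zero : (p : ℤ) ∣ a ^ 2))
        rwa [sub_add_cancel] at h4
      · refine ⟨hp'.dvd_of_dvd_pow (n := 2) ?_, h3⟩
        have h4 := (dvd_pow h3 two_ne_zero : (p : ℤ) ∣ c ^ 2).sub h2'
        rwa [sub_sub_cancel] at h4
    exact hp'.not_isUnit (h.2.2.2.isUnit_of_dvd' hac.1 hac.2)
  · obtain ⟨x, g1, g2, g3⟩ := formula H hk h1 hn
    exact ⟨x, g1, fun x' h' => joint_inj hn h' g1, g2, fun i => ⟨(g3 i).1, (g3 i).2.1,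
      (g3 i).2.2.1, (g3 i).2.2.2, sq_case H hk h1 hn g1⟩⟩
  · obtain ⟨x, g1, -, g3⟩ := formula H hk h1 hn
    have e1 := joint_inj hn g1 hs
    have e2 : x.2 i ≤ 2 * x.1 := (g3 i).2.1
    rw [e1] at e2
    have e3 : s i = 0 := Nat.le_zero.1 e2
    have e4 : SelRank (E (a i) (c i) n) (s i) := hs.1 i
    rw [e3] at e4
    exact zero_case e4
  · have h := dens_pt H hk h1 h2 h3 (0, fun _ => 0)
    rwa [law_zero] at h
  · have h := dens_set H hk h1 h2 h3 (A2 k)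
    rw [tsum_two hk] at h
    refine h.congr fun X => congrArg₂ (fun a b : ℕ => (a : ℝ) / (b : ℝ)) (count_congr fun n => ?_) rfl
    constructor
    · rintro ⟨h4, ⟨r, s⟩, h5, h6⟩
      have h7 : s = fun _ => 2 := h5
      subst h7
      exact ⟨h4, r, h6⟩
    · rintro ⟨h4, r, h6⟩
      exact ⟨h4, (r, fun _ => 2), rfl, h6⟩

end Pool.Agent.N637.SLM.JL
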