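import Pool.Agent.N637.SLM.AN8

/-!
# Project AN: the supremum of `2 ^ rank * #Ш[2]` over all the curves, exact in the families of the Pythagorean pairs
-/

set_option autoImplicit false
set_option linter.all false

open NumberField Filter Topology Finset

namespace Pool.Agent.N637.SLM.AN

open scoped Classical

open Pool.Agent.TH841.SH.D (Sha)
open Pool.Agent.N637.SLM.JL
open Pool.Agent.N637.SLM.AR
open Pool.Agent.N637.SLM (fkl)

/-- the supremum over all the curves -/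
noncomputable def big (n : ℕ) : ℝ :=
  sSup {x : ℝ | ∃ a c : ℤ, Curve a c ∧ x = S (E a c n) / 2 ^ loss a c n}

/-- the family -/
def Fam (a c : ℤ) (n : ℕ) : Prop := FundNeg n ∧ Adm a c n

lemma fam_eq (a c : ℤ) : Family (fun _ : Fin 1 => a) (fun _ => c) = Fam a c := by
  funext n
  exact propext ⟨fun h => ⟨h.1, h.2 0⟩, fun h => ⟨h.1, fun _ => h.2⟩⟩

lemma big_bdd {n : ℕ} (hn : All n) :
    ∀ x ∈ {x : ℝ | ∃ a c : ℤ, Curve a c ∧ x = S (E a c n) / 2 ^ loss a c n}, x ≤ 4 ^ R4 n := by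
  rintro x ⟨a, c, hC, rfl⟩
  rw [div_le_iff₀ (by positivity), mul_comm]
  exact S_loss hyps hx1 hx2 hx3 hn hC

lemma big_le {n : ℕ} (hn : All n) : big n ≤ 4 ^ R4 n :=
  csSup_le ⟨_, 1, 2, ⟨by norm_num, by norm_num, by norm_num, isCoprime_one_left⟩, rfl⟩
    fun x hx => big_bdd hn x hx

lemma big_nonneg (n : ℕ) : 0 ≤ big n := by
  refine Real.sSup_nonneg ?_
  rintro x ⟨a, c, hC, rfl⟩
  unfold S
  positivity

/-- the case of a square -/
lemma sq_eq {n : ℕ} {a c : ℤ} (hC : Curve a c) (hs : IsSquare (a ^ 2 - c ^ 2)) (hn : Fam a c n) :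
    S (E a c n) = 4 ^ R4 n := by
  have hF : Family (fun _ : Fin 1 => a) (fun _ => c) n := ⟨hn.1, fun _ => hn.2⟩
  have hk : 0 < 1 := one_pos
  have hC' : ∀ i : Fin 1, Curve ((fun _ : Fin 1 => a) i) ((fun _ : Fin 1 => c) i) := fun _ => hC
  have hJ := rs_joint hyps hk hC' hF
  have hR := R4_rs hyps hk hC' hF
  have h1 : S (E a c n) = 2 ^ ((rs (fun _ : Fin 1 => a) (fun _ => c) n).2 0) := S_eq hJ 0
  rw [h1, hR, sq_case hyps hk hC' hF hJ (i := 0) hs, pow_mul]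
  norm_num

lemma fam_all {n : ℕ} {a c : ℤ} (hC : Curve a c) (hn : Fam a c n) : All n := by
  refine ⟨hn.1, ?_⟩
  rintro rfl
  have h3 : Adm a c 4 := hn.2
  have hL := Pool.Agent.N637.SLM.lm_of hn.1 ⟨hC.1, hC.2.1, hC.2.2.1, hC.2.2.2⟩ h3
  exact Pool.Agent.N637.SLM.ne_neg_one ⟨hC.1, hC.2.1, hC.2.2.1, hC.2.2.2⟩ hL (by
    unfold Pool.Agent.N637.SLK.mm
    norm_num)

lemma big_great {n : ℕ} {a c : ℤ} (hC : Curve a c) (hs : IsSquare (a ^ 2 - c ^ 2))
    (hn : Fam a c n) :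
    IsGreatest {x : ℝ | ∃ a c : ℤ, Curve a c ∧ x = S (E a c n) / 2 ^ loss a c n} (4 ^ R4 n) := by
  refine ⟨⟨a, c, hC, ?_⟩, fun x hx => big_bdd (fam_all hC hn) x hx⟩
  have h : loss a c n = 0 := by
    unfold loss
    rw [if_pos hn.2]
  rw [h, pow_zero, div_one, sq_eq hC hs hn]

lemma big_eq {n : ℕ} {a c : ℤ} (hC : Curve a c) (hs : IsSquare (a ^ 2 - c ^ 2))
    (hn : Fam a c n) : big n = 4 ^ R4 n := (big_great hC hs hn).csSup_eq

lemma dens_of_mean {F P : ℕ → Prop} {L : ℝ}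
    (h : Mean F (fun n => if P n then 1 else 0) L) : Density F P L := by
  refine Tendsto.congr (fun X => ?_) h
  unfold avg
  rw [sum_boole, filter_filter, count_inst]

lemma mean_K (K : ℕ) {a c : ℤ} (hC : Curve a c) (hs : IsSquare (a ^ 2 - c ^ 2)) :
    Summable (fun r => fkl r * 4 ^ (K * r)) ∧
      Mean (Fam a c) (fun n => big n ^ K) (∑' r, fkl r * 4 ^ (K * r)) := by
  obtain ⟨g1, g2⟩ := mean_r' hyps (k := 1) (a := fun _ => a) (c := fun _ => c) one_pos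
    (fun _ => hC) (Pool.Agent.N637.SLM.JL.result.1 a c hC) (fun r => 4 ^ (K * r)) 1 (2 * K)
    (fun r => by
      refine le_of_eq ?_
      rw [abs_of_nonneg (by positivity), one_mul, show (4 : ℝ) = 2 ^ 2 by norm_num, ← pow_mul]
      congr 1
      ring)
  rw [fam_eq] at g2
  refine ⟨g1, mean_congr (fun n hn => ?_) g2⟩
  rw [big_eq hC hs hn, ← pow_mul]
  congr 1
  ring

lemma dens_big (r : ℕ) {a c : ℤ} (hC : Curve a c) (hs : IsSquare (a ^ 2 - c ^ 2)) :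
    Density (Fam a c) (fun n => big n = 4 ^ r) (fkl r) := by
  obtain ⟨g1, g2⟩ := mean_r' hyps (k := 1) (a := fun _ => a) (c := fun _ => c) one_pos
    (fun _ => hC) (Pool.Agent.N637.SLM.JL.result.1 a c hC) (fun l => if l = r then 1 else 0) 1 0
    (fun l => by
      rw [zero_mul, pow_zero, mul_one]
      split_ifs <;> norm_num)
  rw [fam_eq, (has_one r).tsum_eq] at g2
  refine dens_of_mean (mean_congr (fun n hn => ?_) g2)
  rw [big_eq hC hs hn]
  have e : ((4 : ℝ) ^ R4 n = 4 ^ r) ↔ R4 n = r :=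
    ⟨fun h => pow_right_injective₀ (by norm_num) (by norm_num) h, fun h => by rw [h]⟩
  simp only [e]

/-- **Main theorem** -/
theorem mainLS : (0.2887 < eta ∧ eta < 0.2889) ∧
    ∃ R : ℕ → ℕ,
    (∀ n : ℕ, All n →
      (∀ (K : Type) [Field K] [NumberField K], IsQuad n K → FourRank K (R n)) ∧
      (∀ a c : ℤ, Curve a c → AddGroup.FG (E a c n).toAffine.Point ∧
        Finite {x : Sha (E a c n) // 2 • x = 0} ∧ S (E a c n) ≤ 2 ^ loss a c n * big n) ∧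
      big n ≤ 4 ^ R n) ∧
    (∀ r : ℕ, Density All (fun n => R n = r) (fk r)) ∧
    UpperMean All big 5 ∧
    (∀ K : ℕ, Summable (fun r => fk r * 4 ^ (K * r)) ∧
      UpperMean All (fun n => big n ^ K) (∑' r, fk r * 4 ^ (K * r))) ∧
    ∀ a₀ c₀ : ℤ, Curve a₀ c₀ → IsSquare (a₀ ^ 2 - c₀ ^ 2) →
      (∃ δ : ℝ, 0 < δ ∧ ∀ᶠ X : ℕ in atTop, δ * X ≤ (count (Fam a₀ c₀) X : ℝ)) ∧
      (∀ n : ℕ, Fam a₀ c₀ n → All n ∧ S (E a₀ c₀ n) = 4 ^ R n ∧
        IsGreatest {x : ℝ | ∃ a c : ℤ, Curve a c ∧ x = S (E a c n) / 2 ^ loss a c n} (4 ^ R n)) ∧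
      (∀ r : ℕ, Density (Fam a₀ c₀) (fun n => big n = 4 ^ r) (fk r)) ∧
      Mean (Fam a₀ c₀) big 5 ∧
      ∀ K : ℕ, Mean (Fam a₀ c₀) (fun n => big n ^ K) (∑' r, fk r * 4 ^ (K * r)) := by
  have hexp : ∀ K : ℕ, Summable (fun r => fkl r * 4 ^ (K * r)) ∧
      UpperMean All (fun n => big n ^ K) (∑' r, fkl r * 4 ^ (K * r)) := by
    intro K
    obtain ⟨g1, g2⟩ := mean_all hyps hC144 (fun r => 4 ^ (K * r)) 1 (2 * K) (fun r => by
      refine le_of_eq ?_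
      rw [abs_of_nonneg (by positivity), one_mul, show (4 : ℝ) = 2 ^ 2 by norm_num, ← pow_mul]
      congr 1
      ring)
    refine ⟨g1, upper_of (fun n hn => ?_) g2⟩
    calc big n ^ K ≤ (4 ^ R4 n) ^ K := pow_le_pow_left₀ (big_nonneg n) (big_le hn) K
      _ = 4 ^ (K * R4 n) := by
          rw [← pow_mul]
          congr 1
          ring
  have h5 : HasSum (fun r => fkl r * 4 ^ (1 * r)) 5 := by
    simp only [one_mul]
    exact hF.2.2.2
  refine ⟨Pool.Agent.N637.SLM.JL.result.2.1, R4, fun n hn => ⟨(four hyps hn).1,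
    fun a c hC => ?_, big_le hn⟩, dens_all hyps, ?_, hexp, fun a c hC hs => ⟨?_, fun n hn =>
      ⟨fam_all hC hn, sq_eq hC hs hn, big_great hC hs hn⟩, fun r => dens_big r hC hs, ?_,
      fun K => (mean_K K hC hs).2⟩⟩
  · obtain ⟨g1, g2, -⟩ := gen_bound hyps hx1 hx2 hx3 hn hC
    refine ⟨g1, g2, ?_⟩
    have h : S (E a c n) / 2 ^ loss a c n ≤ big n :=
      le_csSup ⟨4 ^ R4 n, fun x hx => big_bdd hn x hx⟩ ⟨a, c, hC, rfl⟩
    rw [div_le_iff₀ (by positivity), mul_comm] at h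
    exact h
  · have h1 := (hexp 1).2
    rw [h5.tsum_eq] at h1
    simpa only [pow_one] using h1
  · obtain ⟨δ, hδ, h⟩ := fam_pos (k := 1) (a := fun _ => a) (c := fun _ => c) (fun _ => hC)
      (Pool.Agent.N637.SLM.JL.result.1 a c hC)
    refine ⟨δ, hδ, ?_⟩
    rw [fam_eq] at h
    exact h
  · have h1 := (mean_K 1 hC hs).2
    rw [h5.tsum_eq] at h1
    simpa only [pow_one] using h1

end Pool.Agent.N637.SLM.AN
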