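import Pool.Agent.N637.SLM.Stm
import Pool.Agent.N637.SLK.Rad

/-!
# Project SLM: the class of `m` is in the radical
-/

set_option autoImplicit false
set_option linter.all false

open scoped Classical

namespace Pool.Agent.N637.SLM

open Finset Module
open Pool.Agent.N916.GB (Po Vt z2 z2_add_self z2_sq nr_recip sum_uu)
open Pool.Agent.Y703.CQ (nr)
open Pool.Agent.N973.ND (uu)
open Pool.Agent.N637.SLX (NS IsLk Bf wv uv rec_sy sum_vt)
open Pool.Agent.N637.SLK (TyG lb mem_lb not_dvd_m nr_prod nr_eq nr_mul)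

lemma lb_ne_two {a c : ℤ} (hC : Cw a c) {l : ℕ} (h : l ∈ lb a c) : l ≠ 2 := by
  rintro rfl
  obtain ⟨-, h2⟩ := mem_lb h
  have h1 : (2 : ℤ) ∣ c ^ 2 - a ^ 2 := by exact_mod_cast h2
  obtain ⟨u, hu⟩ : ∃ u, a = 2 * u + 1 := ⟨a / 2, by have := hC.ha; omega⟩
  obtain ⟨v, hv⟩ : ∃ v, c = 2 * v := ⟨c / 2, by have := hC.hc; omega⟩
  rw [hu, hv] at h1
  have e : (2 * v) ^ 2 - (2 * u + 1) ^ 2 = 2 * (2 * v ^ 2 - 2 * u ^ 2 - 2 * u) - 1 := by ring
  rw [e] at h1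
  omega

/-- the sum of the labels over the support of `m` is one -/
lemma sum_w {t : Bool} {r s : ZMod 2} {S : Finset ℕ} {m a c : ℤ} (h : TyG t r s S m) (hC : Cw a c)
    (hL : Lw a c m) {l : ℕ} (hl : l ∈ lb a c) :
    ∑ p : {x : ℕ // x ∈ Vt t S}, nr l p.1 * wv r p.1 = 1 := by
  obtain ⟨hp, hd⟩ := mem_lb hl
  have hl2 := lb_ne_two hC hl
  have hj := hL.bb l hp hd
  have hnd := not_dvd_m hp hj
  have hn2 : ¬ l ∣ 2 := fun h0 => hl2 ((Nat.prime_dvd_prime_iff_eq hp Nat.prime_two).1 h0)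
  have e0 : ∑ p : {x : ℕ // x ∈ Vt t S}, nr l p.1 * wv r p.1 = ∑ p ∈ Vt t S, nr l p * wv r p :=
    Finset.sum_coe_sort (Vt t S) (fun p => nr l p * wv r p)
  have e1 : ∑ p ∈ S, nr l p * wv r p = ∑ p ∈ S, nr l p :=
    Finset.sum_congr rfl fun p hp' => by
      have : wv r p = 1 := if_neg (h.po p hp').2
      rw [this, mul_one]
  have e2 : wv r 2 = r := if_pos rfl
  have hS : ∀ p ∈ S, ¬ l ∣ p := by
    intro p hp' hlp
    have h1 : p ∣ ∏ q ∈ S, q := Finset.dvd_prod_of_mem _ hp'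
    have h2 : (l : ℤ) ∣ ((∏ q ∈ S, q : ℕ) : ℤ) := Int.natCast_dvd_natCast.2 (hlp.trans h1)
    rcases h.ty with ⟨-, -, hm, -⟩ | ⟨-, -, -, hm, -⟩ | ⟨-, -, -, hm, -⟩ | ⟨-, -, -, hm, -⟩
    · exact hnd (by rw [hm]; exact (dvd_neg).2 h2)
    · exact hnd (by rw [hm]; exact (dvd_neg).2 h2)
    · exact hnd (by rw [hm]; exact (dvd_neg).2 (h2.mul_left 2))
    · exact hnd (by rw [hm]; exact (dvd_neg).2 (h2.mul_left 2))
  obtain ⟨p1, p2⟩ := nr_prod l hp S hS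
  rw [e0, sum_vt h.po, e1, p2, e2]
  rcases h.ty with ⟨rfl, -, hm, -⟩ | ⟨rfl, rfl, -, hm, -⟩ | ⟨rfl, rfl, -, hm, -⟩ | ⟨rfl, rfl, -, hm, -⟩
  · rw [if_neg (by decide), zero_add, (nr_eq l hp _).1]
    rw [hm, neg_neg] at hj
    exact hj
  · rw [if_pos rfl, mul_zero, zero_add, (nr_eq l hp _).1]
    rw [hm, neg_neg] at hj
    exact hj
  · rw [if_pos rfl, mul_one, ← nr_mul l hp hn2 p1, (nr_eq l hp _).1]
    rw [hm, neg_neg] at hj
    push_cast at hj ⊢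
    exact hj
  · rw [if_pos rfl, mul_one, ← nr_mul l hp hn2 p1, (nr_eq l hp _).1]
    rw [hm, neg_neg] at hj
    push_cast at hj ⊢
    exact hj

/-- the class of `m` is in the radical of the form; `two`: the labels at `2` cancel -/
theorem rad_w {t : Bool} {r s : ZMod 2} {S : Finset ℕ} {m a c : ℤ} (h : TyG t r s S m) (hC : Cw a c)
    (hL : Lw a c m) (two : t = true → ∑ l ∈ lb a c, nr l 2 = 0) (z : {x : ℕ // x ∈ Vt t S} → ZMod 2) :
    ∑ l ∈ lb a c, Bf (fun p : {x : ℕ // x ∈ Vt t S} => nr l p.1) (fun p => wv r p.1) z = 0 := by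
  have e1 : ∀ l ∈ lb a c, Bf (fun p : {x : ℕ // x ∈ Vt t S} => nr l p.1) (fun p => wv r p.1) z =
      ∑ p : {x : ℕ // x ∈ Vt t S}, nr l p.1 * ((1 + wv r p.1) * z p) := by
    intro l hl
    unfold Pool.Agent.N637.SLX.Bf
    rw [sum_w h hC hL hl, one_mul, ← Finset.sum_add_distrib]
    exact Finset.sum_congr rfl fun p _ => by ring
  rw [Finset.sum_congr rfl e1, Finset.sum_comm]
  refine Finset.sum_eq_zero fun p _ => ?_
  rw [← Finset.sum_mul]
  by_cases hp : p.1 = 2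
  · have hV : ∀ q ∈ Vt t S, q = 2 → t = true := by
      intro q hq hq2
      by_contra ht
      unfold Vt at hq
      rw [if_neg ht] at hq
      exact (h.po _ hq).2 hq2
    rw [hp, two (hV p.1 p.2 hp), zero_mul]
  · have : wv r p.1 = 1 := if_neg hp
    have h2 : (1 : ZMod 2) + 1 = 0 := by decide
    rw [this, h2, zero_mul, mul_zero]


end Pool.Agent.N637.SLM
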